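import Pool.Agent.H4.BranchDefs

set_option autoImplicit false

open Equiv

namespace Pool.Agent.H4.Branch

abbrev dd : ℕ → ℕ := fun _ => 2

abbrev Lv (n : ℕ) : Type := V dd n

lemma res_res {d : ℕ → ℕ} {n m k : ℕ} (h : n ≤ m) (h' : m ≤ k) (u : V d k) :
    res h (res h' u) = res (h.trans h') u := rfl

lemma res_self {d : ℕ → ℕ} {n : ℕ} (h : n ≤ n) (u : V d n) : res h u = u := rfl

lemma res_surj {n m : ℕ} (h : n ≤ m) (v : Lv n) : ∃ u : Lv m, res h u = v :=
  ⟨fun i => if hi : (i : ℕ) < n then v ⟨i, hi⟩ else (0 : Fin 2), by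
    funext i
    simp [res]⟩

lemma pa {α : Type} (f : Perm α) (x : α) : f (f⁻¹ x) = x := f.apply_symm_apply x
lemma ap {α : Type} (f : Perm α) (x : α) : f⁻¹ (f x) = x := f.symm_apply_apply x

/-- The finitary automorphism group of the binary tree. -/
def G : Subgroup (∀ n, Perm (Lv n)) where
  carrier := {σ | (∀ (n m : ℕ) (h : n ≤ m) (u : Lv m), res h (σ m u) = σ n (res h u)) ∧
    ∃ N : ℕ, ∀ (m : ℕ) (u : Lv m) (i : Fin m), N ≤ (i : ℕ) → σ m u i = u i}
  one_mem' := ⟨fun _ _ _ _ => rfl, 0, fun _ _ _ _ => rfl⟩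
  mul_mem' := by
    rintro a b ⟨ha, Na, hNa⟩ ⟨hb, Nb, hNb⟩
    refine ⟨fun n m h u => ?_, max Na Nb, fun m u i hi => ?_⟩
    · show res h (a m (b m u)) = a n (b n (res h u))
      rw [ha, hb]
    · show a m (b m u) i = u i
      rw [hNa _ _ _ (le_trans (le_max_left _ _) hi), hNb _ _ _ (le_trans (le_max_right _ _) hi)]
  inv_mem' := by
    rintro a ⟨ha, Na, hNa⟩
    refine ⟨fun n m h u => ?_, Na, fun m u i hi => ?_⟩
    · show res h ((a m)⁻¹ u) = (a n)⁻¹ (res h u)
      rw [Perm.eq_inv_iff_eq, ← ha, pa]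
    · show (a m)⁻¹ u i = u i
      have := hNa m ((a m)⁻¹ u) i hi
      rw [pa] at this
      exact this.symm

lemma G_compat (g : G) {n m : ℕ} (h : n ≤ m) (u : Lv m) :
    res h (g.1 m u) = g.1 n (res h u) := g.2.1 n m h u

def A : TreeAction G dd where
  act n := (Pi.evalMonoidHom (fun n => Perm (Lv n)) n).comp G.subtype
  compat n m h g u := G_compat g h u

lemma A_act (n : ℕ) (g : G) : A.act n g = g.1 n := rfl

/-- translations -/
def tr (c : ℕ → Fin 2) (n : ℕ) : Perm (Lv n) where
  toFun u := fun i => (u i + c i : Fin 2)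
  invFun u := fun i => (u i - c i : Fin 2)
  left_inv u := by funext i; simp
  right_inv u := by funext i; simp

lemma transitive (n : ℕ) (v w : Lv n) : ∃ g : G, A.act n g v = w := by
  let c : ℕ → Fin 2 := fun i => if h : i < n then w ⟨i, h⟩ - v ⟨i, h⟩ else 0
  refine ⟨⟨tr c, fun _ _ _ _ => rfl, n, fun m u i hi => ?_⟩, ?_⟩
  · show u i + c i = u i
    simp [c, not_lt.2 hi]
  · funext i
    show v i + c i = w i
    simp [c]

lemma faithful (g : G) (h : ∀ n, A.act n g = 1) : g = 1 := by
  apply Subtype.ext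
  funext n
  exact h n

/-- the element which acts as `g` below the vertices in `S` and trivially elsewhere -/
def partPerm (n : ℕ) (g : G) (hg : g.1 n = 1) (S : Set (Lv n)) [DecidablePred (· ∈ S)] (m : ℕ) :
    Perm (Lv m) where
  toFun u := if ∃ h : n ≤ m, res h u ∈ S then g.1 m u else u
  invFun u := if ∃ h : n ≤ m, res h u ∈ S then (g.1 m)⁻¹ u else u
  left_inv u := by
    by_cases h : ∃ h : n ≤ m, res h u ∈ S
    · have h2 : ∃ h : n ≤ m, res h (g.1 m u) ∈ S := by
        obtain ⟨h1, h2⟩ := h
        refine ⟨h1, ?_⟩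
        rw [G_compat, hg]; exact h2
      simp only [h, h2, if_true, ap]
    · simp only [h, if_false]
  right_inv u := by
    by_cases h : ∃ h : n ≤ m, res h u ∈ S
    · have h2 : ∃ h : n ≤ m, res h ((g.1 m)⁻¹ u) ∈ S := by
        obtain ⟨h1, h2⟩ := h
        refine ⟨h1, ?_⟩
        have := G_compat g h1 ((g.1 m)⁻¹ u)
        rw [pa, hg] at this
        rw [this] at h2
        exact h2
      simp only [h, h2, if_true, pa]
    · simp only [h, if_false]

open Classical in
noncomputable def part (n : ℕ) (g : G) (hg : g.1 n = 1) (S : Set (Lv n)) : G :=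
  ⟨partPerm n g hg S, by
    refine ⟨fun k m h u => ?_, ?_⟩
    · show res h (if ∃ h : n ≤ m, res h u ∈ S then g.1 m u else u) =
        if ∃ h' : n ≤ k, res h' (res h u) ∈ S then g.1 k (res h u) else res h u
      by_cases h1 : ∃ h : n ≤ m, res h u ∈ S
      · by_cases hnk : n ≤ k
        · have h2 : ∃ h' : n ≤ k, res h' (res h u) ∈ S := ⟨hnk, h1.2⟩
          rw [if_pos h1, if_pos h2, G_compat]
        · have h2 : ¬ ∃ h' : n ≤ k, res h' (res h u) ∈ S := fun h => hnk h.1
          rw [if_pos h1, if_neg h2, G_compat]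
          have hkn : k ≤ n := by omega
          have h3 := G_compat g hkn (res h1.1 u)
          rw [hg] at h3
          exact h3.symm
      · have h2 : ¬ ∃ h' : n ≤ k, res h' (res h u) ∈ S := fun h' => h1 ⟨h'.1.trans h, h'.2⟩
        rw [if_neg h1, if_neg h2]
    · obtain ⟨N, hN⟩ := g.2.2
      refine ⟨N, fun m u i hi => ?_⟩
      show (if ∃ h : n ≤ m, res h u ∈ S then g.1 m u else u) i = u i
      split_ifs
      · exact hN m u i hi
      · rfl⟩

lemma part_apply_pos (n : ℕ) (g : G) (hg : g.1 n = 1) (S : Set (Lv n)) (m : ℕ) (u : Lv m)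
    (h : ∃ h : n ≤ m, res h u ∈ S) : (part n g hg S).1 m u = g.1 m u := by
  classical
  exact if_pos h

lemma part_apply_neg (n : ℕ) (g : G) (hg : g.1 n = 1) (S : Set (Lv n)) (m : ℕ) (u : Lv m)
    (h : ¬ ∃ h : n ≤ m, res h u ∈ S) : (part n g hg S).1 m u = u := by
  classical
  exact if_neg h

lemma part_mem (n : ℕ) (g : G) (hg : g.1 n = 1) (S : Finset (Lv n)) :
    part n g hg (S : Set (Lv n)) ∈ A.rist n := by
  classical
  induction S using Finset.induction_on with
  | empty =>
    have : part n g hg ((∅ : Finset (Lv n)) : Set (Lv n)) = 1 := by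
      apply Subtype.ext
      funext m
      ext1 u
      exact part_apply_neg _ _ _ _ _ _ (by simp)
    rw [this]
    exact Subgroup.one_mem _
  | insert v S hv ih =>
    have e : part n g hg ((insert v S : Finset (Lv n)) : Set (Lv n)) =
        part n g hg (S : Set (Lv n)) * part n g hg {v} := by
      apply Subtype.ext
      funext m
      ext1 u
      show (part n g hg ((insert v S : Finset (Lv n)) : Set (Lv n))).1 m u =
        (part n g hg (S : Set (Lv n))).1 m ((part n g hg {v}).1 m u)
      by_cases h1 : ∃ h : n ≤ m, res h u = v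
      · obtain ⟨h, h1⟩ := h1
        rw [part_apply_pos _ _ _ {v} m u ⟨h, h1⟩, part_apply_neg _ _ _ (S : Set (Lv n)),
          part_apply_pos]
        · refine ⟨h, ?_⟩
          rw [h1]; simp
        · rintro ⟨h', h2⟩
          rw [G_compat, hg] at h2
          have h3 : res h' u = v := h1
          rw [h3] at h2
          exact hv (by simpa using h2)
      · rw [part_apply_neg _ _ _ {v} m u h1]
        by_cases h2 : ∃ h : n ≤ m, res h u ∈ (S : Set (Lv n))
        · rw [part_apply_pos _ _ _ _ m u h2, part_apply_pos]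
          obtain ⟨h, h2⟩ := h2
          exact ⟨h, by simp only [Finset.coe_insert]; exact Or.inr h2⟩
        · rw [part_apply_neg _ _ _ _ m u h2, part_apply_neg]
          rintro ⟨h, h3⟩
          simp only [Finset.coe_insert] at h3
          rcases h3 with h3 | h3
          · exact h1 ⟨h, h3⟩
          · exact h2 ⟨h, h3⟩
    rw [e]
    refine Subgroup.mul_mem _ ih (Subgroup.subset_closure ⟨v, fun m u hu => ?_⟩)
    exact part_apply_neg n g hg {v} m u (fun h' => hu h')

lemma stab_le_rist (n : ℕ) : (A.act n).ker ≤ A.rist n := by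
  classical
  intro g hg
  rw [MonoidHom.mem_ker, A_act] at hg
  have e : g = part n g hg ((Finset.univ : Finset (Lv n)) : Set (Lv n)) := by
    apply Subtype.ext
    funext m
    ext1 u
    by_cases h : n ≤ m
    · rw [part_apply_pos _ _ _ _ m u ⟨h, by simp⟩]
    · rw [part_apply_neg _ _ _ _ m u (fun h' => h h'.1)]
      have hmn : m ≤ n := by omega
      obtain ⟨w, rfl⟩ := res_surj hmn u
      rw [← G_compat, hg]; rfl
  rw [e]
  exact part_mem n g hg _

instance stab_finite (n : ℕ) : ((A.act n).ker).FiniteIndex := inferInstance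

theorem isBranch : IsBranch G :=
  ⟨dd, fun _ => le_rfl, A, faithful, transitive, fun n =>
    Subgroup.finiteIndex_of_le (stab_le_rist n)⟩

/-- the sign on level `n + 1` is trivial when the last coordinate is fixed -/
lemma sign_one (g : G) (n : ℕ) (h : ∀ u : Lv (n + 1), g.1 (n + 1) u (Fin.last n) = u (Fin.last n)) :
    Perm.sign (g.1 (n + 1)) = 1 := by
  classical
  let e : Fin 2 × Lv n ≃ Lv (n + 1) := Fin.snocEquiv (fun _ => Fin 2)
  have he : g.1 (n + 1) = e.permCongr (prodCongrRight (fun _ : Fin 2 => g.1 n)) := by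
    ext1 u
    obtain ⟨⟨b, w⟩, rfl⟩ := e.surjective u
    rw [Equiv.permCongr_apply, Equiv.symm_apply_apply]
    show g.1 (n + 1) (e (b, w)) = e (b, g.1 n w)
    have h1 := h (e (b, w))
    have h2 := G_compat g (Nat.le_succ n) (e (b, w))
    have h3 : (e (b, w)) (Fin.last n) = b := by
      show Fin.snoc (α := fun _ => Fin 2) w b (Fin.last n) = b
      simp
    have h4 : res (Nat.le_succ n) (e (b, w)) = w := by
      funext i
      show Fin.snoc (α := fun _ => Fin 2) w b (Fin.castSucc i) = w i
      simp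
    rw [h3] at h1
    rw [h4] at h2
    funext i
    refine Fin.lastCases ?_ (fun i => ?_) i
    · rw [h1]
      show b = Fin.snoc (α := fun _ => Fin 2) (g.1 n w) b (Fin.last n)
      simp
    · have h5 := congrFun h2 i
      show _ = Fin.snoc (α := fun _ => Fin 2) (g.1 n w) b (Fin.castSucc i)
      rw [Fin.snoc_castSucc]
      exact h5
  rw [he, Perm.sign_permCongr, Perm.sign_prodCongrRight]
  simp

lemma sign_finite (g : G) (S : Set ℕ) [DecidablePred (· ∈ S)] :
    Function.HasFiniteMulSupport (fun n => if n ∈ S then Perm.sign (g.1 n) else 1) := by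
  obtain ⟨N, hN⟩ := g.2.2
  apply (Set.finite_Iic N).subset
  intro n hn
  by_contra hlt
  simp only [Set.mem_Iic, not_le] at hlt
  obtain ⟨k, rfl⟩ : ∃ k, n = k + 1 := ⟨n - 1, by omega⟩
  apply hn
  simp only [ite_eq_right_iff]
  intro _
  apply sign_one
  intro u
  exact hN _ _ _ (by simp; omega)

open Classical in
/-- the infinite product of signs over the levels in `S` -/
noncomputable def chi (S : Set ℕ) : G →* ℤˣ where
  toFun g := ∏ᶠ n, if n ∈ S then Perm.sign (g.1 n) else 1
  map_one' := by
    have : (fun n => if n ∈ S then Perm.sign ((1 : G).1 n) else 1) = fun _ => (1 : ℤˣ) := by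
      funext n
      split_ifs
      · exact map_one _
      · rfl
    rw [this, finprod_one]
  map_mul' g h := by
    rw [← finprod_mul_distrib (sign_finite g S) (sign_finite h S)]
    apply finprod_congr
    intro n
    split_ifs
    · exact map_mul _ _ _
    · simp

/-- elementary swap at the coordinate `k` -/
def swf (k m : ℕ) (u : Lv m) : Lv m :=
  fun i => if (i : ℕ) = k ∧ ∀ j : Fin m, (j : ℕ) < k → u j = (0 : Fin 2) then
    (u i + 1 : Fin 2) else u i

lemma swf_lt (k m : ℕ) (u : Lv m) (j : Fin m) (hj : (j : ℕ) ≠ k) : swf k m u j = u j :=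
  if_neg (fun h => hj h.1)

lemma swf_invol (k m : ℕ) : Function.Involutive (swf k m) := by
  intro u
  have hc : (∀ j : Fin m, (j : ℕ) < k → swf k m u j = (0 : Fin 2)) ↔
      (∀ j : Fin m, (j : ℕ) < k → u j = (0 : Fin 2)) := by
    constructor
    · intro h j hj
      rw [← swf_lt k m u j (by omega)]; exact h j hj
    · intro h j hj
      rw [swf_lt k m u j (by omega)]; exact h j hj
  funext i
  by_cases hi : (i : ℕ) = k ∧ ∀ j : Fin m, (j : ℕ) < k → u j = (0 : Fin 2)
  · have h1 : swf k m (swf k m u) i = (swf k m u i + 1 : Fin 2) := if_pos ⟨hi.1, hc.2 hi.2⟩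
    have h2 : swf k m u i = (u i + 1 : Fin 2) := if_pos hi
    rw [h1, h2]
    have : ∀ t : Fin 2, t + 1 + 1 = t := by decide
    exact this _
  · have h1 : swf k m (swf k m u) i = swf k m u i := if_neg (fun h => hi ⟨h.1, hc.1 h.2⟩)
    have h2 : swf k m u i = u i := if_neg hi
    rw [h1, h2]

def sw (k : ℕ) : G :=
  ⟨fun m => (swf_invol k m).toPerm, by
    refine ⟨fun n m h u => ?_, k + 1, fun m u i hi => swf_lt k m u i (by omega)⟩
    show res h (swf k m u) = swf k n (res h u)
    funext i
    by_cases hi : (i : ℕ) = k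
    · have hc : (∀ j : Fin m, (j : ℕ) < k → u j = (0 : Fin 2)) ↔
        (∀ j : Fin n, (j : ℕ) < k → (res h u) j = (0 : Fin 2)) := by
        constructor
        · intro h' j hj
          exact h' _ hj
        · intro h' j hj
          exact h' ⟨j, by omega⟩ hj
      by_cases h3 : ∀ j : Fin n, (j : ℕ) < k → (res h u) j = (0 : Fin 2)
      · have h1 : swf k n (res h u) i = (res h u i + 1 : Fin 2) := if_pos ⟨hi, h3⟩
        have h2 : swf k m u (Fin.castLE h i) = (u (Fin.castLE h i) + 1 : Fin 2) :=
          if_pos ⟨hi, hc.2 h3⟩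
        rw [h1]; exact h2
      · have h1 : swf k n (res h u) i = res h u i := if_neg (fun h' => h3 h'.2)
        have h2 : swf k m u (Fin.castLE h i) = u (Fin.castLE h i) :=
          if_neg (fun h' => h3 (hc.1 h'.2))
        rw [h1]; exact h2
    · rw [swf_lt k n _ i hi]
      exact swf_lt k m u _ hi⟩

lemma sw_apply (k m : ℕ) (u : Lv m) : (sw k).1 m u = swf k m u := rfl

lemma sw_level (k m : ℕ) (h : m ≤ k) : (sw k).1 m = 1 := by
  ext1 u
  funext i
  exact swf_lt k m u i (by omega)

lemma sw_sign (k : ℕ) : Perm.sign ((sw k).1 (k + 1)) = -1 := by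
  classical
  let z : Lv (k + 1) := fun _ => (0 : Fin 2)
  let o : Lv (k + 1) := fun i => if (i : ℕ) = k then (1 : Fin 2) else (0 : Fin 2)
  have hne : z ≠ o := by
    intro h
    have := congrFun h (Fin.last k)
    simp [z, o] at this
  have : (sw k).1 (k + 1) = Equiv.swap z o := by
    ext1 u
    rw [sw_apply]
    by_cases hu : ∀ j : Fin (k + 1), (j : ℕ) < k → u j = (0 : Fin 2)
    · have h01 : u (Fin.last k) = (0 : Fin 2) ∨ u (Fin.last k) = (1 : Fin 2) := by
        have : ∀ t : Fin 2, t = 0 ∨ t = 1 := by decide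
        exact this _
      rcases h01 with h0 | h1
      · have hz : u = z := by
          funext i
          refine Fin.lastCases ?_ (fun i => ?_) i
          · exact h0
          · exact hu _ (by simp)
        rw [hz, Equiv.swap_apply_left]
        funext i
        by_cases hi : (i : ℕ) = k
        · have h2 : swf k (k + 1) z i = (z i + 1 : Fin 2) := if_pos ⟨hi, fun j _ => rfl⟩
          rw [h2]
          simp [z, o, hi]
        · rw [swf_lt _ _ _ _ hi]
          simp [z, o, hi]
      · have hz : u = o := by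
          funext i
          refine Fin.lastCases ?_ (fun i => ?_) i
          · rw [h1]; simp [o]
          · rw [hu _ (by simp)]
            have : ((Fin.castSucc i : Fin (k + 1)) : ℕ) ≠ k := by simp; omega
            simp only [o]
            rw [if_neg this]
        rw [hz, Equiv.swap_apply_right]
        funext i
        by_cases hi : (i : ℕ) = k
        · have h2 : swf k (k + 1) o i = (o i + 1 : Fin 2) := if_pos ⟨hi, fun j hj => by
            simp only [o]; rw [if_neg (by omega)]⟩
          rw [h2]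
          simp only [z, o]
          rw [if_pos hi]; exact (by decide : (1 : Fin 2) + 1 = 0)
        · rw [swf_lt _ _ _ _ hi]
          simp only [z, o]
          rw [if_neg hi]
    · have h1 : swf k (k + 1) u = u := by
        funext i
        exact if_neg (fun h => hu h.2)
      rw [h1, Equiv.swap_apply_of_ne_of_ne]
      · rintro rfl
        exact hu (fun _ _ => rfl)
      · rintro rfl
        exact hu (fun j hj => by simp only [o]; rw [if_neg (by omega)])
  rw [this, Perm.sign_swap hne]

lemma sw_sign' (k m : ℕ) (h : m ≠ k + 1) : Perm.sign ((sw k).1 m) = 1 := by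
  rcases lt_or_gt_of_ne h with h1 | h1
  · rw [sw_level k m (by omega), Perm.sign_one]
  · obtain ⟨n, rfl⟩ : ∃ n, m = n + 1 := ⟨m - 1, by omega⟩
    apply sign_one
    intro u
    exact swf_lt k (n + 1) u (Fin.last n) (by simp; omega)

lemma chi_sw (S : Set ℕ) (k : ℕ) : (k + 1 ∈ S → chi S (sw k) = -1) ∧
    (k + 1 ∉ S → chi S (sw k) = 1) := by
  classical
  have h : ∀ n, n ≠ k + 1 → (if n ∈ S then Perm.sign ((sw k).1 n) else 1) = 1 := by
    intro n hn
    split_ifs
    · exact sw_sign' k n hn
    · rfl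
  have h1 : chi S (sw k) = if k + 1 ∈ S then Perm.sign ((sw k).1 (k + 1)) else 1 :=
    finprod_eq_single _ (k + 1) h
  rw [h1]
  constructor
  · intro hk
    rw [if_pos hk, sw_sign]
  · intro hk
    rw [if_neg hk]

/-- the normal T-sequence attached to `S` -/
noncomputable def M (S : Set ℕ) (n : ℕ) : Subgroup G := (A.act n).ker ⊓ (chi S).ker

lemma isNormalTSeq (S : Set ℕ) : IsNormalTSeq (M S) := by
  refine ⟨fun n => ?_, fun n => ?_, fun n => ?_, ?_⟩
  · refine inf_le_inf_right _ ?_
    intro g hg
    rw [MonoidHom.mem_ker, A_act] at hg ⊢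
    ext1 u
    obtain ⟨w, rfl⟩ := res_surj (Nat.le_succ n) u
    rw [← G_compat, hg]; rfl
  · unfold M
    infer_instance
  · unfold M
    infer_instance
  · rw [Subgroup.eq_bot_iff_forall]
    intro g hg
    rw [Subgroup.mem_iInf] at hg
    apply faithful
    intro n
    exact (hg n).1

/-- disjoint infinite sets of levels -/
def SS (j : ℕ) : Set ℕ := {n | ∃ t, n = Nat.pair j t + 1}

theorem not_equiv (i j : ℕ) (hij : i ≠ j) : ¬ TEquiv (M (SS i)) (M (SS j)) := by
  rintro ⟨-, h⟩
  obtain ⟨k, hk⟩ := h 0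
  have hmem : sw (Nat.pair j k) ∈ M (SS i) k := by
    refine ⟨?_, ?_⟩
    · exact MonoidHom.mem_ker.2 (sw_level _ _ (Nat.right_le_pair j k))
    · refine MonoidHom.mem_ker.2 ?_
      apply (chi_sw _ _).2
      rintro ⟨t, ht⟩
      have := Nat.pair_eq_pair.1 (Nat.succ_injective ht)
      exact hij this.1.symm
  have h2 : sw (Nat.pair j k) ∈ (chi (SS j)).ker := (hk hmem).2
  have h3 : chi (SS j) (sw (Nat.pair j k)) = -1 :=
    (chi_sw (SS j) (Nat.pair j k)).1 (show ∃ t, Nat.pair j k + 1 = Nat.pair j t + 1 from ⟨k, rfl⟩)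
  rw [MonoidHom.mem_ker, h3] at h2
  revert h2; decide

end Pool.Agent.H4.Branch
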