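import Mathlib

set_option autoImplicit false

namespace Pool.Agent.H4.Branch

/-- The vertices of level `n` of the spherically homogeneous rooted tree with branching numbers
`d 0, d 1, …`: sequences `(u_0, …, u_{n-1})` with `u_i < d i`. -/
abbrev V (d : ℕ → ℕ) (n : ℕ) : Type := (i : Fin n) → Fin (d i)

/-- The ancestor of level `n` of a vertex of level `m ≥ n`. -/
def res {d : ℕ → ℕ} {n m : ℕ} (h : n ≤ m) (u : V d m) : V d n := fun i => u (Fin.castLE h i)

/-- An action of the group `G` on the rooted tree with branching numbers `d` by automorphisms of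
the rooted tree. -/
structure TreeAction (G : Type) [Group G] (d : ℕ → ℕ) where
  act : ∀ n, G →* Equiv.Perm (V d n)
  compat : ∀ (n m : ℕ) (h : n ≤ m) (g : G) (u : V d m), res h (act m g u) = act n g (res h u)

/-- The rigid stabiliser of level `n`: the subgroup generated by the rigid stabilisers of the
vertices `v` of level `n`; the rigid stabiliser of `v` consists of the elements which fix every
vertex outside the subtree rooted at `v`. -/
def TreeAction.rist {G : Type} [Group G] {d : ℕ → ℕ} (A : TreeAction G d) (n : ℕ) : Subgroup G :=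
  Subgroup.closure {g | ∃ v : V d n, ∀ (m : ℕ) (u : V d m),
    (¬ ∃ h : n ≤ m, res h u = v) → A.act m g u = u}

/-- Branch groups. -/
def IsBranch (G : Type) [Group G] : Prop :=
  ∃ d : ℕ → ℕ, (∀ i, 2 ≤ d i) ∧ ∃ A : TreeAction G d,
    (∀ g : G, (∀ n, A.act n g = 1) → g = 1) ∧
    (∀ (n : ℕ) (v w : V d n), ∃ g : G, A.act n g v = w) ∧
    ∀ n, (A.rist n).FiniteIndex

/-- Normal T-sequences of the group `L`. -/
structure IsNormalTSeq {L : Type} [Group L] (M : ℕ → Subgroup L) : Prop where
  anti : ∀ n, M (n + 1) ≤ M n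
  finiteIndex : ∀ n, (M n).FiniteIndex
  normal : ∀ n, (M n).Normal
  inf : ⨅ n, M n = ⊥

/-- Equivalence of T-sequences. -/
def TEquiv {L : Type} [Group L] (M N : ℕ → Subgroup L) : Prop :=
  (∀ n, ∃ k, N k ≤ M n) ∧ (∀ k, ∃ n, M n ≤ N k)

end Pool.Agent.H4.Branch
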