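import Mathlib

set_option autoImplicit false

namespace Pool.Agent.H4.EngelRad

/-- `A` is Engel: for all `x`, `y` there is `n ≥ 1` with `[...[[y,x],x],...,x] = 0`
(`n` brackets with `x`). -/
def IsEngelLie (A : Type) [LieRing A] : Prop :=
  ∀ x y : A, ∃ n : ℕ, 1 ≤ n ∧ (fun z : A => ⁅z, x⁆)^[n] y = 0

/-- The locally nilpotent radical of a Lie algebra: the sum of all ideals `I` such that every
finitely generated subalgebra of `I` is nilpotent. -/
def lieRad (F A : Type) [Field F] [LieRing A] [LieAlgebra F A] : LieIdeal F A :=
  sSup {I : LieIdeal F A | ∀ s : Set A, s.Finite → s ⊆ (I : Set A) →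
    LieRing.IsNilpotent (LieSubalgebra.lieSpan F A s)}

/-- Right multiplication `x ↦ [x, a]`. -/
def rightMul (F : Type) {A : Type} [Field F] [LieRing A] [LieAlgebra F A] (a : A) :
    Module.End F A where
  toFun x := ⁅x, a⁆
  map_add' x y := add_lie x y a
  map_smul' c x := smul_lie c x a

/-- The multiplication algebra `A*`: the associative subalgebra (without adjoined identity) of
`End_F(A)` generated by all right multiplications. -/
def multAlg (F A : Type) [Field F] [LieRing A] [LieAlgebra F A] :
    NonUnitalSubalgebra F (Module.End F A) :=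
  NonUnitalAlgebra.adjoin F (Set.range (rightMul F : A → Module.End F A))

/-- For some `n` all products of `n + 1` elements of `S` are zero. -/
def ProdNilpotent {E : Type} [Ring E] (S : Set E) : Prop :=
  ∃ n : ℕ, ∀ l : List E, l.length = n + 1 → (∀ y ∈ l, y ∈ S) → l.prod = 0

/-- The locally nilpotent radical of an associative algebra `X` (possibly without identity, here
given as a subalgebra of an algebra `E`): the sum of all two-sided ideals `I` of `X` such that every
finitely generated subalgebra of `I` is nilpotent. -/
def assocRad {F E : Type} [Field F] [Ring E] [Algebra F E] (X : NonUnitalSubalgebra F E) :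
    Submodule F E :=
  sSup {I : Submodule F E | I ≤ X.toSubmodule ∧ (∀ r ∈ X, ∀ x ∈ I, r * x ∈ I ∧ x * r ∈ I) ∧
    ∀ s : Set E, s.Finite → s ⊆ (I : Set E) →
      ProdNilpotent (NonUnitalAlgebra.adjoin F s : Set E)}

end Pool.Agent.H4.EngelRad
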