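import Mathlib
import Pool.Agent.H4.EngelDefs

set_option autoImplicit false

namespace Pool.Agent.H4.EngelRad

open Polynomial

variable (F : Type) [Field F]

/-- the Lie algebra -/
def LA : Type := F[X] × F

noncomputable section

instance : AddCommGroup (LA F) := inferInstanceAs (AddCommGroup (F[X] × F))
instance : Module F (LA F) := inferInstanceAs (Module F (F[X] × F))

variable {F}

/-- the shift operator -/
def D : F[X] →ₗ[F] F[X] where
  toFun := divX
  map_add' p q := divX_add
  map_smul' c p := by
    ext n
    simp [coeff_divX]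

lemma D_coeff (p : F[X]) (n : ℕ) : (D p).coeff n = p.coeff (n + 1) := coeff_divX

lemma Dpow_coeff (k : ℕ) (p : F[X]) (n : ℕ) : ((D ^ k) p).coeff n = p.coeff (n + k) := by
  induction k generalizing n with
  | zero => simp
  | succ k ih =>
    rw [pow_succ', Module.End.mul_apply, D_coeff, ih]
    congr 1
    omega

lemma Dpow_zero (k : ℕ) (p : F[X]) (h : p.natDegree < k) : (D ^ k) p = 0 := by
  ext n
  rw [Dpow_coeff, coeff_zero]
  exact coeff_eq_zero_of_natDegree_lt (by omega)

instance : Bracket (LA F) (LA F) := ⟨fun x y => (y.2 • D x.1 - x.2 • D y.1, 0)⟩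

lemma br (x y : LA F) : ⁅x, y⁆ = (y.2 • D x.1 - x.2 • D y.1, 0) := rfl

lemma fst_add' (x y : LA F) : (x + y).1 = x.1 + y.1 := rfl
lemma snd_add' (x y : LA F) : (x + y).2 = x.2 + y.2 := rfl
lemma fst_smul' (c : F) (x : LA F) : (c • x).1 = c • x.1 := rfl
lemma snd_smul' (c : F) (x : LA F) : (c • x).2 = c • x.2 := rfl

instance : LieRing (LA F) where
  add_lie x y z := by
    apply Prod.ext
    · rw [fst_add']
      simp only [br, fst_add', snd_add', map_add, smul_add, add_smul]
      abel
    · rw [snd_add']
      simp only [br, add_zero]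
  lie_add x y z := by
    apply Prod.ext
    · rw [fst_add']
      simp only [br, fst_add', snd_add', map_add, smul_add, add_smul]
      abel
    · rw [snd_add']
      simp only [br, add_zero]
  lie_self x := by
    rw [br, sub_self]; rfl
  leibniz_lie x y z := by
    apply Prod.ext
    · rw [fst_add']
      simp only [br, map_sub, map_smul, zero_smul, sub_zero, zero_sub, smul_sub, smul_neg, smul_smul]
      rw [mul_comm x.2 z.2, mul_comm y.2 z.2, mul_comm x.2 y.2]
      abel
    · rw [snd_add']
      simp only [br, add_zero]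

instance : LieAlgebra F (LA F) where
  lie_smul c x y := by
    apply Prod.ext
    · rw [fst_smul']
      simp only [br, fst_smul', snd_smul', map_smul, smul_sub, smul_smul, smul_eq_mul]
      rw [mul_comm x.2 c]
    · rw [snd_smul']
      simp only [br, smul_zero]

/-- iterated right multiplication -/
lemma iter (x y : LA F) (k : ℕ) :
    ((rightMul F x) ^ (k + 1)) y = ((x.2) ^ k • (D ^ k) (x.2 • D y.1 - y.2 • D x.1), 0) := by
  induction k with
  | zero =>
    simp only [zero_add, pow_one, pow_zero, one_smul]
    rfl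
  | succ k ih =>
    rw [pow_succ', Module.End.mul_apply, ih]
    change ⁅(_ : LA F), x⁆ = _
    rw [br]
    simp only [zero_smul, sub_zero, map_smul, smul_smul]
    rw [← pow_succ', pow_succ' D, Module.End.mul_apply]

lemma iter_zero (x y : LA F) (N : ℕ) (hx : x.1.natDegree < N) (hy : y.1.natDegree < N) :
    ((rightMul F x) ^ (N + 1)) y = 0 := by
  rw [iter]
  have h1 : (D ^ N) (D y.1) = 0 := by
    rw [← Module.End.mul_apply, ← pow_succ]
    exact Dpow_zero _ _ (by omega)
  have h2 : (D ^ N) (D x.1) = 0 := by
    rw [← Module.End.mul_apply, ← pow_succ]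
    exact Dpow_zero _ _ (by omega)
  simp only [map_sub, map_smul, h1, h2, smul_zero, sub_zero]
  rfl

lemma engel : IsEngelLie (LA F) := by
  intro x y
  refine ⟨max x.1.natDegree y.1.natDegree + 1 + 1, by omega, ?_⟩
  have := iter_zero x y (max x.1.natDegree y.1.natDegree + 1) (by omega) (by omega)
  rw [Module.End.pow_apply] at this
  exact this

/-- finite-dimensional subalgebras -/
def sub (F : Type) [Field F] (N : ℕ) : LieSubalgebra F (LA F) where
  carrier := {x | x.1 ∈ degreeLT F N}
  add_mem' := fun {x y} hx hy => (degreeLT F N).add_mem hx hy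
  zero_mem' := (degreeLT F N).zero_mem
  smul_mem' := fun c x hx => (degreeLT F N).smul_mem c hx
  lie_mem' := by
    intro x y hx hy
    have hD : ∀ p ∈ degreeLT F N, D p ∈ degreeLT F N := by
      intro p hp
      rw [mem_degreeLT] at hp ⊢
      rw [degree_lt_iff_coeff_zero] at hp ⊢
      intro m hm
      rw [D_coeff]
      exact hp _ (by omega)
    exact (degreeLT F N).sub_mem ((degreeLT F N).smul_mem _ (hD _ hx)) ((degreeLT F N).smul_mem _ (hD _ hy))

lemma mem_sub {N : ℕ} {x : LA F} : x ∈ sub F N ↔ x.1 ∈ degreeLT F N := Iff.rfl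

lemma Dpow_zero' (N : ℕ) (p : F[X]) (h : p ∈ degreeLT F N) : (D ^ N) p = 0 := by
  rw [mem_degreeLT, degree_lt_iff_coeff_zero] at h
  ext n
  rw [Dpow_coeff, coeff_zero]
  exact h _ (by omega)

lemma iter_zero' (x y : LA F) (N : ℕ) (hx : x ∈ sub F N) (hy : y ∈ sub F N) :
    ((rightMul F x) ^ (N + 1)) y = 0 := by
  rw [iter]
  have h1 : ∀ p ∈ degreeLT F N, (D ^ N) (D p) = 0 := by
    intro p hp
    rw [← Module.End.mul_apply, ← pow_succ, pow_succ', Module.End.mul_apply, Dpow_zero' N p hp,
      map_zero]
  simp only [map_sub, map_smul, h1 _ hx, h1 _ hy, smul_zero, sub_zero]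
  rfl

lemma sub_finite (N : ℕ) : Module.Finite F (sub F N) := by
  have h1 : Module.Finite F (degreeLT F N) := Module.Finite.equiv (degreeLTEquiv F N).symm
  let g : sub F N →ₗ[F] (degreeLT F N × F) :=
    { toFun := fun x => (⟨x.1.1, x.2⟩, x.1.2)
      map_add' := fun x y => rfl
      map_smul' := fun c x => rfl }
  refine Module.Finite.of_injective g ?_
  intro x y h
  have h2 := Prod.ext_iff.1 h
  apply Subtype.ext
  exact Prod.ext (congrArg Subtype.val h2.1) h2.2

lemma locnil (s : Set (LA F)) (hs : s.Finite) :
    LieRing.IsNilpotent (LieSubalgebra.lieSpan F (LA F) s) := by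
  have hN : ∃ N, ∀ x ∈ s, x ∈ sub F N := by
    induction s, hs using Set.Finite.induction_on with
    | empty => exact ⟨0, by simp⟩
    | insert _ _ ih =>
      rename_i a s _ _
      obtain ⟨n, hn⟩ := ih
      refine ⟨max n (a.1.natDegree + 1), ?_⟩
      rintro x (rfl | hx)
      · rw [mem_sub, mem_degreeLT]
        refine lt_of_le_of_lt degree_le_natDegree ?_
        exact_mod_cast (by omega : x.1.natDegree < max n (x.1.natDegree + 1))
      · exact degreeLT_mono (le_max_left _ _) (hn x hx)
  obtain ⟨N, hN⟩ := hN
  have hle : LieSubalgebra.lieSpan F (LA F) s ≤ sub F N := LieSubalgebra.lieSpan_le.2 hN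
  generalize LieSubalgebra.lieSpan F (LA F) s = L at hle
  have hfin := sub_finite (F := F) N
  have hL : Module.Finite F L := by
    let g : L →ₗ[F] sub F N :=
      { toFun := fun x => ⟨x.1, hle x.2⟩
        map_add' := fun x y => rfl
        map_smul' := fun c x => rfl }
    refine Module.Finite.of_injective g ?_
    intro x y h
    apply Subtype.ext
    exact congrArg (fun z : sub F N => (z : LA F)) h
  rw [LieAlgebra.isNilpotent_iff_forall (R := F)]
  intro x
  refine ⟨N + 1, ?_⟩
  have key : ∀ (k : ℕ) (y : L), (((LieAlgebra.ad F L x) ^ k) y : LA F) =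
      (-1 : F) ^ k • ((rightMul F (x : LA F)) ^ k) (y : LA F) := by
    intro k
    induction k with
    | zero => intro y; simp
    | succ k ih =>
      intro y
      rw [pow_succ, Module.End.mul_apply, ih, LieAlgebra.ad_apply, pow_succ (rightMul F (x : LA F)),
        Module.End.mul_apply]
      have : ((⁅x, y⁆ : L) : LA F) = (-1 : F) • rightMul F (x : LA F) (y : LA F) := by
        show ⁅(x : LA F), (y : LA F)⁆ = (-1 : F) • ⁅(y : LA F), (x : LA F)⁆
        rw [neg_smul, one_smul, lie_skew]
      rw [this, map_smul, smul_smul, ← pow_succ]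
  apply LinearMap.ext
  intro y
  apply Subtype.ext
  rw [key, iter_zero' x.1 y.1 N (hle x.2) (hle y.2), smul_zero]
  rfl

/-- constructor -/
def mk (p : F[X]) (c : F) : LA F := (p, c)

lemma act {x : Module.End F (LA F)} (hx : x ∈ multAlg F (LA F)) :
    ∃ p : F[X], ∀ v : F[X], x (mk v 0) = (mk (aeval (D : Module.End F F[X]) p v) 0) := by
  induction hx using NonUnitalAlgebra.adjoin_induction with
  | mem x hx =>
    obtain ⟨a, rfl⟩ := hx
    refine ⟨C a.2 * X, fun v => ?_⟩
    show ⁅mk v 0, a⁆ = _
    rw [br]
    show mk (a.2 • D v - (0 : F) • D a.1) 0 = _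
    simp
  | add x y _ _ hx hy =>
    obtain ⟨p, hp⟩ := hx
    obtain ⟨q, hq⟩ := hy
    refine ⟨p + q, fun v => ?_⟩
    rw [LinearMap.add_apply, hp, hq, map_add, LinearMap.add_apply]
    apply Prod.ext
    · rfl
    · exact add_zero _
  | zero =>
    refine ⟨0, fun v => ?_⟩
    rw [map_zero]
    rfl
  | mul x y _ _ hx hy =>
    obtain ⟨p, hp⟩ := hx
    obtain ⟨q, hq⟩ := hy
    refine ⟨p * q, fun v => ?_⟩
    rw [Module.End.mul_apply, hq, hp, map_mul, Module.End.mul_apply]
  | smul r x _ hx =>
    obtain ⟨p, hp⟩ := hx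
    refine ⟨r • p, fun v => ?_⟩
    rw [LinearMap.smul_apply, hp, map_smul, LinearMap.smul_apply]
    apply Prod.ext
    · rfl
    · exact smul_zero _

lemma faithful (p : F[X]) (h : ∀ v : F[X], aeval (D : Module.End F F[X]) p v = 0) : p = 0 := by
  have key : ∀ (p : F[X]) (m : ℕ),
      (aeval (D : Module.End F F[X]) p (X ^ m)).coeff 0 = p.coeff m := by
    intro p m
    induction p using Polynomial.induction_on' with
    | add p q hp hq =>
      rw [map_add, LinearMap.add_apply, coeff_add, coeff_add, hp, hq]
    | monomial n a =>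
      rw [aeval_monomial, Module.End.mul_apply, Module.algebraMap_end_apply, coeff_smul, Dpow_coeff,
        coeff_X_pow, coeff_monomial]
      simp
  ext m
  rw [← key, h]
  simp

theorem main (F : Type) [Field F] : ∃ (A : Type) (_ : LieRing A) (_ : LieAlgebra F A),
    IsEngelLie A ∧ ∃ a : A, a ∈ lieRad F A ∧ rightMul F a ∉ assocRad (multAlg F A) := by
  refine ⟨LA F, inferInstance, inferInstance, engel, mk 0 1, ?_, ?_⟩
  · have : (⊤ : LieIdeal F (LA F)) ≤ lieRad F (LA F) := le_sSup fun s hs _ => locnil s hs
    exact this (LieSubmodule.mem_top _)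
  · intro hmem
    let K : Submodule F (Module.End F (LA F)) :=
      { carrier := {x | ∀ v : F[X], x (mk v 0) = 0}
        add_mem' := by
          intro x y hx hy v
          have h1 := hx v
          have h2 := hy v
          show x (mk v 0) + y (mk v 0) = 0
          rw [h1, h2, add_zero]
        zero_mem' := fun v => rfl
        smul_mem' := by
          intro c x hx v
          have h1 := hx v
          show c • x (mk v 0) = 0
          rw [h1, smul_zero] }
    have hle : assocRad (multAlg F (LA F)) ≤ K := by
      apply sSup_le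
      rintro I ⟨hIX, _, hI⟩ x hx
      obtain ⟨n, hn⟩ := hI {x} (Set.finite_singleton x) (Set.singleton_subset_iff.2 hx)
      have hxm : x ∈ (NonUnitalAlgebra.adjoin F {x} : Set (Module.End F (LA F))) :=
        NonUnitalAlgebra.subset_adjoin F rfl
      have h1 := hn (List.replicate (n + 1) x) (List.length_replicate ..) (fun y hy => by
        rw [List.eq_of_mem_replicate hy]; exact hxm)
      rw [List.prod_replicate] at h1
      obtain ⟨p, hp⟩ := act (hIX hx)
      have hk : ∀ (k : ℕ) (v : F[X]), (x ^ k) (mk v 0) =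
          (mk (aeval (D : Module.End F F[X]) (p ^ k) v) 0) := by
        intro k
        induction k with
        | zero => intro v; simp
        | succ k ih =>
          intro v
          rw [pow_succ, Module.End.mul_apply, hp, ih, pow_succ, map_mul, Module.End.mul_apply]
      have hz : p ^ (n + 1) = 0 := by
        apply faithful
        intro v
        have h2 := hk (n + 1) v
        rw [h1] at h2
        exact (congrArg Prod.fst h2).symm
      have hp0 : p = 0 := pow_eq_zero_iff (by omega) |>.1 hz
      intro v
      rw [hp, hp0, map_zero]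
      rfl
    have h2 := hle hmem X
    have h3 : ⁅mk (F := F) X 0, mk (F := F) 0 1⁆ = 0 := h2
    rw [br] at h3
    have h4 := congrArg (fun z : LA F => z.1.coeff 0) h3
    have h5 : (((1 : F) • D (X : F[X]) - (0 : F) • D (0 : F[X]))).coeff 0 = (0 : F[X]).coeff 0 := h4
    rw [coeff_sub, coeff_smul, coeff_smul, D_coeff, D_coeff] at h5
    simp at h5

end

end Pool.Agent.H4.EngelRad
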