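import Mathlib

set_option autoImplicit false

namespace Pool.Agent.H4.GS

open MonoidAlgebra

variable (F : Type) [Field F]

abbrev W : Type := FreeMonoid (Fin 3)
abbrev T : Type := MonoidAlgebra F W
instance : DecidableEq W := inferInstanceAs (DecidableEq (List (Fin 3)))

/-- homogeneous component -/
noncomputable def comp (n : ℕ) : T F →ₗ[F] T F where
  toFun f := .ofCoeff (f.coeff.filter (fun w => w.length = n))
  map_add' f g := by
    rw [coeff_add, Finsupp.filter_add, ofCoeff_add]
  map_smul' c f := by
    rw [coeff_smul, Finsupp.filter_smul, ofCoeff_smul]; rfl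

variable {F}

theorem comp_coeff (n : ℕ) (f : T F) (w : W) :
    (comp F n f).coeff w = if w.length = n then f.coeff w else 0 :=
  Finsupp.filter_apply _ _ _

theorem comp_single (n : ℕ) (w : W) (c : F) :
    comp F n (single w c) = if w.length = n then single w c else 0 := by
  apply coeff_injective
  ext v
  rw [comp_coeff]
  by_cases h : w.length = n
  · rw [if_pos h]
    split_ifs with h1
    · rfl
    · rw [coeff_single]
      rw [Finsupp.single_apply, if_neg]
      rintro rfl; exact h1 h
  · rw [if_neg h]
    split_ifs with h1
    · rw [coeff_single, Finsupp.single_apply, if_neg]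
      · rfl
      · rintro rfl; exact h h1
    · rfl

variable (F) in
noncomputable def Tn (n : ℕ) : Submodule F (T F) := supported F F {w | w.length = n}

theorem mem_Tn {n : ℕ} {f : T F} : f ∈ Tn F n ↔ ∀ w : W, w.length ≠ n → f.coeff w = 0 :=
  mem_supported'

theorem comp_mem (n : ℕ) (f : T F) : comp F n f ∈ Tn F n := by
  rw [mem_Tn]
  intro w hw
  rw [comp_coeff, if_neg hw]

theorem comp_of_mem {n : ℕ} {f : T F} (hf : f ∈ Tn F n) : comp F n f = f := by
  apply coeff_injective
  ext w
  rw [comp_coeff]
  split_ifs with h
  · rfl
  · exact (mem_Tn.mp hf w h).symm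

theorem comp_of_mem_ne {m n : ℕ} {f : T F} (hf : f ∈ Tn F m) (h : m ≠ n) : comp F n f = 0 := by
  apply coeff_injective
  ext w
  rw [comp_coeff]
  split_ifs with h1
  · exact mem_Tn.mp hf w (by rw [h1]; exact h.symm)
  · rfl

theorem single_mem {w : W} {c : F} : single w c ∈ Tn F w.length := by
  rw [mem_Tn]
  intro v hv
  rw [coeff_single, Finsupp.single_apply, if_neg]
  rintro rfl; exact hv rfl

theorem comp_single_mul (n : ℕ) (w : W) (c : F) (f : T F) :
    comp F n (single w c * f) = if w.length ≤ n then single w c * comp F (n - w.length) f else 0 := by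
  induction f using MonoidAlgebra.induction_linear with
  | zero => simp
  | add f g hf hg =>
    rw [mul_add, map_add, hf, hg, map_add, mul_add]
    split_ifs
    · rfl
    · simp
  | single v d =>
    rw [single_mul_single, comp_single, comp_single, FreeMonoid.length_mul]
    split_ifs with h1 h2 h3 h4 h5
    · rw [single_mul_single]
    · omega
    · omega
    · omega
    · rw [mul_zero]
    · rfl

theorem Tn_eq_span (n : ℕ) : Tn F n = Submodule.span F ((fun w : W => single w (1 : F)) ''
    {w | w.length = n}) := supported_eq_span_single F _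

theorem Tn_mul {a b : ℕ} {f g : T F} (hf : f ∈ Tn F a) (hg : g ∈ Tn F b) : f * g ∈ Tn F (a + b) := by
  rw [Tn_eq_span] at hf hg
  induction hf using Submodule.span_induction with
  | mem x hx =>
    obtain ⟨w, hw, rfl⟩ := hx
    induction hg using Submodule.span_induction with
    | mem y hy =>
      obtain ⟨v, hv, rfl⟩ := hy
      change single w (1 : F) * single v 1 ∈ _
      rw [single_mul_single]
      have : a + b = (w * v).length := by
        rw [FreeMonoid.length_mul]
        exact congrArg₂ _ hw.symm hv.symm
      rw [this]
      exact single_mem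
    | zero => rw [mul_zero]; exact Submodule.zero_mem _
    | add x y _ _ hx hy => rw [mul_add]; exact Submodule.add_mem _ hx hy
    | smul c x _ hx => rw [mul_smul_comm]; exact Submodule.smul_mem _ _ hx
  | zero => rw [zero_mul]; exact Submodule.zero_mem _
  | add x y _ _ hx hy => rw [add_mul]; exact Submodule.add_mem _ hx hy
  | smul c x _ hx => rw [smul_mul_assoc]; exact Submodule.smul_mem _ _ hx

theorem finrank_Tn (n : ℕ) : Module.finrank F (Tn F n) = 3 ^ n ∧ FiniteDimensional F (Tn F n) := by
  have e := supportedEquivFinsupp (R := F) (S := F) (M := W) {w : W | w.length = n}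
  have e2 : {w : W | w.length = n} ≃ List.Vector (Fin 3) n := Equiv.refl _
  have : Fintype {w : W | w.length = n} := Fintype.ofEquiv _ e2.symm
  have hfd : FiniteDimensional F (Tn F n) := Module.Finite.equiv e.symm
  refine ⟨?_, hfd⟩
  have h1 : Module.finrank F (Tn F n) = Module.finrank F ({w : W | w.length = n} →₀ F) :=
    LinearEquiv.finrank_eq e
  rw [h1, Module.finrank_finsupp_self, Fintype.card_congr e2, card_vector, Fintype.card_fin]

instance (n : ℕ) : FiniteDimensional F (Tn F n) := (finrank_Tn n).2

end Pool.Agent.H4.GS
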