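import Mathlib
import Pool.Agent.H4.GS1

set_option autoImplicit false

namespace Pool.Agent.H4.GS

open MonoidAlgebra

variable {F : Type} [Field F]

/-- generator -/
noncomputable def x (j : Fin 3) : T F := single (FreeMonoid.of j) 1

theorem x_mem (j : Fin 3) : (x j : T F) ∈ Tn F 1 := single_mem

/-- left multiplication -/
noncomputable def lm (t : T F) : T F →ₗ[F] T F := LinearMap.mulLeft F t

theorem lm_apply (t s : T F) : lm t s = t * s := rfl

noncomputable def Pj (L : Submodule F (T F)) : Submodule F (T F) :=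
  L.map (lm (x 0)) ⊔ L.map (lm (x 1)) ⊔ L.map (lm (x 2))

noncomputable def Ad (h : ℕ → T F) (n : ℕ) (P : Submodule F (T F)) : ℕ → Submodule F (T F)
  | 0 => P
  | k + 1 => Ad h n P k ⊔ (Tn F (n + 1 - (k + 2))).map (lm (h (k + 2)))

noncomputable def Lr (h : ℕ → T F) : ℕ → Submodule F (T F)
  | 0 => ⊥
  | n + 1 => Ad h n (Pj (Lr h n)) n

theorem Ad_ge (h : ℕ → T F) (n : ℕ) (P : Submodule F (T F)) (k : ℕ) : P ≤ Ad h n P k := by
  induction k with
  | zero => exact le_rfl
  | succ k ih => exact ih.trans le_sup_left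

theorem Ad_mono (h : ℕ → T F) (n : ℕ) (P : Submodule F (T F)) {k l : ℕ} (hkl : k ≤ l) :
    Ad h n P k ≤ Ad h n P l := by
  induction l, hkl using Nat.le_induction with
  | base => exact le_rfl
  | succ l _ ih => exact ih.trans le_sup_left

theorem x_Lr (h : ℕ → T F) (n : ℕ) (j : Fin 3) {l : T F} (hl : l ∈ Lr h n) :
    x j * l ∈ Pj (Lr h n) := by
  unfold Pj
  fin_cases j
  · exact Submodule.mem_sup_left (Submodule.mem_sup_left ⟨l, hl, rfl⟩)
  · exact Submodule.mem_sup_left (Submodule.mem_sup_right ⟨l, hl, rfl⟩)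
  · exact Submodule.mem_sup_right ⟨l, hl, rfl⟩

theorem h_Tn (h : ℕ → T F) (n i : ℕ) (hi : 2 ≤ i) (hin : i ≤ n + 1) {t : T F}
    (ht : t ∈ Tn F (n + 1 - i)) : h i * t ∈ Lr h (n + 1) := by
  obtain ⟨k, rfl⟩ : ∃ k, i = k + 2 := ⟨i - 2, by omega⟩
  apply Ad_mono h n (Pj (Lr h n)) (show k + 1 ≤ n by omega)
  exact Submodule.mem_sup_right ⟨t, ht, rfl⟩

/-- decomposition of words -/
theorem Tn_succ_le {a : ℕ} {Q : Submodule F (T F)} (L : Submodule F (T F))
    (hQ : ∀ j : Fin 3, ∀ t ∈ Tn F a, ∀ l ∈ L, x j * t * l ∈ Q) :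
    ∀ t ∈ Tn F (a + 1), ∀ l ∈ L, t * l ∈ Q := by
  intro t ht l hl
  rw [Tn_eq_span] at ht
  induction ht using Submodule.span_induction with
  | mem t ht =>
    obtain ⟨w, hw, rfl⟩ := ht
    change single w (1 : F) * l ∈ Q
    induction w using FreeMonoid.recOn with
    | one => simp at hw
    | of_mul j w _ =>
      have h1 : (single (FreeMonoid.of j * w) (1 : F) : T F) = x j * single w 1 := by
        unfold x
        rw [single_mul_single, mul_one]
      have hw' : w.length = a := by
        have : (FreeMonoid.of j * w).length = a + 1 := hw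
        rw [FreeMonoid.length_mul, FreeMonoid.length_of] at this
        omega
      rw [h1]
      exact hQ j _ (by rw [← hw']; exact single_mem) l hl
  | zero => rw [zero_mul]; exact Submodule.zero_mem _
  | add x y _ _ hx hy => rw [add_mul]; exact Submodule.add_mem _ hx hy
  | smul c x _ hx => rw [smul_mul_assoc]; exact Submodule.smul_mem _ _ hx

theorem Tn_zero_mul {L : Submodule F (T F)} {t l : T F} (ht : t ∈ Tn F 0) (hl : l ∈ L) :
    t * l ∈ L := by
  rw [Tn_eq_span] at ht
  induction ht using Submodule.span_induction with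
  | mem t ht =>
    obtain ⟨w, hw, rfl⟩ := ht
    have : w = 1 := FreeMonoid.length_eq_zero.mp hw
    subst this
    change (1 : T F) * l ∈ L
    rw [one_mul]; exact hl
  | zero => rw [zero_mul]; exact Submodule.zero_mem _
  | add x y _ _ hx hy => rw [add_mul]; exact Submodule.add_mem _ hx hy
  | smul c x _ hx => rw [smul_mul_assoc]; exact Submodule.smul_mem _ _ hx

theorem Tn_Lr (h : ℕ → T F) (a : ℕ) : ∀ m, ∀ t ∈ Tn F a, ∀ l ∈ Lr h m, t * l ∈ Lr h (a + m) := by
  induction a with
  | zero =>
    intro m t ht l hl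
    rw [Nat.zero_add]
    exact Tn_zero_mul ht hl
  | succ a ih =>
    intro m
    apply Tn_succ_le
    intro j t ht l hl
    rw [mul_assoc, show a + 1 + m = (a + m) + 1 by ring]
    exact Ad_ge h _ _ _ (x_Lr h _ j (ih m t ht l hl))

theorem Tn_Pj (h : ℕ → T F) (a m : ℕ) : ∀ t ∈ Tn F (a + 1), ∀ l ∈ Lr h m,
    t * l ∈ Pj (Lr h (a + m)) := by
  apply Tn_succ_le
  intro j t ht l hl
  rw [mul_assoc]
  exact x_Lr h _ j (Tn_Lr h a m t ht l hl)

theorem Lr_le (h : ℕ → T F) (hh : ∀ i, h i ∈ Tn F i) (n : ℕ) : Lr h n ≤ Tn F n := by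
  induction n with
  | zero => exact bot_le
  | succ n ih =>
    have hP : Pj (Lr h n) ≤ Tn F (n + 1) := by
      unfold Pj
      rw [sup_le_iff, sup_le_iff]
      refine ⟨⟨?_, ?_⟩, ?_⟩ <;>
      · rintro _ ⟨l, hl, rfl⟩
        rw [lm_apply, add_comm]
        exact Tn_mul (x_mem _) (ih hl)
    have : ∀ k, k ≤ n → Ad h n (Pj (Lr h n)) k ≤ Tn F (n + 1) := by
      intro k
      induction k with
      | zero => intro _; exact hP
      | succ k ihk =>
        intro hk
        refine sup_le (ihk (by omega)) ?_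
        rintro _ ⟨t, ht, rfl⟩
        have := Tn_mul (hh (k + 2)) ht
        rw [show k + 2 + (n + 1 - (k + 2)) = n + 1 by omega] at this
        exact this
    exact this n le_rfl

/-! ### dimensions -/

theorem finrank_sup_map_le {V : Type} [AddCommGroup V] [Module F V] (f : V →ₗ[F] V)
    (P A L : Submodule F V) [FiniteDimensional F P] [FiniteDimensional F A] (hLA : L ≤ A)
    (hf : L.map f ≤ P) :
    Module.finrank F ↥(P ⊔ A.map f) + Module.finrank F L ≤
      Module.finrank F P + Module.finrank F A := by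
  obtain ⟨C, hC⟩ := Submodule.exists_isCompl (L.comap A.subtype)
  let C' : Submodule F V := C.map A.subtype
  have hC'A : C' ≤ A := by
    rintro _ ⟨c, _, rfl⟩; exact c.2
  have : FiniteDimensional F L := Submodule.finiteDimensional_of_le hLA
  have : FiniteDimensional F C' := Submodule.finiteDimensional_of_le hC'A
  have h1 : P ⊔ A.map f ≤ P ⊔ C'.map f := by
    refine sup_le le_sup_left ?_
    rintro _ ⟨a, ha, rfl⟩
    have : (⟨a, ha⟩ : A) ∈ (L.comap A.subtype) ⊔ C := by rw [hC.sup_eq_top]; trivial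
    obtain ⟨l, hl, c, hc, hlc⟩ := Submodule.mem_sup.mp this
    have h2 : a = l.1 + c.1 := (congrArg Subtype.val hlc).symm
    rw [h2, map_add]
    exact Submodule.add_mem_sup (hf ⟨l.1, hl, rfl⟩) ⟨c.1, ⟨c, hc, rfl⟩, rfl⟩
  have h3 : Module.finrank F ↥(P ⊔ A.map f) ≤ Module.finrank F P + Module.finrank F C' := by
    calc Module.finrank F ↥(P ⊔ A.map f) ≤ Module.finrank F ↥(P ⊔ C'.map f) :=
          Submodule.finrank_mono h1
      _ ≤ Module.finrank F P + Module.finrank F ↥(C'.map f) :=
          Submodule.finrank_add_le_finrank_add_finrank _ _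
      _ ≤ Module.finrank F P + Module.finrank F C' := by
          gcongr; exact Submodule.finrank_map_le _ _
  have h4 : Module.finrank F C' = Module.finrank F C :=
    (Submodule.equivMapOfInjective A.subtype A.injective_subtype C).finrank_eq.symm
  have h5 : Module.finrank F (L.comap A.subtype) = Module.finrank F L := by
    exact (Submodule.comapSubtypeEquivOfLe hLA).finrank_eq
  have h6 := Submodule.finrank_add_eq_of_isCompl hC
  omega

section dims
variable (h : ℕ → T F) (hh : ∀ i, h i ∈ Tn F i)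

include hh in
theorem fd_Lr (n : ℕ) : FiniteDimensional F (Lr h n) :=
  Submodule.finiteDimensional_of_le (Lr_le h hh n)

theorem fd_Pj (L : Submodule F (T F)) [FiniteDimensional F L] : FiniteDimensional F (Pj L) := by
  unfold Pj; infer_instance

theorem fd_Ad (n : ℕ) (P : Submodule F (T F)) [FiniteDimensional F P] (k : ℕ) :
    FiniteDimensional F (Ad h n P k) := by
  induction k with
  | zero => assumption
  | succ k ih =>
    change FiniteDimensional F ↥(Ad h n P k ⊔ (Tn F (n + 1 - (k + 2))).map (lm (h (k + 2))))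
    infer_instance

include hh in
theorem Ad_finrank (n k : ℕ) (hk : k ≤ n) :
    Module.finrank F (Ad h n (Pj (Lr h n)) k) + ∑ i ∈ Finset.range k,
      Module.finrank F (Lr h (n - 1 - i)) ≤
    3 * Module.finrank F (Lr h n) + ∑ i ∈ Finset.range k, 3 ^ (n - 1 - i) := by
  have := fd_Lr h hh n
  have := fd_Pj (Lr h n)
  induction k with
  | zero =>
    simp only [Finset.range_zero, Finset.sum_empty, add_zero]
    change Module.finrank F (Pj (Lr h n)) ≤ _
    unfold Pj
    have h1 := Submodule.finrank_add_le_finrank_add_finrank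
      ((Lr h n).map (lm (x 0)) ⊔ (Lr h n).map (lm (x 1))) ((Lr h n).map (lm (x 2)))
    have h2 := Submodule.finrank_add_le_finrank_add_finrank
      ((Lr h n).map (lm (x 0))) ((Lr h n).map (lm (x 1)))
    have h3 := Submodule.finrank_map_le (lm (x 0)) (Lr h n)
    have h4 := Submodule.finrank_map_le (lm (x 1)) (Lr h n)
    have h5 := Submodule.finrank_map_le (lm (x 2)) (Lr h n)
    omega
  | succ k ih =>
    have ih' := ih (by omega)
    have := fd_Ad h n (Pj (Lr h n)) k
    have e : n + 1 - (k + 2) = n - 1 - k := by omega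
    have h1 := finrank_sup_map_le (lm (h (k + 2))) (Ad h n (Pj (Lr h n)) k) (Tn F (n - 1 - k))
      (Lr h (n - 1 - k)) (Lr_le h hh _) (by
        rintro _ ⟨l, hl, rfl⟩
        apply Ad_ge h n (Pj (Lr h n)) k
        have := Tn_Pj h (k + 1) (n - 1 - k) _ (hh (k + 1 + 1)) l hl
        rw [show k + 1 + (n - 1 - k) = n by omega] at this
        exact this)
    rw [(finrank_Tn (F := F) (n - 1 - k)).1] at h1
    rw [Finset.sum_range_succ, Finset.sum_range_succ]
    change Module.finrank F ↥(Ad h n (Pj (Lr h n)) k ⊔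
      (Tn F (n + 1 - (k + 2))).map (lm (h (k + 2)))) + _ ≤ _
    rw [e]
    omega

include hh in
theorem main_ineq (n : ℕ) : (∑ k ∈ Finset.range n, (3 ^ k - Module.finrank F (Lr h k)) ≤
      3 ^ n - Module.finrank F (Lr h n)) ∧ 1 ≤ 3 ^ n - Module.finrank F (Lr h n) := by
  have hle : ∀ n, Module.finrank F (Lr h n) ≤ 3 ^ n := by
    intro n
    rw [← (finrank_Tn (F := F) n).1]
    exact Submodule.finrank_mono (Lr_le h hh n)
  induction n with
  | zero =>
    have : Module.finrank F (Lr h 0) = 0 := by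
      change Module.finrank F (⊥ : Submodule F (T F)) = 0
      simp
    simp [this]
  | succ n ih =>
    have h1 := Ad_finrank h hh n n le_rfl
    rw [Finset.sum_range_reflect (fun i => Module.finrank F (Lr h i)) n,
      Finset.sum_range_reflect (fun i => 3 ^ i) n] at h1
    have h2 : ∑ k ∈ Finset.range n, 3 ^ k = ∑ k ∈ Finset.range n, (3 ^ k - Module.finrank F (Lr h k)) +
        ∑ k ∈ Finset.range n, Module.finrank F (Lr h k) := by
      rw [← Finset.sum_add_distrib]
      refine Finset.sum_congr rfl fun k _ => ?_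
      rw [Nat.sub_add_cancel (hle k)]
    have h3 : Module.finrank F (Lr h (n + 1)) + ∑ i ∈ Finset.range n, Module.finrank F (Lr h i) ≤
      3 * Module.finrank F (Lr h n) + ∑ i ∈ Finset.range n, 3 ^ i := h1
    have h4 := hle n
    have h5 := hle (n + 1)
    rw [Finset.sum_range_succ, pow_succ]
    rw [pow_succ] at h5
    obtain ⟨ih1, ih2⟩ := ih
    constructor <;> omega

include hh in
theorem exists_not_mem (n : ℕ) : ∃ a ∈ Tn F n, a ∉ Lr h n := by
  by_contra hcon
  push Not at hcon
  have h1 : Lr h n = Tn F n := le_antisymm (Lr_le h hh n) hcon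
  have h2 := (main_ineq h hh n).2
  rw [h1, (finrank_Tn (F := F) n).1] at h2
  omega

end dims

end Pool.Agent.H4.GS
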