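import Mathlib
import Pool.Agent.H4.GS1
import Pool.Agent.H4.GS2

set_option autoImplicit false

namespace Pool.Agent.H4.GS

open MonoidAlgebra
open scoped Pointwise

variable {F : Type} [Field F]

theorem comp_mul_left {i : ℕ} {u : T F} (hu : u ∈ Tn F i) (n : ℕ) (f : T F) :
    comp F n (u * f) = if i ≤ n then u * comp F (n - i) f else 0 := by
  rw [Tn_eq_span] at hu
  induction hu using Submodule.span_induction with
  | mem u hu =>
    obtain ⟨w, hw, rfl⟩ := hu
    have hw' : w.length = i := hw
    change comp F n (single w (1 : F) * f) = if i ≤ n then single w (1 : F) * _ else 0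
    rw [comp_single_mul, hw']
  | zero => simp
  | add x y _ _ hx hy =>
    rw [add_mul, map_add, hx, hy, add_mul]
    split_ifs
    · rfl
    · simp
  | smul c x _ hx =>
    rw [smul_mul_assoc, map_smul, hx]
    split_ifs
    · rw [smul_mul_assoc]
    · simp

/-- the left ideal -/
noncomputable def Lid (h : ℕ → T F) : Submodule (T F) (T F) where
  carrier := {f | ∀ n, comp F n f ∈ Lr h n}
  add_mem' hf hg n := by rw [map_add]; exact Submodule.add_mem _ (hf n) (hg n)
  zero_mem' n := by rw [map_zero]; exact Submodule.zero_mem _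
  smul_mem' t f hf n := by
    rw [smul_eq_mul]
    induction t using MonoidAlgebra.induction_linear with
    | zero => rw [zero_mul, map_zero]; exact Submodule.zero_mem _
    | add s t hs ht => rw [add_mul, map_add]; exact Submodule.add_mem _ hs ht
    | single w c =>
      rw [comp_single_mul]
      split_ifs with h1
      · have := Tn_Lr h w.length (n - w.length) _ (single_mem (w := w) (c := c)) _
          (hf (n - w.length))
        rw [Nat.add_sub_cancel' h1] at this
        exact this
      · exact Submodule.zero_mem _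

theorem mem_Lid {h : ℕ → T F} {f : T F} : f ∈ Lid h ↔ ∀ n, comp F n f ∈ Lr h n := Iff.rfl

theorem h_mem (h : ℕ → T F) (hh : ∀ i, h i ∈ Tn F i) (i : ℕ) (hi : 2 ≤ i) (t : T F) :
    h i * t ∈ Lid h := by
  rw [mem_Lid]
  intro n
  rw [comp_mul_left (hh i)]
  split_ifs with h1
  · obtain ⟨m, rfl⟩ : ∃ m, n = m + 1 := ⟨n - 1, by omega⟩
    exact h_Tn h m i hi h1 (comp_mem _ _)
  · exact Submodule.zero_mem _

/-! ### bounds on supports -/

def Bd (l m : ℕ) (f : T F) : Prop := ∀ w : W, f.coeff w ≠ 0 → l ≤ w.length ∧ w.length ≤ m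

theorem Bd_mul {l m l' m' : ℕ} {f g : T F} (hf : Bd l m f) (hg : Bd l' m' g) :
    Bd (l + l') (m + m') (f * g) := by
  intro w hw
  have h1 := support_coeff_mul_subset f g (Finsupp.mem_support_iff.mpr hw)
  rw [Finset.mem_mul] at h1
  obtain ⟨u, hu, v, hv, rfl⟩ := h1
  rw [Finsupp.mem_support_iff] at hu hv
  have h2 := hf u hu
  have h3 := hg v hv
  rw [FreeMonoid.length_mul]
  omega

theorem Bd_one : Bd 0 0 (1 : T F) := by
  intro w hw
  rw [MonoidAlgebra.one_def, coeff_single, Finsupp.single_apply] at hw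
  split_ifs at hw with h1
  · rw [← h1]; exact ⟨le_rfl, le_rfl⟩
  · exact absurd rfl hw

theorem Bd_pow {m : ℕ} {f : T F} (hf : Bd 1 m f) (N : ℕ) : Bd N (N * m) (f ^ N) := by
  induction N with
  | zero => rw [pow_zero, Nat.zero_mul]; exact Bd_one
  | succ N ih =>
    rw [pow_succ, Nat.add_mul, one_mul]
    exact Bd_mul ih hf

theorem exists_Bd {f : T F} (hf : comp F 0 f = 0) : ∃ m, 1 ≤ m ∧ Bd 1 m f := by
  refine ⟨f.coeff.support.sup (fun w => w.length) + 1, by omega, fun w hw => ⟨?_, ?_⟩⟩
  · by_contra h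
    have h0 : w.length = 0 := by omega
    have := congrArg (fun g : T F => g.coeff w) hf
    simp only [comp_coeff, h0, if_true] at this
    exact hw this
  · have := Finset.le_sup (f := fun w : W => w.length) (Finsupp.mem_support_iff.mpr hw)
    exact le_trans this (Nat.le_succ _)

theorem sum_comp {l m : ℕ} {f : T F} (hf : Bd l m f) :
    f = ∑ d ∈ Finset.range (m + 1), comp F d f := by
  apply coeff_injective
  ext w
  rw [coeff_sum, Finsupp.finsetSum_apply]
  simp only [comp_coeff]
  by_cases hw : f.coeff w = 0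
  · rw [hw]; simp
  · rw [Finset.sum_eq_single w.length]
    · rw [if_pos rfl]
    · intro d _ hd; rw [if_neg hd.symm]
    · intro h
      rw [Finset.mem_range] at h
      have := (hf w hw).2
      omega

theorem comp_Bd {l m : ℕ} {f : T F} (hf : Bd l m f) (d : ℕ) (hd : d < l ∨ m < d) :
    comp F d f = 0 := by
  apply coeff_injective
  ext w
  rw [comp_coeff]
  split_ifs with h
  · by_contra hne
    have := hf w hne
    omega
  · rfl

/-! ### choice of the relations -/

section rel
variable (fe : ℕ → T F) (D : ℕ → ℕ)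

def NN : ℕ → ℕ
  | 0 => 2
  | i + 1 => NN i * D i + 1

variable (hD : ∀ i, 1 ≤ D i) (hfe : ∀ i, Bd 1 (D i) (fe i))

include hD in
theorem NN_mono : StrictMono (NN D) := by
  apply strictMono_nat_of_lt_succ
  intro n
  change NN D n < NN D n * D n + 1
  nlinarith [hD n]

include hD in
theorem NN_ge (i : ℕ) : 2 ≤ NN D i := by
  have := (NN_mono D hD).monotone (Nat.zero_le i)
  exact this

open Classical in
noncomputable def hrel (d : ℕ) : T F :=
  if hd : ∃ i, NN D i ≤ d ∧ d < NN D (i + 1) then comp F d ((fe hd.choose) ^ (NN D hd.choose)) else 0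

theorem hrel_mem (d : ℕ) : hrel fe D d ∈ Tn F d := by
  unfold hrel
  split_ifs
  · exact comp_mem _ _
  · exact Submodule.zero_mem _

include hD in
theorem hrel_eq (i d : ℕ) (h1 : NN D i ≤ d) (h2 : d < NN D (i + 1)) :
    hrel fe D d = comp F d ((fe i) ^ (NN D i)) := by
  have hd : ∃ i, NN D i ≤ d ∧ d < NN D (i + 1) := ⟨i, h1, h2⟩
  unfold hrel
  rw [dif_pos hd]
  have h3 := hd.choose_spec
  have h4 : hd.choose = i := by
    have a1 : NN D hd.choose < NN D (i + 1) := lt_of_le_of_lt h3.1 h2
    have a2 : NN D i < NN D (hd.choose + 1) := lt_of_le_of_lt h1 h3.2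
    have := (NN_mono D hD).lt_iff_lt.mp a1
    have := (NN_mono D hD).lt_iff_lt.mp a2
    omega
  rw [h4]

include hD hfe in
theorem pow_mul_mem (i : ℕ) (t : T F) : (fe i) ^ (NN D i) * t ∈ Lid (hrel fe D) := by
  have hB := Bd_pow (hfe i) (NN D i)
  rw [sum_comp hB, Finset.sum_mul]
  refine Submodule.sum_mem _ fun d _ => ?_
  by_cases h : NN D i ≤ d ∧ d < NN D (i + 1)
  · rw [← hrel_eq fe D hD i d h.1 h.2]
    exact h_mem _ (hrel_mem fe D) d (le_trans (NN_ge D hD i) h.1) t
  · rw [comp_Bd hB d, zero_mul]
    · exact Submodule.zero_mem _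
    · have : NN D (i + 1) = NN D i * D i + 1 := rfl
      omega

end rel

theorem GS_exists [Countable F] : ∃ (L : Submodule (T F) (T F)) (a : ℕ → T F),
    (∀ f : T F, ∃ (c : F) (N : ℕ), ∀ t, (f - algebraMap F (T F) c) ^ N * t ∈ L) ∧
    (1 : T F) ∉ L ∧
    LinearIndependent F (fun n => (Submodule.Quotient.mk (a n) : T F ⧸ L)) := by
  have hcT : Countable (T F) := by
    have : Function.Injective (fun f : T F => f.coeff) := coeff_injective
    have h2 : Countable W := inferInstanceAs (Countable (List (Fin 3)))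
    exact this.countable
  let A : Set (T F) := {f | comp F 0 f = 0}
  have hne : A.Nonempty := ⟨0, map_zero _⟩
  have hcA : A.Countable := Set.to_countable A
  obtain ⟨fe, hfe⟩ := hcA.exists_eq_range hne
  have hmem : ∀ i, comp F 0 (fe i) = 0 := fun i => by
    have : fe i ∈ A := by rw [hfe]; exact ⟨i, rfl⟩
    exact this
  choose D hD hB using fun i => exists_Bd (hmem i)
  have hh := hrel_mem fe D
  choose a ha ha' using fun n => exists_not_mem (hrel fe D) hh n
  refine ⟨Lid (hrel fe D), a, ?_, ?_, ?_⟩
  · intro f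
    let c : F := f.coeff 1
    have h0 : f - algebraMap F (T F) c ∈ A := by
      change comp F 0 _ = 0
      apply coeff_injective
      ext w
      rw [comp_coeff]
      split_ifs with hw
      · have : w = 1 := FreeMonoid.length_eq_zero.mp hw
        subst this
        rw [coeff_sub, MonoidAlgebra.coe_algebraMap]
        simp [c]
      · rfl
    rw [hfe] at h0
    obtain ⟨i, hi⟩ := h0
    refine ⟨c, NN D i, fun t => ?_⟩
    rw [← hi]
    exact pow_mul_mem fe D hD hB i t
  · intro h1
    have h2 := mem_Lid.mp h1 0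
    have h3 : (1 : T F) ∈ Tn F 0 := single_mem (w := 1) (c := 1)
    rw [comp_of_mem h3] at h2
    have h4 : (1 : T F) ∈ (⊥ : Submodule F (T F)) := h2
    exact one_ne_zero ((Submodule.mem_bot F).mp h4)
  · rw [linearIndependent_iff']
    intro s g hg n hn
    have h1 : (∑ i ∈ s, g i • a i) ∈ Lid (hrel fe D) := by
      rw [← Submodule.Quotient.mk_eq_zero]
      rw [← hg]
      rw [← Submodule.mkQ_apply, map_sum]
      rfl
    have h2 := mem_Lid.mp h1 n
    rw [map_sum, Finset.sum_eq_single n] at h2
    · rw [map_smul, comp_of_mem (ha n)] at h2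
      by_contra hne
      apply ha' n
      have := Submodule.smul_mem _ (g n)⁻¹ h2
      rwa [smul_smul, inv_mul_cancel₀ hne, one_smul] at this
    · intro i _ hi
      rw [map_smul, comp_of_mem_ne (ha i) hi, smul_zero]
    · intro h; exact absurd hn h

end Pool.Agent.H4.GS
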