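import Mathlib

set_option autoImplicit false

open MvPowerSeries

namespace Pool.Agent.H4.HN

noncomputable section

abbrev R4 := MvPowerSeries (Fin 4) ℂ

def D (i : Fin 4) : Derivation ℂ R4 R4 := MvPowerSeries.pderiv ℂ i

def lap (P : R4) : R4 := ∑ i : Fin 4, D i (D i P)

def j : R4 := C Complex.I

lemma hj : j * j = -1 := by
  rw [j, ← map_mul, Complex.I_mul_I, map_neg, map_one]

lemma D_j (i : Fin 4) : D i j = 0 := MvPowerSeries.pderiv_C

lemma D_comm (a b : Fin 4) (f : R4) : D a (D b f) = D b (D a f) := by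
  ext n
  simp only [D, coeff_pderiv]
  by_cases h : a = b
  · subst h; ring
  · have e1 : (n + Finsupp.single a 1 : Fin 4 →₀ ℕ) b = n b := by
      simp [Finsupp.single_apply, h]
    have e2 : (n + Finsupp.single b 1 : Fin 4 →₀ ℕ) a = n a := by
      simp [Finsupp.single_apply, Ne.symm h]
    rw [e1, e2, add_right_comm]
    ring

lemma D_one (i : Fin 4) : D i (1 : R4) = 0 := Derivation.map_one_eq_zero _

def x : R4 := X 0 + j * X 1
def w : R4 := X 0 - j * X 1
def a : R4 := X 2 + j * X 3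
def g : R4 := (1 - x)⁻¹
/-- `f = x ^ 2 + x ^ 3 + ⋯` -/
def f : R4 := g - 1 - x
def P : R4 := a * f + a ^ 2 * w

lemma D_mul (i : Fin 4) (p q : R4) : D i (p * q) = p * D i q + q * D i p := by
  rw [Derivation.leibniz]; rfl

lemma D_jmul (i : Fin 4) (q : R4) : D i (j * q) = j * D i q := by
  rw [D_mul, D_j, mul_zero, add_zero]

lemma DX_self (i : Fin 4) : D i (X i) = 1 := pderiv_X_self
lemma DX_ne (i k : Fin 4) (h : k ≠ i) : D i (X k) = 0 := pderiv_X_of_ne h

lemma D0x : D 0 x = 1 := by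
  rw [x, map_add, D_jmul, DX_self, DX_ne 0 1 (by decide)]; ring
lemma D1x : D 1 x = j := by
  rw [x, map_add, D_jmul, DX_self, DX_ne 1 0 (by decide)]; ring
lemma D2x : D 2 x = 0 := by
  rw [x, map_add, D_jmul, DX_ne 2 1 (by decide), DX_ne 2 0 (by decide)]; ring
lemma D3x : D 3 x = 0 := by
  rw [x, map_add, D_jmul, DX_ne 3 1 (by decide), DX_ne 3 0 (by decide)]; ring
lemma D0w : D 0 w = 1 := by
  rw [w, map_sub, D_jmul, DX_self, DX_ne 0 1 (by decide)]; ring
lemma D1w : D 1 w = -j := by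
  rw [w, map_sub, D_jmul, DX_self, DX_ne 1 0 (by decide)]; ring
lemma D2w : D 2 w = 0 := by
  rw [w, map_sub, D_jmul, DX_ne 2 1 (by decide), DX_ne 2 0 (by decide)]; ring
lemma D3w : D 3 w = 0 := by
  rw [w, map_sub, D_jmul, DX_ne 3 1 (by decide), DX_ne 3 0 (by decide)]; ring
lemma D0a : D 0 a = 0 := by
  rw [a, map_add, D_jmul, DX_ne 0 2 (by decide), DX_ne 0 3 (by decide)]; ring
lemma D1a : D 1 a = 0 := by
  rw [a, map_add, D_jmul, DX_ne 1 2 (by decide), DX_ne 1 3 (by decide)]; ring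
lemma D2a : D 2 a = 1 := by
  rw [a, map_add, D_jmul, DX_self, DX_ne 2 3 (by decide)]; ring
lemma D3a : D 3 a = j := by
  rw [a, map_add, D_jmul, DX_self, DX_ne 3 2 (by decide)]; ring

lemma g_mul : g * (1 - x) = 1 := by
  rw [g, MvPowerSeries.inv_mul_cancel]
  simp [x, j]

lemma Dg (i : Fin 4) : D i g = g ^ 2 * D i x := by
  have h1 : D i (g * (1 - x)) = 0 := by rw [g_mul]; exact D_one _
  rw [D_mul, map_sub, D_one] at h1
  have h2 := g_mul
  have h3 : D i g * ((1 - x) * g) = g ^ 2 * D i x := by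
    linear_combination g * h1
  rw [mul_comm (1 - x), g_mul, mul_one] at h3
  exact h3

lemma Df (i : Fin 4) : D i f = (g ^ 2 - 1) * D i x := by
  rw [f, map_sub, map_sub, Dg, D_one]; ring

lemma DP (i : Fin 4) : D i P = a * (g ^ 2 - 1) * D i x + f * D i a + a ^ 2 * D i w
    + 2 * a * w * D i a := by
  rw [P, map_add, D_mul, D_mul, Df, sq a, D_mul]; ring

lemma Dg2 (i : Fin 4) : D i (g ^ 2) = 2 * g ^ 3 * D i x := by
  rw [sq, D_mul, Dg]; ring

lemma DDP (i k : Fin 4) (hx : D i (D k x) = 0) (hw : D i (D k w) = 0) (ha : D i (D k a) = 0) :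
    D i (D k P) = a * (2 * g ^ 3) * D i x * D k x + (g ^ 2 - 1) * (D i x * D k a + D i a * D k x)
      + 2 * a * (D i w * D k a + D i a * D k w) + 2 * w * (D i a * D k a) := by
  have h2 : D i (2 : R4) = 0 := by
    have : (2 : R4) = 1 + 1 := by norm_num
    rw [this, map_add, D_one, add_zero]
  have h1 : D i (1 : R4) = 0 := D_one i
  rw [DP, map_add, map_add, map_add, D_mul, D_mul, D_mul i f, D_mul i (a ^ 2), D_mul, D_mul, D_mul,
    hx, hw, ha, Df, map_sub, Dg2, h1, sq a, D_mul, h2]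
  ring

lemma ddx (i k : Fin 4) : D i (D k x) = 0 := by
  fin_cases k
  · show D i (D 0 x) = 0
    rw [D0x]; exact D_one _
  · show D i (D 1 x) = 0
    rw [D1x, D_j]
  · show D i (D 2 x) = 0
    rw [D2x, map_zero]
  · show D i (D 3 x) = 0
    rw [D3x, map_zero]

lemma ddw (i k : Fin 4) : D i (D k w) = 0 := by
  fin_cases k
  · show D i (D 0 w) = 0
    rw [D0w]; exact D_one _
  · show D i (D 1 w) = 0
    rw [D1w, map_neg, D_j, neg_zero]
  · show D i (D 2 w) = 0
    rw [D2w, map_zero]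
  · show D i (D 3 w) = 0
    rw [D3w, map_zero]

lemma dda (i k : Fin 4) : D i (D k a) = 0 := by
  fin_cases k
  · show D i (D 0 a) = 0
    rw [D0a, map_zero]
  · show D i (D 1 a) = 0
    rw [D1a, map_zero]
  · show D i (D 2 a) = 0
    rw [D2a]; exact D_one _
  · show D i (D 3 a) = 0
    rw [D3a, D_j]

/-- gradient vectors -/
def vx : Fin 4 → R4 := ![1, j, 0, 0]
def vw : Fin 4 → R4 := ![1, -j, 0, 0]
def va : Fin 4 → R4 := ![0, 0, 1, j]

lemma Dx_eq (i : Fin 4) : D i x = vx i := by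
  fin_cases i
  · exact D0x
  · exact D1x
  · exact D2x
  · exact D3x
lemma Dw_eq (i : Fin 4) : D i w = vw i := by
  fin_cases i
  · exact D0w
  · exact D1w
  · exact D2w
  · exact D3w
lemma Da_eq (i : Fin 4) : D i a = va i := by
  fin_cases i
  · exact D0a
  · exact D1a
  · exact D2a
  · exact D3a

open Matrix in
lemma nilp (p q r s : R4) :
    (p • vecMulVec vx vx + q • (vecMulVec vx va + vecMulVec va vx)
      + r • (vecMulVec vw va + vecMulVec va vw) + s • vecMulVec va va :
      Matrix (Fin 4) (Fin 4) R4) ^ 4 = 0 := by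
  have e1 : vx ⬝ᵥ vx = 0 := by simp [vx, Fin.sum_univ_four, dotProduct, hj]
  have e2 : vx ⬝ᵥ vw = 2 := by
    simp [vx, vw, Fin.sum_univ_four, dotProduct, hj]; norm_num
  have e3 : vw ⬝ᵥ vx = 2 := by
    simp [vx, vw, Fin.sum_univ_four, dotProduct, hj]; norm_num
  have e4 : vw ⬝ᵥ vw = 0 := by simp [vw, Fin.sum_univ_four, dotProduct, hj]
  have e5 : va ⬝ᵥ va = 0 := by simp [va, Fin.sum_univ_four, dotProduct, hj]
  have e6 : va ⬝ᵥ vx = 0 := by simp [va, vx, Fin.sum_univ_four, dotProduct]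
  have e7 : vx ⬝ᵥ va = 0 := by simp [va, vx, Fin.sum_univ_four, dotProduct]
  have e8 : va ⬝ᵥ vw = 0 := by simp [va, vw, Fin.sum_univ_four, dotProduct]
  have e9 : vw ⬝ᵥ va = 0 := by simp [va, vw, Fin.sum_univ_four, dotProduct]
  have hsq : (p • vecMulVec vx vx + q • (vecMulVec vx va + vecMulVec va vx)
      + r • (vecMulVec vw va + vecMulVec va vw) + s • vecMulVec va va :
      Matrix (Fin 4) (Fin 4) R4) * (p • vecMulVec vx vx + q • (vecMulVec vx va + vecMulVec va vx)
      + r • (vecMulVec vw va + vecMulVec va vw) + s • vecMulVec va va :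
      Matrix (Fin 4) (Fin 4) R4) =
      (2 * p * r) • (vecMulVec vx va + vecMulVec va vx) + (4 * q * r) • vecMulVec va va := by
    simp only [add_mul, mul_add, Matrix.smul_mul, Matrix.mul_smul, Matrix.vecMulVec_mul_vecMulVec,
      smul_add, e1, e2, e3, e4, e5, e6, e7, e8, e9]
    refine Matrix.ext fun i k => ?_
    simp only [Matrix.add_apply, Matrix.smul_apply, Matrix.vecMulVec_apply, Pi.smul_apply,
      smul_eq_mul, MulOpposite.smul_eq_mul_unop, MulOpposite.unop_op]
    ring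
  have h4 : (p • vecMulVec vx vx + q • (vecMulVec vx va + vecMulVec va vx)
      + r • (vecMulVec vw va + vecMulVec va vw) + s • vecMulVec va va :
      Matrix (Fin 4) (Fin 4) R4) ^ 4 = ((p • vecMulVec vx vx + q • (vecMulVec vx va + vecMulVec va vx)
      + r • (vecMulVec vw va + vecMulVec va vw) + s • vecMulVec va va :
      Matrix (Fin 4) (Fin 4) R4) * (p • vecMulVec vx vx + q • (vecMulVec vx va + vecMulVec va vx)
      + r • (vecMulVec vw va + vecMulVec va vw) + s • vecMulVec va va :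
      Matrix (Fin 4) (Fin 4) R4)) * ((p • vecMulVec vx vx + q • (vecMulVec vx va + vecMulVec va vx)
      + r • (vecMulVec vw va + vecMulVec va vw) + s • vecMulVec va va :
      Matrix (Fin 4) (Fin 4) R4) * (p • vecMulVec vx vx + q • (vecMulVec vx va + vecMulVec va vx)
      + r • (vecMulVec vw va + vecMulVec va vw) + s • vecMulVec va va :
      Matrix (Fin 4) (Fin 4) R4)) := by
    noncomm_ring
  rw [h4, hsq]
  simp only [add_mul, mul_add, Matrix.smul_mul, Matrix.mul_smul, Matrix.vecMulVec_mul_vecMulVec,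
      smul_add, e1, e2, e3, e4, e5, e6, e7, e8, e9]
  refine Matrix.ext fun i k => ?_
  simp only [Matrix.add_apply, Matrix.smul_apply, Matrix.vecMulVec_apply, Pi.smul_apply,
      smul_eq_mul, MulOpposite.smul_eq_mul_unop, MulOpposite.unop_op, Matrix.zero_apply]
  ring

theorem hess_nilp : (Matrix.of fun i k => D i (D k P)) ^ 4 = (0 : Matrix (Fin 4) (Fin 4) R4) := by
  have h := nilp (a * (2 * g ^ 3)) (g ^ 2 - 1) (2 * a) (2 * w)
  have e : (Matrix.of fun i k => D i (D k P)) = ((a * (2 * g ^ 3)) • Matrix.vecMulVec vx vx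
      + (g ^ 2 - 1) • (Matrix.vecMulVec vx va + Matrix.vecMulVec va vx)
      + (2 * a) • (Matrix.vecMulVec vw va + Matrix.vecMulVec va vw)
      + (2 * w) • Matrix.vecMulVec va va : Matrix (Fin 4) (Fin 4) R4) := by
    refine Matrix.ext fun i k => ?_
    rw [Matrix.of_apply, DDP i k (ddx i k) (ddw i k) (dda i k)]
    simp only [Dx_eq, Dw_eq, Da_eq, Matrix.add_apply, Matrix.smul_apply, Matrix.vecMulVec_apply,
      smul_eq_mul]
    ring
  rw [e]; exact h

/-- the operators `∂_0 - i ∂_1`, `∂_0 + i ∂_1`, `∂_2 - i ∂_3`, `∂_2 + i ∂_3` -/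
def dx (q : R4) : R4 := D 0 q - j * D 1 q
def dw (q : R4) : R4 := D 0 q + j * D 1 q
def da (q : R4) : R4 := D 2 q - j * D 3 q
def db (q : R4) : R4 := D 2 q + j * D 3 q

lemma lap_eq (q : R4) : lap q = dx (dw q) + da (db q) := by
  simp only [lap, Fin.sum_univ_four, dx, dw, da, db, map_add, D_jmul]
  rw [D_comm 1 0, D_comm 3 2]
  linear_combination (D 1 (D 1 q) + D 3 (D 3 q)) * hj

lemma db_dx (q : R4) : db (dx q) = dx (db q) := by
  simp only [dx, db, map_add, map_sub, D_jmul]
  rw [D_comm 2 0, D_comm 2 1, D_comm 3 0, D_comm 3 1]; ring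

lemma db_dw (q : R4) : db (dw q) = dw (db q) := by
  simp only [dw, db, map_add, D_jmul]
  rw [D_comm 2 0, D_comm 2 1, D_comm 3 0, D_comm 3 1]; ring

lemma dx_dw (q : R4) : dx (dw q) = dw (dx q) := by
  simp only [dx, dw, map_add, map_sub, D_jmul]
  rw [D_comm 1 0]; ring

lemma dx_mul (p q : R4) : dx (p * q) = p * dx q + q * dx p := by
  simp only [dx, D_mul]; ring
lemma dw_mul (p q : R4) : dw (p * q) = p * dw q + q * dw p := by
  simp only [dw, D_mul]; ring
lemma db_mul (p q : R4) : db (p * q) = p * db q + q * db p := by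
  simp only [db, D_mul]; ring

lemma da_zero : da 0 = 0 := by simp [da]
lemma dx_zero : dx 0 = 0 := by simp [dx]
lemma dw_zero : dw 0 = 0 := by simp [dw]

lemma lap_iter (q : R4) (hq : db q = 0) (m : ℕ) :
    lap^[m] q = dx^[m] (dw^[m] q) ∧ db (lap^[m] q) = 0 := by
  induction m with
  | zero => exact ⟨rfl, hq⟩
  | succ m ih =>
    obtain ⟨h1, h2⟩ := ih
    have hc : ∀ k (p : R4), dw (dx^[k] p) = dx^[k] (dw p) := by
      intro k
      induction k with
      | zero => intro p; rfl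
      | succ k ihk =>
        intro p
        rw [Function.iterate_succ_apply', ← dx_dw, ihk, Function.iterate_succ_apply']
    have h3 : lap^[m + 1] q = dx (dw (lap^[m] q)) := by
      rw [Function.iterate_succ_apply', lap_eq, h2, da_zero, add_zero]
    refine ⟨?_, ?_⟩
    · rw [h3, h1, hc, ← Function.iterate_succ_apply' dx, ← Function.iterate_succ_apply' dw]
    · rw [h3, db_dx, db_dw, h2, dw_zero, dx_zero]

lemma dx_x : dx x = 2 := by
  rw [dx, D0x, D1x]; linear_combination -hj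
lemma dw_x : dw x = 0 := by
  rw [dw, D0x, D1x]; linear_combination hj
lemma dx_w : dx w = 0 := by
  rw [dx, D0w, D1w]; linear_combination hj
lemma dw_w : dw w = 2 := by
  rw [dw, D0w, D1w]; linear_combination -hj
lemma dx_a : dx a = 0 := by rw [dx, D0a, D1a]; ring
lemma dw_a : dw a = 0 := by rw [dw, D0a, D1a]; ring
lemma db_a : db a = 0 := by
  rw [db, D2a, D3a]; linear_combination hj
lemma db_w : db w = 0 := by rw [db, D2w, D3w]; ring
lemma dx_f : dx f = 2 * (g ^ 2 - 1) := by
  have := dx_x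
  rw [dx] at this
  rw [dx, Df, Df]; linear_combination (g ^ 2 - 1) * this
lemma dw_f : dw f = 0 := by
  have := dw_x
  rw [dw] at this
  rw [dw, Df, Df]; linear_combination (g ^ 2 - 1) * this
lemma db_f : db f = 0 := by rw [db, Df, Df, D2x, D3x]; ring
lemma dx_g : dx g = 2 * g ^ 2 := by
  have := dx_x
  rw [dx] at this
  rw [dx, Dg, Dg]; linear_combination (g ^ 2) * this

/-- `P = a u` -/
def u : R4 := f + a * w

lemma P_eq : P = a * u := by rw [P, u]; ring

lemma dw_u : dw u = 2 * a := by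
  have h1 := dw_mul a w
  rw [dw_a, dw_w] at h1
  have h2 : dw u = dw f + dw (a * w) := by simp only [u, dw, map_add]; ring
  rw [h2, h1, dw_f]; ring

lemma db_u : db u = 0 := by
  have h1 := db_mul a w
  rw [db_a, db_w] at h1
  have h2 : db u = db f + db (a * w) := by simp only [u, db, map_add]; ring
  rw [h2, h1, db_f]; ring

lemma dx_u : dx u = 2 * (g ^ 2 - 1) := by
  have h1 := dx_mul a w
  rw [dx_a, dx_w] at h1
  have h2 : dx u = dx f + dx (a * w) := by simp only [u, dx, map_add]; ring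
  rw [h2, h1, dx_f]; ring

lemma dw_nat (n : ℕ) : dw (n : R4) = 0 := by
  rw [dw, Derivation.map_natCast, Derivation.map_natCast]; ring
lemma dx_nat (n : ℕ) : dx (n : R4) = 0 := by
  rw [dx, Derivation.map_natCast, Derivation.map_natCast]; ring

lemma dw_pow (q : R4) (n : ℕ) : dw (q ^ (n + 1)) = (n + 1 : ℕ) * q ^ n * dw q := by
  induction n with
  | zero => simp
  | succ n ih => rw [pow_succ, dw_mul, ih]; push_cast; ring
lemma dx_pow (q : R4) (n : ℕ) : dx (q ^ (n + 1)) = (n + 1 : ℕ) * q ^ n * dx q := by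
  induction n with
  | zero => simp
  | succ n ih => rw [pow_succ, dx_mul, ih]; push_cast; ring
lemma db_pow (q : R4) (n : ℕ) : db (q ^ (n + 1)) = (n + 1 : ℕ) * q ^ n * db q := by
  induction n with
  | zero => simp
  | succ n ih => rw [pow_succ, db_mul, ih]; push_cast; ring

/-- closed form of the iterates of `dw` -/
lemma dw_iter (m : ℕ) (c : R4) (hc : dw c = 0) (n k : ℕ) (h : n = m + k) :
    dw^[k] (c * u ^ n) = (n.descFactorial k : ℕ) * (2 * a) ^ k * c * u ^ m := by
  induction k generalizing m with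
  | zero => subst h; simp
  | succ k ih =>
    rw [Function.iterate_succ_apply', ih (m + 1) (by omega)]
    have h1 : dw ((n.descFactorial k : ℕ) * (2 * a) ^ k * c) = 0 := by
      have h2 : dw ((2 * a) ^ k) = 0 := by
        cases k with
        | zero => simp [dw, D_one]
        | succ k =>
          have h3 := dw_mul 2 a
          have h4 := dw_nat 2
          rw [dw_pow, h3, dw_a]
          push_cast at h4
          rw [h4]; ring
      rw [dw_mul, dw_mul, h2, dw_nat, hc]; ring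
    rw [dw_mul, h1, dw_pow, dw_u]
    have hn : n - k = m + 1 := by omega
    rw [Nat.descFactorial_succ, hn]
    push_cast; ring

lemma dx_iter_g (m : ℕ) : dx^[m] (g ^ 2) = (2 ^ m * (m + 1).factorial : ℕ) * g ^ (m + 2) := by
  induction m with
  | zero => simp
  | succ m ih =>
    rw [Function.iterate_succ_apply', ih, dx_mul, dx_nat, dx_pow, dx_g,
      Nat.factorial_succ (m + 1)]
    push_cast; ring

lemma dx_iter_mul (c q : R4) (hc : dx c = 0) (m : ℕ) : dx^[m] (c * q) = c * dx^[m] q := by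
  induction m with
  | zero => rfl
  | succ m ih =>
    rw [Function.iterate_succ_apply', ih, dx_mul, hc, Function.iterate_succ_apply']; ring

lemma dx_iter_u (m : ℕ) : dx^[m + 2] u = (2 ^ (m + 2) * (m + 2).factorial : ℕ) * g ^ (m + 3) := by
  rw [Function.iterate_succ_apply, dx_u]
  have h1 : (2 * (g ^ 2 - 1) : R4) = (2 : ℕ) * g ^ 2 - (2 : ℕ) := by push_cast; ring
  have h2 : dx (2 * (g ^ 2 - 1)) = (2 : ℕ) * dx (g ^ 2) := by
    have h3 : dx ((2 : ℕ) * g ^ 2 - (2 : ℕ)) = dx ((2 : ℕ) * g ^ 2) - dx (2 : ℕ) := by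
      simp only [dx, map_sub]; ring
    rw [h1, h3, dx_nat, dx_mul, dx_nat]; ring
  rw [Function.iterate_succ_apply, h2, dx_iter_mul _ _ (dx_nat 2), ← Function.iterate_succ_apply,
    dx_iter_g, show m.succ + 1 = m + 2 from rfl, show m.succ + 2 = m + 3 from rfl,
    show m.succ = m + 1 from rfl]
  push_cast; ring

lemma lap_final (m : ℕ) : lap^[m + 2] (P ^ (m + 3)) =
    ((m + 3).descFactorial (m + 2) * (2 ^ (m + 2) * (m + 2).factorial) * 2 ^ (m + 2) : ℕ) *
      (a ^ (m + 2) * a ^ (m + 3)) * g ^ (m + 3) := by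
  have hdb : db (P ^ (m + 3)) = 0 := by
    have h1 : db P = 0 := by rw [P_eq, db_mul, db_a, db_u]; ring
    rw [db_pow, h1, mul_zero]
  rw [(lap_iter _ hdb (m + 2)).1, P_eq, mul_pow, dw_iter 1 (a ^ (m + 3))
    (by rw [dw_pow, dw_a, mul_zero]) (m + 3) (m + 2) (by omega), pow_one]
  have hc : dx (((m + 3).descFactorial (m + 2) : ℕ) * (2 * a) ^ (m + 2) * a ^ (m + 3)) = 0 := by
    have h2 : dx (2 * a) = 0 := by
      have h3 := dx_nat 2
      push_cast at h3
      rw [dx_mul, dx_a, h3]; ring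
    rw [dx_mul, dx_mul, dx_nat, dx_pow, dx_pow, h2, dx_a]; ring
  rw [dx_iter_mul _ _ hc, dx_iter_u]
  push_cast; ring

lemma a_ne : a ≠ 0 := by
  intro h
  have := D2a
  rw [h, map_zero] at this
  exact one_ne_zero this.symm

lemma g_ne : g ≠ 0 := by
  intro h
  have := g_mul
  rw [h, zero_mul] at this
  exact one_ne_zero this.symm

theorem lap_ne (m : ℕ) (hm : 2 ≤ m) : lap^[m] (P ^ (m + 1)) ≠ 0 := by
  obtain ⟨k, rfl⟩ := Nat.exists_eq_add_of_le' hm
  haveI : CharZero R4 := charZero_of_injective_algebraMap (R := ℂ) (A := R4)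
    (FaithfulSMul.algebraMap_injective _ _)
  rw [lap_final]
  refine mul_ne_zero (mul_ne_zero ?_ (mul_ne_zero (pow_ne_zero _ a_ne) (pow_ne_zero _ a_ne)))
    (pow_ne_zero _ g_ne)
  rw [Nat.cast_ne_zero]
  have h1 : (k + 3).descFactorial (k + 2) ≠ 0 := by
    rw [Ne, Nat.descFactorial_eq_zero_iff_lt]; omega
  positivity

/-- `P` is not a polynomial. -/
theorem not_poly (p : MvPolynomial (Fin 4) ℂ) : (p : R4) ≠ P := by
  intro h
  let φ : MvPolynomial (Fin 4) ℂ →+* R4 := MvPolynomial.coeToMvPowerSeries.ringHom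
  have hφX : ∀ i, φ (MvPolynomial.X i) = X i := fun i => MvPolynomial.coe_X i
  have hφC : ∀ c : ℂ, φ (MvPolynomial.C c) = C c := fun c => MvPolynomial.coe_C c
  let jp : MvPolynomial (Fin 4) ℂ := MvPolynomial.C Complex.I
  let xp : MvPolynomial (Fin 4) ℂ := MvPolynomial.X 0 + jp * MvPolynomial.X 1
  let wp : MvPolynomial (Fin 4) ℂ := MvPolynomial.X 0 - jp * MvPolynomial.X 1
  let ap : MvPolynomial (Fin 4) ℂ := MvPolynomial.X 2 + jp * MvPolynomial.X 3
  have hx : φ xp = x := by
    simp only [xp, x, jp, j, map_add, map_mul, hφX, hφC]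
  have hw : φ wp = w := by
    simp only [wp, w, jp, j, map_sub, map_mul, hφX, hφC]
  have ha : φ ap = a := by
    simp only [ap, a, jp, j, map_add, map_mul, hφX, hφC]
  have hp : φ p = P := h
  have key : ap = (p + ap * (1 + xp) - ap ^ 2 * wp) * (1 - xp) := by
    apply MvPolynomial.coe_injective
    change φ ap = φ ((p + ap * (1 + xp) - ap ^ 2 * wp) * (1 - xp))
    simp only [map_add, map_mul, map_sub, map_pow, map_one, hx, hw, ha, hp]
    rw [P, f]
    linear_combination (-a) * g_mul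
  have := congrArg (MvPolynomial.eval ![1, 0, 1, 0]) key
  simp [xp, ap, jp] at this

end

end Pool.Agent.H4.HN
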