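import Mathlib

set_option autoImplicit false

namespace Pool.Agent.H4.LF
open Equiv

/-- Permutations supported below `2^n` and preserving every dyadic block partition. -/
def W (n : ℕ) : Subgroup (Perm ℕ) where
  carrier := {σ | (∀ x, 2^n ≤ x → σ x = x) ∧ ∀ k x y, σ x / 2^k = σ y / 2^k ↔ x / 2^k = y / 2^k}
  mul_mem' := by
    rintro σ τ ⟨h1, h2⟩ ⟨h3, h4⟩
    refine ⟨fun x hx => ?_, fun k x y => ?_⟩
    · rw [Perm.mul_apply, h3 x hx, h1 x hx]
    · rw [Perm.mul_apply, Perm.mul_apply, h2, h4]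
  one_mem' := ⟨fun _ _ => rfl, fun _ _ _ => Iff.rfl⟩
  inv_mem' := by
    rintro σ ⟨h1, h2⟩
    refine ⟨fun x hx => ?_, fun k x y => ?_⟩
    · rw [Perm.inv_eq_iff_eq, h1 x hx]
    · have e1 : σ (σ⁻¹ x) = x := σ.apply_symm_apply x
      have e2 : σ (σ⁻¹ y) = y := σ.apply_symm_apply y
      have := h2 k (σ⁻¹ x) (σ⁻¹ y)
      rw [e1, e2] at this
      exact this.symm

lemma mem_W {n : ℕ} {σ : Perm ℕ} : σ ∈ W n ↔
    (∀ x, 2^n ≤ x → σ x = x) ∧ ∀ k x y, σ x / 2^k = σ y / 2^k ↔ x / 2^k = y / 2^k := Iff.rfl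

lemma W_mono {m n : ℕ} (h : m ≤ n) : W m ≤ W n := fun σ hσ =>
  ⟨fun x hx => hσ.1 x (le_trans (Nat.pow_le_pow_right (by norm_num) h) hx), hσ.2⟩

lemma W_lt {n : ℕ} {σ : Perm ℕ} (h : σ ∈ W n) {x : ℕ} (hx : x < 2^n) : σ x < 2^n := by
  by_contra hc
  push Not at hc
  have := h.1 _ hc
  have := σ.injective this
  omega

/-- The locally finite group. -/
def G : Subgroup (Perm ℕ) where
  carrier := {σ | ∃ n, σ ∈ W n}
  mul_mem' := by
    rintro σ τ ⟨n, hn⟩ ⟨m, hm⟩
    exact ⟨max n m, (W _).mul_mem (W_mono (le_max_left _ _) hn) (W_mono (le_max_right _ _) hm)⟩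
  one_mem' := ⟨0, (W 0).one_mem⟩
  inv_mem' := by
    rintro σ ⟨n, hn⟩
    exact ⟨n, (W n).inv_mem hn⟩

lemma W_finite (n : ℕ) : (W n : Set (Perm ℕ)).Finite := by
  have : Function.Injective (fun (σ : W n) (x : Fin (2^n)) =>
      (⟨(σ : Perm ℕ) x, W_lt σ.2 x.2⟩ : Fin (2^n))) := by
    intro σ τ h
    ext x
    by_cases hx : x < 2^n
    · have := congrFun h ⟨x, hx⟩
      simpa using this
    · push Not at hx
      rw [σ.2.1 x hx, τ.2.1 x hx]
  have hf : Finite (W n) := Finite.of_injective _ this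
  exact Set.toFinite _
  
lemma pow_W {n : ℕ} {σ : Perm ℕ} (h : σ ∈ W n) : ∀ j, j ≤ n → ∀ x, (σ^(2^j)) x / 2^(n-j) = x / 2^(n-j) := by
  intro j
  induction j with
  | zero =>
    intro _ x
    simp only [pow_zero, pow_one, Nat.sub_zero]
    by_cases hx : x < 2^n
    · rw [Nat.div_eq_of_lt hx, Nat.div_eq_of_lt (W_lt h hx)]
    · rw [h.1 x (by omega)]
  | succ j ih =>
    intro hj x
    have ih := ih (by omega)
    obtain ⟨m, hm⟩ : ∃ m, n - j = m + 1 := ⟨n - j - 1, by omega⟩
    have hm' : n - (j+1) = m := by omega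
    rw [hm] at ih
    rw [hm', pow_succ 2 j, pow_mul, pow_two]
    set τ := σ^(2^j) with hτ
    have hτW : τ ∈ W n := (W n).pow_mem h _
    rw [Perm.mul_apply]
    have a1 := ih x
    have a2 := ih (τ x)
    have a3 := hτW.2 m x (τ x)
    have d1 : ∀ z, z / 2^(m+1) = z / 2^m / 2 := fun z => by rw [pow_succ, Nat.div_div_eq_div_mul]
    rw [d1, d1] at a1 a2
    by_cases hc : x / 2^m = τ x / 2^m
    · rw [a3.2 hc] at *
      omega
    · have : ¬ (τ x / 2^m = τ (τ x) / 2^m) := fun hh => hc (a3.1 hh)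
      omega

lemma pow_W_one {n : ℕ} {σ : Perm ℕ} (h : σ ∈ W n) : σ^(2^n) = 1 := by
  ext x
  have := pow_W h n le_rfl x
  simpa using this

/-- block swap function -/
def f (n x : ℕ) : ℕ := if x < 2^n then x + 2^n else if x < 2^(n+1) then x - 2^n else x

lemma f_f (n : ℕ) : Function.Involutive (f n) := by
  intro x
  have : 2^(n+1) = 2^n + 2^n := by ring
  have hp : 0 < 2^n := by positivity
  unfold f
  split_ifs <;> omega

def τ (n : ℕ) : Perm ℕ := (f_f n).toPerm

lemma τ_apply (n x : ℕ) : τ n x = f n x := rfl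

lemma τ_mem (n : ℕ) : τ n ∈ W (n+1) := by
  refine ⟨fun x hx => ?_, fun k x y => ?_⟩
  · rw [τ_apply]
    have : 2^(n+1) = 2^n + 2^n := by ring
    unfold f
    split_ifs <;> omega
  · simp only [τ_apply]
    by_cases hk : k ≤ n
    · obtain ⟨d, rfl⟩ := Nat.exists_eq_add_of_le hk
      have hp : 0 < 2^k := by positivity
      have key : ∀ x, f (k+d) x / 2^k = f d (x/2^k) := by
        intro x
        unfold f
        have e1 : x < 2^(k+d) ↔ x / 2^k < 2^d := by
          rw [Nat.div_lt_iff_lt_mul hp, pow_add, mul_comm]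
        have e2 : x < 2^(k+d+1) ↔ x / 2^k < 2^(d+1) := by
          rw [Nat.div_lt_iff_lt_mul hp, add_assoc, pow_add, mul_comm]
        simp only [e1, e2]
        split_ifs with h1 h2
        · rw [pow_add, Nat.add_mul_div_left _ _ hp]
        · rw [pow_add, Nat.sub_mul_div]
        · rfl
      rw [key, key]
      exact (f_f d).injective.eq_iff
    · have hk : n + 1 ≤ k := by omega
      have key : ∀ x, f n x / 2^k = x / 2^k := by
        intro x
        have h2 : 2^(n+1) ≤ 2^k := Nat.pow_le_pow_right (by norm_num) hk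
        have : 2^(n+1) = 2^n + 2^n := by ring
        unfold f
        split_ifs
        · rw [Nat.div_eq_of_lt (by omega), Nat.div_eq_of_lt (by omega)]
        · rw [Nat.div_eq_of_lt (by omega), Nat.div_eq_of_lt (by omega)]
        · rfl
      rw [key, key]

lemma G_countable : Countable G := by
  have : (G : Set (Perm ℕ)) = ⋃ n, (W n : Set (Perm ℕ)) := by
    ext σ
    simp [G]
  have h : (G : Set (Perm ℕ)).Countable := by
    rw [this]
    exact Set.countable_iUnion fun n => (W_finite n).countable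
  exact h.to_subtype

lemma exists_n : ∃ N : G → ℕ, Function.Injective N ∧ ∀ g : G, (g : Perm ℕ) ∈ W (N g) := by
  have := G_countable
  obtain ⟨e, he⟩ := exists_injective_nat G
  choose m hm using fun g : G => g.2
  refine ⟨fun g => Nat.pair (m g) (e g), fun g h hgh => ?_, fun g => W_mono (Nat.left_le_pair _ _) (hm g)⟩
  exact he (Nat.pair_eq_pair.1 hgh).2

lemma conj_fix {n : ℕ} {σ : Perm ℕ} (h : σ ∈ W n) {x : ℕ} (hx : ¬ (2^n ≤ x ∧ x < 2^(n+1))) :
    ((τ n) * σ * (τ n)⁻¹) x = x := by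
  have h2 : 2^(n+1) = 2^n + 2^n := by ring
  have e : (τ n)⁻¹ x = f n x := rfl
  rw [Perm.mul_apply, Perm.mul_apply, e]
  have : 2^n ≤ f n x := by
    unfold f
    split_ifs <;> omega
  rw [h.1 _ this, τ_apply]
  exact f_f n x

theorem main : ∃ A : Subgroup G, A ≠ ⊤ ∧ (∀ a ∈ A, ∀ b ∈ A, a * b = b * a) ∧
    (∀ g : G, ∃ x : G, x⁻¹ * g * x ∈ A) := by
  obtain ⟨N, hN, hW⟩ := exists_n
  let t : ℕ → G := fun n => ⟨τ n, n+1, τ_mem n⟩
  let h : G → G := fun g => t (N g) * g * (t (N g))⁻¹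
  have hh : ∀ (g : G) (x : ℕ), ¬ (2^(N g) ≤ x ∧ x < 2^(N g + 1)) → (h g : Perm ℕ) x = x := by
    intro g x hx
    exact conj_fix (hW g) hx
  have hcomm : ∀ x ∈ Set.range h, ∀ y ∈ Set.range h, x * y = y * x := by
    rintro _ ⟨a, rfl⟩ _ ⟨b, rfl⟩
    by_cases hab : a = b
    · rw [hab]
    · have hne : N a ≠ N b := fun hc => hab (hN hc)
      apply Subtype.ext
      have : Perm.Disjoint (h a : Perm ℕ) (h b : Perm ℕ) := by
        intro x
        by_contra hc
        push Not at hc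
        have c1 : 2^(N a) ≤ x ∧ x < 2^(N a + 1) := by
          by_contra hc1
          exact hc.1 (hh a x hc1)
        have c2 : 2^(N b) ≤ x ∧ x < 2^(N b + 1) := by
          by_contra hc1
          exact hc.2 (hh b x hc1)
        have l1 : N a < N b + 1 := (Nat.pow_lt_pow_iff_right (by norm_num : 1 < 2)).1 (lt_of_le_of_lt c1.1 c2.2)
        have l2 : N b < N a + 1 := (Nat.pow_lt_pow_iff_right (by norm_num : 1 < 2)).1 (lt_of_le_of_lt c2.1 c1.2)
        omega
      exact this.commute.eq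
  have hA : ∀ a ∈ Subgroup.closure (Set.range h), ∀ b ∈ Subgroup.closure (Set.range h), a * b = b * a := by
    intro a ha b hb
    have hle : Subgroup.closure (Set.range h) ≤ Subgroup.centralizer (Set.range h) :=
      (Subgroup.closure_le _).2 fun x hx => Subgroup.mem_centralizer_iff.2 fun y hy => hcomm y hy x hx
    have hle2 : Subgroup.closure (Set.range h) ≤ Subgroup.centralizer (Subgroup.closure (Set.range h)) := by
      refine (Subgroup.closure_le _).2 fun x hx => Subgroup.mem_centralizer_iff.2 fun y hy => ?_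
      exact (Subgroup.mem_centralizer_iff.1 (hle hy) x hx).symm
    exact (Subgroup.mem_centralizer_iff.1 (hle2 hb) a ha)
  refine ⟨Subgroup.closure (Set.range h), ?_, hA, ?_⟩
  · intro htop
    have h0 : t 0 ∈ Subgroup.closure (Set.range h) := htop ▸ Subgroup.mem_top _
    have h1 : t 1 ∈ Subgroup.closure (Set.range h) := htop ▸ Subgroup.mem_top _
    have := congrArg (fun g : G => (g : Perm ℕ) 0) (hA _ h0 _ h1)
    have e1 : ((t 0 * t 1 : G) : Perm ℕ) 0 = f 0 (f 1 0) := rfl
    have e2 : ((t 1 * t 0 : G) : Perm ℕ) 0 = f 1 (f 0 0) := rfl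
    simp only [e1, e2] at this
    simp [f] at this
  · intro g
    refine ⟨(t (N g))⁻¹, Subgroup.subset_closure ⟨g, ?_⟩⟩
    simp [h]

lemma fin_closure (s : Set G) (hs : s.Finite) : Finite (Subgroup.closure s) := by
  have : ∃ n, ∀ g ∈ s, (g : Perm ℕ) ∈ W n := by
    induction s, hs using Set.Finite.induction_on with
    | empty => exact ⟨0, by simp⟩
    | insert _ _ ih =>
      rename_i a s _ _
      obtain ⟨n, hn⟩ := ih
      obtain ⟨m, hm⟩ := a.2
      refine ⟨max n m, ?_⟩
      rintro g (rfl | hg)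
      · exact W_mono (le_max_right _ _) hm
      · exact W_mono (le_max_left _ _) (hn g hg)
  obtain ⟨n, hn⟩ := this
  have hle : Subgroup.closure s ≤ (W n).comap G.subtype := (Subgroup.closure_le _).2 hn
  have hfin : ((W n).comap G.subtype : Set G).Finite := by
    apply Set.Finite.preimage (Set.injOn_of_injective G.subtype_injective) (W_finite n)
  exact (hfin.subset hle).to_subtype

lemma isp : IsPGroup 2 G := by
  intro g
  obtain ⟨n, hn⟩ := g.2
  refine ⟨n, Subtype.ext ?_⟩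
  exact pow_W_one hn

end Pool.Agent.H4.LF
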