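import Pool.Agent.H4.LN9

set_option autoImplicit false

namespace Pool.Agent.H4.LN

variable {A : Type} [AddCommGroup A]

theorem exists_height {p : ℕ} {Y : Set A} (hY : HI p Y) (y : A) (hy : y ∈ Y) :
    ∃ (h : ℕ) (x : A), y = p ^ h • x ∧ ¬ ∃ z : A, y = p ^ (h + 1) • z := by
  classical
  have hex := hY.ht y hy
  have h1 := Nat.find_spec hex
  have h0 : Nat.find hex ≠ 0 := by
    intro h0
    rw [h0] at h1
    exact h1 ⟨y, by rw [pow_zero, one_smul]⟩
  obtain ⟨h, hh⟩ := Nat.exists_eq_succ_of_ne_zero h0
  have h2 := Nat.find_min hex (m := h) (by omega)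
  push Not at h2
  obtain ⟨x, hx⟩ := h2
  refine ⟨h, x, hx, ?_⟩
  rw [hh] at h1
  exact h1

theorem p_basic (A : Type) [AddCommGroup A] {p : ℕ} (hp : p.Prime) : ∃ (b : A → A) (n : A → ℕ),
    (∀ y, 0 < n y) ∧ (∀ y, n y • b y = 0) ∧ (∀ y, ∃ k, n y = p ^ k) ∧
    (∀ c : A →₀ ℤ, (c.sum fun y a => a • b y) = 0 → ∀ y, (n y : ℤ) ∣ c y) ∧
    (∀ (m : ℕ) (a : A), p ^ m • a = 0 →
      ∃ e ∈ AddSubgroup.closure (Set.range b), ∃ z : A, a = e + p • z) := by
  classical
  obtain ⟨Y, hY⟩ := exists_max_HI (A := A) p
  have hex : ∀ y : A, ∃ (h : ℕ) (x : A), y ∈ Y → (y = p ^ h • x ∧ ¬ ∃ z : A, y = p ^ (h + 1) • z) := by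
    intro y
    by_cases hy : y ∈ Y
    · obtain ⟨h, x, hx⟩ := exists_height hY.prop y hy
      exact ⟨h, x, fun _ => hx⟩
    · exact ⟨0, 0, fun h => absurd h hy⟩
  choose h x hx using hex
  let b : A → A := fun y => if y ∈ Y then x y else 0
  let n : A → ℕ := fun y => if y ∈ Y then p ^ (h y + 1) else 1
  have hb1 : ∀ y ∈ Y, b y = x y := fun y hy => if_pos hy
  have hb2 : ∀ y, y ∉ Y → b y = 0 := fun y hy => if_neg hy
  have hn1 : ∀ y ∈ Y, n y = p ^ (h y + 1) := fun y hy => if_pos hy
  have hn2 : ∀ y, y ∉ Y → n y = 1 := fun y hy => if_neg hy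
  refine ⟨b, n, ?_, ?_, ?_, ?_, ?_⟩
  · intro y
    by_cases hy : y ∈ Y
    · rw [hn1 y hy]; exact pow_pos hp.pos _
    · rw [hn2 y hy]; exact one_pos
  · intro y
    by_cases hy : y ∈ Y
    · rw [hn1 y hy, hb1 y hy, pow_succ', mul_smul, ← (hx y hy).1]
      exact hY.prop.ord y hy
    · rw [hb2 y hy, smul_zero]
  · intro y
    by_cases hy : y ∈ Y
    · exact ⟨_, hn1 y hy⟩
    · exact ⟨0, by rw [hn2 y hy, pow_zero]⟩
  · intro c hc
    -- Q j
    have hQ : ∀ j : ℕ, (∀ y ∈ Y, (p : ℤ) ^ (h y + 1 - (j + 1)) ∣ c y) →
        (∀ y ∈ Y, (p : ℤ) ^ (h y + 1 - j) ∣ c y) := by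
      intro j hj
      have hdiv : ∀ y : A, ∃ d : ℤ, y ∈ Y → c y = (p : ℤ) ^ (h y - j) * d := by
        intro y
        by_cases hy : y ∈ Y
        · obtain ⟨d, hd⟩ := hj y hy
          refine ⟨d, fun _ => ?_⟩
          rw [hd]
          congr 2
          omega
        · exact ⟨0, fun h => absurd h hy⟩
      choose d hd using hdiv
      let c' : A →₀ ℤ := Finsupp.onFinset c.support
        (fun y => if y ∈ c.support ∧ y ∈ Y ∧ j ≤ h y then d y else 0) (by
          intro y hy
          by_contra hne
          apply hy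
          simp [hne])
      have hc'v : ∀ y, c' y = if y ∈ c.support ∧ y ∈ Y ∧ j ≤ h y then d y else 0 := fun _ => rfl
      have hc's : (↑c'.support : Set A) ⊆ Y := by
        intro y hy
        rw [Finset.mem_coe, Finsupp.mem_support_iff, hc'v] at hy
        by_contra hne
        apply hy
        simp [hne]
      have hT : TT c' = 0 := by
        have h1 : TT c' = p ^ j • (c.sum fun y a => a • b y) := by
          rw [Finsupp.linearCombination_apply, Finsupp.sum, Finsupp.sum, Finset.smul_sum]
          have hsub : c'.support ⊆ c.support := Finsupp.support_onFinset_subset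
          rw [Finset.sum_subset hsub (by
            intro y _ hy
            rw [Finsupp.notMem_support_iff] at hy
            rw [hy, zero_smul])]
          apply Finset.sum_congr rfl
          intro y hy
          rw [hc'v]
          by_cases hyY : y ∈ Y
          · by_cases hjh : j ≤ h y
            · rw [if_pos ⟨hy, hyY, hjh⟩, hb1 y hyY, hd y hyY, id]
              have e1 : d y • y = d y • (p ^ h y • x y) := congrArg (fun z => d y • z) (hx y hyY).1
              rw [e1, ← natCast_zsmul (x y) (p ^ h y), ← natCast_zsmul _ (p ^ j), smul_smul, smul_smul]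
              congr 1
              push_cast
              have : (p : ℤ) ^ h y = (p : ℤ) ^ j * (p : ℤ) ^ (h y - j) := by
                rw [← pow_add, Nat.add_sub_cancel' hjh]
              rw [this]
              ring
            · rw [if_neg (by tauto), zero_smul, hb1 y hyY]
              push Not at hjh
              have h2 : p ^ j • x y = 0 := by
                have : p ^ j = p ^ (j - (h y + 1)) * (p * p ^ h y) := by
                  rw [← pow_succ', ← pow_add, Nat.sub_add_cancel hjh]
                rw [this, mul_smul, mul_smul, ← (hx y hyY).1, hY.prop.ord y hyY, smul_zero]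
              rw [smul_comm, h2, smul_zero]
          · rw [if_neg (by tauto), zero_smul, hb2 y hyY, smul_zero, smul_zero]
        rw [h1, hc, smul_zero]
      intro y hy
      by_cases hjh : j ≤ h y
      · by_cases hys : y ∈ c.support
        · have h3 := hY.prop.ind c' hc's (h y + 1) ⟨0, by rw [hT, smul_zero]⟩ y
          have h4 := h3.resolve_right (hx y hy).2
          rw [hc'v, if_pos ⟨hys, hy, hjh⟩] at h4
          obtain ⟨f, hf⟩ := h4
          rw [hd y hy, hf]
          have : h y + 1 - j = (h y - j) + 1 := by omega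
          rw [this, pow_succ]
          exact ⟨f, by ring⟩
        · rw [Finsupp.notMem_support_iff.mp hys]; exact dvd_zero _
      · have : h y + 1 - j = 0 := by omega
        rw [this, pow_zero]
        exact one_dvd _
    have hbig : ∀ y ∈ Y, (p : ℤ) ^ (h y + 1 - (c.support.sup (fun y => h y + 1))) ∣ c y := by
      intro y _
      by_cases hys : y ∈ c.support
      · have : h y + 1 ≤ c.support.sup (fun y => h y + 1) := Finset.le_sup (f := fun y => h y + 1) hys
        rw [Nat.sub_eq_zero_of_le this, pow_zero]
        exact one_dvd _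
      · rw [Finsupp.notMem_support_iff.mp hys]; exact dvd_zero _
    have hall : ∀ N : ℕ, (∀ y ∈ Y, (p : ℤ) ^ (h y + 1 - N) ∣ c y) →
        ∀ y ∈ Y, (p : ℤ) ^ (h y + 1 - 0) ∣ c y := by
      intro N
      induction N with
      | zero => exact fun h => h
      | succ N ih => exact fun h => ih (hQ N h)
    intro y
    by_cases hy : y ∈ Y
    · rw [hn1 y hy]
      have := hall _ hbig y hy
      push_cast
      exact this
    · rw [hn2 y hy]
      simp
  · intro m
    induction m with
    | zero =>
      intro a ha
      rw [pow_zero, one_smul] at ha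
      exact ⟨0, AddSubgroup.zero_mem _, 0, by rw [ha]; simp⟩
    | succ m ih =>
      intro a ha
      obtain ⟨c, hc, hck, z, hz⟩ := max_key' hp hY m (p ^ m • a) (by
        rw [smul_smul, ← pow_succ']; exact ha) ⟨a, rfl⟩
      -- the element e
      have hyh : ∀ y ∈ c.support, y = p ^ m • (p ^ (h y - m) • b y) := by
        intro y hy
        have hyY : y ∈ Y := hc hy
        have hmh : m ≤ h y := by
          by_contra hlt
          push Not at hlt
          obtain ⟨z', hz'⟩ := hck y hy
          apply (hx y hyY).2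
          refine ⟨p ^ (m - (h y + 1)) • z', ?_⟩
          rw [smul_smul, ← pow_add, Nat.add_sub_cancel' hlt]
          exact hz'
        rw [hb1 y hyY, smul_smul, ← pow_add, Nat.add_sub_cancel' hmh]
        exact (hx y hyY).1
      let e : A := c.sum fun y a => a • (p ^ (h y - m) • b y)
      have he : e ∈ AddSubgroup.closure (Set.range b) := by
        apply AddSubgroup.sum_mem
        intro y _
        apply AddSubgroup.zsmul_mem
        apply AddSubgroup.nsmul_mem
        exact AddSubgroup.subset_closure ⟨y, rfl⟩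
      have hTe : TT c = p ^ m • e := by
        change TT c = p ^ m • (c.sum fun y a => a • (p ^ (h y - m) • b y))
        rw [Finsupp.linearCombination_apply, Finsupp.sum, Finsupp.sum, Finset.smul_sum]
        apply Finset.sum_congr rfl
        intro y hy
        rw [smul_comm (p ^ m) (c y), ← hyh y hy]
        rfl
      obtain ⟨e', he', z', hz'⟩ := ih (a - e - p • z) (by
        rw [smul_sub, smul_sub, ← hTe, hz, smul_smul, ← pow_succ]
        abel)
      refine ⟨e + e', AddSubgroup.add_mem _ he he', z + z', ?_⟩
      have : a = e + (a - e - p • z) + p • z := by abel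
      rw [this, hz', smul_add]
      abel

end Pool.Agent.H4.LN
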