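import Pool.Agent.H4.LN10

set_option autoImplicit false

namespace Pool.Agent.H4.LN

def PP (A : Type) [AddCommGroup A] (p : ℕ) : AddSubgroup A where
  carrier := {z | ∃ k : ℕ, p ^ k • z = 0}
  zero_mem' := ⟨0, smul_zero _⟩
  add_mem' := by
    rintro a b ⟨k, hk⟩ ⟨l, hl⟩
    refine ⟨k + l, ?_⟩
    rw [smul_add, pow_add, mul_comm, mul_smul, hk, smul_zero, zero_add, mul_comm, mul_smul, hl,
      smul_zero]
  neg_mem' := by
    rintro a ⟨k, hk⟩
    exact ⟨k, by rw [smul_neg, hk, neg_zero]⟩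

theorem coprime_zero {A : Type} [AddCommGroup A] {m n : ℕ} (h : Nat.Coprime m n) {z : A}
    (h1 : m • z = 0) (h2 : n • z = 0) : z = 0 := by
  obtain ⟨u, v, huv⟩ := Nat.isCoprime_iff_coprime.mpr h
  have : z = (u * m + v * n : ℤ) • z := by rw [huv, one_smul]
  rw [this, add_smul, mul_smul, mul_smul, natCast_zsmul, natCast_zsmul, h1, h2, smul_zero, smul_zero,
    add_zero]

theorem prim_indep {A : Type} [AddCommGroup A] (s : Finset Nat.Primes) (z : Nat.Primes → A)
    (hz : ∀ p : Nat.Primes, ∃ k : ℕ, (p : ℕ) ^ k • z p = 0) (hsum : ∑ p ∈ s, z p = 0) :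
    ∀ p ∈ s, z p = 0 := by
  classical
  choose K hK using hz
  intro p hp
  have h1 : z p = - ∑ q ∈ s.erase p, z q := by
    rw [← Finset.add_sum_erase _ _ hp] at hsum
    exact eq_neg_of_add_eq_zero_left hsum
  have h2 : (∏ q ∈ s.erase p, (q : ℕ) ^ K q) • z p = 0 := by
    rw [h1, smul_neg, Finset.smul_sum, neg_eq_zero]
    apply Finset.sum_eq_zero
    intro q hq
    obtain ⟨d, hd⟩ := Finset.dvd_prod_of_mem (fun q : Nat.Primes => (q : ℕ) ^ K q) hq
    rw [hd, mul_comm, mul_smul]
    change d • ((q : ℕ) ^ K q • z q) = 0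
    rw [hK q, smul_zero]
  have hcop : Nat.Coprime (∏ q ∈ s.erase p, (q : ℕ) ^ K q) ((p : ℕ) ^ K p) := by
    apply Nat.Coprime.prod_left
    intro q hq
    apply Nat.Coprime.pow
    apply (Nat.coprime_primes q.2 p.2).mpr
    intro h
    exact (Finset.mem_erase.mp hq).1 (Subtype.ext h)
  exact coprime_zero hcop h2 (hK p)

theorem basic (A : Type) [AddCommGroup A] (htor : ∀ a : A, ∃ N : ℕ, 0 < N ∧ N • a = 0) :
    ∃ (ι : Type) (b : ι → A) (n : ι → ℕ), (∀ j, 0 < n j) ∧ (∀ j, n j • b j = 0) ∧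
      (∀ c : ι →₀ ℤ, (c.sum fun j a => a • b j) = 0 → ∀ j, (n j : ℤ) ∣ c j) ∧
      (∀ m : ℕ, 0 < m → ∀ a : A, ∃ e ∈ AddSubgroup.closure (Set.range b), ∃ z : A, a = e + m • z) := by
  classical
  choose b n h1 h2 h3 h4 h5 using fun p : Nat.Primes => p_basic A p.2
  let B : Nat.Primes × A → A := fun j => b j.1 j.2
  have hclos : ∀ p : Nat.Primes, AddSubgroup.closure (Set.range (b p)) ≤
      AddSubgroup.closure (Set.range B) := by
    intro p
    apply AddSubgroup.closure_mono
    rintro _ ⟨y, rfl⟩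
    exact ⟨(p, y), rfl⟩
  refine ⟨Nat.Primes × A, B, fun j => n j.1 j.2, fun j => h1 _ _, fun j => h2 _ _, ?_, ?_⟩
  · intro c hc
    have hz : ∀ p : Nat.Primes, ∃ k : ℕ, (p : ℕ) ^ k •
        ((c.curry p).sum fun y a => a • b p y) = 0 := by
      intro p
      have : ((c.curry p).sum fun y a => a • b p y) ∈ PP A p := by
        apply AddSubgroup.sum_mem
        intro y _
        apply AddSubgroup.zsmul_mem
        obtain ⟨k, hk⟩ := h3 p y
        exact ⟨k, by rw [← hk]; exact h2 p y⟩
      exact this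
    have hsum : ∑ p ∈ c.curry.support, ((c.curry p).sum fun y a => a • b p y) = 0 := by
      have := Finsupp.sum_curry_index c (fun (p : Nat.Primes) (y : A) (a : ℤ) => a • b p y)
      rw [hc] at this
      exact this
    have key := prim_indep _ _ hz hsum
    rintro ⟨p, y⟩
    have hzero : ((c.curry p).sum fun y a => a • b p y) = 0 := by
      by_cases hp : p ∈ c.curry.support
      · exact key p hp
      · rw [Finsupp.notMem_support_iff.mp hp, Finsupp.sum_zero_index]
    have := h4 p _ hzero y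
    rwa [Finsupp.curry_apply] at this
  · have hprime : ∀ p : ℕ, p.Prime → ∀ a : A, ∃ e ∈ AddSubgroup.closure (Set.range B),
        ∃ z : A, a = e + p • z := by
      intro p hp a
      obtain ⟨N, hN, hNa⟩ := htor a
      obtain ⟨k, N', hpN, hNN⟩ := Nat.exists_eq_pow_mul_and_not_dvd hN.ne' p hp.ne_one
      have hcop : Nat.Coprime p N' := (Nat.Prime.coprime_iff_not_dvd hp).mpr hpN
      obtain ⟨u, v, huv⟩ := Nat.isCoprime_iff_coprime.mpr hcop
      have ha : a = p • (u • a) + v • (N' • a) := by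
        have : a = (u * p + v * N' : ℤ) • a := by rw [huv, one_smul]
        conv_lhs => rw [this]
        rw [add_smul, mul_comm u, mul_smul, mul_smul, natCast_zsmul, natCast_zsmul]
      obtain ⟨e, he, z, hz⟩ := h5 ⟨p, hp⟩ k (v • (N' • a)) (by
        rw [smul_comm, smul_smul]
        change v • ((p ^ k * N') • a) = 0
        rw [← hNN, hNa, smul_zero])
      refine ⟨e, hclos ⟨p, hp⟩ he, u • a + z, ?_⟩
      rw [smul_add]
      conv_lhs => rw [ha, hz]
      change p • u • a + (e + p • z) = _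
      abel
    intro m
    induction m using Nat.recOnMul with
    | zero => intro h; exact absurd h (lt_irrefl 0)
    | one => intro _ a; exact ⟨0, AddSubgroup.zero_mem _, a, by simp⟩
    | prime p hp => intro _; exact hprime p hp
    | mul m₁ m₂ ih1 ih2 =>
      intro hm a
      have hm1 : 0 < m₁ := Nat.pos_of_mul_pos_right hm |> fun h => by
        rcases Nat.eq_zero_or_pos m₁ with h0 | h0
        · rw [h0, zero_mul] at hm; exact absurd hm (lt_irrefl 0)
        · exact h0
      have hm2 : 0 < m₂ := by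
        rcases Nat.eq_zero_or_pos m₂ with h0 | h0
        · rw [h0, mul_zero] at hm; exact absurd hm (lt_irrefl 0)
        · exact h0
      obtain ⟨e, he, z, hz⟩ := ih1 hm1 a
      obtain ⟨e', he', z', hz'⟩ := ih2 hm2 z
      refine ⟨e + m₁ • e', AddSubgroup.add_mem _ he (AddSubgroup.nsmul_mem _ he' _), z', ?_⟩
      rw [hz, hz', smul_add, mul_smul]
      abel

end Pool.Agent.H4.LN
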