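import Pool.Agent.H4.LN8
import Pool.Agent.H4.LN11

set_option autoImplicit false

namespace Pool.Agent.H4.LN

open scoped commutatorElement

theorem combine {H : Type} [Group H] {ι₁ ι₂ : Type} (F₁ : ι₁ → Type) (F₂ : ι₂ → Type)
    [g₁ : ∀ i, Group (F₁ i)] [g₂ : ∀ i, Group (F₂ i)] [f₁ : ∀ i, Finite (F₁ i)]
    [f₂ : ∀ i, Finite (F₂ i)] (φ₁ : ∀ i, H →* F₁ i) (φ₂ : ∀ i, H →* F₂ i)
    (hinj : ∀ h, (∀ i, φ₁ i h = 1) → (∀ i, φ₂ i h = 1) → h = 1)
    (h₁ : ∀ h, {i | φ₁ i h ≠ 1}.Finite) (h₂ : ∀ h, {i | φ₂ i h ≠ 1}.Finite) :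
    ∃ (ι : Type) (F : ι → Type) (_ : ∀ i, Group (F i)) (_ : ∀ i, Finite (F i))
      (φ : H →* ((i : ι) → F i)), Function.Injective φ ∧ ∀ h : H, {i : ι | φ h i ≠ 1}.Finite := by
  let F : ι₁ ⊕ ι₂ → Type := Sum.elim F₁ F₂
  let iG : ∀ i, Group (F i) := fun i => match i with
    | Sum.inl a => g₁ a
    | Sum.inr b => g₂ b
  have iF : ∀ i, Finite (F i) := fun i => match i with
    | Sum.inl a => f₁ a
    | Sum.inr b => f₂ b
  let Φ : ∀ i, H →* F i := fun i => match i with
    | Sum.inl a => φ₁ a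
    | Sum.inr b => φ₂ b
  refine ⟨ι₁ ⊕ ι₂, F, iG, iF, MonoidHom.pi Φ, ?_, ?_⟩
  · rw [injective_iff_map_eq_one]
    intro h hh
    apply hinj h
    · intro i
      exact congrFun hh (Sum.inl i)
    · intro i
      exact congrFun hh (Sum.inr i)
  · intro h
    apply ((h₁ h).image Sum.inl |>.union ((h₂ h).image Sum.inr)).subset
    rintro (i | i) hi
    · exact Or.inl ⟨i, hi, rfl⟩
    · exact Or.inr ⟨i, hi, rfl⟩

/-- homomorphisms out of a direct sum of cyclic groups -/
theorem exists_zeta {H A ι : Type} [Group H] [AddCommGroup A] (b : ι → A) (n : ι → ℕ)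
    (hind : ∀ c : ι →₀ ℤ, (c.sum fun j a => a • b j) = 0 → ∀ j, (n j : ℤ) ∣ c j)
    (f : H →* Multiplicative A) (hf : ∀ h, ∃ c : ι →₀ ℤ, (c.sum fun j a => a • b j) = (f h).toAdd)
    {Z : Type} [AddCommGroup Z] (z : ι → Z) (hz : ∀ j, n j • z j = 0) :
    ∃ ζ : H →* Multiplicative Z, ∀ h, ∀ c : ι →₀ ℤ, (c.sum fun j a => a • b j) = (f h).toAdd →
      (ζ h).toAdd = c.sum fun j a => a • z j := by
  have hker : ∀ c c' : ι →₀ ℤ, (c.sum fun j a => a • b j) = (c'.sum fun j a => a • b j) →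
      (c.sum fun j a => a • z j) = (c'.sum fun j a => a • z j) := by
    intro c c' h
    have h1 : ((c - c').sum fun j a => a • b j) = 0 := by
      rw [Finsupp.sum_sub_index (fun j a a' => sub_smul a a' (b j)), h, sub_self]
    have h2 : ((c - c').sum fun j a => a • z j) = 0 := by
      rw [Finsupp.sum]
      apply Finset.sum_eq_zero
      intro j _
      obtain ⟨d, hd⟩ := hind _ h1 j
      rw [hd, mul_comm, mul_smul, natCast_zsmul, hz, smul_zero]
    rw [Finsupp.sum_sub_index (fun j a a' => sub_smul a a' (z j))] at h2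
    exact sub_eq_zero.mp h2
  choose c hc using hf
  refine ⟨MonoidHom.mk' (fun h => Multiplicative.ofAdd ((c h).sum fun j a => a • z j)) ?_, ?_⟩
  · intro h h'
    rw [← ofAdd_add]
    congr 1
    have e1 : ((c h + c h').sum fun j a => a • z j) =
        ((c h).sum fun j a => a • z j) + (c h').sum fun j a => a • z j :=
      Finsupp.sum_add_index' (h := fun j a => a • z j) (fun j => zero_smul ℤ (z j))
        (fun j a a' => add_smul a a' (z j))
    have e2 : ((c h + c h').sum fun j a => a • b j) =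
        ((c h).sum fun j a => a • b j) + (c h').sum fun j a => a • b j :=
      Finsupp.sum_add_index' (h := fun j a => a • b j) (fun j => zero_smul ℤ (b j))
        (fun j a a' => add_smul a a' (b j))
    rw [← e1]
    apply hker
    rw [e2, hc, hc, hc, map_mul, toAdd_mul]
  · intro h c' hc'
    exact hker _ _ ((hc h).trans hc'.symm)

end Pool.Agent.H4.LN
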