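import Pool.Agent.H4.LN12

set_option autoImplicit false

namespace Pool.Agent.H4.LN

open scoped commutatorElement

/-- the coordinate homomorphisms to the finite quotients -/
theorem phiK {G A ι : Type} [Group G] [AddCommGroup A] (b : ι → A) (n : ι → ℕ)
    (hind : ∀ c : ι →₀ ℤ, (c.sum fun j a => a • b j) = 0 → ∀ j, (n j : ℤ) ∣ c j)
    (t : G →* Multiplicative A) (H : Subgroup G)
    (hf : ∀ h : H, ∃ c : ι →₀ ℤ, (c.sum fun j a => a • b j) = (t h).toAdd)
    (g : ι → G) (hg : ∀ j, (t (g j)).toAdd = b j) (K : Subgroup G) [K.Normal] :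
    ∃ φ : H →* G ⧸ K, (∀ h : H, (t h).toAdd = 0 → φ h = QuotientGroup.mk h.1) ∧
      ∀ (h : H) (j : ι), h.1 = g j → QuotientGroup.mk (g j) ∈ Subgroup.center (G ⧸ K) →
        (QuotientGroup.mk (g j) : G ⧸ K) ^ n j = 1 → φ h = 1 := by
  classical
  let inst : CommGroup (Subgroup.center (G ⧸ K)) :=
    { (inferInstance : Group (Subgroup.center (G ⧸ K))) with
      mul_comm := fun a b => Subtype.ext ((Subgroup.mem_center_iff.mp b.2) a.1) }
  let z : ι → Additive (Subgroup.center (G ⧸ K)) := fun j =>
    if hj : (QuotientGroup.mk (g j) : G ⧸ K) ∈ Subgroup.center (G ⧸ K) ∧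
      (QuotientGroup.mk (g j) : G ⧸ K) ^ n j = 1 then Additive.ofMul ⟨_, hj.1⟩ else 0
  have hz : ∀ j, n j • z j = 0 := by
    intro j
    by_cases hj : (QuotientGroup.mk (g j) : G ⧸ K) ∈ Subgroup.center (G ⧸ K) ∧
      (QuotientGroup.mk (g j) : G ⧸ K) ^ n j = 1
    · have : z j = Additive.ofMul ⟨_, hj.1⟩ := dif_pos hj
      rw [this]
      apply Additive.toMul.injective
      apply Subtype.ext
      exact hj.2
    · have : z j = 0 := dif_neg hj
      rw [this, smul_zero]
  obtain ⟨ζ, hζ⟩ := exists_zeta b n hind (t.comp H.subtype) hf z hz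
  let w : H → Subgroup.center (G ⧸ K) := fun h => Additive.toMul (ζ h).toAdd
  have hw1 : ∀ h h', w (h * h') = w h * w h' := by
    intro h h'
    change Additive.toMul (ζ (h * h')).toAdd = _
    rw [map_mul]
    rfl
  refine ⟨MonoidHom.mk' (fun h => (QuotientGroup.mk h.1 : G ⧸ K) * ((w h)⁻¹ : Subgroup.center (G ⧸ K)).1)
    ?_, ?_, ?_⟩
  · intro h h'
    have hc : ∀ x : G ⧸ K, x * ((w h)⁻¹ : Subgroup.center (G ⧸ K)).1 =
        ((w h)⁻¹ : Subgroup.center (G ⧸ K)).1 * x := fun x =>
      Subgroup.mem_center_iff.mp ((w h)⁻¹).2 x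
    have h1 : ((w (h * h'))⁻¹ : Subgroup.center (G ⧸ K)).1 =
        ((w h)⁻¹ : Subgroup.center (G ⧸ K)).1 * ((w h')⁻¹ : Subgroup.center (G ⧸ K)).1 := by
      rw [hw1, mul_inv]
      rfl
    change ((h.1 * h'.1 : G) : G ⧸ K) * ((w (h * h'))⁻¹ : Subgroup.center (G ⧸ K)).1 = _
    rw [h1, QuotientGroup.mk_mul]
    calc (h.1 : G ⧸ K) * (h'.1 : G ⧸ K) * (((w h)⁻¹ : Subgroup.center (G ⧸ K)).1 *
          ((w h')⁻¹ : Subgroup.center (G ⧸ K)).1)
        = (h.1 : G ⧸ K) * ((h'.1 : G ⧸ K) * ((w h)⁻¹ : Subgroup.center (G ⧸ K)).1) *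
          ((w h')⁻¹ : Subgroup.center (G ⧸ K)).1 := by simp only [mul_assoc]
      _ = (h.1 : G ⧸ K) * (((w h)⁻¹ : Subgroup.center (G ⧸ K)).1 * (h'.1 : G ⧸ K)) *
          ((w h')⁻¹ : Subgroup.center (G ⧸ K)).1 := by rw [hc]
      _ = _ := by simp only [mul_assoc]
  · intro h hh
    have h1 := hζ h 0 (by rw [Finsupp.sum_zero_index]; exact hh.symm)
    rw [Finsupp.sum_zero_index] at h1
    have h2 : w h = 1 := by
      change Additive.toMul (ζ h).toAdd = 1
      rw [h1]; rfl
    change (QuotientGroup.mk h.1 : G ⧸ K) * ((w h)⁻¹ : Subgroup.center (G ⧸ K)).1 = _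
    rw [h2, inv_one]
    exact mul_one _
  · intro h j hhj hj1 hj2
    have h1 := hζ h (Finsupp.single j 1) (by
      rw [Finsupp.sum_single_index (h := fun j a => a • b j) (zero_smul _ _), one_smul, ← hg j, ← hhj]
      rfl)
    rw [Finsupp.sum_single_index (h := fun j a => a • z j) (zero_smul _ _), one_smul] at h1
    have hzj : z j = Additive.ofMul ⟨_, hj1⟩ := dif_pos ⟨hj1, hj2⟩
    have h2 : w h = ⟨_, hj1⟩ := by
      change Additive.toMul (ζ h).toAdd = _
      rw [h1, hzj]; rfl
    change (QuotientGroup.mk h.1 : G ⧸ K) * ((w h)⁻¹ : Subgroup.center (G ⧸ K)).1 = _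
    rw [h2, hhj]
    exact mul_inv_cancel _

theorem final (G : Type) [Group G]
    (hLN : ∀ s : Finset G, ∃ N : Subgroup G, N.Normal ∧ (N : Set G).Finite ∧ (↑s : Set G) ⊆ N)
    (hRF : ∀ g : G, g ≠ 1 → ∃ N : Subgroup G, N.Normal ∧ N.FiniteIndex ∧ g ∉ N) :
    ∃ H : Subgroup G, H.Normal ∧
      (∃ (ι : Type) (F : ι → Type) (_ : ∀ i, Group (F i)) (_ : ∀ i, Finite (F i))
          (φ : H →* ((i : ι) → F i)),
          Function.Injective φ ∧ ∀ h : H, {i : ι | φ h i ≠ 1}.Finite) ∧
      (∀ a b : G, a * b * a⁻¹ * b⁻¹ ∈ H) ∧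
      (∀ (g : G) (n : ℕ), 0 < n → ∃ y : G, g⁻¹ * y ^ n ∈ H) := by
  classical
  obtain ⟨𝓡, hR1, hR2, hR3⟩ := derived_family hLN hRF
  let A := Additive (Abelianization G)
  let t : G →* Multiplicative A :=
    { toFun := fun g => Multiplicative.ofAdd (Additive.ofMul (Abelianization.of g))
      map_one' := by rw [map_one]; rfl
      map_mul' := fun x y => by rw [map_mul]; rfl }
  have ht : ∀ g, (t g).toAdd = 0 ↔ g ∈ commutator G := by
    intro g
    constructor
    · intro h
      exact (QuotientGroup.eq_one_iff g).mp h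
    · intro h
      exact (QuotientGroup.eq_one_iff g).mpr h
  have hts : ∀ a : A, ∃ g, (t g).toAdd = a := by
    intro a
    obtain ⟨g, hg⟩ := QuotientGroup.mk_surjective (Additive.toMul a)
    exact ⟨g, hg⟩
  have htor : ∀ a : A, ∃ N : ℕ, 0 < N ∧ N • a = 0 := by
    intro a
    obtain ⟨g, rfl⟩ := hts a
    obtain ⟨F, hF, hFf, hs⟩ := hLN {g}
    have hfin : Finite F := hFf.to_subtype
    have hg : g ∈ F := hs (by simp)
    refine ⟨Nat.card F, Nat.card_pos, ?_⟩
    have h1 : g ^ Nat.card F = 1 := by
      have := pow_card_eq_one' (x := (⟨g, hg⟩ : F))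
      exact congrArg Subtype.val this
    have h2 : Nat.card F • (t g).toAdd = (t (g ^ Nat.card F)).toAdd := by rw [map_pow]; rfl
    rw [h2, h1, map_one]
    rfl
  obtain ⟨ι, b, n, hn, hnb, hind, hdens⟩ := basic A htor
  let B : AddSubgroup A := AddSubgroup.closure (Set.range b)
  let H : Subgroup G := (AddSubgroup.toSubgroup B).comap t
  have hH : ∀ g, g ∈ H ↔ (t g).toAdd ∈ B := fun g => Iff.rfl
  have hcH : commutator G ≤ H := by
    intro g hg
    rw [hH, (ht g).mpr hg]
    exact B.zero_mem
  have hBsum : ∀ a ∈ B, ∃ c : ι →₀ ℤ, (c.sum fun j a => a • b j) = a := by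
    intro a ha
    have hle : B ≤ (Finsupp.linearCombination ℤ b).toAddMonoidHom.range := by
      rw [AddSubgroup.closure_le]
      rintro _ ⟨j, rfl⟩
      exact ⟨Finsupp.single j 1, by simp⟩
    obtain ⟨c, hc⟩ := hle ha
    exact ⟨c, hc⟩
  have hf : ∀ h : H, ∃ c : ι →₀ ℤ, (c.sum fun j a => a • b j) = (t h).toAdd := fun h =>
    hBsum _ h.2
  choose g hg using fun j => hts (b j)
  have hgH : ∀ j, g j ∈ H := by
    intro j
    rw [hH, hg]
    exact AddSubgroup.subset_closure ⟨j, rfl⟩
  refine ⟨H, ⟨?_⟩, ?_, ?_, ?_⟩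
  · intro h hh x
    rw [hH] at hh ⊢
    have : t (x * h * x⁻¹) = t h := by
      rw [map_mul, map_mul, map_inv, mul_comm, inv_mul_cancel_left]
    rwa [this]
  · have hN : ∀ K : 𝓡, K.1.Normal := fun K => (hR1 K.1 K.2).1
    have hFin : ∀ K : 𝓡, Finite (G ⧸ K.1) := fun K => by
      have := (hR1 K.1 K.2).2
      infer_instance
    have hFin2 : ∀ j : ι, Finite (Multiplicative (ZMod (n j))) := fun j => by
      have : NeZero (n j) := ⟨(hn j).ne'⟩
      infer_instance
    choose φ hφ1 hφ2 using fun K : 𝓡 => phiK b n hind t H hf g hg K.1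
    have hp : ∀ j : ι, ∃ p : H →* Multiplicative (ZMod (n j)), ∀ (h : H) (c : ι →₀ ℤ),
        (c.sum fun j a => a • b j) = (t h).toAdd → (p h).toAdd = (c j : ZMod (n j)) := by
      intro j
      obtain ⟨ζ, hζ⟩ := exists_zeta b n hind (t.comp H.subtype) hf
        (fun i => if i = j then (1 : ZMod (n j)) else 0) (by
          intro i
          split_ifs with hij
          · rw [hij, nsmul_eq_mul, mul_one, ZMod.natCast_self]
          · rw [smul_zero])
      refine ⟨ζ, fun h c hc => ?_⟩
      rw [hζ h c hc]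
      by_cases hj : j ∈ c.support
      · rw [Finsupp.sum, Finset.sum_eq_single j]
        · simp
        · intro i _ hij
          rw [if_neg hij, smul_zero]
        · intro h; exact absurd hj h
      · rw [Finsupp.sum, Finset.sum_eq_zero]
        · rw [Finsupp.notMem_support_iff.mp hj]; simp
        · intro i hi
          have : i ≠ j := fun h => hj (h ▸ hi)
          rw [if_neg this, smul_zero]
    choose p hp using hp
    -- finite supports
    have hS : ∀ (x : G) (hx : x ∈ H), {K : 𝓡 | φ K ⟨x, hx⟩ ≠ 1}.Finite ∧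
        {j : ι | p j ⟨x, hx⟩ ≠ 1}.Finite := by
      let S : Subgroup G :=
        { carrier := {x | ∃ hx : x ∈ H, {K : 𝓡 | φ K ⟨x, hx⟩ ≠ 1}.Finite ∧
            {j : ι | p j ⟨x, hx⟩ ≠ 1}.Finite}
          one_mem' := by
            refine ⟨H.one_mem, ?_, ?_⟩
            · have : ∀ K : 𝓡, φ K ⟨1, H.one_mem⟩ = 1 := fun K => map_one (φ K)
              simp [this]
            · have : ∀ j : ι, p j ⟨1, H.one_mem⟩ = 1 := fun j => map_one (p j)
              simp [this]
          mul_mem' := by
            rintro x y ⟨hx, h1, h2⟩ ⟨hy, h3, h4⟩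
            refine ⟨H.mul_mem hx hy, ?_, ?_⟩
            · apply (h1.union h3).subset
              intro K hK
              by_contra hne
              simp only [Set.mem_union, Set.mem_ofPred_eq, not_or, not_not] at hne
              apply hK
              have : φ K ⟨x * y, H.mul_mem hx hy⟩ = φ K ⟨x, hx⟩ * φ K ⟨y, hy⟩ :=
                map_mul (φ K) ⟨x, hx⟩ ⟨y, hy⟩
              rw [this, hne.1, hne.2, one_mul]
            · apply (h2.union h4).subset
              intro K hK
              by_contra hne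
              simp only [Set.mem_union, Set.mem_ofPred_eq, not_or, not_not] at hne
              apply hK
              have : p K ⟨x * y, H.mul_mem hx hy⟩ = p K ⟨x, hx⟩ * p K ⟨y, hy⟩ :=
                map_mul (p K) ⟨x, hx⟩ ⟨y, hy⟩
              rw [this, hne.1, hne.2, one_mul]
          inv_mem' := by
            rintro x ⟨hx, h1, h2⟩
            refine ⟨H.inv_mem hx, ?_, ?_⟩
            · apply h1.subset
              intro K hK
              by_contra hne
              simp only [Set.mem_ofPred_eq, not_not] at hne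
              apply hK
              have : φ K ⟨x⁻¹, H.inv_mem hx⟩ = (φ K ⟨x, hx⟩)⁻¹ := map_inv (φ K) ⟨x, hx⟩
              rw [this, hne, inv_one]
            · apply h2.subset
              intro K hK
              by_contra hne
              simp only [Set.mem_ofPred_eq, not_not] at hne
              apply hK
              have : p K ⟨x⁻¹, H.inv_mem hx⟩ = (p K ⟨x, hx⟩)⁻¹ := map_inv (p K) ⟨x, hx⟩
              rw [this, hne, inv_one] }
      have hcS : commutator G ≤ S := by
        intro x hx
        refine ⟨hcH hx, ?_, ?_⟩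
        · apply ((hR3 x hx).preimage Subtype.val_injective.injOn : Set.Finite
            ((Subtype.val : 𝓡 → Subgroup G) ⁻¹' _)).subset
          intro K hK
          refine ⟨K.2, ?_⟩
          intro hxK
          apply hK
          have h1 := hφ1 K ⟨x, hcH hx⟩ ((ht x).mpr hx)
          rw [h1]
          exact (QuotientGroup.eq_one_iff x).mpr hxK
        · have : ∀ j, p j ⟨x, hcH hx⟩ = 1 := by
            intro j
            have := hp j ⟨x, hcH hx⟩ 0 (by rw [Finsupp.sum_zero_index]; exact ((ht x).mpr hx).symm)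
            rw [Finsupp.zero_apply, Int.cast_zero] at this
            exact this
          simp [this]
      have hgS : ∀ j, g j ∈ S := by
        intro j
        refine ⟨hgH j, ?_, ?_⟩
        · -- finitely many bad K
          obtain ⟨F, hF, hFf, hs⟩ := hLN {g j}
          have hgF : g j ∈ F := hs (by simp)
          let W : Set G := insert (g j ^ n j) (Set.range fun x : G => ⁅g j, x⁆)
          have hWf : W.Finite := by
            apply Set.Finite.insert
            apply hFf.subset
            rintro _ ⟨x, rfl⟩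
            change ⁅g j, x⁆ ∈ F
            rw [commutatorElement_def, mul_assoc, mul_assoc, ← mul_assoc x]
            exact F.mul_mem hgF (hF.conj_mem _ (F.inv_mem hgF) x)
          have hWc : ∀ w ∈ W, w ∈ commutator G := by
            rintro w (rfl | ⟨x, rfl⟩)
            · rw [← ht, map_pow]
              have : (t (g j) ^ n j).toAdd = n j • (t (g j)).toAdd := rfl
              rw [this, hg, hnb]
            · rw [commutator_def]
              exact Subgroup.commutator_mem_commutator (Subgroup.mem_top _) (Subgroup.mem_top _)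
          have hbad : (⋃ w ∈ W, {K ∈ 𝓡 | w ∉ K}).Finite :=
            hWf.biUnion (fun w hw => hR3 w (hWc w hw))
          apply (hbad.preimage Subtype.val_injective.injOn : Set.Finite
            ((Subtype.val : 𝓡 → Subgroup G) ⁻¹' _)).subset
          intro K hK
          by_contra hne
          simp only [Set.mem_preimage, Set.mem_iUnion, Set.mem_ofPred_eq, not_exists, not_and,
            not_not] at hne
          apply hK
          apply hφ2 K ⟨g j, hgH j⟩ j rfl
          · rw [Subgroup.mem_center_iff]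
            intro x
            obtain ⟨x, rfl⟩ := QuotientGroup.mk_surjective x
            have h1 : ⁅g j, x⁆ ∈ K.1 := hne _ (Set.mem_insert_of_mem _ ⟨x, rfl⟩) K.2
            have h2 : (QuotientGroup.mk' K.1) ⁅g j, x⁆ = 1 := (QuotientGroup.eq_one_iff _).mpr h1
            rw [map_commutatorElement, commutatorElement_eq_one_iff_mul_comm] at h2
            exact h2.symm
          · rw [← QuotientGroup.mk_pow]
            exact (QuotientGroup.eq_one_iff _).mpr (hne _ (Set.mem_insert _ _) K.2)
        · apply (Set.finite_singleton j).subset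
          intro i hi
          by_contra hne
          apply hi
          have h1 := hp i ⟨g j, hgH j⟩ (Finsupp.single j 1) (by
            rw [Finsupp.sum_single_index (h := fun j a => a • b j) (zero_smul _ _), one_smul]
            exact (hg j).symm)
          rw [Finsupp.single_apply, if_neg (fun h => hne h.symm), Int.cast_zero] at h1
          exact h1
      intro x hx
      have h1 : B ≤ (Subgroup.toAddSubgroup' (S.map t)) := by
        rw [AddSubgroup.closure_le]
        rintro _ ⟨j, rfl⟩
        exact ⟨g j, hgS j, by rw [← hg j]; rfl⟩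
      obtain ⟨s, hs, hst⟩ := h1 ((hH x).mp hx)
      have h2 : s⁻¹ * x ∈ commutator G := by
        rw [← ht, map_mul, map_inv, hst]
        change - (t x).toAdd + (t x).toAdd = 0
        exact neg_add_cancel _
      have h3 : x ∈ S := by
        have : x = s * (s⁻¹ * x) := by group
        rw [this]
        exact S.mul_mem hs (hcS h2)
      exact h3.2
    refine combine (fun K : 𝓡 => G ⧸ K.1) (fun j : ι => Multiplicative (ZMod (n j))) φ p ?_
      (fun h => (hS h.1 h.2).1) (fun h => (hS h.1 h.2).2)
    intro h h1 h2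
    obtain ⟨c, hc⟩ := hf h
    have h3 : (t h).toAdd = 0 := by
      rw [← hc, Finsupp.sum]
      apply Finset.sum_eq_zero
      intro j _
      have h4 := hp j h c hc
      rw [h2 j, toAdd_one] at h4
      obtain ⟨d, hd⟩ := (ZMod.intCast_zmod_eq_zero_iff_dvd (c j) (n j)).mp h4.symm
      rw [hd, mul_comm, mul_smul, natCast_zsmul, hnb, smul_zero]
    apply Subtype.ext
    apply hR2 h.1 ((ht _).mp h3)
    intro K hK
    have hKn := hN ⟨K, hK⟩
    have h5 := hφ1 ⟨K, hK⟩ h h3
    rw [h1 ⟨K, hK⟩] at h5
    exact (QuotientGroup.eq_one_iff h.1).mp h5.symm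
  · intro x y
    apply hcH
    rw [commutator_def]
    exact Subgroup.commutator_mem_commutator (Subgroup.mem_top _) (Subgroup.mem_top _)
  · intro x m hm
    obtain ⟨e, he, z, hz⟩ := hdens m hm (t x).toAdd
    obtain ⟨y, hy⟩ := hts z
    refine ⟨y, ?_⟩
    rw [hH, map_mul, map_inv, map_pow]
    have h1 : ((t x)⁻¹ * t y ^ m).toAdd = - (t x).toAdd + m • (t y).toAdd := rfl
    rw [h1, hy, hz]
    have h2 : -(e + m • z) + m • z = -e := by abel
    rw [h2]
    exact B.neg_mem he

end Pool.Agent.H4.LN
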