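import Pool.Agent.H4.LN1

set_option autoImplicit false

namespace Pool.Agent.H4.LN

open scoped commutatorElement

variable {G : Type} [Group G]

/-- normal subgroups of finite index -/
def FI (K : Subgroup G) : Prop := K.Normal ∧ K.FiniteIndex

theorem FI.inf {K L : Subgroup G} (hK : FI K) (hL : FI L) : FI (K ⊓ L) := by
  obtain ⟨h1, h2⟩ := hK
  obtain ⟨h3, h4⟩ := hL
  exact ⟨Subgroup.normal_inf_normal K L, inferInstance⟩

theorem FI.top : FI (⊤ : Subgroup G) := ⟨inferInstance, inferInstance⟩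

structure Good (M : Subgroup G) (S : Set (Subgroup G)) : Prop where
  normal : M.Normal
  fi : ∀ K ∈ S, FI K
  top : ⊤ ∈ S
  inf : ∀ K ∈ S, ∀ L ∈ S, K ⊓ L ∈ S
  cov : ∀ K ∈ S, ∀ g : G, ∃ m ∈ M, m⁻¹ * g ∈ K
  pow : ∀ m ∈ M, ∀ s : ℕ, (∀ K ∈ S, ∃ x : G, m⁻¹ * x ^ s ∈ K) →
    ∀ K, FI K → ∃ x : G, m⁻¹ * x ^ s ∈ K

variable (hLN : ∀ s : Finset G, ∃ N : Subgroup G, N.Normal ∧ (N : Set G).Finite ∧ (↑s : Set G) ⊆ N)
variable (hRF : ∀ g : G, g ≠ 1 → ∃ N : Subgroup G, N.Normal ∧ N.FiniteIndex ∧ g ∉ N)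

theorem sInf_normal {S : Set (Subgroup G)} (hS : ∀ K ∈ S, FI K) : (sInf S).Normal := by
  refine ⟨fun n hn g => ?_⟩
  rw [Subgroup.mem_sInf] at hn ⊢
  intro K hK
  exact (hS K hK).1.conj_mem n (hn K hK) g

include hRF in
theorem Good.inter {M : Subgroup G} {S : Set (Subgroup G)} (hG : Good M S) {m : G} (hm : m ∈ M)
    (hm' : m ∈ sInf S) : m = 1 := by
  by_contra hne
  obtain ⟨K, hK, hKf, hmK⟩ := hRF m hne
  obtain ⟨x, hx⟩ := hG.pow m hm 0 (fun L hL => ⟨1, by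
    rw [one_pow, mul_one]
    exact L.inv_mem (Subgroup.mem_sInf.mp hm' L hL)⟩) K ⟨hK, hKf⟩
  apply hmK
  rw [pow_zero, mul_one] at hx
  exact (Subgroup.inv_mem_iff K).mp hx

theorem Good.sep {M : Subgroup G} {S : Set (Subgroup G)} (hG : Good M S) {X : Set G}
    (hX : X.Finite) : ∃ K ∈ S, ∀ f ∈ X, f ∈ K → f ∈ sInf S := by
  induction X, hX using Set.Finite.induction_on with
  | empty => exact ⟨⊤, hG.top, by simp⟩
  | @insert a X _ _ ih =>
    obtain ⟨K, hK, h⟩ := ih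
    by_cases ha : a ∈ sInf S
    · refine ⟨K, hK, ?_⟩
      rintro f (rfl | hf) hfK
      · exact ha
      · exact h f hf hfK
    · rw [Subgroup.mem_sInf] at ha
      push Not at ha
      obtain ⟨L, hL, haL⟩ := ha
      refine ⟨K ⊓ L, hG.inf K hK L hL, ?_⟩
      rintro f (rfl | hf) hfK
      · exact absurd hfK.2 haL
      · exact h f hf hfK.1

include hLN hRF in
theorem Good.commM {M : Subgroup G} {S : Set (Subgroup G)} (hG : Good M S) {m : G} (hm : m ∈ M)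
    (g : G) : ⁅g, m⁆ ∈ ⁅M, M⁆ := by
  obtain ⟨F, hF, hFM, hs⟩ := exists_FN hLN M hG.normal {m} (by simpa using hm)
  have hmF : m ∈ F := hs (by simp)
  obtain ⟨K, hK, hsep⟩ := hG.sep hF.2
  obtain ⟨m₁, hm₁, hk⟩ := hG.cov K hK g
  set k := m₁⁻¹ * g with hkdef
  have h1 : ⁅k, m⁆ ∈ F := by
    rw [commutatorElement_def]
    exact F.mul_mem (hF.1.conj_mem m hmF k) (F.inv_mem hmF)
  have h2 : ⁅k, m⁆ ∈ K := by
    rw [commutatorElement_def, mul_assoc, mul_assoc, ← mul_assoc m]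
    exact K.mul_mem hk ((hG.fi K hK).1.conj_mem _ (K.inv_mem hk) m)
  have h3 : ⁅k, m⁆ = 1 := hG.inter hRF (hFM h1) (hsep _ h1 h2)
  have h4 : ⁅g, m⁆ = m₁ * ⁅k, m⁆ * m₁⁻¹ * ⁅m₁, m⁆ := by
    have : g = m₁ * k := by rw [hkdef]; group
    rw [this]
    simp only [commutatorElement_def]
    group
  rw [h4, h3, mul_one, mul_inv_cancel, one_mul]
  exact Subgroup.commutator_mem_commutator hm₁ hm

include hLN in
theorem Good.commK {M : Subgroup G} {S : Set (Subgroup G)} (hG : Good M S) (g : G) :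
    ∃ K ∈ S, ∀ u ∈ K, ⁅g, u⁆ ∈ sInf S := by
  obtain ⟨F, hF, hFf, hs⟩ := hLN {g}
  have hgF : g ∈ F := hs (by simp)
  obtain ⟨K, hK, hsep⟩ := hG.sep hFf
  refine ⟨K, hK, fun u hu => ?_⟩
  have h1 : ⁅g, u⁆ ∈ F := by
    rw [commutatorElement_def, mul_assoc, mul_assoc, ← mul_assoc u]
    exact F.mul_mem hgF (hF.conj_mem _ (F.inv_mem hgF) u)
  have h2 : ⁅g, u⁆ ∈ K := by
    rw [commutatorElement_def]
    exact K.mul_mem ((hG.fi K hK).1.conj_mem _ hu g) (K.inv_mem hu)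
  exact hsep _ h1 h2

theorem comm_mul (x m u : G) : ⁅x, m * u⁆ = ⁅x, m⁆ * (m * ⁅x, u⁆ * m⁻¹) := by
  simp only [commutatorElement_def]
  group

include hLN hRF in
/-- the key computation -/
theorem Good.comm_key {M : Subgroup G} {S : Set (Subgroup G)} (hG : Good M S) (R : Subgroup G)
    (hR : R.Normal) {x : G} (hx : x ∈ R) (y : G) :
    ⁅x, y⁆ ∈ ⁅M, M⁆ ⊔ (R ⊓ (commutator G ⊓ sInf S)) := by
  obtain ⟨K, hK, hKx⟩ := hG.commK hLN x
  obtain ⟨m, hm, hu⟩ := hG.cov K hK y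
  set u := m⁻¹ * y with hudef
  have hy : y = m * u := by rw [hudef]; group
  rw [hy, comm_mul]
  apply Subgroup.mul_mem_sup (hG.commM hLN hRF hm x)
  refine ⟨?_, ?_, ?_⟩
  · apply hR.conj_mem
    rw [commutatorElement_def, mul_assoc, mul_assoc, ← mul_assoc u]
    exact R.mul_mem hx (hR.conj_mem _ (R.inv_mem hx) u)
  · change m * ⁅x, u⁆ * m⁻¹ ∈ commutator G
    have : (commutator G).Normal := inferInstance
    apply this.conj_mem
    rw [commutator_def]
    exact Subgroup.commutator_mem_commutator (Subgroup.mem_top _) (Subgroup.mem_top _)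
  · exact (sInf_normal hG.fi).conj_mem _ (hKx u hu) m

include hLN hRF in
theorem Good.comm_le {M : Subgroup G} {S : Set (Subgroup G)} (hG : Good M S) :
    commutator G ≤ ⁅M, M⁆ ⊔ (commutator G ⊓ sInf S) := by
  rw [commutator_def, Subgroup.commutator_le]
  intro x _ y _
  have := hG.comm_key hLN hRF ⊤ inferInstance (Subgroup.mem_top x) y
  rwa [top_inf_eq, commutator_def] at this

include hLN hRF in
theorem Good.dec {M : Subgroup G} {S : Set (Subgroup G)} (hG : Good M S) {w : G}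
    (hw : w ∈ commutator G) : ∃ m ∈ (⁅M, M⁆ : Subgroup G), ∃ n ∈ commutator G ⊓ sInf S, w = m * n := by
  have h1 : (sInf S).Normal := sInf_normal hG.fi
  have h2 : (commutator G ⊓ sInf S).Normal := Subgroup.normal_inf_normal _ _
  obtain ⟨m, hm, n, hn, h⟩ := Subgroup.mem_sup_of_normal_right.mp (hG.comm_le hLN hRF hw)
  exact ⟨m, hm, n, hn, h.symm⟩

theorem comm_le_comm (M : Subgroup G) : (⁅M, M⁆ : Subgroup G) ≤ commutator G := by
  rw [commutator_def]
  exact Subgroup.commutator_mono le_top le_top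

include hLN hRF in
theorem Good.pow_key {M : Subgroup G} {S : Set (Subgroup G)} (hG : Good M S) {R : Subgroup G}
    (hR : FI R) {r : G} (hr : r ∈ R) (hrt : r ^ R.index ∈ commutator G) :
    r ^ R.index ∈ ⁅M, M⁆ ⊔ (R ⊓ (commutator G ⊓ sInf S)) := by
  have hRn := hR.1
  have hMn := hG.normal
  obtain ⟨m, hm, n, hn, h⟩ := hG.dec hLN hRF hrt
  have hmM : m ∈ M := Subgroup.commutator_le_left M M hm
  have h1 : ∀ K ∈ S, ∃ x : G, m⁻¹ * x ^ R.index ∈ K := by
    intro K hK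
    obtain ⟨x, hx, hk⟩ := hG.cov K hK r
    have hKn := (hG.fi K hK).1
    refine ⟨x, ?_⟩
    rw [← QuotientGroup.eq, QuotientGroup.mk_pow]
    have e1 : (x : G ⧸ K) = (r : G ⧸ K) := QuotientGroup.eq.mpr hk
    have e2 : ((m * n : G) : G ⧸ K) = (m : G ⧸ K) := by
      symm
      rw [QuotientGroup.eq]
      have : m⁻¹ * (m * n) = n := by group
      rw [this]
      exact Subgroup.mem_sInf.mp hn.2 K hK
    rw [e1, ← e2, ← h, QuotientGroup.mk_pow]
  obtain ⟨x, hx⟩ := hG.pow m hmM _ h1 R hR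
  have hxR : x ^ R.index ∈ R := Subgroup.pow_index_mem R x
  have hmR : m ∈ R := by
    have := R.mul_mem hx (R.inv_mem hxR)
    rw [mul_inv_cancel_right] at this
    exact (Subgroup.inv_mem_iff R).mp this
  have hnR : n ∈ R := by
    have : n = m⁻¹ * r ^ R.index := by rw [h]; group
    rw [this]
    exact R.mul_mem (R.inv_mem hmR) (R.pow_mem hr _)
  rw [h]
  exact Subgroup.mul_mem_sup hm ⟨hnR, hn⟩

end Pool.Agent.H4.LN
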