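import Pool.Agent.H4.LN4

set_option autoImplicit false

namespace Pool.Agent.H4.LN

open scoped commutatorElement

/-- separating from `t`-th powers in a central subgroup -/
theorem BD {B : Type} [CommGroup B] {t : ℕ} (ht : 0 < t) (n : B) (hn : ∀ b : B, n ≠ b ^ t) :
    ∃ K : Subgroup B, K.FiniteIndex ∧ n ∉ K := by
  let P : Subgroup B := (powMonoidHom t : B →* B).range
  have hnP : (QuotientGroup.mk n : B ⧸ P) ≠ 1 := by
    intro h
    rw [QuotientGroup.eq_one_iff] at h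
    obtain ⟨b, hb⟩ := h
    exact hn b hb.symm
  have hpow : ∀ d : B ⧸ P, d ^ t = 1 := by
    intro d
    obtain ⟨b, rfl⟩ := QuotientGroup.mk_surjective d
    rw [← QuotientGroup.mk_pow, QuotientGroup.eq_one_iff]
    exact ⟨b, rfl⟩
  have hne : (Additive.ofMul (QuotientGroup.mk n : B ⧸ P)) ≠ 0 := fun h => hnP h
  obtain ⟨c, hc⟩ := CharacterModule.exists_character_apply_ne_zero_of_ne_zero hne
  let f : Additive (B ⧸ P) →+ AddCircle (1 : ℚ) := c
  have hfin : Finite f.range := by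
    have h1 := AddCircle.finite_torsion (1 : ℚ) ht
    apply Set.Finite.to_subtype
    apply h1.subset
    rintro _ ⟨d, rfl⟩
    change t • f d = 0
    rw [← map_nsmul]
    have : t • d = 0 := hpow (Additive.toMul d)
    rw [this, map_zero]
  have hfk : f.ker.FiniteIndex := AddSubgroup.finiteIndex_ker f
  let K₀ : Subgroup (B ⧸ P) := AddSubgroup.toSubgroup' f.ker
  have hK₀ : K₀.FiniteIndex := by
    constructor
    have := hfk.index_ne_zero
    exact this
  refine ⟨K₀.comap (QuotientGroup.mk' P), ⟨?_⟩, ?_⟩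
  · rw [Subgroup.index_comap_of_surjective _ (QuotientGroup.mk'_surjective P)]
    exact hK₀.index_ne_zero
  intro h
  exact hc h

theorem BD' {X : Type} [Group X] (B : Subgroup X) (hB : B ≤ Subgroup.center X) (hBf : B.FiniteIndex)
    {t : ℕ} (ht : 0 < t) (n : X) (hn : ∀ b ∈ B, n ≠ b ^ t) : ∃ Y : Subgroup X, FI Y ∧ n ∉ Y := by
  by_cases hnB : n ∈ B
  · let inst : CommGroup B := { (inferInstance : Group B) with
      mul_comm := fun a b => Subtype.ext ((Subgroup.mem_center_iff.mp (hB b.2)) a.1) }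
    obtain ⟨K, hK, hnK⟩ := @BD B inst t ht ⟨n, hnB⟩ (fun b hb => hn b.1 b.2 (by
      have := congrArg Subtype.val hb
      exact this))
    have hKf : (Subgroup.map B.subtype K).FiniteIndex := by
      constructor
      rw [Subgroup.index_map_subtype]
      exact mul_ne_zero hK.index_ne_zero hBf.index_ne_zero
    refine ⟨K.map B.subtype, ⟨⟨?_⟩, hKf⟩, ?_⟩
    · rintro _ ⟨k, hk, rfl⟩ g
      have h1 : g * (B.subtype k) * g⁻¹ = B.subtype k := by
        have := (Subgroup.mem_center_iff.mp (hB k.2)) g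
        change g * k.1 * g⁻¹ = k.1
        rw [this, mul_inv_cancel_right]
      rw [h1]
      exact ⟨k, hk, rfl⟩
    · rintro ⟨k, hk, hkn⟩
      apply hnK
      have : k = ⟨n, hnB⟩ := Subtype.ext hkn
      rw [← this]
      exact hk
  · refine ⟨B, ⟨⟨?_⟩, hBf⟩, hnB⟩
    intro k hk g
    have h1 : g * k * g⁻¹ = k := by
      have := (Subgroup.mem_center_iff.mp (hB hk)) g
      rw [this, mul_inv_cancel_right]
    rwa [h1]

variable {G : Type} [Group G]
variable (hLN : ∀ s : Finset G, ∃ N : Subgroup G, N.Normal ∧ (N : Set G).Finite ∧ (↑s : Set G) ⊆ N)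
variable (hRF : ∀ g : G, g ≠ 1 → ∃ N : Subgroup G, N.Normal ∧ N.FiniteIndex ∧ g ∉ N)

include hLN hRF in
theorem Good.sep1 {M : Subgroup G} {S : Set (Subgroup G)} (hG : Good M S) {R : Subgroup G}
    (hR : FI R) {n : G} (hn : n ∈ commutator G ⊓ sInf S) (hnR : n ∉ R) :
    ∃ Y : Subgroup G, FI Y ∧ ⁅M, M⁆ ⊔ (R ⊓ (commutator G ⊓ sInf S)) ≤ Y ∧ n ∉ Y := by
  have hRn := hR.1
  have hMn := hG.normal
  have hSn : (sInf S).Normal := sInf_normal hG.fi
  have hCn : (commutator G ⊓ sInf S).Normal := Subgroup.normal_inf_normal _ _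
  have hDn : (R ⊓ (commutator G ⊓ sInf S)).Normal := Subgroup.normal_inf_normal _ _
  set Q : Subgroup G := ⁅M, M⁆ ⊔ (R ⊓ (commutator G ⊓ sInf S)) with hQ
  have hQn : Q.Normal := Subgroup.sup_normal _ _
  have hQc : Q ≤ commutator G := sup_le (comm_le_comm M) (inf_le_right.trans inf_le_left)
  -- n is not in Q
  have hnQ : n ∉ Q := by
    intro h
    obtain ⟨m, hm, n', hn', h⟩ := Subgroup.mem_sup_of_normal_right.mp h
    have hm1 : m = n * n'⁻¹ := by rw [← h]; group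
    have hmS : m ∈ sInf S := by
      rw [hm1]
      exact (sInf S).mul_mem hn.2 ((sInf S).inv_mem hn'.2.2)
    have := hG.inter hRF (Subgroup.commutator_le_left M M hm) hmS
    rw [this, one_mul] at h
    rw [← h] at hnR
    exact hnR hn'.1
  let π := QuotientGroup.mk' Q
  let B : Subgroup (G ⧸ Q) := R.map π
  have hBc : B ≤ Subgroup.center (G ⧸ Q) := by
    rintro _ ⟨r, hr, rfl⟩
    rw [Subgroup.mem_center_iff]
    intro g
    obtain ⟨g, rfl⟩ := QuotientGroup.mk_surjective g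
    have h1 := hG.comm_key hLN hRF R hRn hr g
    have h2 : π ⁅r, g⁆ = 1 := (QuotientGroup.eq_one_iff _).mpr h1
    rw [map_commutatorElement, commutatorElement_eq_one_iff_mul_comm] at h2
    exact h2.symm
  have hBf : B.FiniteIndex := by
    constructor
    have h1 : B.index ∣ R.index := Subgroup.index_map_dvd _ (QuotientGroup.mk'_surjective Q)
    intro h0
    rw [h0, zero_dvd_iff] at h1
    exact hR.2.index_ne_zero h1
  have hnB : ∀ b ∈ B, (π n : G ⧸ Q) ≠ b ^ R.index := by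
    rintro _ ⟨r, hr, rfl⟩ h
    have h1 : n⁻¹ * r ^ R.index ∈ Q := by
      rw [← map_pow] at h
      exact QuotientGroup.eq.mp h
    have h2 : r ^ R.index ∈ commutator G := by
      have : r ^ R.index = n * (n⁻¹ * r ^ R.index) := by group
      rw [this]
      exact (commutator G).mul_mem hn.1 (hQc h1)
    have h3 := hG.pow_key hLN hRF hR hr h2
    apply hnQ
    have : n = r ^ R.index * (n⁻¹ * r ^ R.index)⁻¹ := by group
    rw [this]
    exact Q.mul_mem h3 (Q.inv_mem h1)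
  obtain ⟨Y, hY, hnY⟩ := BD' B hBc hBf (Nat.pos_of_ne_zero hR.2.index_ne_zero) (π n) hnB
  have hYn := hY.1
  have hYf := hY.2
  refine ⟨Y.comap π, ⟨inferInstance, ⟨?_⟩⟩, ?_, hnY⟩
  · rw [Subgroup.index_comap_of_surjective _ (QuotientGroup.mk'_surjective Q)]
    exact hYf.index_ne_zero
  intro q hq
  change π q ∈ Y
  have : π q = 1 := (QuotientGroup.eq_one_iff _).mpr hq
  rw [this]
  exact Y.one_mem

include hLN hRF in
theorem Good.rel {M : Subgroup G} {S : Set (Subgroup G)} (hG : Good M S) {R : Subgroup G}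
    (hR : FI R) : ∃ Y : Subgroup G, FI Y ∧ ⁅M, M⁆ ≤ Y ∧ R ⊓ (commutator G ⊓ sInf S) ≤ Y ∧
      ∀ n ∈ commutator G ⊓ sInf S, n ∈ Y → n ∈ R := by
  have hRn := hR.1
  have hRf := hR.2
  have key : ∀ c : G ⧸ R, ∃ Y : Subgroup G, FI Y ∧ ⁅M, M⁆ ⊔ (R ⊓ (commutator G ⊓ sInf S)) ≤ Y ∧
      ∀ n ∈ commutator G ⊓ sInf S, (n : G ⧸ R) = c → n ∈ Y → n ∈ R := by
    intro c
    by_cases h : ∃ n₀ ∈ commutator G ⊓ sInf S, (n₀ : G ⧸ R) = c ∧ n₀ ∉ R
    · obtain ⟨n₀, hn₀, hc, hn₀R⟩ := h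
      obtain ⟨Y, hY, hQY, hnY⟩ := hG.sep1 hLN hRF hR hn₀ hn₀R
      refine ⟨Y, hY, hQY, ?_⟩
      intro n hn hnc hn'
      exfalso
      apply hnY
      have h1 : n₀⁻¹ * n ∈ R := QuotientGroup.eq.mp (hc.trans hnc.symm)
      have h2 : n₀⁻¹ * n ∈ Y := hQY (Subgroup.mem_sup_right
        ⟨h1, (commutator G ⊓ sInf S).mul_mem ((commutator G ⊓ sInf S).inv_mem hn₀) hn⟩)
      have : n₀ = n * (n₀⁻¹ * n)⁻¹ := by group
      rw [this]
      exact Y.mul_mem hn' (Y.inv_mem h2)
    · refine ⟨⊤, FI.top, le_top, ?_⟩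
      intro n hn hnc _
      by_contra hnR
      exact h ⟨n, hn, hnc, hnR⟩
  choose Y hY hQ hn using key
  refine ⟨⨅ c, Y c, ⟨Subgroup.normal_iInf_normal (fun c => (hY c).1),
    Subgroup.finiteIndex_iInf (fun c => (hY c).2)⟩, ?_, ?_, ?_⟩
  · exact le_iInf fun c => le_sup_left.trans (hQ c)
  · exact le_iInf fun c => le_sup_right.trans (hQ c)
  · intro n hn' hnY
    exact hn (n : G ⧸ R) n hn' rfl (Subgroup.mem_iInf.mp hnY _)

end Pool.Agent.H4.LN
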