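import Pool.Agent.H4.LN5

set_option autoImplicit false

namespace Pool.Agent.H4.LN

open scoped commutatorElement Cardinal

theorem gen_closure {X : Type} (F : ℕ × ℕ → X → X → X) (x₀ : X) (A : Set X) (hx : x₀ ∈ A) :
    ∃ C : Set X, (∀ i, ∀ a ∈ C, ∀ b ∈ C, F i a b ∈ C) ∧ A ⊆ C ∧
      (∀ D : Set X, (∀ i, ∀ a ∈ D, ∀ b ∈ D, F i a b ∈ D) → A ⊆ D → C ⊆ D) ∧
      #C ≤ max ℵ₀ #A := by
  let L : FirstOrder.Language.{0, 0} := ⟨fun _ => ℕ × ℕ, fun _ => Empty⟩
  let st : L.Structure X :=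
    { funMap := fun {n} (f : ℕ × ℕ) (v : Fin n → X) =>
        if h : 2 ≤ n then F f (v ⟨0, by omega⟩) (v ⟨1, by omega⟩) else x₀
      RelMap := fun {n} (r : Empty) _ => Empty.elim r }
  have hfun : ∀ (n : ℕ) (f : L.Functions n) (v : Fin n → X),
      FirstOrder.Language.Structure.funMap f v =
        if h : 2 ≤ n then F f (v ⟨0, by omega⟩) (v ⟨1, by omega⟩) else x₀ := fun _ _ _ => rfl
  refine ⟨(FirstOrder.Language.Substructure.closure L A : L.Substructure X), ?_, ?_, ?_, ?_⟩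
  · intro i a ha b hb
    have := (FirstOrder.Language.Substructure.closure L A).fun_mem (n := 2) i ![a, b] (by
      intro j
      fin_cases j
      · exact ha
      · exact hb)
    rw [hfun] at this
    simpa using this
  · exact FirstOrder.Language.Substructure.subset_closure
  · intro D hD hA x hx'
    refine FirstOrder.Language.Substructure.closure_induction (p := fun x => x ∈ D) hx'
      (fun x hx => hA hx) ?_
    intro n f v hv
    change FirstOrder.Language.Structure.funMap f v ∈ D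
    rw [hfun]
    split_ifs with h
    · exact hD _ _ (hv _) _ (hv _)
    · exact hA hx
  · have h1 := FirstOrder.Language.Substructure.lift_card_closure_le (L := L) (M := X) (s := A)
    rw [Cardinal.lift_id, Cardinal.lift_id, Cardinal.lift_id] at h1
    refine h1.trans ?_
    have h2 : #(Σ i, L.Functions i) ≤ ℵ₀ := by
      have : Countable (Σ i : ℕ, L.Functions i) := by
        change Countable (Σ _ : ℕ, ℕ × ℕ)
        infer_instance
      exact Cardinal.mk_le_aleph0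
    apply max_le (le_max_left _ _)
    calc #A + #(Σ i, L.Functions i) ≤ #A + ℵ₀ := by gcongr
      _ = max #A ℵ₀ := Cardinal.add_eq_max' le_rfl
      _ ≤ max ℵ₀ #A := by rw [max_comm]

variable {G : Type} [Group G]
variable (hLN : ∀ s : Finset G, ∃ N : Subgroup G, N.Normal ∧ (N : Set G).Finite ∧ (↑s : Set G) ⊆ N)
variable (hRF : ∀ g : G, g ≠ 1 → ∃ N : Subgroup G, N.Normal ∧ N.FiniteIndex ∧ g ∉ N)

theorem FN.bot : FN (⊥ : Subgroup G) := ⟨inferInstance, by simp⟩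

theorem FN.sup {K L : Subgroup G} (hK : FN K) (hL : FN L) : FN (K ⊔ L) := by
  have h1 := hK.1
  have h2 := hL.1
  refine ⟨Subgroup.sup_normal _ _, ?_⟩
  rw [Subgroup.normal_mul]
  exact hK.2.mul hL.2

/-- the property to be proved -/
def HS (M : Subgroup G) (S : Set (Subgroup G)) : Prop :=
  ∃ 𝓡 : Set (Subgroup G), (∀ K ∈ 𝓡, FI K ∧ commutator G ⊓ sInf S ≤ K) ∧
    (∀ w ∈ (⁅M, M⁆ : Subgroup G), (∀ K ∈ 𝓡, w ∈ K) → w = 1) ∧
    ∀ w ∈ (⁅M, M⁆ : Subgroup G), {K ∈ 𝓡 | w ∉ K}.Finite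

include hLN hRF in
theorem HS.countable {M : Subgroup G} {S : Set (Subgroup G)} (hG : Good M S)
    (hc : (M : Set G).Countable) : HS M S := by
  have hMn := hG.normal
  have hDM : (⁅M, M⁆ : Subgroup G) ≤ M := Subgroup.commutator_le_left M M
  obtain ⟨e, he⟩ := (hc.mono hDM).exists_eq_range ⟨1, (⁅M, M⁆ : Subgroup G).one_mem⟩
  have hcF : ∀ n : ℕ, ∃ F : Subgroup G, FN F ∧ F ≤ (⁅M, M⁆ : Subgroup G) ∧ e n ∈ F := by
    intro n
    have hmem : e n ∈ (⁅M, M⁆ : Subgroup G) := by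
      have : e n ∈ Set.range e := ⟨n, rfl⟩
      rw [← he] at this
      exact this
    obtain ⟨F, hF, hFD, hs⟩ := exists_FN hLN (⁅M, M⁆ : Subgroup G) inferInstance {e n} (by
      simpa using hmem)
    exact ⟨F, hF, hFD, hs (by simp)⟩
  choose Fc hFc hFcD heF using hcF
  let F : ℕ → Subgroup G := fun n => Nat.rec ⊥ (fun n Fn => Fn ⊔ Fc n) n
  have hF0 : F 0 = ⊥ := rfl
  have hFs : ∀ n, F (n + 1) = F n ⊔ Fc n := fun _ => rfl
  have hF : ∀ n, FN (F n) := by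
    intro n
    induction n with
    | zero => exact FN.bot
    | succ n ih => rw [hFs]; exact ih.sup (hFc n)
  have hFD : ∀ n, F n ≤ (⁅M, M⁆ : Subgroup G) := by
    intro n
    induction n with
    | zero => rw [hF0]; exact bot_le
    | succ n ih => rw [hFs]; exact sup_le ih (hFcD n)
  have hmono : Monotone F := monotone_nat_of_le_succ (fun n => by rw [hFs]; exact le_sup_left)
  have hR : ∀ n, ∃ K ∈ S, ∀ f ∈ F n, f ∈ K → f = 1 := by
    intro n
    obtain ⟨K, hK, hs⟩ := hG.sep (hF n).2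
    exact ⟨K, hK, fun f hf hfK => hG.inter hRF (hDM (hFD n hf)) (hs f hf hfK)⟩
  choose R hRS hR1 using hR
  let T : ℕ → Subgroup G := fun n => F n ⊔ R (n + 1)
  refine ⟨Set.range T, ?_, ?_, ?_⟩
  · rintro _ ⟨n, rfl⟩
    have h1 := (hF n).1
    have h2 := (hG.fi _ (hRS (n + 1))).1
    have h3 := (hG.fi _ (hRS (n + 1))).2
    refine ⟨⟨@Subgroup.sup_normal _ _ (F n) (R (n + 1)) h1 h2,
      Subgroup.finiteIndex_of_le (le_sup_right : R (n + 1) ≤ F n ⊔ R (n + 1))⟩, ?_⟩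
    exact inf_le_right.trans ((sInf_le (hRS (n + 1))).trans le_sup_right)
  · intro w hw hall
    have key : ∀ m, w ∈ F m → w = 1 := by
      intro m
      induction m with
      | zero => intro h; rw [hF0] at h; exact Subgroup.mem_bot.mp h
      | succ m ih =>
        intro h
        have h1 := (hF m).1
        have h2 : w ∈ F m ⊔ R (m + 1) := hall _ ⟨m, rfl⟩
        have h3 := (hG.fi _ (hRS (m + 1))).1
        obtain ⟨f, hf, r, hr, hfr⟩ := Subgroup.mem_sup_of_normal_right.mp h2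
        have h4 : r ∈ F (m + 1) := by
          have : r = f⁻¹ * w := by rw [← hfr]; group
          rw [this]
          exact (F (m + 1)).mul_mem ((F (m + 1)).inv_mem (hmono (Nat.le_succ m) hf)) h
        have h5 := hR1 (m + 1) r h4 hr
        apply ih
        rw [← hfr, h5, mul_one]
        exact hf
    have : w ∈ Set.range e := by rw [← he]; exact hw
    obtain ⟨k, rfl⟩ := this
    exact key (k + 1) (by rw [hFs]; exact Subgroup.mem_sup_right (heF k))
  · intro w hw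
    have : w ∈ Set.range e := by rw [← he]; exact hw
    obtain ⟨k, rfl⟩ := this
    apply ((Set.finite_lt_nat (k + 1)).image T).subset
    rintro _ ⟨⟨n, rfl⟩, hn⟩
    refine ⟨n, ?_, rfl⟩
    change n < k + 1
    by_contra hlt
    push Not at hlt
    apply hn
    have h1 : e k ∈ F (k + 1) := by rw [hFs]; exact Subgroup.mem_sup_right (heF k)
    exact Subgroup.mem_sup_left (hmono hlt h1)

include hLN hRF in
theorem HS.rel {M₀ M₁ : Subgroup G} {S₀ S₁ : Set (Subgroup G)} (hG₀ : Good M₀ S₀)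
    (hS : S₀ ⊆ S₁) (h : HS M₁ S₁) :
    ∃ 𝓨 : Set (Subgroup G), (∀ Y ∈ 𝓨, FI Y ∧ ⁅M₀, M₀⁆ ≤ Y ∧ commutator G ⊓ sInf S₁ ≤ Y) ∧
      (∀ w ∈ (⁅M₁, M₁⁆ : Subgroup G) ⊓ sInf S₀, (∀ Y ∈ 𝓨, w ∈ Y) → w = 1) ∧
      ∀ w ∈ (⁅M₁, M₁⁆ : Subgroup G) ⊓ sInf S₀, {Y ∈ 𝓨 | w ∉ Y}.Finite := by
  obtain ⟨𝓡, h1, h2, h3⟩ := h
  have key : ∀ R : 𝓡, ∃ Y : Subgroup G, FI Y ∧ ⁅M₀, M₀⁆ ≤ Y ∧ R.1 ⊓ (commutator G ⊓ sInf S₀) ≤ Y ∧
      ∀ n ∈ commutator G ⊓ sInf S₀, n ∈ Y → n ∈ R.1 := fun R => hG₀.rel hLN hRF (h1 R.1 R.2).1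
  choose Y hY hY1 hY2 hY3 using key
  have hle : sInf S₁ ≤ sInf S₀ := sInf_le_sInf hS
  refine ⟨Set.range Y, ?_, ?_, ?_⟩
  · rintro _ ⟨R, rfl⟩
    refine ⟨hY R, hY1 R, le_trans ?_ (hY2 R)⟩
    exact le_inf (h1 R.1 R.2).2 (inf_le_inf_left _ hle)
  · intro w hw hall
    apply h2 w hw.1
    intro K hK
    exact hY3 ⟨K, hK⟩ w ⟨comm_le_comm M₁ hw.1, hw.2⟩ (hall _ ⟨_, rfl⟩)
  · intro w hw
    have hfin := h3 w hw.1
    have : {Y' ∈ Set.range Y | w ∉ Y'} ⊆ Y '' {R : 𝓡 | w ∉ R.1} := by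
      rintro _ ⟨⟨R, rfl⟩, hR⟩
      refine ⟨R, ?_, rfl⟩
      intro hwR
      exact hR (hY2 R ⟨hwR, comm_le_comm M₁ hw.1, hw.2⟩)
    apply Set.Finite.subset _ this
    apply Set.Finite.image
    have h4 : {R : 𝓡 | w ∉ R.1} = Subtype.val ⁻¹' {K ∈ 𝓡 | w ∉ K} := by
      ext R
      simp
    rw [h4]
    exact hfin.preimage Subtype.val_injective.injOn

end Pool.Agent.H4.LN
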