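import Pool.Agent.H4.LN6

set_option autoImplicit false

namespace Pool.Agent.H4.LN

open scoped commutatorElement Cardinal

/-- elements together with normal subgroups of finite index -/
abbrev XX (G : Type) [Group G] : Type := G ⊕ {K : Subgroup G // FI K}

/-- choice functions -/
structure Sk (G : Type) [Group G] where
  cj : G → ℕ → G
  rp : {K : Subgroup G // FI K} → ℕ → G
  kk : G → ℕ → {K : Subgroup G // FI K}
  cj_spec : ∀ g x : G, ∃ n, cj g n = x * g * x⁻¹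
  rp_spec : ∀ (K : {K : Subgroup G // FI K}) (g : G), ∃ n, (rp K n)⁻¹ * g ∈ K.1
  kk_spec : ∀ (m : G) (s : ℕ), (∃ K' : Subgroup G, FI K' ∧ ∀ x : G, m⁻¹ * x ^ s ∉ K') →
    ∀ x : G, m⁻¹ * x ^ s ∉ (kk m s).1

variable {G : Type} [Group G]

theorem exists_Sk (hLN : ∀ s : Finset G, ∃ N : Subgroup G, N.Normal ∧ (N : Set G).Finite ∧
    (↑s : Set G) ⊆ N) : Nonempty (Sk G) := by
  classical
  have h1 : ∀ g : G, ∃ c : ℕ → G, ∀ x : G, ∃ n, c n = x * g * x⁻¹ := by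
    intro g
    obtain ⟨F, hF, hFf, hs⟩ := hLN {g}
    have hfin : (Set.range (fun x : G => x * g * x⁻¹)).Finite := by
      apply hFf.subset
      rintro _ ⟨x, rfl⟩
      exact hF.conj_mem g (hs (by simp)) x
    obtain ⟨c, hc⟩ := hfin.countable.exists_eq_range ⟨_, ⟨1, rfl⟩⟩
    refine ⟨c, fun x => ?_⟩
    have : x * g * x⁻¹ ∈ Set.range c := by rw [← hc]; exact ⟨x, rfl⟩
    exact this
  have h2 : ∀ K : {K : Subgroup G // FI K}, ∃ c : ℕ → G, ∀ g : G, ∃ n, (c n)⁻¹ * g ∈ K.1 := by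
    intro K
    have hf := K.2.2
    obtain ⟨e, he⟩ := exists_surjective_nat (G ⧸ K.1)
    refine ⟨fun n => (e n).out, fun g => ?_⟩
    obtain ⟨n, hn⟩ := he (g : G ⧸ K.1)
    refine ⟨n, ?_⟩
    apply QuotientGroup.eq.mp
    rw [QuotientGroup.out_eq', hn]
  have h3 : ∀ (m : G) (s : ℕ), ∃ K : {K : Subgroup G // FI K},
      (∃ K' : Subgroup G, FI K' ∧ ∀ x : G, m⁻¹ * x ^ s ∉ K') → ∀ x : G, m⁻¹ * x ^ s ∉ K.1 := by
    intro m s
    by_cases h : ∃ K' : Subgroup G, FI K' ∧ ∀ x : G, m⁻¹ * x ^ s ∉ K'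
    · obtain ⟨K', hK', hx⟩ := h
      exact ⟨⟨K', hK'⟩, fun _ => hx⟩
    · exact ⟨⟨⊤, FI.top⟩, fun h' => absurd h' h⟩
  choose cj hcj using h1
  choose rp hrp using h2
  choose kk hkk using h3
  exact ⟨⟨cj, rp, kk, hcj, hrp, hkk⟩⟩

/-- closed sets -/
structure Cls (σ : Sk G) (C : Set (XX G)) : Prop where
  one : Sum.inl 1 ∈ C
  mul : ∀ a b : G, Sum.inl a ∈ C → Sum.inl b ∈ C → Sum.inl (a * b) ∈ C
  inv : ∀ a : G, Sum.inl a ∈ C → Sum.inl a⁻¹ ∈ C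
  inf : ∀ K L : {K : Subgroup G // FI K}, Sum.inr K ∈ C → Sum.inr L ∈ C →
    Sum.inr ⟨K.1 ⊓ L.1, K.2.inf L.2⟩ ∈ C
  top : Sum.inr ⟨⊤, FI.top⟩ ∈ C
  cj : ∀ (a : G) (n : ℕ), Sum.inl a ∈ C → Sum.inl (σ.cj a n) ∈ C
  rp : ∀ (K : {K : Subgroup G // FI K}) (n : ℕ), Sum.inr K ∈ C → Sum.inl (σ.rp K n) ∈ C
  kk : ∀ (a : G) (n : ℕ), Sum.inl a ∈ C → Sum.inr (σ.kk a n) ∈ C

def op (σ : Sk G) : ℕ × ℕ → XX G → XX G → XX G
  | (0, _), Sum.inl a, Sum.inl b => Sum.inl (a * b)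
  | (1, _), Sum.inl a, _ => Sum.inl a⁻¹
  | (2, _), Sum.inr K, Sum.inr L => Sum.inr ⟨K.1 ⊓ L.1, K.2.inf L.2⟩
  | (3, _), _, _ => Sum.inr ⟨⊤, FI.top⟩
  | (4, n), Sum.inl a, _ => Sum.inl (σ.cj a n)
  | (5, n), Sum.inr K, _ => Sum.inl (σ.rp K n)
  | (6, n), Sum.inl a, _ => Sum.inr (σ.kk a n)
  | _, _, _ => Sum.inl 1

theorem exists_cl (σ : Sk G) (A : Set (XX G)) : ∃ C : Set (XX G), Cls σ C ∧ A ⊆ C ∧
    (∀ D, Cls σ D → A ⊆ D → C ⊆ D) ∧ #C ≤ max ℵ₀ #A := by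
  obtain ⟨C, h1, h2, h3, h4⟩ := gen_closure (op σ) (Sum.inl 1) (insert (Sum.inl 1) A)
    (Set.mem_insert _ _)
  have hone : Sum.inl 1 ∈ C := h2 (Set.mem_insert _ _)
  refine ⟨C, ?_, (Set.subset_insert _ _).trans h2, ?_, ?_⟩
  · exact
      { one := hone
        mul := fun a b ha hb => h1 (0, 0) _ ha _ hb
        inv := fun a ha => h1 (1, 0) _ ha _ hone
        inf := fun K L hK hL => h1 (2, 0) _ hK _ hL
        top := h1 (3, 0) _ hone _ hone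
        cj := fun a n ha => h1 (4, n) _ ha _ hone
        rp := fun K n hK => h1 (5, n) _ hK _ hone
        kk := fun a n ha => h1 (6, n) _ ha _ hone }
  · intro D hD hA
    apply h3 D
    · intro i a ha b hb
      unfold op
      split
      · exact hD.mul _ _ ha hb
      · exact hD.inv _ ha
      · exact hD.inf _ _ ha hb
      · exact hD.top
      · exact hD.cj _ _ ha
      · exact hD.rp _ _ ha
      · exact hD.kk _ _ ha
      · exact hD.one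
    · exact Set.insert_subset hD.one hA
  · refine h4.trans (max_le (le_max_left _ _) ?_)
    calc #(insert (Sum.inl 1) A : Set (XX G)) ≤ #A + 1 := Cardinal.mk_insert_le
      _ ≤ max (max #A 1) ℵ₀ := Cardinal.add_le_max _ _
      _ ≤ max ℵ₀ #A := by
        apply max_le (max_le (le_max_right _ _) _) (le_max_left _ _)
        exact (Cardinal.one_le_aleph0).trans (le_max_left _ _)

def MM (C : Set (XX G)) : Subgroup G := Subgroup.closure {g | Sum.inl g ∈ C}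

def SS (C : Set (XX G)) : Set (Subgroup G) := {K | ∃ h : FI K, Sum.inr ⟨K, h⟩ ∈ C}

theorem MM_mono {C D : Set (XX G)} (h : C ⊆ D) : MM C ≤ MM D :=
  Subgroup.closure_mono (fun _ hg => h hg)

theorem SS_mono {C D : Set (XX G)} (h : C ⊆ D) : SS C ⊆ SS D := by
  rintro K ⟨hK, hC⟩
  exact ⟨hK, h hC⟩

theorem CC_mono {C D : Set (XX G)} (h : C ⊆ D) :
    (⁅MM C, MM C⁆ : Subgroup G) ≤ ⁅MM D, MM D⁆ :=
  Subgroup.commutator_mono (MM_mono h) (MM_mono h)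

theorem II_anti {C D : Set (XX G)} (h : C ⊆ D) : sInf (SS D) ≤ sInf (SS C) :=
  sInf_le_sInf (SS_mono h)

theorem Cls.mem_MM {σ : Sk G} {C : Set (XX G)} (hC : Cls σ C) {g : G} :
    g ∈ MM C ↔ Sum.inl g ∈ C := by
  let H : Subgroup G :=
    { carrier := {g | Sum.inl g ∈ C}
      mul_mem' := fun {a b} ha hb => hC.mul a b ha hb
      one_mem' := hC.one
      inv_mem' := fun {a} ha => hC.inv a ha }
  have : MM C = H := Subgroup.closure_eq H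
  rw [this]
  rfl

theorem Cls.good {σ : Sk G} {C : Set (XX G)} (hC : Cls σ C) : Good (MM C) (SS C) where
  normal := by
    refine ⟨fun m hm g => ?_⟩
    obtain ⟨n, hn⟩ := σ.cj_spec m g
    rw [hC.mem_MM] at hm ⊢
    rw [← hn]
    exact hC.cj _ _ hm
  fi := by
    rintro K ⟨hK, -⟩
    exact hK
  top := ⟨FI.top, hC.top⟩
  inf := by
    rintro K ⟨hK, hKC⟩ L ⟨hL, hLC⟩
    exact ⟨hK.inf hL, hC.inf _ _ hKC hLC⟩
  cov := by
    rintro K ⟨hK, hKC⟩ g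
    obtain ⟨n, hn⟩ := σ.rp_spec ⟨K, hK⟩ g
    exact ⟨_, hC.mem_MM.mpr (hC.rp _ n hKC), hn⟩
  pow := by
    intro m hm s h K hK
    by_contra hx
    push Not at hx
    have h1 := σ.kk_spec m s ⟨K, hK, hx⟩
    obtain ⟨x, hx⟩ := h (σ.kk m s).1 ⟨(σ.kk m s).2, hC.kk m s (hC.mem_MM.mp hm)⟩
    exact h1 x hx

theorem Cls.sUnion {σ : Sk G} {U : Set (Set (XX G))} (hne : U.Nonempty)
    (hdir : ∀ C ∈ U, ∀ D ∈ U, C ⊆ D ∨ D ⊆ C) (hU : ∀ C ∈ U, Cls σ C) : Cls σ (⋃₀ U) := by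
  obtain ⟨C₀, hC₀⟩ := hne
  exact
    { one := ⟨C₀, hC₀, (hU C₀ hC₀).one⟩
      mul := by
        rintro a b ⟨C, hC, ha⟩ ⟨D, hD, hb⟩
        rcases hdir C hC D hD with h | h
        · exact ⟨D, hD, (hU D hD).mul _ _ (h ha) hb⟩
        · exact ⟨C, hC, (hU C hC).mul _ _ ha (h hb)⟩
      inv := by
        rintro a ⟨C, hC, ha⟩
        exact ⟨C, hC, (hU C hC).inv _ ha⟩
      inf := by
        rintro a b ⟨C, hC, ha⟩ ⟨D, hD, hb⟩
        rcases hdir C hC D hD with h | h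
        · exact ⟨D, hD, (hU D hD).inf _ _ (h ha) hb⟩
        · exact ⟨C, hC, (hU C hC).inf _ _ ha (h hb)⟩
      top := ⟨C₀, hC₀, (hU C₀ hC₀).top⟩
      cj := by
        rintro a n ⟨C, hC, ha⟩
        exact ⟨C, hC, (hU C hC).cj _ _ ha⟩
      rp := by
        rintro a n ⟨C, hC, ha⟩
        exact ⟨C, hC, (hU C hC).rp _ _ ha⟩
      kk := by
        rintro a n ⟨C, hC, ha⟩
        exact ⟨C, hC, (hU C hC).kk _ _ ha⟩ }

theorem CC_sUnion {σ : Sk G} {U : Set (Set (XX G))} (hne : U.Nonempty)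
    (hdir : ∀ C ∈ U, ∀ D ∈ U, C ⊆ D ∨ D ⊆ C) (hU : ∀ C ∈ U, Cls σ C) {w : G}
    (hw : w ∈ (⁅MM (⋃₀ U), MM (⋃₀ U)⁆ : Subgroup G)) : ∃ C ∈ U, w ∈ (⁅MM C, MM C⁆ : Subgroup G) := by
  have hcl := Cls.sUnion hne hdir hU
  obtain ⟨C₀, hC₀⟩ := hne
  let H : Subgroup G :=
    { carrier := {g | ∃ C ∈ U, g ∈ (⁅MM C, MM C⁆ : Subgroup G)}
      mul_mem' := by
        rintro a b ⟨C, hC, ha⟩ ⟨D, hD, hb⟩
        rcases hdir C hC D hD with h | h
        · exact ⟨D, hD, Subgroup.mul_mem _ (CC_mono h ha) hb⟩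
        · exact ⟨C, hC, Subgroup.mul_mem _ ha (CC_mono h hb)⟩
      one_mem' := ⟨C₀, hC₀, Subgroup.one_mem _⟩
      inv_mem' := by
        rintro a ⟨C, hC, ha⟩
        exact ⟨C, hC, Subgroup.inv_mem _ ha⟩ }
  have hle : (⁅MM (⋃₀ U), MM (⋃₀ U)⁆ : Subgroup G) ≤ H := by
    rw [Subgroup.commutator_le]
    intro x hx y hy
    rw [hcl.mem_MM] at hx hy
    obtain ⟨C, hC, ha⟩ := hx
    obtain ⟨D, hD, hb⟩ := hy
    rcases hdir C hC D hD with h | h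
    · exact ⟨D, hD, Subgroup.commutator_mem_commutator ((hU D hD).mem_MM.mpr (h ha))
        ((hU D hD).mem_MM.mpr hb)⟩
    · exact ⟨C, hC, Subgroup.commutator_mem_commutator ((hU C hC).mem_MM.mpr ha)
        ((hU C hC).mem_MM.mpr (h hb))⟩
  exact hle hw

end Pool.Agent.H4.LN
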