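import Pool.Agent.H4.LN7

set_option autoImplicit false

namespace Pool.Agent.H4.LN

open scoped commutatorElement Cardinal

variable {G : Type} [Group G]
variable (hLN : ∀ s : Finset G, ∃ N : Subgroup G, N.Normal ∧ (N : Set G).Finite ∧ (↑s : Set G) ⊆ N)
variable (hRF : ∀ g : G, g ≠ 1 → ∃ N : Subgroup G, N.Normal ∧ N.FiniteIndex ∧ g ∉ N)

include hLN hRF in
theorem HS_all (σ : Sk G) (κ : Cardinal) : ∀ C : Set (XX G), Cls σ C → #C = κ →
    HS (MM C) (SS C) := by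
  induction κ using WellFoundedLT.induction with
  | ind κ ih =>
  intro C hC hκ
  by_cases hle : κ ≤ ℵ₀
  · apply HS.countable hLN hRF hC.good
    rw [← hκ] at hle
    have hcount : Set.Countable C := Set.countable_coe_iff.mp (Cardinal.mk_le_aleph0_iff.mp hle)
    have h1 : ((MM C : Subgroup G) : Set G) = Sum.inl ⁻¹' C := by
      ext g
      exact hC.mem_MM
    rw [h1]
    exact hcount.preimage Sum.inl_injective
  push Not at hle
  obtain ⟨r, wo, hr⟩ := Cardinal.exists_ord_eq C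
  have htri : ∀ x y : C, r x y ∨ x = y ∨ r y x := fun x y => trichotomous_of r x y
  have htrans : ∀ x y z : C, r x y → r y z → r x z := fun x y z => trans_of r
  choose cl hcl hsub hmin hcard using fun A : Set (XX G) => exists_cl σ A
  let A : C → Set (XX G) := fun x => Subtype.val '' {y : C | r y x}
  let D : C → Set (XX G) := fun x => cl (A x)
  let E : C → Set (XX G) := fun x => cl (insert x.1 (A x))
  let C0 : Set (XX G) := cl ∅
  have hAC : ∀ x, A x ⊆ C := by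
    rintro x _ ⟨y, _, rfl⟩
    exact y.2
  have hEC : ∀ x, E x ⊆ C := fun x => hmin _ C hC (Set.insert_subset x.2 (hAC x))
  have hC0C : C0 ⊆ C := hmin _ C hC (Set.empty_subset _)
  have hED : ∀ x y, r y x → E y ⊆ D x := by
    intro x y hxy
    apply hmin _ _ (hcl _)
    apply Set.insert_subset
    · exact hsub _ ⟨y, hxy, rfl⟩
    · rintro _ ⟨z, hz, rfl⟩
      exact hsub _ ⟨z, htrans _ _ _ hz hxy, rfl⟩
  have hDE : ∀ x, D x ⊆ E x := fun x =>
    hmin _ _ (hcl _) ((Set.subset_insert _ _).trans (hsub _))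
  have hC0D : ∀ x, C0 ⊆ D x := fun x => hmin _ _ (hcl _) (Set.empty_subset _)
  have hC0E : ∀ x, C0 ⊆ E x := fun x => (hC0D x).trans (hDE x)
  have hcardE : ∀ x, #(E x) < κ := by
    intro x
    refine lt_of_le_of_lt (hcard _) ?_
    apply max_lt hle
    refine lt_of_le_of_lt Cardinal.mk_insert_le ?_
    have h1 : #(A x) ≤ #{y : C // r y x} := Cardinal.mk_image_le
    have h2 : #{y : C // r y x} < κ := by
      have := Cardinal.card_typein_lt (r := r) x hr
      rwa [Ordinal.card_typein, hκ] at this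
    exact Cardinal.add_lt_of_lt hle.le (h1.trans_lt h2) (Cardinal.one_lt_aleph0.trans hle)
  have hHSE : ∀ x, HS (MM (E x)) (SS (E x)) := fun x => ih _ (hcardE x) _ (hcl _) rfl
  have hHS0 : HS (MM C0) (SS C0) := by
    refine ih _ ?_ _ (hcl _) rfl
    refine lt_of_le_of_lt (hcard _) ?_
    apply max_lt hle
    rw [Cardinal.mk_eq_zero]
    exact (Cardinal.aleph0_pos).trans hle
  have hY := fun x => HS.rel hLN hRF (hcl (A x)).good (SS_mono (hDE x)) (hHSE x)
  choose 𝓨 hY1 hY2 hY3 using hY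
  obtain ⟨𝓡, hR1, hR2, hR3⟩ := hHS0
  let 𝓣 : Set (Subgroup G) := 𝓡 ∪ ⋃ x, 𝓨 x
  let P : G → Prop := fun w => {K ∈ 𝓣 | w ∉ K}.Finite ∧ ((∀ K ∈ 𝓣, w ∈ K) → w = 1)
  have hP0 : ∀ w ∈ (⁅MM C0, MM C0⁆ : Subgroup G), P w := by
    intro w hw
    constructor
    · apply (hR3 w hw).subset
      rintro K ⟨hK | hK, hwK⟩
      · exact ⟨hK, hwK⟩
      · exfalso
        obtain ⟨x, hx⟩ := Set.mem_iUnion.mp hK
        exact hwK ((hY1 x K hx).2.1 (CC_mono (hC0D x) hw))
    · intro hall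
      exact hR2 w hw (fun K hK => hall K (Or.inl hK))
  let U : Set (XX G) → C → Set (Set (XX G)) := fun _ x => insert C0 (E '' {y | r y x})
  have hchain : ∀ T : Set C, ∀ C₁ ∈ insert C0 (E '' T), ∀ C₂ ∈ insert C0 (E '' T),
      C₁ ⊆ C₂ ∨ C₂ ⊆ C₁ := by
    rintro T C₁ (rfl | ⟨y, hy, rfl⟩) C₂ (rfl | ⟨z, hz, rfl⟩)
    · exact Or.inl subset_rfl
    · exact Or.inl (hC0E z)
    · exact Or.inr (hC0E y)
    · rcases htri y z with h | h | h
      · exact Or.inl ((hED _ _ h).trans (hDE z))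
      · rw [h]; exact Or.inl subset_rfl
      · exact Or.inr ((hED _ _ h).trans (hDE y))
  have hclU : ∀ T : Set C, ∀ C₁ ∈ insert C0 (E '' T), Cls σ C₁ := by
    rintro T C₁ (rfl | ⟨y, hy, rfl⟩)
    · exact hcl _
    · exact hcl _
  have hPE : ∀ x, ∀ w ∈ (⁅MM (E x), MM (E x)⁆ : Subgroup G), P w := by
    intro x
    induction x using (IsWellFounded.wf (r := r)).induction with
    | h x IH =>
    intro w hw
    obtain ⟨m, hm, n, hn, hwmn⟩ := (hcl (A x)).good.dec hLN hRF (comm_le_comm _ hw)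
    have hmE : m ∈ (⁅MM (E x), MM (E x)⁆ : Subgroup G) := CC_mono (hDE x) hm
    have hnE : n ∈ (⁅MM (E x), MM (E x)⁆ : Subgroup G) := by
      have : n = m⁻¹ * w := by rw [hwmn]; group
      rw [this]
      exact Subgroup.mul_mem _ (Subgroup.inv_mem _ hmE) hw
    have hDU : D x ⊆ ⋃₀ (insert C0 (E '' {y | r y x})) := by
      apply hmin _ _ (Cls.sUnion (Set.insert_nonempty _ _) (hchain _) (hclU _))
      rintro _ ⟨y, hy, rfl⟩
      exact ⟨E y, Set.mem_insert_of_mem _ ⟨y, hy, rfl⟩, hsub _ (Set.mem_insert _ _)⟩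
    have hPm : P m := by
      obtain ⟨C₁, hC₁, hmC₁⟩ := CC_sUnion (Set.insert_nonempty _ _) (hchain _) (hclU _)
        (CC_mono hDU hm)
      rcases hC₁ with rfl | ⟨y, hy, rfl⟩
      · exact hP0 m hmC₁
      · exact IH y hy m hmC₁
    have hnout : ∀ K ∈ 𝓣, n ∉ K → K ∈ 𝓨 x := by
      rintro K (hK | hK) hnK
      · exfalso
        exact hnK ((hR1 K hK).2 ⟨hn.1, II_anti (hC0D x) hn.2⟩)
      · obtain ⟨y, hy⟩ := Set.mem_iUnion.mp hK
        rcases htri x y with h | h | h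
        · exfalso
          exact hnK ((hY1 y K hy).2.1 (CC_mono (hED _ _ h) hnE))
        · rw [h]; exact hy
        · exfalso
          exact hnK ((hY1 y K hy).2.2 ⟨hn.1, II_anti (hED _ _ h) hn.2⟩)
    constructor
    · apply (hPm.1.union (hY3 x n ⟨hnE, hn.2⟩)).subset
      rintro K ⟨hK, hwK⟩
      by_cases hmK : m ∈ K
      · right
        have hnK : n ∉ K := fun h => hwK (by rw [hwmn]; exact K.mul_mem hmK h)
        exact ⟨hnout K hK hnK, hnK⟩
      · exact Or.inl ⟨hK, hmK⟩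
    · intro hall
      have hn1 : n = 1 := by
        apply hY2 x n ⟨hnE, hn.2⟩
        intro K hK
        have h1 : w ∈ K := hall K (Or.inr (Set.mem_iUnion.mpr ⟨x, hK⟩))
        have h2 : m ∈ K := (hY1 x K hK).2.1 hm
        have : n = m⁻¹ * w := by rw [hwmn]; group
        rw [this]
        exact K.mul_mem (K.inv_mem h2) h1
      rw [hn1, mul_one] at hwmn
      rw [hwmn] at hall ⊢
      exact hPm.2 hall
  have hP : ∀ w ∈ (⁅MM C, MM C⁆ : Subgroup G), P w := by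
    intro w hw
    have hCU : C ⊆ ⋃₀ (insert C0 (E '' Set.univ)) := by
      intro x hx
      exact ⟨E ⟨x, hx⟩, Set.mem_insert_of_mem _ ⟨⟨x, hx⟩, trivial, rfl⟩, hsub _ (Set.mem_insert _ _)⟩
    obtain ⟨C₁, hC₁, hwC₁⟩ := CC_sUnion (Set.insert_nonempty _ _) (hchain _) (hclU _)
      (CC_mono hCU hw)
    rcases hC₁ with rfl | ⟨y, hy, rfl⟩
    · exact hP0 w hwC₁
    · exact hPE y w hwC₁
  refine ⟨𝓣, ?_, fun w hw => (hP w hw).2, fun w hw => (hP w hw).1⟩
  rintro K (hK | hK)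
  · exact ⟨(hR1 K hK).1, le_trans (inf_le_inf_left _ (II_anti hC0C)) (hR1 K hK).2⟩
  · obtain ⟨x, hx⟩ := Set.mem_iUnion.mp hK
    exact ⟨(hY1 x K hx).1, le_trans (inf_le_inf_left _ (II_anti (hEC x))) (hY1 x K hx).2.2⟩

include hLN hRF in
theorem derived_family : ∃ 𝓡 : Set (Subgroup G), (∀ K ∈ 𝓡, FI K) ∧
    (∀ w ∈ commutator G, (∀ K ∈ 𝓡, w ∈ K) → w = 1) ∧
    ∀ w ∈ commutator G, {K ∈ 𝓡 | w ∉ K}.Finite := by
  obtain ⟨σ⟩ := exists_Sk hLN
  have huniv : Cls σ (Set.univ : Set (XX G)) := by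
    constructor <;> intros <;> trivial
  obtain ⟨𝓡, h1, h2, h3⟩ := HS_all hLN hRF σ _ Set.univ huniv rfl
  have hM : MM (Set.univ : Set (XX G)) = ⊤ := by
    rw [Subgroup.eq_top_iff']
    intro g
    rw [huniv.mem_MM]
    trivial
  rw [hM, ← commutator_def] at h2 h3
  exact ⟨𝓡, fun K hK => (h1 K hK).1, h2, h3⟩

end Pool.Agent.H4.LN
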