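import Mathlib

set_option autoImplicit false

namespace Pool.Agent.H4.LN

variable {A : Type} [AddCommGroup A]

/-- the sum of `c y • y` -/
noncomputable abbrev TT : (A →₀ ℤ) →ₗ[ℤ] A := Finsupp.linearCombination ℤ (id : A → A)

/-- height-independent sets of elements of order `p` -/
structure HI (p : ℕ) (Y : Set A) : Prop where
  ord : ∀ y ∈ Y, p • y = 0
  ht : ∀ y ∈ Y, ∃ k : ℕ, ¬ ∃ z : A, y = p ^ k • z
  ind : ∀ c : A →₀ ℤ, (↑c.support : Set A) ⊆ Y → ∀ k : ℕ, (∃ z : A, TT c = p ^ k • z) →
    ∀ y, (p : ℤ) ∣ c y ∨ ∃ z : A, y = p ^ k • z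

theorem exists_max_HI (p : ℕ) : ∃ Y : Set A, Maximal (fun Y => HI p Y) Y := by
  classical
  apply zorn_subset
  intro ch hch hchain
  refine ⟨⋃₀ ch, ⟨?_, ?_, ?_⟩, fun s hs => Set.subset_sUnion_of_mem hs⟩
  · rintro y ⟨Y, hY, hy⟩
    exact (hch hY).ord y hy
  · rintro y ⟨Y, hY, hy⟩
    exact (hch hY).ht y hy
  · intro c hc k hz y
    by_cases hne : ch.Nonempty
    · obtain ⟨Y, hY, hcY⟩ := hchain.directedOn.exists_mem_subset_of_finite_of_subset_sUnion hne
        c.support.finite_toSet hc
      exact (hch hY).ind c hcY k hz y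
    · left
      rw [Set.not_nonempty_iff_eq_empty] at hne
      rw [hne, Set.sUnion_empty, Set.subset_empty_iff, Finset.coe_eq_empty,
        Finsupp.support_eq_empty] at hc
      rw [hc]
      exact dvd_zero _

theorem TT_filter {p : ℕ} {Y : Set A} (hY : HI p Y) (c : A →₀ ℤ) (hc : (↑c.support : Set A) ⊆ Y)
    (q : A → Prop) [DecidablePred q] (hq : ∀ y, (p : ℤ) ∣ c y ∨ q y) :
    TT c = TT (c.filter q) := by
  classical
  have h1 : c = c.filter q + c.filter (fun y => ¬ q y) := (Finsupp.filter_add_filter_not c q).symm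
  have h2 : TT (c.filter (fun y => ¬ q y)) = 0 := by
    rw [Finsupp.linearCombination_apply, Finsupp.sum]
    apply Finset.sum_eq_zero
    intro y hy
    rw [Finsupp.support_filter, Finset.mem_filter] at hy
    have h3 : (p : ℤ) ∣ c y := (hq y).resolve_right hy.2
    obtain ⟨d, hd⟩ := h3
    have hyY : y ∈ Y := hc hy.1
    have h5 : (c.filter (fun y => ¬ q y)) y = c y := Finsupp.filter_apply_pos _ _ hy.2
    rw [h5, hd, id, mul_comm, mul_smul, natCast_zsmul, hY.ord y hyY, smul_zero]
  conv_lhs => rw [h1]
  rw [map_add, h2, add_zero]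

theorem max_key {p : ℕ} (hp : p.Prime) {Y : Set A} (hY : Maximal (fun Y => HI p Y) Y) (k : ℕ) (v : A)
    (hv : p • v = 0) (hvk : ∃ z : A, v = p ^ k • z) :
    ∃ c : A →₀ ℤ, (↑c.support : Set A) ⊆ Y ∧ ∃ z : A, v = TT c + p ^ (k + 1) • z := by
  classical
  by_contra H
  push Not at H
  have hvY : v ∉ Y := by
    intro h
    refine H (Finsupp.single v 1) ?_ 0 ?_
    · intro y hy
      have := Finsupp.support_single_subset hy
      rw [Finset.mem_singleton] at this
      rw [this]; exact h
    · rw [Finsupp.linearCombination_single]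
      simp
  have hHI : HI p (insert v Y) := by
    refine ⟨?_, ?_, ?_⟩
    · rintro y (rfl | hy)
      · exact hv
      · exact hY.prop.ord y hy
    · rintro y (rfl | hy)
      · refine ⟨k + 1, ?_⟩
        rintro ⟨z, hz⟩
        exact H 0 (by simp) z (by rw [map_zero, zero_add]; exact hz)
      · exact hY.prop.ht y hy
    · intro c hc l hz y
      obtain ⟨z, hz⟩ := hz
      have hc' : (↑(c.erase v).support : Set A) ⊆ Y := by
        intro y hy
        rw [Finsupp.support_erase, Finset.coe_erase] at hy
        rcases hc hy.1 with h | h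
        · exact absurd h hy.2
        · exact h
      have hT : TT c = c v • v + TT (c.erase v) := by
        conv_lhs => rw [← Finsupp.single_add_erase v c]
        rw [map_add, Finsupp.linearCombination_single]
        rfl
      by_cases hpa : (p : ℤ) ∣ c v
      · obtain ⟨d, hd⟩ := hpa
        have h0 : c v • v = 0 := by
          rw [hd, mul_comm, mul_smul, natCast_zsmul, hv, smul_zero]
        have h1 := hY.prop.ind (c.erase v) hc' l ⟨z, by rw [← hz, hT, h0, zero_add]⟩
        by_cases hyv : y = v
        · left; rw [hyv, hd]; exact dvd_mul_right _ _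
        · rcases h1 y with h | h
          · left; rwa [Finsupp.erase_ne hyv] at h
          · exact Or.inr h
      · by_cases hlk : l ≤ k
        · obtain ⟨z₀, hz₀⟩ := hvk
          have hv' : v = p ^ l • (p ^ (k - l) • z₀) := by
            rw [smul_smul, ← pow_add, Nat.add_sub_cancel' hlk]; exact hz₀
          have h1 := hY.prop.ind (c.erase v) hc' l ⟨z - c v • (p ^ (k - l) • z₀), by
            have h2 : TT (c.erase v) = p ^ l • z - c v • v := by rw [← hz, hT]; abel
            rw [h2, smul_sub, smul_comm (p ^ l) (c v), ← hv']⟩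
          by_cases hyv : y = v
          · right; rw [hyv]; exact ⟨_, hv'⟩
          · rcases h1 y with h | h
            · left; rwa [Finsupp.erase_ne hyv] at h
            · exact Or.inr h
        · exfalso
          push Not at hlk
          have hcop : IsCoprime (p : ℤ) (c v) :=
            (Nat.prime_iff_prime_int.mp hp).coprime_iff_not_dvd.mpr hpa
          obtain ⟨e, d, hed⟩ := hcop
          refine H (-d • c.erase v) ?_ (d • (p ^ (l - (k + 1)) • z)) ?_
          · intro y hy
            exact hc' (Finsupp.support_smul hy)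
          · have h1 : v = d • (c v • v) := by
              have : v = (e * p + d * c v) • v := by rw [hed, one_smul]
              rw [add_smul, mul_smul, natCast_zsmul, hv, smul_zero, zero_add, mul_smul] at this
              exact this
            have h2 : c v • v = p ^ l • z - TT (c.erase v) := by rw [← hz, hT]; abel
            have h3 : p ^ l • z = p ^ (k + 1) • (p ^ (l - (k + 1)) • z) := by
              rw [smul_smul, ← pow_add, Nat.add_sub_cancel' hlk]
            calc v = d • (p ^ l • z - TT (c.erase v)) := by rw [← h2]; exact h1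
              _ = TT (-d • c.erase v) + d • (p ^ l • z) := by
                rw [map_smul, smul_sub, neg_smul]; abel
              _ = TT (-d • c.erase v) + p ^ (k + 1) • (d • (p ^ (l - (k + 1)) • z)) := by
                rw [smul_comm (p ^ (k + 1)) d, ← h3]
  exact hvY (hY.le_of_ge hHI (Set.subset_insert v Y) (Set.mem_insert v Y))

theorem max_key' {p : ℕ} (hp : p.Prime) {Y : Set A} (hY : Maximal (fun Y => HI p Y) Y) (k : ℕ) (v : A)
    (hv : p • v = 0) (hvk : ∃ z : A, v = p ^ k • z) :
    ∃ c : A →₀ ℤ, (↑c.support : Set A) ⊆ Y ∧ (∀ y ∈ c.support, ∃ z : A, y = p ^ k • z) ∧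
      ∃ z : A, v = TT c + p ^ (k + 1) • z := by
  classical
  obtain ⟨c, hc, z, hz⟩ := max_key hp hY k v hv hvk
  obtain ⟨z₀, hz₀⟩ := hvk
  have h1 := hY.prop.ind c hc k ⟨z₀ - p • z, by
    have : TT c = v - p ^ (k + 1) • z := by rw [hz]; abel
    rw [this, smul_sub, smul_smul, ← pow_succ, ← hz₀]⟩
  refine ⟨c.filter (fun y => ∃ z : A, y = p ^ k • z), ?_, ?_, z, ?_⟩
  · intro y hy
    rw [Finset.mem_coe, Finsupp.support_filter, Finset.mem_filter] at hy
    exact hc hy.1
  · intro y hy
    rw [Finsupp.support_filter, Finset.mem_filter] at hy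
    exact hy.2
  · rw [← TT_filter hY.prop c hc _ h1]
    exact hz

end Pool.Agent.H4.LN
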