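import Mathlib

set_option autoImplicit false

namespace Pool.Agent.H4.Mon

abbrev W := List (Fin 9)

/-- next state -/
def nx (q t : Fin 9) : Fin 9 := if t = 3 then (if q = 6 then 7 else 6) else q
/-- written letter -/
def ot (q t : Fin 9) : Fin 9 := if t = 3 then (if q = 6 then 4 else 3) else t

def RZ : Finset (W × W) :=
  (Finset.univ.image (fun x : Fin 9 => (([x, 1] : W), ([0] : W)))) ∪
  (Finset.univ.image (fun x : Fin 9 => (([2, x] : W), ([0] : W)))) ∪
  (Finset.univ.image (fun x : Fin 9 => (([0, x] : W), ([0] : W)))) ∪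
  (Finset.univ.image (fun x : Fin 9 => (([x, 0] : W), ([0] : W)))) ∪
  ((Finset.univ.filter (fun z : Fin 9 × Fin 9 => 5 ≤ z.1.val ∧ 5 ≤ z.2.val)).image
    (fun z : Fin 9 × Fin 9 => (([z.1, z.2] : W), ([0] : W))))

def RM : Finset (W × W) :=
  ((Finset.univ.filter (fun z : Fin 9 × Fin 9 => (z.1 = 5 ∨ z.1 = 6 ∨ z.1 = 7) ∧ (z.2 = 3 ∨ z.2 = 4))).image
    (fun z : Fin 9 × Fin 9 => (([z.1, z.2] : W), ([ot z.1 z.2, nx z.1 z.2] : W)))) ∪
  ((Finset.univ.filter (fun t : Fin 9 => t = 3 ∨ t = 4)).image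
    (fun t : Fin 9 => (([t, 8] : W), ([8, t] : W)))) ∪
  {(([7, 2] : W), ([8, 2] : W)), (([1, 8] : W), ([1, 5] : W))}

def R : Finset (W × W) := RZ ∪ RM

theorem mem_RZ (l r : W) : (l, r) ∈ RZ ↔ r = [0] ∧ ((∃ x, l = [x, 1]) ∨ (∃ x, l = [2, x]) ∨ (∃ x, l = [0, x]) ∨
    (∃ x, l = [x, 0]) ∨ (∃ x y : Fin 9, 5 ≤ x.val ∧ 5 ≤ y.val ∧ l = [x, y])) := by
  unfold RZ
  simp only [Finset.mem_union, Finset.mem_image, Finset.mem_univ, true_and, Prod.mk.injEq, Finset.mem_filter,
    Prod.exists]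
  constructor
  · rintro ((((⟨x, h1, h2⟩ | ⟨x, h1, h2⟩) | ⟨x, h1, h2⟩) | ⟨x, h1, h2⟩) | ⟨x, y, ⟨hx, hy⟩, h1, h2⟩)
    · exact ⟨h2.symm, Or.inl ⟨x, h1.symm⟩⟩
    · exact ⟨h2.symm, Or.inr (Or.inl ⟨x, h1.symm⟩)⟩
    · exact ⟨h2.symm, Or.inr (Or.inr (Or.inl ⟨x, h1.symm⟩))⟩
    · exact ⟨h2.symm, Or.inr (Or.inr (Or.inr (Or.inl ⟨x, h1.symm⟩)))⟩
    · exact ⟨h2.symm, Or.inr (Or.inr (Or.inr (Or.inr ⟨x, y, hx, hy, h1.symm⟩)))⟩
  · rintro ⟨rfl, (⟨x, rfl⟩ | ⟨x, rfl⟩ | ⟨x, rfl⟩ | ⟨x, rfl⟩ | ⟨x, y, hx, hy, rfl⟩)⟩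
    · exact Or.inl (Or.inl (Or.inl (Or.inl ⟨x, rfl, rfl⟩)))
    · exact Or.inl (Or.inl (Or.inl (Or.inr ⟨x, rfl, rfl⟩)))
    · exact Or.inl (Or.inl (Or.inr ⟨x, rfl, rfl⟩))
    · exact Or.inl (Or.inr ⟨x, rfl, rfl⟩)
    · exact Or.inr ⟨x, y, ⟨hx, hy⟩, rfl, rfl⟩

theorem mem_RM (l r : W) : (l, r) ∈ RM ↔
    (∃ q t : Fin 9, (q = 5 ∨ q = 6 ∨ q = 7) ∧ (t = 3 ∨ t = 4) ∧ l = [q, t] ∧ r = [ot q t, nx q t]) ∨
    (∃ t : Fin 9, (t = 3 ∨ t = 4) ∧ l = [t, 8] ∧ r = [8, t]) ∨
    (l = [7, 2] ∧ r = [8, 2]) ∨ (l = [1, 8] ∧ r = [1, 5]) := by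
  unfold RM
  simp only [Finset.mem_union, Finset.mem_image, Finset.mem_univ, true_and, Prod.mk.injEq, Finset.mem_filter,
    Prod.exists, Finset.mem_insert, Finset.mem_singleton]
  constructor
  · rintro ((⟨q, t, ⟨hq, ht⟩, h1, h2⟩ | ⟨t, ht, h1, h2⟩) | h)
    · exact Or.inl ⟨q, t, hq, ht, h1.symm, h2.symm⟩
    · exact Or.inr (Or.inl ⟨t, ht, h1.symm, h2.symm⟩)
    · exact Or.inr (Or.inr h)
  · rintro (⟨q, t, hq, ht, rfl, rfl⟩ | ⟨t, ht, rfl, rfl⟩ | h)
    · exact Or.inl (Or.inl ⟨q, t, ⟨hq, ht⟩, rfl, rfl⟩)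
    · exact Or.inl (Or.inr ⟨t, ht, rfl, rfl⟩)
    · exact Or.inr h

def Step (u w : W) : Prop := ∃ x y l r : W, ((l, r) ∈ R ∨ (r, l) ∈ R) ∧ u = x ++ l ++ y ∧ w = x ++ r ++ y

theorem Step.symm {u w : W} (h : Step u w) : Step w u := by
  obtain ⟨x, y, l, r, h1, h2, h3⟩ := h
  exact ⟨x, y, r, l, h1.symm, h3, h2⟩

theorem Step.ctx {u w : W} (h : Step u w) (a b : W) : Step (a ++ u ++ b) (a ++ w ++ b) := by
  obtain ⟨x, y, l, r, h1, h2, h3⟩ := h
  exact ⟨a ++ x, y ++ b, l, r, h1, by simp [h2], by simp [h3]⟩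

def Path : ℕ → W → W → Prop
  | 0, u, v => u = v
  | m + 1, u, v => ∃ w, Step u w ∧ Path m w v

theorem Path.trans {m n : ℕ} : ∀ {u v w : W}, Path m u v → Path n v w → Path (m + n) u w := by
  induction m with
  | zero => intro u v w h1 h2; have : u = v := h1; subst this; simpa using h2
  | succ m ih =>
    intro u v w h1 h2
    obtain ⟨a, ha, hb⟩ := h1
    have := ih hb h2
    rw [Nat.add_right_comm]
    exact ⟨a, ha, this⟩

theorem Path.single {u v : W} (h : Step u v) : Path 1 u v := ⟨v, h, rfl⟩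

theorem Path.symm {m : ℕ} : ∀ {u v : W}, Path m u v → Path m v u := by
  induction m with
  | zero => intro u v h; exact Eq.symm h
  | succ m ih =>
    intro u v h
    obtain ⟨a, ha, hb⟩ := h
    exact (ih hb).trans (Path.single ha.symm)

theorem Path.ctx {m : ℕ} (a b : W) : ∀ {u v : W}, Path m u v → Path m (a ++ u ++ b) (a ++ v ++ b) := by
  induction m with
  | zero => intro u v h; have : u = v := h; subst this; rfl
  | succ m ih =>
    intro u v h
    obtain ⟨w, ha, hb⟩ := h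
    exact ⟨_, ha.ctx a b, ih hb⟩

theorem path_iff (u v : W) (m : ℕ) : Path m u v ↔ ∃ c : ℕ → W, c 0 = u ∧ c m = v ∧
          ∀ i < m, ∃ x y l r : W, ((l, r) ∈ R ∨ (r, l) ∈ R) ∧
            c i = x ++ l ++ y ∧ c (i + 1) = x ++ r ++ y := by
  constructor
  · induction m generalizing u with
    | zero =>
      intro h
      exact ⟨fun _ => u, rfl, h, fun i hi => absurd hi (Nat.not_lt_zero i)⟩
    | succ m ih =>
      rintro ⟨w, hw, hp⟩
      obtain ⟨c, h0, hm, hs⟩ := ih w hp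
      refine ⟨fun i => if i = 0 then u else c (i - 1), by simp, by simpa using hm, ?_⟩
      intro i hi
      rcases Nat.eq_zero_or_pos i with h | h
      · subst h
        simp only [if_true, Nat.zero_add, one_ne_zero, if_false, Nat.sub_self, h0]
        exact hw
      · obtain ⟨j, rfl⟩ : ∃ j, i = j + 1 := ⟨i - 1, by omega⟩
        have := hs j (by omega)
        simpa using this
  · induction m generalizing u with
    | zero => rintro ⟨c, h0, hm, -⟩; exact h0.symm.trans hm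
    | succ m ih =>
      rintro ⟨c, h0, hm, hs⟩
      refine ⟨c 1, ?_, ih (c 1) ⟨fun i => c (i + 1), rfl, hm, fun i hi => hs (i + 1) (by omega)⟩⟩
      have := hs 0 (by omega)
      rw [h0] at this
      exact this

/-- sweep outputs -/
def mk : Fin 9 → W → W
  | _, [] => []
  | q, t :: T => ot q t :: mk (nx q t) T

def fn : Fin 9 → W → Fin 9
  | q, [] => q
  | q, t :: T => fn (nx q t) T

@[simp] theorem mk_length (T : W) : ∀ q, (mk q T).length = T.length := by
  induction T with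
  | nil => intro q; rfl
  | cons t T ih => intro q; simp [mk, ih]

theorem sweep_count (T : W) :
    ((mk 6 T).count 3 = T.count 3 / 2 ∧ fn 6 T = if T.count 3 % 2 = 0 then 6 else 7) ∧
    (∀ q : Fin 9, q = 5 ∨ q = 7 → (mk q T).count 3 = (T.count 3 + 1) / 2 ∧
      fn q T = if T.count 3 = 0 then q else if T.count 3 % 2 = 1 then 6 else 7) := by
  induction T with
  | nil => refine ⟨⟨rfl, rfl⟩, fun q _ => ⟨rfl, rfl⟩⟩
  | cons t T ih =>
    obtain ⟨⟨i1, i2⟩, i3⟩ := ih
    by_cases ht : t = 3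
    · subst ht
      have h7 := i3 7 (Or.inr rfl)
      constructor
      · have e1 : nx 6 3 = 7 := rfl
        have e2 : ot 6 3 = 4 := rfl
        simp only [mk, fn, e1, e2]
        rw [List.count_cons_of_ne (by decide), List.count_cons_self, h7.1, h7.2]
        refine ⟨rfl, ?_⟩
        by_cases h0 : T.count 3 = 0
        · rw [if_pos h0, if_neg (by omega)]
        · rw [if_neg h0]
          rcases Nat.mod_two_eq_zero_or_one (T.count 3) with h | h
          · rw [if_neg (by omega), if_neg (by omega)]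
          · rw [if_pos h, if_pos (by omega)]
      · intro q hq
        have e1 : nx q 3 = 6 := by rcases hq with rfl | rfl <;> rfl
        have e2 : ot q 3 = 3 := by rcases hq with rfl | rfl <;> rfl
        simp only [mk, fn, e1, e2]
        rw [List.count_cons_self, List.count_cons_self, i1, i2]
        refine ⟨by omega, ?_⟩
        rw [if_neg (by omega : ¬ (T.count 3 + 1 = 0))]
        rcases Nat.mod_two_eq_zero_or_one (T.count 3) with h | h
        · rw [if_pos h, if_pos (by omega)]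
        · rw [if_neg (by omega), if_neg (by omega)]
    · have e1 : ∀ q, nx q t = q := fun q => by simp [nx, ht]
      have e2 : ∀ q, ot q t = t := fun q => by simp [ot, ht]
      constructor
      · simp only [mk, fn, e1, e2]
        rw [List.count_cons_of_ne ht, List.count_cons_of_ne ht]
        exact ⟨i1, i2⟩
      · intro q hq
        simp only [mk, fn, e1, e2]
        rw [List.count_cons_of_ne ht, List.count_cons_of_ne ht]
        exact i3 q hq

theorem count_of_fn {T : W} (h : fn 5 T = 7) : (mk 5 T).count 3 = T.count 3 / 2 ∧ 2 ≤ T.count 3 := by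
  obtain ⟨h1, h2⟩ := (sweep_count T).2 5 (Or.inl rfl)
  rw [h2] at h
  split_ifs at h with h3 h4
  · exact absurd h (by decide)
  · exact absurd h (by decide)
  · refine ⟨by omega, by omega⟩

def SF (T : W) : W := if _h : fn 5 T = 7 then SF (mk 5 T) else T
termination_by T.count 3
decreasing_by
  have := count_of_fn _h
  omega

def J (T : W) : ℕ := if h : fn 5 T = 7 then J (mk 5 T) + 1 else 0
termination_by T.count 3
decreasing_by
  have := count_of_fn h
  omega

theorem J_le (n : ℕ) : ∀ T : W, T.count 3 = n → J T ≤ Nat.log 2 n := by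
  induction n using Nat.strong_induction_on with
  | _ n ih =>
    intro T hT
    rw [J]
    split_ifs with h
    · obtain ⟨h1, h2⟩ := count_of_fn h
      have := ih (n / 2) (by omega) (mk 5 T) (by rw [h1, hT])
      rw [hT] at h2
      rw [Nat.log_of_one_lt_of_le (by norm_num) h2]
      omega
    · omega

theorem J_pow (k : ℕ) : ∀ T : W, T.count 3 = 2 ^ k → J T = k := by
  induction k with
  | zero =>
    intro T hT
    rw [J]
    have h2 := ((sweep_count T).2 5 (Or.inl rfl)).2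
    rw [hT] at h2
    have : fn 5 T = 6 := by rw [h2]; rfl
    rw [dif_neg (by rw [this]; decide)]
  | succ k ih =>
    intro T hT
    rw [J]
    have h2 := ((sweep_count T).2 5 (Or.inl rfl)).2
    have hk : 0 < 2 ^ k := by positivity
    have : fn 5 T = 7 := by
      rw [h2, hT, if_neg (by rw [pow_succ]; omega), if_neg (by rw [pow_succ]; omega)]
    rw [dif_pos this]
    have := (count_of_fn this).1
    rw [hT] at this
    rw [ih (mk 5 T) (by rw [this, pow_succ]; omega)]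

end Pool.Agent.H4.Mon
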