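import Pool.Agent.H4.Mon1

set_option autoImplicit false

namespace Pool.Agent.H4.Mon

def Ls (σ : Bool) : W := if σ then [1] else []
def Re (ε : Bool) : W := if ε then [2] else []

structure Cfg where
  s : Bool
  L : W
  h : Fin 9
  R : W
  e : Bool

def Tape (T : W) : Prop := ∀ t ∈ T, t = 3 ∨ t = 4

def Valid (c : Cfg) : Prop := Tape c.L ∧ Tape c.R ∧ (c.h = 5 ∨ c.h = 6 ∨ c.h = 7 ∨ c.h = 8)

def enc (c : Cfg) : W := (Ls c.s ++ c.L) ++ c.h :: (c.R ++ Re c.e)

/-- normal form after the left-moving head has reached the left end -/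
def pf (σ : Bool) (T : W) (ε : Bool) : W :=
  if σ then (if ε then 1 :: (mk 5 (SF T) ++ fn 5 (SF T) :: [2]) else 1 :: (mk 5 T ++ [fn 5 T]))
  else 8 :: (T ++ Re ε)

def pt (σ : Bool) (T : W) (ε : Bool) : ℕ :=
  if σ then (if ε then 1 + T.length + (2 * T.length + 2) * J T else 1 + T.length) else 0

def nf (c : Cfg) : W :=
  if c.h = 8 then pf c.s (c.L ++ c.R) c.e
  else if fn c.h c.R = 7 ∧ c.e = true then pf c.s (c.L ++ mk c.h c.R) c.e
  else Ls c.s ++ c.L ++ mk c.h c.R ++ fn c.h c.R :: Re c.e

def tm (c : Cfg) : ℕ :=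
  if c.h = 8 then c.L.length + pt c.s (c.L ++ c.R) c.e
  else c.R.length + (if fn c.h c.R = 7 ∧ c.e = true then
    1 + (c.L ++ mk c.h c.R).length + pt c.s (c.L ++ mk c.h c.R) c.e else 0)

inductive Fw : Cfg → Cfg → Prop
  | sw (σ : Bool) (L : W) (q t : Fin 9) (R : W) (ε : Bool) (hq : q = 5 ∨ q = 6 ∨ q = 7) (ht : t = 3 ∨ t = 4) :
      Fw ⟨σ, L, q, t :: R, ε⟩ ⟨σ, L ++ [ot q t], nx q t, R, ε⟩
  | pl (σ : Bool) (L : W) (t : Fin 9) (R : W) (ε : Bool) (ht : t = 3 ∨ t = 4) :
      Fw ⟨σ, L ++ [t], 8, R, ε⟩ ⟨σ, L, 8, t :: R, ε⟩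
  | eb (σ : Bool) (L : W) : Fw ⟨σ, L, 7, [], true⟩ ⟨σ, L, 8, [], true⟩
  | sb (R : W) (ε : Bool) : Fw ⟨true, [], 8, R, ε⟩ ⟨true, [], 5, R, ε⟩

theorem nx_cases {q t : Fin 9} (hq : q = 5 ∨ q = 6 ∨ q = 7) (ht : t = 3 ∨ t = 4) :
    nx q t = 5 ∨ nx q t = 6 ∨ nx q t = 7 := by
  rcases hq with rfl | rfl | rfl <;> rcases ht with rfl | rfl <;> decide

theorem ot_cases {q t : Fin 9} (hq : q = 5 ∨ q = 6 ∨ q = 7) (ht : t = 3 ∨ t = 4) :
    ot q t = 3 ∨ ot q t = 4 := by
  rcases hq with rfl | rfl | rfl <;> rcases ht with rfl | rfl <;> decide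

theorem ne8 {q : Fin 9} (hq : q = 5 ∨ q = 6 ∨ q = 7) : q ≠ 8 := by
  rcases hq with rfl | rfl | rfl <;> decide

theorem fw_nf {c d : Cfg} (h : Fw c d) : nf c = nf d ∧ tm c = tm d + 1 := by
  cases h with
  | sw σ L q t R ε hq ht =>
    have h1 := ne8 hq
    have h2 := ne8 (nx_cases hq ht)
    constructor
    · simp only [nf, h1, h2, if_false, mk, fn, List.append_assoc, List.singleton_append]
    · simp only [tm, h1, h2, if_false, mk, fn, List.append_assoc, List.singleton_append, List.length_cons]
      omega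
  | pl σ L t R ε ht =>
    constructor
    · simp only [nf, if_true, List.append_assoc, List.singleton_append]
    · simp only [tm, if_true, List.append_assoc, List.singleton_append, List.length_append, List.length_cons,
        List.length_nil]
      omega
  | eb σ L =>
    have h7 : (7 : Fin 9) ≠ 8 := by decide
    constructor
    · simp only [nf, h7, if_false, mk, fn, List.append_nil, and_self, if_true]
    · simp only [tm, h7, if_false, mk, fn, List.append_nil, and_self, if_true, List.length_nil]
      omega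
  | sb R ε =>
    have h5 : (5 : Fin 9) ≠ 8 := by decide
    by_cases h : fn 5 R = 7
    · cases ε with
      | true =>
        constructor
        · simp only [nf, h5, if_false, if_true, List.nil_append, h, and_self, pf]
          rw [SF, dif_pos h]
        · simp only [tm, h5, if_false, if_true, List.nil_append, h, and_self, pt, mk_length, List.length_nil]
          rw [J, dif_pos h]
          ring
      | false =>
        constructor
        · simp only [nf, h5, if_false, if_true, List.nil_append, pf, Bool.false_eq_true, and_false, Ls, Re,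
            List.append_assoc, List.cons_append]
        · simp only [tm, h5, if_false, if_true, List.nil_append, pt, Bool.false_eq_true, and_false, List.length_nil]
          omega
    · cases ε with
      | true =>
        constructor
        · simp only [nf, h5, if_false, if_true, List.nil_append, h, false_and, pf]
          rw [SF, dif_neg h]
          simp [Ls, Re]
        · simp only [tm, h5, if_false, if_true, List.nil_append, h, false_and, pt, List.length_nil]
          rw [J, dif_neg h]
          ring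
      | false =>
        constructor
        · simp only [nf, h5, if_false, if_true, List.nil_append, pf, Bool.false_eq_true, and_false, Ls, Re,
            List.append_assoc, List.cons_append]
        · simp only [tm, h5, if_false, if_true, List.nil_append, pt, Bool.false_eq_true, and_false, List.length_nil]
          omega

theorem fw_step {c d : Cfg} (h : Fw c d) : Step (enc c) (enc d) := by
  cases h with
  | sw σ L q t R ε hq ht =>
    refine ⟨Ls σ ++ L, R ++ Re ε, [q, t], [ot q t, nx q t], Or.inl ?_, by simp [enc], by simp [enc]⟩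
    exact Finset.mem_union_right _ ((mem_RM _ _).2 (Or.inl ⟨q, t, hq, ht, rfl, rfl⟩))
  | pl σ L t R ε ht =>
    refine ⟨Ls σ ++ L, R ++ Re ε, [t, 8], [8, t], Or.inl ?_, by simp [enc], by simp [enc]⟩
    exact Finset.mem_union_right _ ((mem_RM _ _).2 (Or.inr (Or.inl ⟨t, ht, rfl, rfl⟩)))
  | eb σ L =>
    refine ⟨Ls σ ++ L, [], [7, 2], [8, 2], Or.inl ?_, by simp [enc, Re], by simp [enc, Re]⟩
    exact Finset.mem_union_right _ ((mem_RM _ _).2 (Or.inr (Or.inr (Or.inl ⟨rfl, rfl⟩))))
  | sb R ε =>
    refine ⟨[], R ++ Re ε, [1, 8], [1, 5], Or.inl ?_, by simp [enc, Ls], by simp [enc, Ls]⟩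
    exact Finset.mem_union_right _ ((mem_RM _ _).2 (Or.inr (Or.inr (Or.inr ⟨rfl, rfl⟩))))

theorem fw_valid {c d : Cfg} (h : Fw c d) : Valid c ↔ Valid d := by
  cases h with
  | sw σ L q t R ε hq ht =>
    have h1 := nx_cases hq ht
    have h2 := ot_cases hq ht
    constructor
    · rintro ⟨a, b, -⟩
      refine ⟨?_, fun x hx => b x (List.mem_cons_of_mem _ hx), by tauto⟩
      intro x hx
      rcases List.mem_append.1 hx with hx | hx
      · exact a x hx
      · rw [List.mem_singleton] at hx; subst hx; exact h2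
    · rintro ⟨a, b, -⟩
      refine ⟨fun x hx => a x (List.mem_append_left _ hx), ?_, by tauto⟩
      intro x hx
      rcases List.mem_cons.1 hx with hx | hx
      · subst hx; exact ht
      · exact b x hx
  | pl σ L t R ε ht =>
    constructor
    · rintro ⟨a, b, -⟩
      refine ⟨fun x hx => a x (List.mem_append_left _ hx), ?_, by tauto⟩
      intro x hx
      rcases List.mem_cons.1 hx with hx | hx
      · subst hx; exact ht
      · exact b x hx
    · rintro ⟨a, b, -⟩
      refine ⟨?_, fun x hx => b x (List.mem_cons_of_mem _ hx), by tauto⟩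
      intro x hx
      rcases List.mem_append.1 hx with hx | hx
      · exact a x hx
      · rw [List.mem_singleton] at hx; subst hx; exact ht
  | eb σ L =>
    constructor
    · rintro ⟨a, b, -⟩; exact ⟨a, b, by tauto⟩
    · rintro ⟨a, b, -⟩; exact ⟨a, b, by tauto⟩
  | sb R ε =>
    constructor
    · rintro ⟨a, b, -⟩; exact ⟨a, b, by tauto⟩
    · rintro ⟨a, b, -⟩; exact ⟨a, b, by tauto⟩

/-- progress -/
theorem progress (c : Cfg) (hv : Valid c) : (tm c = 0 ∧ enc c = nf c) ∨ ∃ d, Fw c d := by
  obtain ⟨σ, L, h, R, ε⟩ := c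
  obtain ⟨hL, hR, hh⟩ := hv
  simp only at hL hR hh
  by_cases h8 : h = 8
  · subst h8
    rcases List.eq_nil_or_concat L with rfl | ⟨L', t, rfl⟩
    · cases σ with
      | true => exact Or.inr ⟨_, Fw.sb R ε⟩
      | false =>
        left
        simp [tm, nf, enc, pf, pt, Ls]
    · right
      rw [List.concat_eq_append] at *
      exact ⟨_, Fw.pl σ L' t R ε (hL t (by simp))⟩
  · have hq : h = 5 ∨ h = 6 ∨ h = 7 := by tauto
    cases R with
    | cons t R => exact Or.inr ⟨_, Fw.sw σ L h t R ε hq (hR t (by simp))⟩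
    | nil =>
      by_cases h7 : h = 7 ∧ ε = true
      · obtain ⟨rfl, rfl⟩ := h7
        exact Or.inr ⟨_, Fw.eb σ L⟩
      · left
        simp only [tm, nf, enc, h8, if_false, fn, mk, h7, List.length_nil, List.append_nil, List.nil_append]
        exact ⟨trivial, trivial⟩

theorem path_nf (n : ℕ) : ∀ c : Cfg, Valid c → tm c = n → Path n (enc c) (nf c) := by
  induction n with
  | zero =>
    intro c hv h
    rcases progress c hv with ⟨-, h2⟩ | ⟨d, hd⟩
    · exact h2
    · have := (fw_nf hd).2
      omega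
  | succ n ih =>
    intro c hv h
    rcases progress c hv with ⟨h1, -⟩ | ⟨d, hd⟩
    · omega
    · have h2 := fw_nf hd
      refine ⟨enc d, fw_step hd, ?_⟩
      rw [h2.1]
      exact ih d ((fw_valid hd).1 hv) (by omega)

theorem pt_le (σ : Bool) (T : W) (ε : Bool) : pt σ T ε ≤ (2 * T.length + 2) * (Nat.log 2 T.length + 1) := by
  have h1 : J T ≤ Nat.log 2 T.length := (J_le _ T rfl).trans (Nat.log_mono_right List.count_le_length)
  have h2 : (2 * T.length + 2) * J T ≤ (2 * T.length + 2) * Nat.log 2 T.length := Nat.mul_le_mul_left _ h1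
  unfold pt
  split_ifs <;> nlinarith

theorem tm_le (c : Cfg) : tm c ≤ (2 * (enc c).length + 2) * (Nat.log 2 (enc c).length + 3) := by
  obtain ⟨σ, L, h, R, ε⟩ := c
  have hlen : L.length + R.length ≤ (enc ⟨σ, L, h, R, ε⟩).length := by
    simp [enc]; omega
  have key : ∀ T : W, T.length = L.length + R.length →
      pt σ T ε ≤ (2 * (enc ⟨σ, L, h, R, ε⟩).length + 2) * (Nat.log 2 (enc ⟨σ, L, h, R, ε⟩).length + 1) := by
    intro T hT
    refine (pt_le σ T ε).trans ?_
    have : Nat.log 2 T.length ≤ Nat.log 2 (enc ⟨σ, L, h, R, ε⟩).length := Nat.log_mono_right (by omega)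
    exact Nat.mul_le_mul (by omega) (by omega)
  generalize (enc ⟨σ, L, h, R, ε⟩).length = N at *
  unfold tm
  simp only
  split_ifs with h1 h2
  · have := key (L ++ R) (by simp)
    nlinarith
  · have := key (L ++ mk h R) (by simp)
    simp only [List.length_append, mk_length]
    nlinarith
  · nlinarith [Nat.zero_le (Nat.log 2 N), Nat.zero_le (N * Nat.log 2 N)]

end Pool.Agent.H4.Mon
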