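import Pool.Agent.H4.Mon2

set_option autoImplicit false

namespace Pool.Agent.H4.Mon

def hd (x : Fin 9) : Bool := decide (5 ≤ x.val)

theorem hd_cases {x : Fin 9} (h : hd x = true) : x = 5 ∨ x = 6 ∨ x = 7 ∨ x = 8 := by
  revert h; revert x; decide

theorem uniq : ∀ (p p' : W) (h h' : Fin 9) (q q' : W), (∀ x ∈ p, hd x = false) → (∀ x ∈ p', hd x = false) →
    hd h = true → hd h' = true → p ++ h :: q = p' ++ h' :: q' → p = p' ∧ h = h' ∧ q = q'
  | [], [], h, h', q, q', _, _, _, _, e => by
      simp only [List.nil_append, List.cons.injEq] at e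
      exact ⟨rfl, e.1, e.2⟩
  | [], a :: p', h, h', q, q', _, h2, h3, _, e => by
      simp only [List.nil_append, List.cons_append, List.cons.injEq] at e
      have := h2 a (by simp)
      rw [← e.1, h3] at this
      exact absurd this (by decide)
  | a :: p, [], h, h', q, q', h1, _, _, h4, e => by
      simp only [List.nil_append, List.cons_append, List.cons.injEq] at e
      have := h1 a (by simp)
      rw [e.1, h4] at this
      exact absurd this (by decide)
  | a :: p, b :: p', h, h', q, q', h1, h2, h3, h4, e => by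
      simp only [List.cons_append, List.cons.injEq] at e
      obtain ⟨r1, r2, r3⟩ := uniq p p' h h' q q' (fun x hx => h1 x (List.mem_cons_of_mem _ hx))
        (fun x hx => h2 x (List.mem_cons_of_mem _ hx)) h3 h4 e.2
      exact ⟨by rw [e.1, r1], r2, r3⟩

def Good (w : W) : Prop := (0 : Fin 9) ∉ w ∧ (1 : Fin 9) ∉ w.tail ∧ (2 : Fin 9) ∉ w.dropLast ∧ w.countP hd ≤ 1

theorem tape_hd {T : W} (h : Tape T) : T.countP hd = 0 := by
  rw [List.countP_eq_zero]
  intro a ha
  rcases h a ha with rfl | rfl <;> decide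

theorem tape_ne {T : W} (h : Tape T) {x : Fin 9} (hx : x ≠ 3 ∧ x ≠ 4) : x ∉ T := by
  intro hm
  rcases h x hm with h | h
  · exact hx.1 h
  · exact hx.2 h

theorem good_core {σ ε : Bool} {M : W} (h0 : (0 : Fin 9) ∉ M) (h1 : (1 : Fin 9) ∉ M) (h2 : (2 : Fin 9) ∉ M)
    (hc : M.countP hd ≤ 1) : Good (Ls σ ++ M ++ Re ε) := by
  refine ⟨?_, ?_, ?_, ?_⟩
  · cases σ <;> cases ε <;> simp [Ls, Re, h0]
  · cases σ
    · intro h
      have := List.mem_of_mem_tail h
      cases ε <;> simp [Ls, Re, h1] at this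
    · cases ε <;> simp [Ls, Re, h1]
  · cases ε
    · intro h
      have := List.mem_of_mem_dropLast h
      cases σ <;> simp [Ls, Re, h2] at this
    · rw [show Ls σ ++ M ++ Re true = (Ls σ ++ M) ++ [2] from rfl, List.dropLast_concat]
      cases σ <;> simp [Ls, h2]
  · rw [List.countP_append, List.countP_append]
    cases σ <;> cases ε <;> simp [Ls, Re, hd, List.countP_cons] <;> exact hc

theorem valid_hd {c : Cfg} (hv : Valid c) : hd c.h = true := by
  rcases hv.2.2 with h | h | h | h <;> rw [h] <;> rfl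

theorem enc_count {c : Cfg} (hv : Valid c) : (enc c).countP hd = 1 := by
  unfold enc
  rw [List.countP_append, List.countP_append, List.countP_cons, List.countP_append, tape_hd hv.1, tape_hd hv.2.1,
    valid_hd hv]
  cases c.s <;> cases c.e <;> rfl

theorem enc_good {c : Cfg} (hv : Valid c) : Good (enc c) := by
  have e : enc c = Ls c.s ++ (c.L ++ c.h :: c.R) ++ Re c.e := by simp [enc]
  rw [e]
  have hh : c.h ≠ 0 ∧ c.h ≠ 1 ∧ c.h ≠ 2 := by
    rcases hv.2.2 with h | h | h | h <;> rw [h] <;> decide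
  apply good_core
  · intro h
    rcases List.mem_append.1 h with h | h
    · exact tape_ne hv.1 (by decide) h
    · rcases List.mem_cons.1 h with h | h
      · exact hh.1 h.symm
      · exact tape_ne hv.2.1 (by decide) h
  · intro h
    rcases List.mem_append.1 h with h | h
    · exact tape_ne hv.1 (by decide) h
    · rcases List.mem_cons.1 h with h | h
      · exact hh.2.1 h.symm
      · exact tape_ne hv.2.1 (by decide) h
  · intro h
    rcases List.mem_append.1 h with h | h
    · exact tape_ne hv.1 (by decide) h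
    · rcases List.mem_cons.1 h with h | h
      · exact hh.2.2 h.symm
      · exact tape_ne hv.2.1 (by decide) h
  · rw [List.countP_append, List.countP_cons, tape_hd hv.1, tape_hd hv.2.1, valid_hd hv]
    simp

theorem hw_good {T : W} (hT : Tape T) (σ ε : Bool) : Good (Ls σ ++ T ++ Re ε) := by
  apply good_core
  · exact tape_ne hT (by decide)
  · exact tape_ne hT (by decide)
  · exact tape_ne hT (by decide)
  · rw [tape_hd hT]; exact Nat.zero_le _

theorem hw_count {T : W} (hT : Tape T) (σ ε : Bool) : (Ls σ ++ T ++ Re ε).countP hd = 0 := by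
  rw [List.countP_append, List.countP_append, tape_hd hT]
  cases σ <;> cases ε <;> rfl

/-- in a good word only the machine relations apply -/
theorem good_RM {x y l r : W} (hg : Good (x ++ l ++ y)) (h : (l, r) ∈ R ∨ (r, l) ∈ R) :
    (l, r) ∈ RM ∨ (r, l) ∈ RM := by
  obtain ⟨g0, g1, g2, g3⟩ := hg
  rcases h with h | h
  · rcases Finset.mem_union.1 h with h | h
    · exfalso
      rw [mem_RZ] at h
      rcases h.2 with ⟨a, rfl⟩ | ⟨a, rfl⟩ | ⟨a, rfl⟩ | ⟨a, rfl⟩ | ⟨a, b, ha, hb, rfl⟩
      · apply g1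
        cases x <;> simp
      · apply g2
        rw [show x ++ [2, a] ++ y = (x ++ [2]) ++ (a :: y) by simp, List.dropLast_append_of_ne_nil (by simp)]
        simp
      · exact g0 (by simp)
      · exact g0 (by simp)
      · rw [List.countP_append, List.countP_append, List.countP_cons, List.countP_cons] at g3
        have h1 : hd a = true := by simpa [hd] using ha
        have h2 : hd b = true := by simpa [hd] using hb
        rw [h1, h2] at g3
        simp at g3
        omega
    · exact Or.inl h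
  · rcases Finset.mem_union.1 h with h | h
    · exfalso
      rw [mem_RZ] at h
      rw [h.1] at g0
      exact g0 (by simp)
    · exact Or.inr h

theorem RM_count {l r : W} (h : (l, r) ∈ RM) : l.countP hd = 1 ∧ r.countP hd = 1 := by
  rw [mem_RM] at h
  rcases h with ⟨q, t, hq, ht, rfl, rfl⟩ | ⟨t, ht, rfl, rfl⟩ | ⟨rfl, rfl⟩ | ⟨rfl, rfl⟩
  · rcases hq with rfl | rfl | rfl <;> rcases ht with rfl | rfl <;> decide
  · rcases ht with rfl | rfl <;> decide
  · decide
  · decide

theorem hw_isolated {T : W} (hT : Tape T) {σ ε : Bool} {w : W} (h : Step (Ls σ ++ T ++ Re ε) w) : False := by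
  obtain ⟨x, y, l, r, h1, h2, h3⟩ := h
  have hg := hw_good hT σ ε
  have hc := hw_count hT σ ε
  rw [h2] at hg hc
  rw [List.countP_append, List.countP_append] at hc
  rcases good_RM hg h1 with h | h
  · have := (RM_count h).1; omega
  · have := (RM_count h).2; omega

theorem splitR {t : Fin 9} {y R : W} {ε : Bool} (ht : t = 3 ∨ t = 4) (h : t :: y = R ++ Re ε) :
    ∃ R', R = t :: R' ∧ y = R' ++ Re ε := by
  cases R with
  | nil =>
    exfalso
    cases ε
    · simp [Re] at h
    · simp only [Re, List.nil_append, if_true, List.cons.injEq] at h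
      rcases ht with rfl | rfl
      · exact absurd h.1 (by decide)
      · exact absurd h.1 (by decide)
  | cons a R =>
    simp only [List.cons_append, List.cons.injEq] at h
    exact ⟨R, by rw [h.1], h.2⟩

theorem splitR2 {y R : W} {ε : Bool} (hR : Tape R) (h : (2 : Fin 9) :: y = R ++ Re ε) :
    R = [] ∧ ε = true ∧ y = [] := by
  cases R with
  | nil =>
    cases ε
    · simp [Re] at h
    · simp only [Re, List.nil_append, if_true, List.cons.injEq] at h
      exact ⟨rfl, rfl, h.2⟩
  | cons a R =>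
    exfalso
    simp only [List.cons_append, List.cons.injEq] at h
    exact tape_ne hR (x := 2) (by decide) (by rw [h.1]; simp)

theorem splitL {t : Fin 9} {x L : W} {σ : Bool} (ht : t = 3 ∨ t = 4) (h : x ++ [t] = Ls σ ++ L) :
    ∃ L', L = L' ++ [t] ∧ x = Ls σ ++ L' := by
  rcases List.eq_nil_or_concat L with rfl | ⟨L', a, rfl⟩
  · exfalso
    cases σ
    · simp [Ls] at h
    · have := congrArg List.getLast? h
      simp [Ls] at this
      rcases ht with rfl | rfl
      · exact absurd this (by decide)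
      · exact absurd this (by decide)
  · rw [List.concat_eq_append] at *
    rw [← List.append_assoc] at h
    have := List.append_inj' h rfl
    refine ⟨L', ?_, this.1⟩
    rw [this.2]

theorem splitL1 {x L : W} {σ : Bool} (hL : Tape L) (h : x ++ [1] = Ls σ ++ L) :
    L = [] ∧ σ = true ∧ x = [] := by
  rcases List.eq_nil_or_concat L with rfl | ⟨L', a, rfl⟩
  · cases σ
    · simp [Ls] at h
    · refine ⟨rfl, rfl, ?_⟩
      have h' : x ++ [1] = [] ++ [1] := by simpa [Ls] using h
      exact (List.append_inj' h' rfl).1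
  · exfalso
    rw [List.concat_eq_append] at *
    rw [← List.append_assoc] at h
    have := List.append_inj' h rfl
    have h1 : (1 : Fin 9) = a := by simpa using this.2
    exact tape_ne hL (x := 1) (by decide) (by rw [h1]; simp)

theorem parse {c : Cfg} (hv : Valid c) {x y : W} {h : Fin 9} (hh : hd h = true) (e : enc c = x ++ h :: y) :
    x = Ls c.s ++ c.L ∧ h = c.h ∧ y = c.R ++ Re c.e := by
  have hc := enc_count hv
  rw [e, List.countP_append, List.countP_cons, hh] at hc
  simp only [if_true] at hc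
  have hx : ∀ a ∈ x, hd a = false := by
    have : x.countP hd = 0 := by omega
    rw [List.countP_eq_zero] at this
    intro a ha
    have := this a ha
    simpa using this
  have hp : ∀ a ∈ Ls c.s ++ c.L, hd a = false := by
    intro a ha
    rcases List.mem_append.1 ha with ha | ha
    · cases hs : c.s
      · rw [hs] at ha; simp [Ls] at ha
      · rw [hs] at ha; simp [Ls] at ha; subst ha; rfl
    · rcases hv.1 a ha with rfl | rfl <;> rfl
  have := uniq _ _ _ _ _ _ hp hx (valid_hd hv) hh (show (Ls c.s ++ c.L) ++ c.h :: (c.R ++ Re c.e) = x ++ h :: y from e)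
  exact ⟨this.1.symm, this.2.1.symm, this.2.2.symm⟩

theorem q_hd {q : Fin 9} (hq : q = 5 ∨ q = 6 ∨ q = 7) : hd q = true := by
  rcases hq with rfl | rfl | rfl <;> rfl

theorem step_enc {c : Cfg} (hv : Valid c) {w : W} (h : Step (enc c) w) :
    ∃ d, Valid d ∧ w = enc d ∧ (Fw c d ∨ Fw d c) := by
  suffices H : ∃ d, w = enc d ∧ (Fw c d ∨ Fw d c) by
    obtain ⟨d, h1, h2⟩ := H
    refine ⟨d, ?_, h1, h2⟩
    rcases h2 with h2 | h2
    · exact (fw_valid h2).1 hv
    · exact (fw_valid h2).2 hv
  obtain ⟨x, y, l, r, h1, h2, h3⟩ := h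
  have hg := enc_good hv
  rw [h2] at hg
  have hM := good_RM hg h1
  obtain ⟨σ, L, k, R, ε⟩ := c
  have hL : Tape L := hv.1
  have hR : Tape R := hv.2.1
  rcases hM with hM | hM
  · rw [mem_RM] at hM
    rcases hM with ⟨q, t, hq, ht, rfl, rfl⟩ | ⟨t, ht, rfl, rfl⟩ | ⟨rfl, rfl⟩ | ⟨rfl, rfl⟩
    · obtain ⟨e1, e2, e3⟩ := parse hv (q_hd hq) (show _ = x ++ q :: (t :: y) by rw [h2]; simp)
      simp only at e1 e2 e3
      obtain ⟨R', rfl, rfl⟩ := splitR ht e3
      subst e1 e2
      exact ⟨_, by rw [h3]; simp [enc], Or.inl (Fw.sw σ L q t R' ε hq ht)⟩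
    · obtain ⟨e1, e2, e3⟩ := parse hv (h := 8) rfl (show _ = (x ++ [t]) ++ 8 :: y by rw [h2]; simp)
      simp only at e1 e2 e3
      obtain ⟨L', rfl, rfl⟩ := splitL ht e1
      subst e2 e3
      exact ⟨_, by rw [h3]; simp [enc], Or.inl (Fw.pl σ L' t R ε ht)⟩
    · obtain ⟨e1, e2, e3⟩ := parse hv (h := 7) rfl (show _ = x ++ 7 :: (2 :: y) by rw [h2]; simp)
      simp only at e1 e2 e3
      obtain ⟨rfl, rfl, rfl⟩ := splitR2 hR e3
      subst e1 e2
      exact ⟨_, by rw [h3]; simp [enc, Re], Or.inl (Fw.eb σ L)⟩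
    · obtain ⟨e1, e2, e3⟩ := parse hv (h := 8) rfl (show _ = (x ++ [1]) ++ 8 :: y by rw [h2]; simp)
      simp only at e1 e2 e3
      obtain ⟨rfl, rfl, rfl⟩ := splitL1 hL e1
      subst e2 e3
      exact ⟨_, by rw [h3]; simp [enc, Ls], Or.inl (Fw.sb R ε)⟩
  · rw [mem_RM] at hM
    rcases hM with ⟨q, t, hq, ht, rfl, rfl⟩ | ⟨t, ht, rfl, rfl⟩ | ⟨rfl, rfl⟩ | ⟨rfl, rfl⟩
    · obtain ⟨e1, e2, e3⟩ := parse hv (q_hd (nx_cases hq ht))
        (show _ = (x ++ [ot q t]) ++ nx q t :: y by rw [h2]; simp)
      simp only at e1 e2 e3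
      obtain ⟨L', rfl, rfl⟩ := splitL (ot_cases hq ht) e1
      subst e2 e3
      exact ⟨_, by rw [h3]; simp [enc], Or.inr (Fw.sw σ L' q t R ε hq ht)⟩
    · obtain ⟨e1, e2, e3⟩ := parse hv (h := 8) rfl (show _ = x ++ 8 :: (t :: y) by rw [h2]; simp)
      simp only at e1 e2 e3
      obtain ⟨R', rfl, rfl⟩ := splitR ht e3
      subst e1 e2
      exact ⟨_, by rw [h3]; simp [enc], Or.inr (Fw.pl σ L t R' ε ht)⟩
    · obtain ⟨e1, e2, e3⟩ := parse hv (h := 8) rfl (show _ = x ++ 8 :: (2 :: y) by rw [h2]; simp)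
      simp only at e1 e2 e3
      obtain ⟨rfl, rfl, rfl⟩ := splitR2 hR e3
      subst e1 e2
      exact ⟨_, by rw [h3]; simp [enc, Re], Or.inr (Fw.eb σ L)⟩
    · obtain ⟨e1, e2, e3⟩ := parse hv (h := 5) rfl (show _ = (x ++ [1]) ++ 5 :: y by rw [h2]; simp)
      simp only at e1 e2 e3
      obtain ⟨rfl, rfl, rfl⟩ := splitL1 hL e1
      subst e2 e3
      exact ⟨_, by rw [h3]; simp [enc, Ls], Or.inr (Fw.sb R ε)⟩

theorem fw_len {c d : Cfg} (h : Fw c d) : (enc c).length = (enc d).length := by
  cases h <;> simp [enc, Ls, Re]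

/-- invariance along a path -/
theorem path_enc (m : ℕ) : ∀ {c : Cfg}, Valid c → ∀ {w : W}, Path m (enc c) w →
    ∃ d, Valid d ∧ w = enc d ∧ nf c = nf d ∧ tm c ≤ tm d + m ∧ (enc c).length = (enc d).length := by
  induction m with
  | zero =>
    intro c hv w h
    exact ⟨c, hv, Eq.symm h, rfl, le_refl _, rfl⟩
  | succ m ih =>
    intro c hv w h
    obtain ⟨a, ha, hb⟩ := h
    obtain ⟨d, hd, rfl, hf⟩ := step_enc hv ha
    obtain ⟨d', k1, k2, k3, k4, k5⟩ := ih hd hb
    rcases hf with hf | hf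
    · have := fw_nf hf
      have h2 := fw_len hf
      exact ⟨d', k1, k2, this.1.trans k3, by omega, h2.trans k5⟩
    · have := fw_nf hf
      have h2 := fw_len hf
      exact ⟨d', k1, k2, this.1.symm.trans k3, by omega, h2.symm.trans k5⟩

theorem enc_inj {c d : Cfg} (hc : Valid c) (hd' : Valid d) (e : enc c = enc d) : c = d := by
  obtain ⟨e1, e2, e3⟩ := parse hc (valid_hd hd') (show enc c = (Ls d.s ++ d.L) ++ d.h :: (d.R ++ Re d.e) from e)
  obtain ⟨σ, L, k, R, ε⟩ := c
  obtain ⟨σ', L', k', R', ε'⟩ := d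
  simp only at e1 e2 e3
  have hL : Tape L := hc.1
  have hL' : Tape L' := hd'.1
  have hR : Tape R := hc.2.1
  have hR' : Tape R' := hd'.2.1
  subst e2
  have h1 : σ' = σ ∧ L' = L := by
    cases σ <;> cases σ'
    · exact ⟨rfl, by simpa [Ls] using e1⟩
    · exfalso
      have e1' : (1 : Fin 9) :: L' = L := by simpa [Ls] using e1
      exact tape_ne hL (x := 1) (by decide) (by rw [← e1']; simp)
    · exfalso
      have e1' : L' = (1 : Fin 9) :: L := by simpa [Ls] using e1
      exact tape_ne hL' (x := 1) (by decide) (by rw [e1']; simp)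
    · exact ⟨rfl, by simpa [Ls] using e1⟩
  have h2 : ε' = ε ∧ R' = R := by
    cases ε <;> cases ε'
    · exact ⟨rfl, by simpa [Re] using e3⟩
    · exfalso
      have e1' : R' ++ [2] = R := by simpa [Re] using e3
      exact tape_ne hR (x := 2) (by decide) (by rw [← e1']; simp)
    · exfalso
      have e1' : R' = R ++ [2] := by simpa [Re] using e3
      exact tape_ne hR' (x := 2) (by decide) (by rw [e1']; simp)
    · exact ⟨rfl, by simpa [Re] using e3⟩
  rw [h1.1, h1.2, h2.1, h2.2]

end Pool.Agent.H4.Mon
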