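import Pool.Agent.H4.Mon3

set_option autoImplicit false

namespace Pool.Agent.H4.Mon

theorem step_of_mem {l r : W} (h : (l, r) ∈ R) : Step l r := ⟨[], [], l, r, Or.inl h, by simp, by simp⟩

theorem absorbR : ∀ y : W, Path y.length ((0 : Fin 9) :: y) [0]
  | [] => rfl
  | t :: y => by
      refine ⟨(0 : Fin 9) :: y, ?_, absorbR y⟩
      have h : (([0, t] : W), ([0] : W)) ∈ R := by
        apply Finset.mem_union_left
        rw [mem_RZ]
        exact ⟨rfl, Or.inr (Or.inr (Or.inl ⟨t, rfl⟩))⟩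
      simpa using (step_of_mem h).ctx [] y

theorem absorbL : ∀ x : W, Path x.length (x ++ [0]) [0]
  | [] => rfl
  | t :: x => by
      have h : (([t, 0] : W), ([0] : W)) ∈ R := by
        apply Finset.mem_union_left
        rw [mem_RZ]
        exact ⟨rfl, Or.inr (Or.inr (Or.inr (Or.inl ⟨t, rfl⟩)))⟩
      have h1 : Path x.length (t :: (x ++ [0])) [t, 0] := by
        have := (absorbL x).ctx [t] []
        simpa using this
      exact h1.trans (Path.single (step_of_mem h))

theorem absorb (x y : W) : Path (x.length + y.length) (x ++ 0 :: y) [0] := by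
  have h1 : Path y.length (x ++ 0 :: y) (x ++ [0]) := by
    have := (absorbR y).ctx x []
    simpa using this
  rw [Nat.add_comm]
  exact h1.trans (absorbL x)

theorem zpat {l : W} (h : (l, ([0] : W)) ∈ R) (x y : W) : Path (1 + (x.length + y.length)) (x ++ l ++ y) [0] := by
  have h1 : Path 1 (x ++ l ++ y) (x ++ [0] ++ y) := Path.single ((step_of_mem h).ctx x y)
  have h2 := absorb x y
  rw [show x ++ 0 :: y = x ++ [0] ++ y by simp] at h2
  exact h1.trans h2

theorem memZ1 (a : Fin 9) : (([a, 1] : W), ([0] : W)) ∈ R :=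
  Finset.mem_union_left _ ((mem_RZ _ _).2 ⟨rfl, Or.inl ⟨a, rfl⟩⟩)

theorem memZ2 (a : Fin 9) : (([2, a] : W), ([0] : W)) ∈ R :=
  Finset.mem_union_left _ ((mem_RZ _ _).2 ⟨rfl, Or.inr (Or.inl ⟨a, rfl⟩)⟩)

theorem memZ5 {a b : Fin 9} (ha : hd a = true) (hb : hd b = true) : (([a, b] : W), ([0] : W)) ∈ R :=
  Finset.mem_union_left _ ((mem_RZ _ _).2 ⟨rfl, Or.inr (Or.inr (Or.inr (Or.inr
    ⟨a, b, by simpa [hd] using ha, by simpa [hd] using hb, rfl⟩)))⟩)

theorem push1 {q t : Fin 9} (hq : hd q = true) (ht : t = 3 ∨ t = 4) :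
    ∃ t' q' : Fin 9, hd q' = true ∧ Step [q, t] [t', q'] := by
  by_cases h8 : q = 8
  · subst h8
    refine ⟨t, 8, rfl, Step.symm (step_of_mem ?_)⟩
    exact Finset.mem_union_right _ ((mem_RM _ _).2 (Or.inr (Or.inl ⟨t, ht, rfl, rfl⟩)))
  · have hq' : q = 5 ∨ q = 6 ∨ q = 7 := by
      have := hd_cases hq
      tauto
    refine ⟨ot q t, nx q t, q_hd (nx_cases hq' ht), step_of_mem ?_⟩
    exact Finset.mem_union_right _ ((mem_RM _ _).2 (Or.inl ⟨q, t, hq', ht, rfl, rfl⟩))

theorem push : ∀ (T : W) (q : Fin 9), Tape T → hd q = true →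
    ∃ (T' : W) (q' : Fin 9), hd q' = true ∧ T'.length = T.length ∧ Path T.length (q :: T) (T' ++ [q'])
  | [], q, _, hq => ⟨[], q, hq, rfl, rfl⟩
  | t :: T, q, hT, hq => by
      obtain ⟨t', q', h1, h2⟩ := push1 hq (hT t (by simp))
      obtain ⟨T', q'', h3, h4, h5⟩ := push T q' (fun x hx => hT x (List.mem_cons_of_mem _ hx)) h1
      refine ⟨t' :: T', q'', h3, by simp [h4], ?_⟩
      refine ⟨t' :: q' :: T, ?_, ?_⟩
      · simpa using h2.ctx [] T
      · simpa using h5.ctx [t'] []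

theorem letter_cases (x : Fin 9) : x = 0 ∨ x = 1 ∨ x = 2 ∨ (x = 3 ∨ x = 4) ∨ hd x = true := by
  revert x; decide

theorem classify : ∀ w : W, (∃ σ T ε, Tape T ∧ w = Ls σ ++ T ++ Re ε) ∨ (∃ c, Valid c ∧ w = enc c) ∨
    (∃ m, m ≤ 3 * w.length ∧ Path m w [0])
  | [] => Or.inl ⟨false, [], false, (fun _ h => absurd h (by simp)), rfl⟩
  | x :: w => by
      have hzero : x = 0 → ∃ m, m ≤ 3 * (x :: w).length ∧ Path m (x :: w) [0] := by
        rintro rfl
        exact ⟨w.length, by simp; omega, absorbR w⟩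
      have htwo : x = 2 → w ≠ [] → ∃ m, m ≤ 3 * (x :: w).length ∧ Path m (x :: w) [0] := by
        rintro rfl hw
        obtain ⟨a, w', rfl⟩ := List.exists_cons_of_ne_nil hw
        refine ⟨_, ?_, zpat (memZ2 a) [] w'⟩
        simp; omega
      have hone : ∀ w' : W, w = 1 :: w' → ∃ m, m ≤ 3 * (x :: w).length ∧ Path m (x :: w) [0] := by
        rintro w' rfl
        refine ⟨_, ?_, zpat (memZ1 x) [] w'⟩
        simp; omega
      rcases classify w with ⟨σ, T, ε, hT, rfl⟩ | ⟨c, hc, rfl⟩ | ⟨m, hm, hp⟩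
      · cases σ with
        | true => exact Or.inr (Or.inr (hone (T ++ Re ε) (by simp [Ls])))
        | false =>
          rcases letter_cases x with hx | hx | hx | hx | hx
          · exact Or.inr (Or.inr (hzero hx))
          · subst hx
            exact Or.inl ⟨true, T, ε, hT, by simp [Ls]⟩
          · by_cases hw : Ls false ++ T ++ Re ε = []
            · subst hx
              rw [hw]
              exact Or.inl ⟨false, [], true, (fun _ h => absurd h (by simp)), rfl⟩
            · exact Or.inr (Or.inr (htwo hx hw))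
          · refine Or.inl ⟨false, x :: T, ε, ?_, by simp [Ls]⟩
            intro t ht
            rcases List.mem_cons.1 ht with h | h
            · subst h; exact hx
            · exact hT t h
          · refine Or.inr (Or.inl ⟨⟨false, [], x, T, ε⟩, ⟨?_, hT, hd_cases hx⟩, by simp [enc, Ls]⟩)
            intro t ht
            simp at ht
      · obtain ⟨σ, L, h, R, ε⟩ := c
        have hL : Tape L := hc.1
        have hR : Tape R := hc.2.1
        cases σ with
        | true => exact Or.inr (Or.inr (hone (L ++ h :: (R ++ Re ε)) (by simp [enc, Ls])))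
        | false =>
          rcases letter_cases x with hx | hx | hx | hx | hx
          · exact Or.inr (Or.inr (hzero hx))
          · subst hx
            exact Or.inr (Or.inl ⟨⟨true, L, h, R, ε⟩, hc, by simp [enc, Ls]⟩)
          · exact Or.inr (Or.inr (htwo hx (by simp [enc])))
          · refine Or.inr (Or.inl ⟨⟨false, x :: L, h, R, ε⟩, ⟨?_, hR, hc.2.2⟩, by simp [enc, Ls]⟩)
            intro t ht
            rcases List.mem_cons.1 ht with h | h
            · subst h; exact hx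
            · exact hL t h
          · right; right
            obtain ⟨T', q', h1, h2, h3⟩ := push L x hL hx
            have e1 : Path L.length (x :: enc ⟨false, L, h, R, ε⟩) (T' ++ [q', h] ++ (R ++ Re ε)) := by
              have := h3.ctx [] (h :: (R ++ Re ε))
              simpa [enc, Ls] using this
            have e2 := zpat (memZ5 h1 (valid_hd hc)) T' (R ++ Re ε)
            refine ⟨_, ?_, e1.trans e2⟩
            simp [enc, Ls, h2]
            omega
      · right; right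
        have h1 : Path m (x :: w) [x, 0] := by simpa using hp.ctx [x] []
        have h2 := absorbL [x]
        refine ⟨m + [x].length, ?_, h1.trans h2⟩
        simp; omega

def B (n : ℕ) : ℕ := (2 * n + 2) * (Nat.log 2 n + 3)

theorem B_mono {m n : ℕ} (h : m ≤ n) : B m ≤ B n :=
  Nat.mul_le_mul (by omega) (Nat.add_le_add_right (Nat.log_mono_right h) 3)

theorem upper {u v : W} {m : ℕ} (h : Path m u v) : ∃ m', m' ≤ B u.length + B v.length ∧ Path m' u v := by
  have key : ∀ {c : Cfg}, Valid c → ∀ {w : W} {k : ℕ}, Path k (enc c) w →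
      ∃ m', m' ≤ B (enc c).length + B w.length ∧ Path m' (enc c) w := by
    intro c hc w k hk
    obtain ⟨d, hd', rfl, h1, -, -⟩ := path_enc k hc hk
    have p1 := path_nf _ c hc rfl
    have p2 := (path_nf _ d hd' rfl).symm
    rw [← h1] at p2
    exact ⟨_, Nat.add_le_add (tm_le c) (tm_le d), p1.trans p2⟩
  have iso : ∀ {σ : Bool} {T : W} {ε : Bool}, Tape T → ∀ {w : W} {k : ℕ}, Path k (Ls σ ++ T ++ Re ε) w →
      w = Ls σ ++ T ++ Re ε := by
    intro σ T ε hT w k hk
    cases k with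
    | zero => exact Eq.symm hk
    | succ k =>
      obtain ⟨a, ha, -⟩ := hk
      exact absurd ha (fun h => hw_isolated hT h)
  rcases classify u with ⟨σ, T, ε, hT, rfl⟩ | ⟨c, hc, rfl⟩ | ⟨m1, hm1, hp1⟩
  · exact ⟨0, Nat.zero_le _, (iso hT h).symm⟩
  · exact key hc h
  · rcases classify v with ⟨σ, T, ε, hT, rfl⟩ | ⟨c, hc, rfl⟩ | ⟨m2, hm2, hp2⟩
    · exact ⟨0, Nat.zero_le _, iso hT h.symm⟩
    · obtain ⟨m', h1, h2⟩ := key hc h.symm
      exact ⟨m', by omega, h2.symm⟩
    · refine ⟨m1 + m2, ?_, hp1.trans hp2.symm⟩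
      have e1 : 3 * u.length ≤ B u.length := by
        unfold B; nlinarith [Nat.zero_le (u.length * Nat.log 2 u.length), Nat.zero_le (Nat.log 2 u.length)]
      have e2 : 3 * v.length ≤ B v.length := by
        unfold B; nlinarith [Nat.zero_le (v.length * Nat.log 2 v.length), Nat.zero_le (Nat.log 2 v.length)]
      omega

theorem sq_le (L : ℕ) : L ^ 2 ≤ 4 * 2 ^ L := by
  induction L with
  | zero => norm_num
  | succ L ih =>
    by_cases h : L ≤ 2
    · interval_cases L <;> norm_num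
    · rw [pow_succ 2 L]
      nlinarith

theorem B_small (ε : ℝ) (hε : 0 < ε) : ∃ N : ℕ, ∀ n : ℕ, N ≤ n → ((2 * B n : ℕ) : ℝ) ≤ ε * (n : ℝ) ^ 2 := by
  obtain ⟨N, hN⟩ := exists_nat_ge ((40 / ε) ^ 2)
  refine ⟨N + 1, fun n hn => ?_⟩
  have hn1 : (1 : ℝ) ≤ n := by exact_mod_cast (by omega : 1 ≤ n)
  have hnN : (40 / ε) ^ 2 ≤ (n : ℝ) := hN.trans (by exact_mod_cast (by omega : N ≤ n))
  set s := Real.sqrt n with hs
  have hs1 : 1 ≤ s := by rw [hs]; exact Real.one_le_sqrt.2 hn1
  have hss : s * s = n := Real.mul_self_sqrt (by linarith)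
  have h40 : 40 / ε ≤ s := by rw [hs]; exact Real.le_sqrt_of_sq_le hnN
  have h40' : 40 ≤ ε * s := by
    rw [div_le_iff₀ hε] at h40; linarith
  have hlog : (Nat.log 2 n : ℝ) ≤ 2 * s := by
    have h1 : 2 ^ (Nat.log 2 n) ≤ n := Nat.pow_log_le_self 2 (by omega)
    have h2 : (Nat.log 2 n) ^ 2 ≤ 4 * n := (sq_le _).trans (Nat.mul_le_mul_left 4 h1)
    have h3 : ((Nat.log 2 n : ℕ) : ℝ) ^ 2 ≤ (2 * s) ^ 2 := by
      have : ((Nat.log 2 n : ℕ) : ℝ) ^ 2 ≤ 4 * n := by exact_mod_cast h2
      calc ((Nat.log 2 n : ℕ) : ℝ) ^ 2 ≤ 4 * n := this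
        _ = (2 * s) ^ 2 := by rw [← hss]; ring
    exact le_of_sq_le_sq h3 (by linarith)
  unfold B
  push_cast
  have e1 : (2 * (n : ℝ) + 2) ≤ 4 * n := by linarith
  have e2 : (Nat.log 2 n : ℝ) + 3 ≤ 5 * s := by linarith
  have e3 : (2 * (n : ℝ) + 2) * ((Nat.log 2 n : ℝ) + 3) ≤ (4 * n) * (5 * s) :=
    mul_le_mul e1 e2 (by positivity) (by positivity)
  calc 2 * ((2 * (n : ℝ) + 2) * ((Nat.log 2 n : ℝ) + 3)) ≤ 2 * ((4 * n) * (5 * s)) := by linarith
    _ = 40 * (n * s) := by ring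
    _ ≤ (ε * s) * (n * s) := by
        apply mul_le_mul_of_nonneg_right h40'
        positivity
    _ = ε * (n * (s * s)) := by ring
    _ = ε * (n : ℝ) ^ 2 := by rw [hss]; ring

/-- the terminal configuration -/
theorem terminal (n : ℕ) : ∀ c : Cfg, Valid c → tm c = n → ∃ d, Valid d ∧ tm d = 0 ∧ Path n (enc c) (enc d) := by
  induction n with
  | zero => intro c hc h; exact ⟨c, hc, h, rfl⟩
  | succ n ih =>
    intro c hc h
    rcases progress c hc with ⟨h1, -⟩ | ⟨d, hd'⟩
    · omega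
    · obtain ⟨e, h1, h2, h3⟩ := ih d ((fw_valid hd').1 hc) (by have := (fw_nf hd').2; omega)
      exact ⟨e, h1, h2, enc d, fw_step hd', h3⟩

theorem lower (C : ℕ) : ∃ u v : W, (∃ m, Path m u v) ∧ ∀ m, Path m u v → C * (u.length + v.length + 1) < m := by
  set k := 5 * C with hk
  set T : W := List.replicate (2 ^ k) 3 with hT
  have hTt : Tape T := fun t ht => Or.inl (List.eq_of_mem_replicate ht)
  set c : Cfg := ⟨true, [], 8, T, true⟩ with hc
  have hv : Valid c := ⟨fun _ h => absurd h (by simp [hc]), hTt, Or.inr (Or.inr (Or.inr rfl))⟩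
  have hlen : T.length = 2 ^ k := by simp [hT]
  have hJ : J T = k := J_pow k T (by simp [hT])
  have htm : tm c = 1 + 2 ^ k + (2 * 2 ^ k + 2) * k := by
    simp [tm, hc, pt, hlen, hJ]
  obtain ⟨d, hd1, hd2, hd3⟩ := terminal _ c hv rfl
  refine ⟨enc c, enc d, ⟨_, hd3⟩, fun m hm => ?_⟩
  obtain ⟨d', k1, k2, k3, k4, k5⟩ := path_enc m hv hm
  have := enc_inj hd1 k1 k2
  subst this
  have hl : (enc c).length = 2 ^ k + 3 := by
    simp [enc, hc, Ls, Re, hlen]
  rw [hl] at k5
  rw [hl, ← k5]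
  rw [hd2, htm] at k4
  have hpos : 0 < 2 ^ k := by positivity
  have : C * (2 ^ k + 3 + (2 ^ k + 3) + 1) ≤ (2 * 2 ^ k + 2) * k := by
    rw [hk] at *
    nlinarith [Nat.zero_le C, Nat.zero_le (C * 2 ^ (5 * C)), Nat.mul_le_mul_left C hpos]
  omega

end Pool.Agent.H4.Mon
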