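import Pool.Agent.H4.UA4

set_option autoImplicit false

namespace Pool.Agent.H4.NU

open Polynomial Pool.Agent.H4.GS Pool.Agent.H4.UA TensorProduct

section
variable {F R V : Type} [Field F] [CommRing R] [Algebra F R] [AddCommGroup V] [Module R V]
  [Module F V] [IsScalarTower F R V]

/-- finite rank with nilpotent coefficients -/
def JF (β : Module.End R V) : Prop :=
  ∃ W : Submodule R V, W.FG ∧ ∀ v, β v ∈ nilradical R • W

theorem JF.add {β γ : Module.End R V} (hβ : JF β) (hγ : JF γ) : JF (β + γ) := by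
  obtain ⟨W, hW, h⟩ := hβ
  obtain ⟨W', hW', h'⟩ := hγ
  refine ⟨W ⊔ W', hW.sup hW', fun v => ?_⟩
  rw [Submodule.smul_sup]
  exact Submodule.add_mem_sup (h v) (h' v)

theorem JF.mul_left {β : Module.End R V} (hβ : JF β) (φ : Module.End R V) : JF (φ * β) := by
  obtain ⟨W, hW, h⟩ := hβ
  refine ⟨W.map φ, hW.map φ, fun v => ?_⟩
  rw [← Submodule.map_smul'']
  exact ⟨β v, h v, rfl⟩

theorem JF.mul_right {β : Module.End R V} (hβ : JF β) (φ : Module.End R V) : JF (β * φ) := by
  obtain ⟨W, hW, h⟩ := hβ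
  exact ⟨W, hW, fun v => h (φ v)⟩

theorem JF.smul {β : Module.End R V} (hβ : JF β) (c : F) : JF (c • β) := by
  obtain ⟨W, hW, h⟩ := hβ
  refine ⟨W, hW, fun v => ?_⟩
  change c • β v ∈ nilradical R • W
  rw [← one_smul R (β v), ← smul_assoc]
  exact Submodule.smul_mem _ _ (h v)

theorem JF.zero : JF (0 : Module.End R V) :=
  ⟨⊥, Submodule.fg_bot, fun _ => Submodule.zero_mem _⟩

theorem fg_ideal {J : Ideal R} {W : Submodule R V} {x : V} (hx : x ∈ J • W) :
    ∃ I : Ideal R, I.FG ∧ I ≤ J ∧ x ∈ I • W := by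
  induction hx using Submodule.smul_induction_on' with
  | smul r hr n hn =>
    refine ⟨Ideal.span {r}, ⟨{r}, by simp [Ideal.span]⟩, ?_, ?_⟩
    · rw [Ideal.span_le]; simpa using hr
    · exact Submodule.smul_mem_smul (Ideal.mem_span_singleton_self r) hn
  | add x _ y _ hx hy =>
    obtain ⟨I, h1, h2, h3⟩ := hx
    obtain ⟨I', h1', h2', h3'⟩ := hy
    refine ⟨I ⊔ I', Submodule.FG.sup h1 h1', sup_le h2 h2', ?_⟩
    exact Submodule.add_mem _ (Submodule.smul_mono_left le_sup_left h3)
      (Submodule.smul_mono_left le_sup_right h3')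

theorem JF.nil {β : Module.End R V} (hβ : JF β) : IsNilpotent β := by
  classical
  obtain ⟨W, ⟨s, hs⟩, h⟩ := hβ
  choose I hI1 hI2 hI3 using fun w : V => fg_ideal (h w)
  let I₀ : Ideal R := s.sup I
  have hI₀ : I₀.FG := by
    exact Submodule.fg_finset_sup s I (fun w _ => hI1 w)
  have hI₀n : I₀ ≤ nilradical R := Finset.sup_le (fun w _ => hI2 w)
  obtain ⟨K, hK⟩ := (Ideal.FG.isNilpotent_iff_le_nilradical hI₀).mpr hI₀n
  have hW : ∀ w ∈ W, β w ∈ I₀ • W := by
    intro w hw
    rw [← hs] at hw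
    induction hw using Submodule.span_induction with
    | mem w hw =>
      exact Submodule.smul_mono_left (Finset.le_sup (f := I) hw) (hI3 w)
    | zero => rw [map_zero]; exact Submodule.zero_mem _
    | add x y _ _ hx hy => rw [map_add]; exact Submodule.add_mem _ hx hy
    | smul c x _ hx => rw [map_smul]; exact Submodule.smul_mem _ _ hx
  have hpow : ∀ k : ℕ, ∀ w ∈ W, (β ^ k) w ∈ I₀ ^ k • W := by
    intro k
    induction k with
    | zero =>
      intro w hw
      rw [pow_zero, pow_zero, Ideal.one_eq_top, Submodule.top_smul]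
      exact hw
    | succ k ih =>
      intro w hw
      rw [pow_succ' β k, Module.End.mul_apply]
      have h1 : β ((β ^ k) w) ∈ (I₀ ^ k • W).map β := ⟨_, ih w hw, rfl⟩
      rw [Submodule.map_smul''] at h1
      have h2 : W.map β ≤ I₀ • W := by
        rintro _ ⟨w', hw', rfl⟩
        exact hW w' hw'
      have h3 := Submodule.smul_mono (le_refl (I₀ ^ k)) h2 h1
      rw [pow_succ, Submodule.mul_smul]
      exact h3
  refine ⟨K + 1, ?_⟩
  apply LinearMap.ext
  intro v
  rw [pow_succ, Module.End.mul_apply]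
  have h1 := hpow K (β v) (Submodule.smul_le_right (h v))
  rw [hK] at h1
  change (β ^ K) (β v) ∈ (⊥ : Ideal R) • W at h1
  rw [Submodule.bot_smul] at h1
  exact (Submodule.mem_bot R).mp h1

theorem nil_add {α β : Module.End R V} {N : ℕ} (hα : α ^ N = 0) (hβ : JF β) :
    IsNilpotent (α + β) := by
  have key : ∀ n : ℕ, JF ((α + β) ^ n - α ^ n) := by
    intro n
    induction n with
    | zero => rw [pow_zero, pow_zero, sub_self]; exact JF.zero
    | succ n ih =>
      have : (α + β) ^ (n + 1) - α ^ (n + 1) =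
          ((α + β) ^ n - α ^ n) * (α + β) + α ^ n * β := by
        rw [pow_succ, pow_succ]; noncomm_ring
      rw [this]
      exact (ih.mul_right _).add (hβ.mul_left _)
  have h1 := key N
  rw [hα, sub_zero] at h1
  obtain ⟨K, hK⟩ := h1.nil
  exact ⟨N * K, by rw [pow_mul]; exact hK⟩

end

variable {F : Type} [Field F]

theorem GS_exists' [Countable F] : ∃ (L : Submodule (T F) (T F)) (a : ℕ → T F),
    (∀ f : T F, comp F 0 f = 0 → ∃ N : ℕ, ∀ t, f ^ N * t ∈ L) ∧
    (1 : T F) ∉ L ∧
    LinearIndependent F (fun n => (Submodule.Quotient.mk (a n) : T F ⧸ L)) := by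
  obtain ⟨L, a, h1, h2, h3⟩ := GS_exists (F := F)
  have hcT : Countable (T F) := by
    have : Function.Injective (fun f : T F => f.coeff) := MonoidAlgebra.coeff_injective
    have h2 : Countable W := inferInstanceAs (Countable (List (Fin 3)))
    exact this.countable
  let A : Set (T F) := {f | comp F 0 f = 0}
  have hne : A.Nonempty := ⟨0, map_zero _⟩
  have hcA : A.Countable := Set.to_countable A
  obtain ⟨fe, hfe⟩ := hcA.exists_eq_range hne
  have hmem : ∀ i, comp F 0 (fe i) = 0 := fun i => by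
    have : fe i ∈ A := by rw [hfe]; exact ⟨i, rfl⟩
    exact this
  choose D hD hB using fun i => exists_Bd (hmem i)
  have hh := hrel_mem fe D
  choose a ha ha' using fun n => exists_not_mem (hrel fe D) hh n
  refine ⟨Lid (hrel fe D), a, ?_, ?_, ?_⟩
  · intro f hf
    have h0 : f ∈ A := hf
    rw [hfe] at h0
    obtain ⟨i, hi⟩ := h0
    refine ⟨NN D i, fun t => ?_⟩
    rw [← hi]
    exact pow_mul_mem fe D hD hB i t
  · intro h1
    have h2 := mem_Lid.mp h1 0
    have h3 : (1 : T F) ∈ Tn F 0 := single_mem (w := 1) (c := 1)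
    rw [comp_of_mem h3] at h2
    have h4 : (1 : T F) ∈ (⊥ : Submodule F (T F)) := h2
    exact one_ne_zero ((Submodule.mem_bot F).mp h4)
  · rw [linearIndependent_iff']
    intro s g hg n hn
    have h1 : (∑ i ∈ s, g i • a i) ∈ Lid (hrel fe D) := by
      rw [← Submodule.Quotient.mk_eq_zero]
      rw [← hg]
      rw [← Submodule.mkQ_apply, map_sum]
      rfl
    have h2 := mem_Lid.mp h1 n
    rw [map_sum, Finset.sum_eq_single n] at h2
    · rw [map_smul, comp_of_mem (ha n)] at h2
      by_contra hne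
      apply ha' n
      have := Submodule.smul_mem _ (g n)⁻¹ h2
      rwa [smul_smul, inv_mul_cancel₀ hne, one_smul] at this
    · intro i _ hi
      rw [map_smul, comp_of_mem_ne (ha i) hi, smul_zero]
    · intro h; exact absurd hn h

theorem comp0_mul {f g : T F} (hf : comp F 0 f = 0) (hg : comp F 0 g = 0) :
    comp F 0 (f * g) = 0 := by
  obtain ⟨m, _, hm⟩ := exists_Bd hf
  obtain ⟨m', _, hm'⟩ := exists_Bd hg
  exact comp_Bd (Bd_mul hm hm') 0 (Or.inl (by omega))

section build
variable {R V : Type} [CommRing R] [Algebra F R] [AddCommGroup V] [Module R V]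
  [Module F V] [IsScalarTower F R V]

theorem struct (ρ : T F →ₐ[F] Module.End R V) (e : Module.End R V) (he : JF e)
    (b : Module.End R V)
    (hb : b ∈ NonUnitalAlgebra.adjoin F (Set.range (fun j => ρ (x j)) ∪ {e})) :
    ∃ t : T F, comp F 0 t = 0 ∧ ∃ β : Module.End R V, JF β ∧ b = ρ t + β := by
  induction hb using NonUnitalAlgebra.adjoin_induction with
  | mem b hb =>
    rcases hb with ⟨j, rfl⟩ | hb
    · exact ⟨x j, comp_of_mem_ne (x_mem j) one_ne_zero, 0, JF.zero, by rw [add_zero]⟩
    · rw [Set.mem_singleton_iff] at hb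
      subst hb
      exact ⟨0, map_zero _, b, he, by rw [map_zero, zero_add]⟩
  | zero => exact ⟨0, map_zero _, 0, JF.zero, by rw [map_zero, add_zero]⟩
  | add b c _ _ hb hc =>
    obtain ⟨t, ht, β, hβ, rfl⟩ := hb
    obtain ⟨t', ht', β', hβ', rfl⟩ := hc
    exact ⟨t + t', by rw [map_add, ht, ht', add_zero], β + β', hβ.add hβ', by rw [map_add]; abel⟩
  | mul b c _ _ hb hc =>
    obtain ⟨t, ht, β, hβ, rfl⟩ := hb
    obtain ⟨t', ht', β', hβ', rfl⟩ := hc
    refine ⟨t * t', comp0_mul ht ht', ρ t * β' + β * ρ t' + β * β',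
      ((hβ'.mul_left _).add (hβ.mul_right _)).add (hβ.mul_right _), ?_⟩
    rw [map_mul]; noncomm_ring
  | smul c b _ hb =>
    obtain ⟨t, ht, β, hβ, rfl⟩ := hb
    exact ⟨c • t, by rw [map_smul, ht, smul_zero], c • β, hβ.smul c, by rw [map_smul, smul_add]⟩

theorem build [Countable F]
    (ρ : T F →ₐ[F] Module.End R V)
    (hL : ∀ f : T F, comp F 0 f = 0 → ∃ N : ℕ, ρ (f ^ N) = 0)
    (w : V) (hw : Function.Injective (fun r : R => r • w)) (a : ℕ → T F)
    (r : ℕ → R) (l : V →ₗ[R] R) (hlJ : ∀ v, l v ∈ nilradical R)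
    (hl : ∀ n, l (ρ (a n) w) = r n) (s : ℕ → ℕ) (hr : ∀ n, r n ^ (s n + 1) ≠ 0) :
    ∃ (E : Type) (_ : Ring E) (_ : Algebra F E) (B : NonUnitalSubalgebra F E),
      (∀ b ∈ B, IsNilpotent b) ∧ Countable B ∧
      ∃ y : Fin 4 → E, (∀ i, y i ∈ B) ∧ ∀ k,
        (y 3 * ev (fun j : Fin 3 => y j.castSucc) (a k)) ^ (s k + 1) ≠ 0 := by
  let e : Module.End R V := l.smulRight w
  have he : JF e := ⟨Submodule.span R {w}, Submodule.fg_span_singleton _, fun v => by
    change l v • w ∈ _
    exact Submodule.smul_mem_smul (hlJ v) (Submodule.mem_span_singleton_self _)⟩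
  let S : Set (Module.End R V) := Set.range (fun j => ρ (x j)) ∪ {e}
  let B := NonUnitalAlgebra.adjoin F S
  have hX : ∀ j, ρ (x j) ∈ B := fun j => NonUnitalAlgebra.subset_adjoin F (Or.inl ⟨j, rfl⟩)
  have he' : e ∈ B := NonUnitalAlgebra.subset_adjoin F (Or.inr rfl)
  refine ⟨Module.End R V, inferInstance, inferInstance, B, ?_, ?_, ?_⟩
  · intro b hb
    obtain ⟨t, ht, β, hβ, hb'⟩ := struct ρ e he b hb
    obtain ⟨N, hN⟩ := hL t ht
    rw [hb']
    exact nil_add (N := N) (by rw [← map_pow]; exact hN) hβ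
  · have h1 : Countable (Algebra.adjoin F S) := by
      rw [← Cardinal.mk_le_aleph0_iff]
      refine (Algebra.cardinalMk_adjoin_le F S).trans ?_
      refine max_le (max_le (Cardinal.mk_le_aleph0_iff.mpr inferInstance) ?_) le_rfl
      have : S.Countable := (Set.countable_range _).union (Set.countable_singleton _)
      exact Cardinal.mk_le_aleph0_iff.mpr this.to_subtype
    have h2 : B ≤ (Algebra.adjoin F S).toNonUnitalSubalgebra :=
      NonUnitalAlgebra.adjoin_le Algebra.subset_adjoin
    have h3 : Function.Injective (fun b : B => (⟨b.1, h2 b.2⟩ : Algebra.adjoin F S)) := by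
      intro b c hbc
      exact Subtype.ext (congrArg (fun z : Algebra.adjoin F S => (z : Module.End R V)) hbc)
    exact h3.countable
  · refine ⟨Fin.snoc (fun j => ρ (x j)) e, fun i => ?_, fun k => ?_⟩
    · refine Fin.lastCases ?_ (fun j => ?_) i
      · rw [Fin.snoc_last]; exact he'
      · rw [Fin.snoc_castSucc]; exact hX j
    · have e1 : (Fin.snoc (fun j => ρ (x j)) e : Fin 4 → Module.End R V) 3 = e :=
        Fin.snoc_last (α := fun _ => Module.End R V) _ _
      have e2 : (fun j : Fin 3 => (Fin.snoc (fun j => ρ (x j)) e : Fin 4 → Module.End R V)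
          j.castSucc) = fun j => ρ (x j) := by
        funext j
        exact Fin.snoc_castSucc (α := fun _ => Module.End R V) _ _ _
      rw [e1, e2, ev_unique ρ (a k)]
      have hgw : (e * ρ (a k)) w = r k • w := by
        rw [Module.End.mul_apply]
        change l (ρ (a k) w) • w = _
        rw [hl]
      have hpow : ∀ n : ℕ, ((e * ρ (a k)) ^ n) w = r k ^ n • w := by
        intro n
        induction n with
        | zero => rw [pow_zero, pow_zero, one_smul]; rfl
        | succ n ih => rw [pow_succ', Module.End.mul_apply, ih, map_smul, hgw, smul_smul, pow_succ]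
      intro h0
      apply hr k
      apply hw
      change r k ^ (s k + 1) • w = (0 : R) • w
      rw [← hpow, h0, zero_smul]
      rfl

end build

end Pool.Agent.H4.NU
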