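import Pool.Agent.H4.NU1

set_option autoImplicit false

namespace Pool.Agent.H4.NU

open Polynomial Pool.Agent.H4.GS Pool.Agent.H4.UA TensorProduct

/-- the coefficient ring -/
abbrev RN (F : Type) [Field F] : Type := ∀ n : ℕ, AdjoinRoot (X ^ (n + 1) : F[X])

variable {F : Type} [Field F]

open Classical in
noncomputable def rn (n : ℕ) : RN F := Pi.single n (AdjoinRoot.root (X ^ (n + 1) : F[X]))

theorem rn_nil (n : ℕ) : (rn n : RN F) ∈ nilradical (RN F) := by
  rw [mem_nilradical]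
  refine ⟨n + 1, ?_⟩
  funext m
  rw [Pi.pow_apply]
  unfold rn
  by_cases h : m = n
  · subst h
    rw [Pi.single_eq_same]
    have h2 := AdjoinRoot.aeval_eq (R := F) (f := (X ^ (m + 1) : F[X])) (X ^ (m + 1) : F[X])
    rw [AdjoinRoot.mk_self, aeval_X_pow] at h2
    exact h2
  · rw [Pi.single_eq_of_ne h, zero_pow (Nat.succ_ne_zero _)]; rfl

theorem rn_ne (n : ℕ) : (rn n : RN F) ^ n ≠ 0 := by
  intro h
  have h1 := congrFun h n
  rw [Pi.pow_apply] at h1
  unfold rn at h1
  rw [Pi.single_eq_same] at h1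
  have h2 : AdjoinRoot.mk (X ^ (n + 1) : F[X]) (X ^ n) = 0 := by
    rw [map_pow]
    exact h1
  rw [AdjoinRoot.mk_eq_zero] at h2
  have h3 := natDegree_le_of_dvd h2 (pow_ne_zero _ X_ne_zero)
  rw [natDegree_X_pow, natDegree_X_pow] at h3
  omega

section inst
variable {R : Type} [CommRing R] [Algebra F R] {M : Type} [AddCommGroup M] [Module F M]

theorem exists_func (v : ℕ → M) (ha : LinearIndependent F v) (r : ℕ → R)
    (hr : ∀ n, r n ∈ nilradical R) :
    ∃ l : R ⊗[F] M →ₗ[R] R, (∀ z, l z ∈ nilradical R) ∧ ∀ n, l (1 ⊗ₜ v n) = r n := by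
  let Jm : Submodule F R := (nilradical R).restrictScalars F
  let r' : ℕ → Jm := fun n => ⟨r n, hr n⟩
  obtain ⟨g, hg⟩ := LinearMap.exists_extend (((Module.Basis.span ha).constr F) r')
  let l := LinearMap.liftBaseChange R (Jm.subtype.comp g)
  refine ⟨l, ?_, fun n => ?_⟩
  · intro z
    induction z using TensorProduct.induction_on with
    | zero => rw [map_zero]; exact Ideal.zero_mem _
    | tmul c m =>
      change LinearMap.liftBaseChange R (Jm.subtype.comp g) (c ⊗ₜ m) ∈ _
      rw [LinearMap.liftBaseChange_tmul]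
      exact Ideal.mul_mem_left _ _ (g m).2
    | add x y hx hy => rw [map_add]; exact Ideal.add_mem _ hx hy
  · change LinearMap.liftBaseChange R (Jm.subtype.comp g) (1 ⊗ₜ v n) = r n
    rw [LinearMap.liftBaseChange_tmul, one_smul]
    have h := DFunLike.congr_fun hg ((Module.Basis.span ha) n)
    rw [Module.Basis.constr_basis] at h
    have h' := congrArg (fun z : Jm => (z : R)) h
    change _ = r n at h'
    rw [← h']
    change ((g (v n) : Jm) : R) = ((g ((Module.Basis.span ha) n : M) : Jm) : R)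
    rw [Module.Basis.span_apply]

variable [Module (T F) M] [IsScalarTower F (T F) M]

theorem build2 [Countable F]
    (hL : ∀ f : T F, comp F 0 f = 0 → ∃ N : ℕ, ∀ m : M, f ^ N • m = 0)
    (m0 : M) (hne : m0 ≠ 0) (a : ℕ → T F) (ha : LinearIndependent F (fun n => a n • m0))
    (r : ℕ → R) (hrn : ∀ n, r n ∈ nilradical R) (s : ℕ → ℕ) (hr : ∀ n, r n ^ (s n + 1) ≠ 0) :
    ∃ (E : Type) (_ : Ring E) (_ : Algebra F E) (B : NonUnitalSubalgebra F E),
      (∀ b ∈ B, IsNilpotent b) ∧ Countable B ∧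
      ∃ y : Fin 4 → E, (∀ i, y i ∈ B) ∧ ∀ k,
        (y 3 * ev (fun j : Fin 3 => y j.castSucc) (a k)) ^ (s k + 1) ≠ 0 := by
  obtain ⟨l, hlJ, hl⟩ := exists_func (R := R) _ ha r hrn
  refine build (V := R ⊗[F] M) (rhoE F R M) (fun f hf => ?_) (1 ⊗ₜ m0) (v0_inj hne) a r l hlJ
    (fun n => ?_) s hr
  · obtain ⟨N, h⟩ := hL f hf
    exact ⟨N, rhoE_zero _ h⟩
  · rw [← hl n]
    congr 1

end inst

theorem exists_alg (F : Type) [Field F] [Countable F] : ∃ a : ℕ → T F, ∀ s : ℕ → ℕ,
    ∃ (E : Type) (_ : Ring E) (_ : Algebra F E) (B : NonUnitalSubalgebra F E),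
      (∀ b ∈ B, IsNilpotent b) ∧ Countable B ∧
      ∃ y : Fin 4 → E, (∀ i, y i ∈ B) ∧ ∀ k,
        (y 3 * ev (fun j : Fin 3 => y j.castSucc) (a k)) ^ (s k + 1) ≠ 0 := by
  obtain ⟨L, a, hL, h1, ha⟩ := GS_exists' (F := F)
  refine ⟨a, fun s => ?_⟩
  refine build2 (R := RN F) (M := T F ⧸ L) ?_ (Submodule.Quotient.mk 1) ?_ a ?_
    (fun n => rn (s n + 1)) (fun n => rn_nil _) s (fun n => rn_ne (s n + 1))
  · intro f hf
    obtain ⟨N, h⟩ := hL f hf
    refine ⟨N, fun m => ?_⟩
    obtain ⟨t, rfl⟩ := Submodule.Quotient.mk_surjective L m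
    rw [← Submodule.Quotient.mk_smul, Submodule.Quotient.mk_eq_zero, smul_eq_mul]
    exact h t
  · intro h
    exact h1 ((Submodule.Quotient.mk_eq_zero L).mp h)
  · have e : (fun n => a n • (Submodule.Quotient.mk 1 : T F ⧸ L)) =
        fun n => (Submodule.Quotient.mk (a n) : T F ⧸ L) := by
      funext n
      rw [← Submodule.Quotient.mk_smul, smul_eq_mul, mul_one]
    rw [e]
    exact ha

section diag
variable {F U : Type} [Field F] [NonUnitalRing U] [Module F U] [IsScalarTower F U U]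
  [SMulCommClass F U U]

theorem iter_map {E : Type} [Ring E] [Algebra F E] (φ : U →ₙₐ[F] E) (h : U) (n : ℕ) :
    φ ((fun x => h * x)^[n] h) = φ h ^ (n + 1) := by
  induction n with
  | zero => rw [Function.iterate_zero_apply, zero_add, pow_one]
  | succ n ih =>
    rw [Function.iterate_succ_apply', map_mul, ih, ← pow_succ']

theorem iter_sub {E : Type} [Ring E] [Algebra F E] (B : NonUnitalSubalgebra F E) (b : B) (n : ℕ) :
    (((fun x => b * x)^[n] b : B) : E) = (b : E) ^ (n + 1) := by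
  induction n with
  | zero => rw [Function.iterate_zero_apply, zero_add, pow_one]
  | succ n ih =>
    rw [Function.iterate_succ_apply', NonUnitalSubalgebra.coe_mul, ih, ← pow_succ']

theorem diag [Countable F] (hnil : ∀ a : U, ∃ n : ℕ, (fun x : U => a * x)^[n] a = 0)
    (hrank : Module.rank F U ≤ Cardinal.aleph0)
    (hU : ∀ (B : Type) [NonUnitalRing B] [Module F B] [IsScalarTower F B B]
          [SMulCommClass F B B],
          (∀ b : B, ∃ n : ℕ, (fun x : B => b * x)^[n] b = 0) →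
          Module.rank F B ≤ Cardinal.aleph0 →
            ∃ f : U →ₙₐ[F] B, Function.Surjective f) : False := by
  obtain ⟨a, hB⟩ := exists_alg F
  have hcU : Countable U := countable_of_rank hrank
  obtain ⟨en, hen⟩ := exists_surjective_nat (Fin 4 → U)
  choose ni hni using hnil
  obtain ⟨E, _, _, B, hnilB, hcB, y, hyB, hy⟩ := hB (fun k => ni (hh (a k) (en k)))
  obtain ⟨φ, hφ⟩ := hU B (fun b => by
    obtain ⟨n, hn⟩ := hnilB b.1 b.2
    refine ⟨n, ?_⟩
    apply Subtype.ext
    rw [iter_sub, pow_succ, hn, zero_mul]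
    rfl) rank_of_countable
  choose u hu using fun i => hφ ⟨y i, hyB i⟩
  obtain ⟨k, hk⟩ := hen u
  apply hy k
  let ψ : U →ₙₐ[F] E := (NonUnitalSubalgebraClass.subtype B).comp φ
  have hψ : ∀ i, ψ (u i) = y i := fun i => by
    change ((φ (u i) : B) : E) = y i
    rw [hu]
  have e1 : ψ (hh (a k) u) = y 3 * ev (fun j : Fin 3 => y j.castSucc) (a k) := by
    rw [hh_map, hψ]
    congr 2
    exact congrArg ev (funext fun j => hψ _)
  rw [← e1, hk, ← iter_map, hni, map_zero]

end diag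

end Pool.Agent.H4.NU
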