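import Mathlib

set_option autoImplicit false

namespace Pool.Agent.H4.NU

/-- A nilalgebra: an associative algebra, not necessarily unital, in which every element `a` has
some power `a * (a * ... a) = 0`. -/
def NilAlg (A : Type) [NonUnitalRing A] : Prop :=
  ∀ a : A, ∃ n : ℕ, (fun x : A => a * x)^[n] a = 0

/-- `U` is *universal*: nil, of countable dimension, and mapping onto every nilalgebra of
countable dimension. -/
structure UniversalNil (F U : Type) [Field F] [NonUnitalRing U] [Module F U]
    [IsScalarTower F U U] [SMulCommClass F U U] : Prop where
  nil : NilAlg U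
  countable_dim : Module.rank F U ≤ Cardinal.aleph0
  maps_onto : ∀ (A : Type) [NonUnitalRing A] [Module F A] [IsScalarTower F A A]
    [SMulCommClass F A A], NilAlg A → Module.rank F A ≤ Cardinal.aleph0 →
    ∃ φ : U →ₙₐ[F] A, Function.Surjective φ

end Pool.Agent.H4.NU
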