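import Mathlib

set_option autoImplicit false

namespace Pool.Agent.H4.PairDist

open Equiv

def F (m D s : ℕ) : ℕ :=
  if D ≤ m then (m + 1) * D else (m + 1) * (2 * m - D) + min (m + 1) (min s (2 * m + 1 + D - s))

def Φ (m x y : ℕ) : ℕ :=
  if y - x ≤ 2 * m then F m (y - x) y else F m (4 * m + 1 - (y - x)) x

theorem F_le {m D s : ℕ} (h : D ≤ m) : F m D s = (m + 1) * D := if_pos h
theorem F_gt {m D s : ℕ} (h : ¬ D ≤ m) :
    F m D s = (m + 1) * (2 * m - D) + min (m + 1) (min s (2 * m + 1 + D - s)) := if_neg h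
theorem Phi_s {m x y : ℕ} (h : y - x ≤ 2 * m) : Φ m x y = F m (y - x) y := if_pos h
theorem Phi_l {m x y : ℕ} (h : ¬ y - x ≤ 2 * m) : Φ m x y = F m (4 * m + 1 - (y - x)) x := if_neg h

def Ψ (m x y : ℕ) : ℕ := if x ≤ y then Φ m x y else Φ m y x

theorem Psi_symm (m x y : ℕ) : Ψ m x y = Ψ m y x := by
  unfold Ψ
  by_cases h : x = y
  · subst h; rfl
  · split_ifs <;> first | rfl | omega

theorem F_rot (m D s : ℕ) : F m D (s + 1) ≤ F m D s + 1 := by
  by_cases h : D ≤ m
  · rw [F_le h, F_le h]; omega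
  · rw [F_gt h, F_gt h]; omega

/-- rotation step on naturals -/
theorem rot1 (m x y : ℕ) (hxy : x < y) (hy : y + 1 < 4 * m + 1) :
    Φ m (x + 1) (y + 1) ≤ Φ m x y + 1 := by
  have e1 : y + 1 - (x + 1) = y - x := by omega
  by_cases h : y - x ≤ 2 * m
  · rw [Phi_s h, Phi_s (by rw [e1]; exact h), e1]
    exact F_rot _ _ _
  · rw [Phi_l h, Phi_l (by rw [e1]; exact h), e1]
    exact F_rot _ _ _

theorem rot2 (m x : ℕ) (hxy : x < 4 * m) :
    Φ m 0 (x + 1) ≤ Φ m x (4 * m) + 1 := by
  by_cases h : x + 1 ≤ 2 * m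
  · rw [Phi_s (by omega), Phi_l (by omega)]
    have e1 : 4 * m + 1 - (4 * m - x) = x + 1 := by omega
    rw [e1, Nat.sub_zero]
    exact F_rot _ _ _
  · rw [Phi_l (by omega), Phi_s (by omega)]
    have e1 : 4 * m + 1 - (x + 1 - 0) = 4 * m - x := by omega
    rw [e1]
    by_cases h' : 4 * m - x ≤ m
    · rw [F_le h', F_le h']; omega
    · rw [F_gt h', F_gt h']; omega

/-- pairs {0, y} and {y, 2m+1} with `0 < y < 2m+1` -/
theorem sw1 (m y : ℕ) (h0 : 0 < y) (h1 : y < 2 * m + 1) :
    Φ m 0 y = Φ m y (2 * m + 1) := by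
  rw [Phi_s (by omega), Phi_s (by omega), Nat.sub_zero]
  by_cases h : y ≤ m
  · rw [F_le h, F_gt (by omega)]
    obtain ⟨z, rfl⟩ : ∃ z, y = z + 1 := ⟨y - 1, by omega⟩
    have e1 : 2 * m - (2 * m + 1 - (z + 1)) = z := by omega
    have e2 : min (m + 1) (min (2 * m + 1) (2 * m + 1 + (2 * m + 1 - (z + 1)) - (2 * m + 1))) = m + 1 := by
      omega
    rw [e1, e2]
    ring
  · rw [F_gt h, F_le (by omega)]
    have e1 : min (m + 1) (min y (2 * m + 1 + y - y)) = m + 1 := by omega
    have e2 : 2 * m + 1 - y = (2 * m - y) + 1 := by omega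
    rw [e1, e2]
    ring

theorem sw2 (m y : ℕ) (h0 : 2 * m + 1 < y) (h1 : y < 4 * m + 1) :
    Φ m 0 y = Φ m (2 * m + 1) y := by
  rw [Phi_l (by omega), Phi_s (by omega), Nat.sub_zero]
  by_cases h : 4 * m + 1 - y ≤ m
  · rw [F_le h]
    by_cases h' : y - (2 * m + 1) ≤ m
    · rw [F_le h']
      have e1 : 4 * m + 1 - y = y - (2 * m + 1) := by omega
      rw [e1]
    · rw [F_gt h']
      have e1 : 4 * m + 1 - y = 2 * m - (y - (2 * m + 1)) := by omega
      have e2 : min (m + 1) (min y (2 * m + 1 + (y - (2 * m + 1)) - y)) = 0 := by omega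
      rw [e1, e2]
      omega
  · rw [F_gt h, F_le (by omega)]
    have e1 : 2 * m - (4 * m + 1 - y) = y - (2 * m + 1) := by omega
    have e2 : min (m + 1) (min 0 (2 * m + 1 + (4 * m + 1 - y) - 0)) = 0 := by omega
    rw [e1, e2]
    omega

theorem Psi_rot (m x y : ℕ) (hxy : x ≠ y) (hx : x < 4 * m + 1) (hy : y < 4 * m + 1) :
    Ψ m (if x = 4 * m then 0 else x + 1) (if y = 4 * m then 0 else y + 1) ≤ Ψ m x y + 1 := by
  wlog h : x < y generalizing x y
  · rw [Psi_symm, Psi_symm m x y]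
    exact this y x hxy.symm hy hx (by omega)
  · unfold Ψ
    rw [if_neg (show ¬ x = 4 * m by omega), if_pos h.le]
    by_cases h' : y = 4 * m
    · subst h'
      rw [if_pos rfl, if_neg (by omega)]
      exact rot2 m x (by omega)
    · rw [if_neg h', if_pos (by omega)]
      exact rot1 m x y h (by omega)

theorem Psi_sw0 (m y : ℕ) (hy : y < 4 * m + 1) (h0 : y ≠ 0) (h1 : y ≠ 2 * m + 1) :
    Ψ m 0 y = Ψ m (2 * m + 1) y := by
  unfold Ψ
  rw [if_pos (Nat.zero_le _)]
  by_cases h : y < 2 * m + 1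
  · rw [if_neg (by omega)]
    exact sw1 m y (by omega) h
  · rw [if_pos (by omega)]
    exact sw2 m y (by omega) hy

theorem Psi_start (m : ℕ) : Ψ m 0 (2 * m + 1) = 0 := by
  unfold Ψ
  rw [if_pos (Nat.zero_le _), Phi_l (by omega)]
  have e1 : 4 * m + 1 - (2 * m + 1 - 0) = 2 * m := by omega
  rw [e1]
  by_cases h : m = 0
  · subst h; rfl
  · rw [F_gt (by omega)]
    have e2 : min (m + 1) (min 0 (2 * m + 1 + 2 * m - 0)) = 0 := by omega
    rw [e2]
    simp

theorem Psi_end (m : ℕ) : Ψ m 0 m = (m + 1) * m := by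
  unfold Ψ
  rw [if_pos (Nat.zero_le _), Phi_s (by omega), Nat.sub_zero, F_le le_rfl]

/-- the rotation -/
abbrev σ (m : ℕ) : Perm (Fin (4 * m + 1)) := finRotate (4 * m + 1)

theorem sigma_val (m : ℕ) (x : Fin (4 * m + 1)) :
    (σ m x).val = if x.val = 4 * m then 0 else x.val + 1 := by
  by_cases h : x.val = 4 * m
  · rw [if_pos h]
    have : x = Fin.last (4 * m) := Fin.ext h
    rw [this]
    simp [σ]
  · rw [if_neg h]
    exact coe_finRotate_of_ne_last (fun hc => h (by rw [hc]; rfl))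

/-- the point `2m+1` -/
def hp (m : ℕ) (hm : 0 < m) : Fin (4 * m + 1) := ⟨2 * m + 1, by omega⟩

theorem sigma_pow (m k : ℕ) (hk : k < 4 * m + 1) : ((σ m ^ k) 0).val = k := by
  induction k with
  | zero => simp
  | succ k ih =>
    rw [pow_succ', Perm.mul_apply, sigma_val, ih (by omega), if_neg (by omega)]

theorem Psi_swap (m : ℕ) (hm : 0 < m) (x y : Fin (4 * m + 1)) (hxy : x ≠ y) :
    Ψ m (swap 0 (hp m hm) x).val (swap 0 (hp m hm) y).val = Ψ m x.val y.val := by
  have hp0 : (hp m hm) ≠ 0 := by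
    intro h
    have := congrArg Fin.val h
    simp [hp] at this
  have hval : (hp m hm).val = 2 * m + 1 := rfl
  by_cases hx0 : x = 0
  · subst hx0
    rw [swap_apply_left]
    by_cases hyh : y = hp m hm
    · subst hyh
      rw [swap_apply_right, Psi_symm]
    · rw [swap_apply_of_ne_of_ne hxy.symm hyh, hval]
      exact (Psi_sw0 m y y.2 (fun h => hxy (Fin.ext h.symm)) (fun h => hyh (Fin.ext h))).symm
  · by_cases hxh : x = hp m hm
    · subst hxh
      rw [swap_apply_right]
      by_cases hy0 : y = 0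
      · subst hy0
        rw [swap_apply_left, Psi_symm]
      · rw [swap_apply_of_ne_of_ne hy0 hxy.symm, hval]
        exact Psi_sw0 m y y.2 (fun h => hy0 (Fin.ext h)) (fun h => hxy (Fin.ext h.symm))
    · rw [swap_apply_of_ne_of_ne hx0 hxh]
      have hx0' : x.val ≠ 0 := fun h => hx0 (Fin.ext h)
      have hxh' : x.val ≠ 2 * m + 1 := fun h => hxh (Fin.ext h)
      by_cases hy0 : y = 0
      · subst hy0
        rw [swap_apply_left, hval, Psi_symm, Psi_symm m x.val]
        exact (Psi_sw0 m x x.2 hx0' hxh').symm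
      · by_cases hyh : y = hp m hm
        · subst hyh
          rw [swap_apply_right, hval, Psi_symm, Psi_symm m x.val]
          exact Psi_sw0 m x x.2 hx0' hxh'
        · rw [swap_apply_of_ne_of_ne hy0 hyh]

theorem word_bound (m : ℕ) (hm : 0 < m) (w : List (Perm (Fin (4 * m + 1))))
    (hw : ∀ s ∈ w, s ∈ ({σ m, swap 0 (hp m hm)} : Set (Perm (Fin (4 * m + 1)))))
    (x y : Fin (4 * m + 1)) (hxy : x ≠ y) :
    Ψ m (w.prod x).val (w.prod y).val ≤ Ψ m x.val y.val + w.length := by
  induction w with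
  | nil => simp
  | cons s w ih =>
    have ih' := ih (fun t ht => hw t (List.mem_cons_of_mem _ ht))
    have hs := hw s (List.mem_cons_self)
    rw [List.prod_cons, Perm.mul_apply, Perm.mul_apply, List.length_cons]
    have hne : w.prod x ≠ w.prod y := fun h => hxy (w.prod.injective h)
    rcases hs with rfl | hs
    · rw [sigma_val, sigma_val]
      have := Psi_rot m (w.prod x).val (w.prod y).val (fun h => hne (Fin.ext h)) (w.prod x).2
        (w.prod y).2
      omega
    · rw [Set.mem_singleton_iff] at hs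
      rw [hs, Psi_swap m hm _ _ hne]
      omega

theorem closure_top (m : ℕ) (hm : 0 < m) :
    Subgroup.closure ({σ m, swap 0 (hp m hm)} : Set (Perm (Fin (4 * m + 1)))) = ⊤ := by
  have h1 : (σ m ^ (2 * m + 1)) 0 = hp m hm := Fin.ext (sigma_pow m _ (by omega))
  rw [← h1]
  obtain ⟨k, rfl⟩ : ∃ k, m = k + 1 := ⟨m - 1, by omega⟩
  apply Perm.closure_cycle_coprime_swap
  · rw [Fintype.card_fin]
    have : 4 * (k + 1) + 1 = (2 * (k + 1) + 1) + (2 * (k + 1)) := by ring
    rw [this, Nat.coprime_self_add_right]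
    have h2 : Nat.Coprime (2 * (k + 1) + 1) (2 * (k + 1)) := by
      rw [Nat.coprime_self_add_left]
      exact Nat.coprime_one_left _
    exact h2
  · exact isCycle_finRotate
  · exact support_finRotate

theorem main :
    ¬ (∃ C : ℕ, ∀ (n : ℕ) (G : Subgroup (Equiv.Perm (Fin n))),
      MulAction.IsPreprimitive G (Fin n) →
      ∀ S : Set (Equiv.Perm (Fin n)), Subgroup.closure S = G →
      ∀ P : Setoid (Fin n), ∀ a b : Fin n, a ≠ b →
        (∃ g ∈ G, P.r (g a) (g b)) →
        ∃ w : List (Equiv.Perm (Fin n)), (∀ s ∈ w, s ∈ S) ∧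
          w.length ≤ C * n ∧ P.r (w.prod a) (w.prod b)) := by
  rintro ⟨C, hC⟩
  let m := 4 * C + 1
  have hm : 0 < m := by omega
  let q : Fin (4 * m + 1) := ⟨m, by omega⟩
  have hq0 : q ≠ 0 := by
    intro h
    have := congrArg Fin.val h
    simp [q] at this
  have hp0 : (hp m hm) ≠ 0 := by
    intro h
    have := congrArg Fin.val h
    simp [hp] at this
  have hprim : MulAction.IsPreprimitive (⊤ : Subgroup (Perm (Fin (4 * m + 1)))) (Fin (4 * m + 1)) := by
    let φ : Perm (Fin (4 * m + 1)) → (⊤ : Subgroup (Perm (Fin (4 * m + 1)))) :=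
      fun g => ⟨g, Subgroup.mem_top g⟩
    let f : Fin (4 * m + 1) →ₑ[φ] Fin (4 * m + 1) :=
      { toFun := id
        map_smul' := fun g x => rfl }
    exact MulAction.IsPreprimitive.of_surjective (f := f) Function.surjective_id
  obtain ⟨w, hw, hl, hP⟩ := hC (4 * m + 1) ⊤ hprim _ (closure_top m hm)
    (Setoid.ker (fun x => if x = q then 0 else x)) 0 (hp m hm) hp0.symm
    ⟨swap (hp m hm) q, Subgroup.mem_top _, by
      change (if _ then _ else _) = (if _ then _ else _)
      rw [swap_apply_left, if_pos rfl, swap_apply_of_ne_of_ne hp0.symm hq0.symm, if_neg hq0.symm]⟩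
  have h1 := word_bound m hm w hw 0 (hp m hm) hp0.symm
  have hne : w.prod 0 ≠ w.prod (hp m hm) := fun h => hp0 (w.prod.injective h).symm
  change (if _ then _ else _) = (if _ then _ else _) at hP
  have h2 : Ψ m (w.prod 0).val (w.prod (hp m hm)).val = (m + 1) * m := by
    by_cases hA : w.prod 0 = q
    · rw [if_pos hA] at hP
      by_cases hB : w.prod (hp m hm) = q
      · exact absurd (hA.trans hB.symm) hne
      · rw [if_neg hB] at hP
        rw [hA, ← hP, Psi_symm]
        exact Psi_end m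
    · rw [if_neg hA] at hP
      by_cases hB : w.prod (hp m hm) = q
      · rw [if_pos hB] at hP
        rw [hB, hP]
        exact Psi_end m
      · rw [if_neg hB] at hP
        exact absurd hP hne
  rw [h2] at h1
  have h3 : Ψ m (0 : Fin (4 * m + 1)).val (hp m hm).val = 0 := Psi_start m
  rw [h3] at h1
  have h4 : (m + 1) * m ≤ C * (4 * m + 1) := by omega
  have h5 : (4 * C + 1 + 1) * (4 * C + 1) ≤ C * (4 * (4 * C + 1) + 1) := h4
  nlinarith

end Pool.Agent.H4.PairDist
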