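import Mathlib

set_option autoImplicit false

namespace Pool.Agent.H4.Prim

/-- A (not necessarily unital) ring `R` is right primitive if it has a faithful simple right
module `M`: `act m r` is the product `m r`; it is biadditive and associative (so `M` is a right
`R`-module); `M R ≠ 0` and the only submodules are `0` and `M` (simplicity);
`M r = 0` implies `r = 0` (faithfulness). -/
def RightPrimitive (R : Type) [NonUnitalRing R] : Prop :=
  ∃ (M : Type) (_ : AddCommGroup M) (act : M → R → M),
    (∀ m n r, act (m + n) r = act m r + act n r) ∧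
    (∀ m r s, act m (r + s) = act m r + act m s) ∧
    (∀ m r s, act m (r * s) = act (act m r) s) ∧
    (∃ m r, act m r ≠ 0) ∧
    (∀ N : AddSubgroup M, (∀ m ∈ N, ∀ r, act m r ∈ N) → N = ⊥ ∨ N = ⊤) ∧
    (∀ r, (∀ m, act m r = 0) → r = 0)

/-- `S` is subdirectly indecomposable if `S ≠ 0` and the intersection of all nonzero two-sided
ideals of `S` is nonzero. -/
def SubdirectlyIndecomposable (S : Type) [NonUnitalRing S] : Prop :=
  Nontrivial S ∧ sInf {I : TwoSidedIdeal S | I ≠ ⊥} ≠ ⊥

end Pool.Agent.H4.Prim
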