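import Mathlib
import Pool.Agent.H4.PrimDefs

set_option autoImplicit false

namespace Pool.Agent.H4.Prim

open Polynomial

/-- If `t R ⊆ R t` and `R/J` is right primitive then `t ∈ J` or `t` is left regular modulo `J`. -/
lemma regular_of_primitive {R : Type} [Ring R] (t : R) (ht : ∀ r, ∃ r', t * r = r' * t)
    (J : TwoSidedIdeal R) (hJ : RightPrimitive J.ringCon.Quotient) :
    t ∈ J ∨ ∀ r, t * r ∈ J → r ∈ J := by
  obtain ⟨M, _, act, h1, h2, h3, ⟨m0, r0, h0⟩, hs, hf⟩ := hJ
  let π : R → J.ringCon.Quotient := fun r => (r : J.ringCon.Quotient)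
  have hπ : Function.Surjective π := Quotient.mk_surjective
  have hmul : ∀ a b, π (a * b) = π a * π b := fun a b => rfl
  have h0' : ∀ r, act 0 r = 0 := fun r => by
    have := h1 0 0 r
    simpa using this
  have hneg : ∀ m r, act (-m) r = - act m r := fun m r => by
    have := h1 m (-m) r
    rw [add_neg_cancel, h0'] at this
    exact (neg_eq_of_add_eq_zero_right this.symm).symm
  have hmem : ∀ r, π r = 0 → r ∈ J := fun r hr => by
    rw [TwoSidedIdeal.mem_iff]
    exact (RingCon.eq _).1 hr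
  have hmem' : ∀ r, r ∈ J → π r = 0 := fun r hr => by
    rw [TwoSidedIdeal.mem_iff] at hr
    exact (RingCon.eq _).2 hr
  let L : AddSubgroup M :=
    { carrier := Set.range fun m => act m (π t)
      zero_mem' := ⟨0, h0' _⟩
      add_mem' := by
        rintro _ _ ⟨a, rfl⟩ ⟨b, rfl⟩
        exact ⟨a + b, h1 _ _ _⟩
      neg_mem' := by
        rintro _ ⟨a, rfl⟩
        exact ⟨-a, hneg _ _⟩ }
  rcases hs L (by
    rintro _ ⟨a, rfl⟩ q
    obtain ⟨r, rfl⟩ := hπ q
    obtain ⟨r', hr'⟩ := ht r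
    refine ⟨act a (π r'), ?_⟩
    show act (act a (π r')) (π t) = act (act a (π t)) (π r)
    rw [← h3, ← h3, ← hmul, ← hmul, hr']) with h | h
  · left
    apply hmem
    apply hf
    intro m
    have : act m (π t) ∈ L := ⟨m, rfl⟩
    rw [h] at this
    simpa using this
  · right
    intro r hr
    apply hmem
    apply hf
    intro m
    have : m ∈ L := h ▸ AddSubgroup.mem_top _
    obtain ⟨m', rfl⟩ := this
    show act (act m' (π t)) (π r) = 0
    rw [← h3, ← hmul, hmem' _ hr]
    have := h2 m' 0 0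
    simpa using this

/-- the coefficient field -/
abbrev F := AlgebraicClosure (ZMod 2)

noncomputable section

/-- operator attached to a polynomial: `v ↦ ∑ aᵢ v^(2^i)` -/
def Φv (v : F) : F[X] →ₗ[F] F := Polynomial.lsum fun i => LinearMap.mulRight F (v ^ (2 ^ i))

lemma Φv_monomial (v : F) (i : ℕ) (a : F) : Φv v (monomial i a) = a * v ^ (2 ^ i) := by
  simp [Φv, Polynomial.lsum]

def Φ : F[X] →+ AddMonoid.End F where
  toFun p :=
    { toFun := fun v => Φv v p
      map_zero' := by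
        induction p using Polynomial.induction_on' with
        | add p q hp hq => rw [map_add, hp, hq, add_zero]
        | monomial n a => rw [Φv_monomial]; simp
      map_add' := fun u v => by
        induction p using Polynomial.induction_on' with
        | add p q hp hq => simp only [map_add, hp, hq]; ring
        | monomial n a => simp only [Φv_monomial, add_pow_char_pow]; ring }
  map_zero' := by
    ext v
    show Φv v 0 = 0
    simp
  map_add' p q := by
    ext v
    show Φv v (p + q) = Φv v p + Φv v q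
    simp

lemma Φ_apply (p : F[X]) (v : F) : Φ p v = Φv v p := rfl

lemma Φ_monomial (n : ℕ) (a v : F) : Φ (monomial n a) v = a * v ^ (2^n) := Φv_monomial v n a

/-- twisted map -/
def tw (n : ℕ) : F[X] →+* F[X] := Polynomial.mapRingHom (iterateFrobenius F 2 n)

lemma tw_monomial (n i : ℕ) (a : F) : tw n (monomial i a) = monomial i (a^(2^n)) := by
  simp [tw, iterateFrobenius_def]

lemma Φ_mul (n : ℕ) (a : F) (q : F[X]) :
    Φ (monomial n a) * Φ q = Φ (monomial n a * tw n q) := by
  ext v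
  show Φ (monomial n a) (Φ q v) = _
  rw [Φ_monomial]
  induction q using Polynomial.induction_on' with
  | add p q hp hq =>
    rw [map_add, map_add, mul_add, map_add]
    show a * (Φ p v + Φ q v) ^ 2 ^ n = Φ ((monomial n) a * (tw n) p) v + Φ ((monomial n) a * (tw n) q) v
    rw [← hp, ← hq, add_pow_char_pow]
    ring
  | monomial m b =>
    rw [tw_monomial, monomial_mul_monomial, Φ_monomial, Φ_monomial, mul_pow, ← pow_mul, pow_add, mul_comm (2^n) (2^m)]
    ring

/-- the ring of additive polynomials -/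
def S : Subring (AddMonoid.End F) where
  carrier := Set.range Φ
  mul_mem' := by
    rintro _ _ ⟨p, rfl⟩ ⟨q, rfl⟩
    induction p using Polynomial.induction_on' with
    | add p p' hp hp' =>
      obtain ⟨x, hx⟩ := hp
      obtain ⟨y, hy⟩ := hp'
      exact ⟨x + y, by rw [map_add, map_add, add_mul, hx, hy]⟩
    | monomial n a => exact ⟨_, (Φ_mul n a q).symm⟩
  one_mem' := ⟨1, by ext v; rw [← monomial_zero_one, Φ_monomial]; simp⟩
  add_mem' := by
    rintro _ _ ⟨p, rfl⟩ ⟨q, rfl⟩
    exact ⟨p + q, map_add _ _ _⟩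
  zero_mem' := ⟨0, map_zero _⟩
  neg_mem' := by
    rintro _ ⟨p, rfl⟩
    exact ⟨-p, map_neg _ _⟩

abbrev R := (S)ᵐᵒᵖ

def Ψ : F[X] →+ R where
  toFun p := MulOpposite.op ⟨Φ p, p, rfl⟩
  map_zero' := by
    apply MulOpposite.unop_injective
    apply Subtype.ext
    simp
  map_add' p q := by
    apply MulOpposite.unop_injective
    apply Subtype.ext
    simp

lemma Ψ_surj : Function.Surjective Ψ := by
  intro x
  obtain ⟨p, hp⟩ := x.unop.2
  refine ⟨p, ?_⟩
  apply MulOpposite.unop_injective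
  apply Subtype.ext
  exact hp

lemma Ψ_mul (n : ℕ) (a : F) (q : F[X]) : Ψ q * Ψ (monomial n a) = Ψ (monomial n a * tw n q) := by
  apply MulOpposite.unop_injective
  apply Subtype.ext
  exact Φ_mul n a q

lemma Ψ_one : Ψ 1 = 1 := by
  apply MulOpposite.unop_injective
  apply Subtype.ext
  show Φ 1 = 1
  ext v; rw [← monomial_zero_one, Φ_monomial]; simp

/-- spreading exponents -/
def sp : F[X] →ₗ[F] F[X] := Polynomial.lsum fun i => Polynomial.monomial (2 ^ i)

lemma sp_monomial (i : ℕ) (a : F) : sp (monomial i a) = monomial (2 ^ i) a := by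
  simp [sp, Polynomial.lsum]

lemma sp_eval (p : F[X]) (v : F) : (sp p).eval v = Φ p v := by
  induction p using Polynomial.induction_on' with
  | add p q hp hq => rw [map_add, map_add, eval_add, hp, hq]; rfl
  | monomial n a => rw [sp_monomial, Φ_monomial, eval_monomial]

lemma sp_coeff (p : F[X]) (j : ℕ) : (sp p).coeff (2 ^ j) = p.coeff j := by
  induction p using Polynomial.induction_on' with
  | add p q hp hq => rw [map_add, coeff_add, coeff_add, hp, hq]
  | monomial n a =>
    rw [sp_monomial, coeff_monomial, coeff_monomial]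
    simp

lemma Φ_inj {p : F[X]} (h : Φ p = 0) : p = 0 := by
  have h1 : sp p = 0 := by
    apply Polynomial.funext
    intro v
    rw [sp_eval, h]
    simp
  ext j
  rw [← sp_coeff, h1]
  simp

lemma Ψ_inj {p : F[X]} (h : Ψ p = 0) : p = 0 := by
  apply Φ_inj
  have := congrArg (fun x : R => (x.unop : AddMonoid.End F)) h
  exact this

lemma exists_b (n : ℕ) (hn : 0 < n) : ∃ b : F, b ^ (2 ^ n) ≠ b := by
  by_contra hc
  push Not at hc
  have : (X : F[X]) ^ (2 ^ n) = X := by
    apply Polynomial.funext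
    intro v
    simp [hc v]
  have h2 := congrArg natDegree this
  rw [natDegree_X_pow, natDegree_X] at h2
  have : 2 ≤ 2 ^ n := by
    calc 2 = 2 ^ 1 := rfl
      _ ≤ 2 ^ n := Nat.pow_le_pow_right (by norm_num) hn
  omega

lemma tw_X (n : ℕ) : tw n X = X := by simp [tw]

lemma tw_surj (n : ℕ) : Function.Surjective (tw n) := by
  apply Polynomial.map_surjective
  intro x
  obtain ⟨z, hz⟩ := IsAlgClosed.exists_pow_nat_eq x (n := 2 ^ n) (by positivity)
  exact ⟨z, by rw [iterateFrobenius_def, hz]⟩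

lemma X_mul_Ψ (q : F[X]) : Ψ X * Ψ q = Ψ (q * X) := by
  induction q using Polynomial.induction_on' with
  | add p q hp hq => rw [map_add, mul_add, hp, hq, add_mul, map_add]
  | monomial n a => rw [Ψ_mul, tw_X]

lemma Ψ_mul_X (q : F[X]) : Ψ q * Ψ X = Ψ (X * tw 1 q) := by
  rw [← monomial_one_one_eq_X, Ψ_mul]

lemma Ψ_mul_C (q : F[X]) (a : F) : Ψ q * Ψ (C a) = Ψ (C a * q) := by
  have : tw 0 q = q := by
    induction q using Polynomial.induction_on' with
    | add p q hp hq => rw [map_add, hp, hq]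
    | monomial n a => rw [tw_monomial]; simp
  rw [← monomial_zero_left, Ψ_mul, this]

lemma C_mul_Ψ (b : F) (p : F[X]) : ∃ p' : F[X], Ψ (C b) * Ψ p = Ψ p' ∧
    ∀ n, p'.coeff n = p.coeff n * b ^ (2 ^ n) := by
  induction p using Polynomial.induction_on' with
  | add p q hp hq =>
    obtain ⟨x, hx, hx'⟩ := hp
    obtain ⟨y, hy, hy'⟩ := hq
    exact ⟨x + y, by rw [map_add, mul_add, hx, hy, map_add], fun n => by
      rw [coeff_add, hx', hy', coeff_add, add_mul]⟩
  | monomial n a =>
    refine ⟨monomial n (a * b ^ (2 ^ n)), ?_, fun m => ?_⟩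
    · rw [Ψ_mul, ← monomial_zero_left, tw_monomial, monomial_mul_monomial, add_zero]
    · rw [coeff_monomial, coeff_monomial]
      split_ifs with h
      · rw [h]
      · simp

lemma key (J : TwoSidedIdeal R) (hreg : ∀ r, Ψ X * r ∈ J → r ∈ J) :
    ∀ n, ∀ p : F[X], p.natDegree ≤ n → p ≠ 0 → Ψ p ∈ J → (1 : R) ∈ J := by
  intro n
  induction n with
  | zero =>
    intro p hp h0 hJ
    obtain ⟨a, rfl⟩ : ∃ a, p = C a := ⟨_, eq_C_of_natDegree_le_zero hp⟩
    have ha : a ≠ 0 := fun h => h0 (by rw [h, C_0])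
    have := J.mul_mem_right _ (Ψ (C a⁻¹)) hJ
    rwa [Ψ_mul_C, ← C_mul, inv_mul_cancel₀ ha, C_1, Ψ_one] at this
  | succ n ih =>
    have step : ∀ p : F[X], p.natDegree ≤ n + 1 → p ≠ 0 → p.coeff 0 = 0 → Ψ p ∈ J → (1 : R) ∈ J := by
      intro p hp h0 hc hJ
      obtain ⟨q, rfl⟩ := X_dvd_iff.2 hc
      have hq : q ≠ 0 := fun h => h0 (by rw [h, mul_zero])
      rw [natDegree_X_mul hq] at hp
      refine ih q (by omega) hq (hreg _ ?_)
      rwa [X_mul_Ψ, mul_comm]
    intro p hp h0 hJ
    by_cases hc : p.coeff 0 = 0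
    · exact step p hp h0 hc hJ
    by_cases hd : p.natDegree = 0
    · exact ih p (by omega) h0 hJ
    obtain ⟨b, hb⟩ := exists_b p.natDegree (Nat.pos_of_ne_zero hd)
    obtain ⟨p', hp', hcoef⟩ := C_mul_Ψ b p
    have hco : ∀ m, (p' - C b * p).coeff m = p.coeff m * (b ^ (2 ^ m) - b) := by
      intro m
      rw [coeff_sub, hcoef, coeff_C_mul]
      ring
    refine step (p' - C b * p) ?_ ?_ ?_ ?_
    · rw [natDegree_le_iff_coeff_eq_zero]
      intro N hN
      rw [hco, coeff_eq_zero_of_natDegree_lt (by omega), zero_mul]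
    · intro h
      have := hco p.natDegree
      rw [h, coeff_zero] at this
      have h1 : p.coeff p.natDegree ≠ 0 := by
        rw [coeff_natDegree]
        exact leadingCoeff_ne_zero.2 h0
      rcases mul_eq_zero.1 this.symm with h2 | h2
      · exact h1 h2
      · exact hb (sub_eq_zero.1 h2)
    · rw [hco]
      simp
    · rw [map_sub, ← hp', ← Ψ_mul_C]
      exact J.sub_mem (J.mul_mem_left _ _ hJ) (J.mul_mem_right _ _ hJ)

lemma left_stable (u w : F[X]) (n : ℕ) : ∃ z, Ψ u * Ψ (w * X ^ n) = Ψ (z * X ^ n) := by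
  induction w using Polynomial.induction_on' with
  | add p q hp hq =>
    obtain ⟨x, hx⟩ := hp
    obtain ⟨y, hy⟩ := hq
    exact ⟨x + y, by rw [add_mul, map_add, mul_add, hx, hy, add_mul, map_add]⟩
  | monomial m a =>
    refine ⟨monomial m a * tw (m + n) u, ?_⟩
    rw [monomial_mul_X_pow, Ψ_mul, ← monomial_mul_X_pow]
    congr 1
    ring

lemma right_stable (u w : F[X]) (n : ℕ) : ∃ z, Ψ (w * X ^ n) * Ψ u = Ψ (z * X ^ n) := by
  induction u using Polynomial.induction_on' with
  | add p q hp hq =>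
    obtain ⟨x, hx⟩ := hp
    obtain ⟨y, hy⟩ := hq
    exact ⟨x + y, by rw [map_add, mul_add, hx, hy, add_mul, map_add]⟩
  | monomial m a =>
    refine ⟨monomial m a * tw m w, ?_⟩
    rw [Ψ_mul, map_mul (tw m), map_pow (tw m), tw_X, mul_assoc]

lemma not_si (J : TwoSidedIdeal R) (hJ : ∀ x ∈ J, x = 0) :
    sInf {I : TwoSidedIdeal J.ringCon.Quotient | I ≠ ⊥} = ⊥ := by
  let π : R → J.ringCon.Quotient := fun r => (r : J.ringCon.Quotient)
  have hπ : Function.Surjective π := Quotient.mk_surjective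
  have hmul : ∀ a b, π (a * b) = π a * π b := fun a b => rfl
  have hadd : ∀ a b, π (a + b) = π a + π b := fun a b => rfl
  have hneg : ∀ a, π (-a) = - π a := fun a => rfl
  have hinj : ∀ a b, π a = π b → a = b := fun a b h => by
    have h1 : J.ringCon a b := (RingCon.eq _).1 h
    rw [TwoSidedIdeal.rel_iff] at h1
    exact sub_eq_zero.1 (hJ _ h1)
  rw [eq_bot_iff]
  intro q hq
  obtain ⟨x, rfl⟩ := hπ q
  obtain ⟨p, rfl⟩ := Ψ_surj x
  rw [TwoSidedIdeal.mem_sInf] at hq
  by_cases hp : p = 0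
  · rw [hp, map_zero]
    exact TwoSidedIdeal.zero_mem _
  exfalso
  set n := p.natDegree + 1 with hn
  let T : TwoSidedIdeal J.ringCon.Quotient := TwoSidedIdeal.mk' {y | ∃ w : F[X], y = π (Ψ (w * X ^ n))}
    ⟨0, by rw [zero_mul, map_zero]; rfl⟩
    (by
      rintro _ _ ⟨a, rfl⟩ ⟨b, rfl⟩
      exact ⟨a + b, by rw [add_mul, map_add, hadd]⟩)
    (by
      rintro _ ⟨a, rfl⟩
      exact ⟨-a, by rw [neg_mul, map_neg, hneg]⟩)
    (by
      rintro y _ ⟨a, rfl⟩
      obtain ⟨y, rfl⟩ := hπ y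
      obtain ⟨u, rfl⟩ := Ψ_surj y
      obtain ⟨z, hz⟩ := left_stable u a n
      exact ⟨z, by rw [← hmul, hz]⟩)
    (by
      rintro _ y ⟨a, rfl⟩
      obtain ⟨y, rfl⟩ := hπ y
      obtain ⟨u, rfl⟩ := Ψ_surj y
      obtain ⟨z, hz⟩ := right_stable u a n
      exact ⟨z, by rw [← hmul, hz]⟩)
  have hmemT : ∀ y, y ∈ T ↔ ∃ w : F[X], y = π (Ψ (w * X ^ n)) := fun y => by
    rw [TwoSidedIdeal.mem_mk']; rfl
  have hT : T ≠ ⊥ := by
    intro h
    have h1 : π (Ψ (X ^ n)) ∈ T := (hmemT _).2 ⟨1, by rw [one_mul]⟩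
    rw [h, TwoSidedIdeal.mem_bot] at h1
    have h2 := Ψ_inj (hinj _ 0 h1)
    exact (pow_ne_zero n X_ne_zero) h2
  have h3 := hq T hT
  rw [hmemT] at h3
  obtain ⟨w, hw⟩ := h3
  have h4 := hinj _ _ hw
  rw [← sub_eq_zero, ← map_sub] at h4
  have h5 := sub_eq_zero.1 (Ψ_inj h4)
  have hw0 : w ≠ 0 := fun h => hp (by rw [h5, h, zero_mul])
  have h6 := congrArg natDegree h5
  rw [natDegree_mul hw0 (pow_ne_zero n X_ne_zero), natDegree_X_pow] at h6
  omega

lemma primitive_R : RightPrimitive R := by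
  refine ⟨F, inferInstance, fun v r => (r.unop : AddMonoid.End F) v, ?_, ?_, ?_, ?_, ?_, ?_⟩
  · intro m n r
    exact map_add _ _ _
  · intro m r s
    rfl
  · intro m r s
    rfl
  · exact ⟨1, 1, one_ne_zero⟩
  · intro N hN
    by_cases h : N = ⊥
    · exact Or.inl h
    · right
      obtain ⟨⟨v, hv⟩, hv1⟩ := AddSubgroup.ne_bot_iff_exists_ne_zero.1 h
      have hv0 : v ≠ 0 := fun h => hv1 (Subtype.ext h)
      rw [eq_top_iff]
      intro w _
      have := hN v hv (Ψ (C (w * v⁻¹)))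
      have e : ((Ψ (C (w * v⁻¹))).unop : AddMonoid.End F) v = w := by
        show Φ (C (w * v⁻¹)) v = w
        rw [← monomial_zero_left, Φ_monomial, pow_zero, pow_one]
        field_simp
      exact e ▸ this
  · intro r hr
    apply MulOpposite.unop_injective
    apply Subtype.ext
    ext v
    exact hr v

theorem main : ∃ (R : Type) (_ : Ring R), RightPrimitive R ∧
    ∀ 𝒥 : Set (TwoSidedIdeal R), sInf 𝒥 = ⊥ →
      ∃ J ∈ 𝒥, ¬ (RightPrimitive J.ringCon.Quotient ∧ SubdirectlyIndecomposable J.ringCon.Quotient) := by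
  refine ⟨R, inferInstance, primitive_R, ?_⟩
  intro 𝒥 h𝒥
  by_contra hc
  push Not at hc
  have ht : ∀ r : R, ∃ r', Ψ X * r = r' * Ψ X := by
    intro r
    obtain ⟨q, rfl⟩ := Ψ_surj r
    obtain ⟨q', rfl⟩ := tw_surj 1 q
    exact ⟨Ψ q', by rw [X_mul_Ψ, Ψ_mul_X, mul_comm]⟩
  have hall : Ψ X ∈ sInf 𝒥 := by
    rw [TwoSidedIdeal.mem_sInf]
    intro J hJ
    obtain ⟨hprim, hnt, hsi⟩ := hc J hJ
    rcases regular_of_primitive (Ψ X) ht J hprim with h | h
    · exact h
    · exfalso
      by_cases hb : ∀ x ∈ J, x = 0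
      · exact hsi (not_si J hb)
      · push Not at hb
        obtain ⟨x, hx, hx0⟩ := hb
        obtain ⟨p, rfl⟩ := Ψ_surj x
        have hp : p ≠ 0 := fun h => hx0 (by rw [h, map_zero])
        have h1 := key J h _ p le_rfl hp hx
        obtain ⟨a, b, hab⟩ := hnt
        apply hab
        obtain ⟨a, rfl⟩ := Quotient.mk_surjective a
        obtain ⟨b, rfl⟩ := Quotient.mk_surjective b
        apply (RingCon.eq _).2
        rw [TwoSidedIdeal.rel_iff]
        have := J.mul_mem_left (a - b) 1 h1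
        rwa [mul_one] at this
  rw [h𝒥, TwoSidedIdeal.mem_bot] at hall
  exact X_ne_zero (Ψ_inj hall)

end

end Pool.Agent.H4.Prim
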