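import Mathlib

set_option autoImplicit false

namespace Pool.Agent.H4.RD

open MulOpposite

/-- the bimodule `D` with left action twisted by an endomorphism -/
def Tw {D : Type} [DivisionRing D] (_σ : D →+* D) : Type := D

section

variable {D : Type} [DivisionRing D] (σ : D →+* D)

instance : AddCommGroup (Tw σ) := inferInstanceAs (AddCommGroup D)

instance : Module D (Tw σ) := Module.compHom D σ

instance : Module Dᵐᵒᵖ (Tw σ) := inferInstanceAs (Module Dᵐᵒᵖ D)

def toD (m : Tw σ) : D := m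
def ofD (m : D) : Tw σ := m

theorem toD_smul (a : D) (m : Tw σ) : toD σ (a • m) = σ a * toD σ m := rfl
theorem toD_op_smul (a : D) (m : Tw σ) : toD σ (op a • m) = toD σ m * a := rfl
theorem toD_add (a b : Tw σ) : toD σ (a + b) = toD σ a + toD σ b := rfl
theorem toD_ofD (a : D) : toD σ (ofD σ a) = a := rfl
theorem toD_zero : toD σ 0 = 0 := rfl
theorem toD_inj {a b : Tw σ} (h : toD σ a = toD σ b) : a = b := h

instance : SMulCommClass D Dᵐᵒᵖ (Tw σ) where
  smul_comm a b m := by
    induction b using MulOpposite.rec' with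
    | _ b => exact (mul_assoc (σ a) (toD σ m) b).symm

abbrev AA : Type := TrivSqZeroExt D (Tw σ)

def mkA (a m : D) : AA σ := TrivSqZeroExt.inl a + TrivSqZeroExt.inr (ofD σ m)

def p (x : AA σ) : D := x.fst
def q (x : AA σ) : D := toD σ x.snd

theorem p_mk (a m : D) : p σ (mkA σ a m) = a := by simp [p, mkA]
theorem q_mk (a m : D) : q σ (mkA σ a m) = m := by simp [q, mkA, toD_ofD]
theorem p_mul (x y : AA σ) : p σ (x * y) = p σ x * p σ y := rfl
theorem q_mul (x y : AA σ) : q σ (x * y) = σ (p σ x) * q σ y + q σ x * p σ y := rfl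
theorem p_add (x y : AA σ) : p σ (x + y) = p σ x + p σ y := rfl
theorem q_add (x y : AA σ) : q σ (x + y) = q σ x + q σ y := rfl
theorem p_zero : p σ (0 : AA σ) = 0 := rfl
theorem q_zero : q σ (0 : AA σ) = 0 := rfl
theorem ext' {x y : AA σ} (h1 : p σ x = p σ y) (h2 : q σ x = q σ y) : x = y :=
  TrivSqZeroExt.ext h1 h2

theorem right_dist (X Y Z : Submodule (AA σ)ᵐᵒᵖ (AA σ)) : X ⊓ (Y ⊔ Z) = (X ⊓ Y) ⊔ (X ⊓ Z) := by
  have hchain : ∀ X Y : Submodule (AA σ)ᵐᵒᵖ (AA σ), X ≤ Y ∨ Y ≤ X := by
    have h1 : ∀ X : Submodule (AA σ)ᵐᵒᵖ (AA σ), (∃ x ∈ X, p σ x ≠ 0) → X = ⊤ := by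
      rintro X ⟨x, hx, hx0⟩
      rw [Submodule.eq_top_iff']
      intro y
      have h2 : σ (p σ x) ≠ 0 := by
        rw [Ne, map_eq_zero]
        exact hx0
      have : x * mkA σ ((p σ x)⁻¹ * p σ y)
          ((σ (p σ x))⁻¹ * (q σ y - q σ x * ((p σ x)⁻¹ * p σ y))) = y := by
        apply ext'
        · rw [p_mul, p_mk, mul_inv_cancel_left₀ hx0]
        · rw [q_mul, p_mk, q_mk, mul_inv_cancel_left₀ h2, sub_add_cancel]
      rw [← this]
      exact X.smul_mem (op _) hx
    have h2 : ∀ X Y : Submodule (AA σ)ᵐᵒᵖ (AA σ), (∀ x ∈ X, p σ x = 0) → (∃ y ∈ Y, y ≠ 0) →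
        X ≤ Y := by
      rintro X Y hX ⟨y, hy, hy0⟩ x hx
      by_cases hy1 : p σ y = 0
      · have hy2 : q σ y ≠ 0 := by
          intro h
          exact hy0 (ext' σ hy1 h)
        have : y * mkA σ ((q σ y)⁻¹ * q σ x) 0 = x := by
          apply ext'
          · rw [p_mul, hy1, zero_mul, hX x hx]
          · rw [q_mul, p_mk, q_mk, hy1, map_zero, zero_mul, zero_add, mul_inv_cancel_left₀ hy2]
        rw [← this]
        exact Y.smul_mem (op _) hy
      · rw [h1 Y ⟨y, hy, hy1⟩]
        trivial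
    intro X Y
    by_cases hX : ∃ x ∈ X, p σ x ≠ 0
    · right
      rw [h1 X hX]
      exact le_top
    push Not at hX
    by_cases hY : ∃ y ∈ Y, y ≠ 0
    · left
      exact h2 X Y hX hY
    · right
      push Not at hY
      intro y hy
      rw [hY y hy]
      exact X.zero_mem
  apply le_antisymm
  · rcases hchain Y Z with h | h
    · rw [sup_eq_right.mpr h]
      exact le_sup_right
    · rw [sup_eq_left.mpr h]
      exact le_sup_left
  · exact sup_le (inf_le_inf_left _ le_sup_left) (inf_le_inf_left _ le_sup_right)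

theorem left_not_dist (d : D) (hd : d ∉ Set.range σ) :
    ¬ (∀ X Y Z : Submodule (AA σ) (AA σ), X ⊓ (Y ⊔ Z) = (X ⊓ Y) ⊔ (X ⊓ Z)) := by
  intro h
  have hmem : ∀ (m : D) (x : AA σ), x ∈ Submodule.span (AA σ) {mkA σ 0 m} ↔
      ∃ a, x = mkA σ 0 (σ a * m) := by
    intro m x
    rw [Submodule.mem_span_singleton]
    constructor
    · rintro ⟨y, rfl⟩
      refine ⟨p σ y, ?_⟩
      apply ext'
      · rw [smul_eq_mul, p_mul, p_mk, p_mk, mul_zero]
      · rw [smul_eq_mul, q_mul, p_mk, q_mk, q_mk, mul_zero, add_zero]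
    · rintro ⟨a, rfl⟩
      refine ⟨mkA σ a 0, ?_⟩
      apply ext'
      · rw [smul_eq_mul, p_mul, p_mk, p_mk, p_mk, mul_zero]
      · rw [smul_eq_mul, q_mul, p_mk, p_mk, q_mk, q_mk, q_mk, mul_zero, add_zero]
  have h1 := h (Submodule.span (AA σ) {mkA σ 0 (1 + d)}) (Submodule.span (AA σ) {mkA σ 0 1})
    (Submodule.span (AA σ) {mkA σ 0 d})
  have h2 : mkA σ 0 (1 + d) ∈ Submodule.span (AA σ) {mkA σ 0 (1 + d)} ⊓
      (Submodule.span (AA σ) {mkA σ 0 1} ⊔ Submodule.span (AA σ) {mkA σ 0 d}) := by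
    refine ⟨Submodule.mem_span_singleton_self _, ?_⟩
    rw [SetLike.mem_coe, Submodule.mem_sup]
    refine ⟨mkA σ 0 1, Submodule.mem_span_singleton_self _, mkA σ 0 d,
      Submodule.mem_span_singleton_self _, ?_⟩
    apply ext'
    · rw [p_add, p_mk, p_mk, p_mk, add_zero]
    · rw [q_add, q_mk, q_mk, q_mk]
  rw [h1, Submodule.mem_sup] at h2
  obtain ⟨y, ⟨hy1, hy2⟩, z, ⟨hz1, hz2⟩, hyz⟩ := h2
  rw [SetLike.mem_coe, hmem] at hy1 hy2 hz1 hz2
  obtain ⟨a, ha⟩ := hy1
  obtain ⟨b, hb⟩ := hy2
  obtain ⟨c, hc⟩ := hz1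
  obtain ⟨e, he⟩ := hz2
  have hab : σ a * (1 + d) = σ b := by
    have := congrArg (q σ) (ha.symm.trans hb)
    rwa [q_mk, q_mk, mul_one] at this
  have hce : σ c * (1 + d) = σ e * d := by
    have := congrArg (q σ) (hc.symm.trans he)
    rwa [q_mk, q_mk] at this
  have ha0 : a = 0 := by
    by_contra hne
    apply hd
    refine ⟨a⁻¹ * b - 1, ?_⟩
    rw [map_sub, map_mul, map_inv₀, map_one, ← hab, inv_mul_cancel_left₀, add_sub_cancel_left]
    rw [Ne, map_eq_zero]
    exact hne
  have hc0 : c = 0 := by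
    by_contra hne
    have h3 : σ (e - c) * d = σ c := by
      rw [map_sub, sub_mul, ← hce, mul_add, mul_one, add_sub_cancel_right]
    have hec : σ (e - c) ≠ 0 := by
      intro h4
      rw [h4, zero_mul] at h3
      exact hne ((map_eq_zero σ).mp h3.symm)
    apply hd
    refine ⟨(e - c)⁻¹ * c, ?_⟩
    rw [map_mul, map_inv₀, ← h3, inv_mul_cancel_left₀ hec]
  have h5 := congrArg (q σ) hyz
  rw [q_add, ha, hc, q_mk, q_mk, q_mk, ha0, hc0, map_zero, zero_mul, add_zero] at h5
  apply hd
  refine ⟨-1, ?_⟩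
  rw [map_neg, map_one]
  exact neg_eq_of_add_eq_zero_right h5.symm

theorem integral (hσc : ∀ z ∈ Subring.center D, σ z = z)
    (halg : ∀ y : D, IsIntegral (Subring.center D) y) :
    Algebra.IsIntegral (Subring.center (AA σ)) (AA σ) := by
  -- embedding of the center
  let j : Subring.center D →+* Subring.center (AA σ) :=
    { toFun := fun z => ⟨mkA σ z 0, by
        rw [Subring.mem_center_iff]
        intro g
        have hz := Subring.mem_center_iff.mp z.2
        apply ext'
        · rw [p_mul, p_mul, p_mk, hz]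
        · rw [q_mul, q_mul, p_mk, q_mk, hσc _ z.2, mul_zero, zero_add, zero_mul, add_zero, hz]⟩
      map_one' := by
        apply Subtype.ext
        apply ext'
        · exact p_mk σ _ _
        · exact q_mk σ _ _
      map_mul' := fun a b => by
        apply Subtype.ext
        apply ext'
        · exact (p_mk σ _ _).trans (by
            change (a : D) * b = p σ (mkA σ a 0 * mkA σ b 0)
            rw [p_mul, p_mk, p_mk])
        · exact (q_mk σ _ _).trans (by
            change 0 = q σ (mkA σ a 0 * mkA σ b 0)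
            rw [q_mul, p_mk, p_mk, q_mk, q_mk, mul_zero, zero_mul, add_zero])
      map_zero' := by
        apply Subtype.ext
        apply ext'
        · exact p_mk σ _ _
        · exact q_mk σ _ _
      map_add' := fun a b => by
        apply Subtype.ext
        apply ext'
        · exact (p_mk σ _ _).trans (by
            change (a : D) + b = p σ (mkA σ a 0 + mkA σ b 0)
            rw [p_add, p_mk, p_mk])
        · exact (q_mk σ _ _).trans (by
            change 0 = q σ (mkA σ a 0 + mkA σ b 0)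
            rw [q_add, q_mk, q_mk, add_zero]) }
  have hj : ∀ z : Subring.center D, ((j z : Subring.center (AA σ)) : AA σ) = mkA σ z 0 := fun z => rfl
  constructor
  intro x
  obtain ⟨P, hP, hPx⟩ := halg (p σ x)
  have hp : ∀ Q : Polynomial (Subring.center D),
      p σ (Polynomial.aeval x (Q.map j)) = Polynomial.aeval (p σ x) Q := by
    intro Q
    induction Q using Polynomial.induction_on' with
    | add a b ha hb => rw [Polynomial.map_add, map_add, p_add, ha, hb, map_add]
    | monomial n a =>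
      rw [Polynomial.map_monomial, Polynomial.aeval_monomial, Polynomial.aeval_monomial, p_mul]
      have h1 : p σ (algebraMap (Subring.center (AA σ)) (AA σ) (j a)) =
          algebraMap (Subring.center D) D a := p_mk σ _ _
      have h2 : p σ (x ^ n) = p σ x ^ n := by
        induction n with
        | zero => rw [pow_zero, pow_zero]; rfl
        | succ n ih => rw [pow_succ, pow_succ, p_mul, ih]
      rw [h1, h2]
  refine ⟨(P.map j) ^ 2, (hP.map j).pow 2, ?_⟩
  rw [← Polynomial.aeval_def, map_pow, pow_two]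
  have h0 : p σ (Polynomial.aeval x (P.map j)) = 0 := by
    rw [hp, Polynomial.aeval_def]
    exact hPx
  apply ext'
  · rw [p_mul, h0, mul_zero, p_zero]
  · rw [q_mul, h0, map_zero, zero_mul, mul_zero, add_zero, q_zero]

end

end Pool.Agent.H4.RD
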