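import Mathlib

set_option autoImplicit false

namespace Pool.Agent.H4.RD

section

variable {D : Type} [DivisionRing D] (c : ℕ → D)

def V : ℕ → D
  | 0 => 1
  | n + 1 => V n * (1 + c (n + 1))

theorem exists_sigma (hv : ∀ n, 1 + c n ≠ 0) (hev : ∀ y : D, ∃ N, ∀ m, N < m → y * c m = c m * y)
    (h2 : (2 : D) ≠ 0) (hc : ∀ n, c n ≠ 0) (hanti : ∀ n, c n * c (n + 1) = - (c (n + 1) * c n))
    (hcomm : ∀ i j, i + 2 ≤ j → c i * c j = c j * c i) :
    ∃ σ : D →+* D, (∀ z ∈ Subring.center D, σ z = z) ∧ c 0 ∉ Set.range σ := by
  classical
  have hV0 : ∀ n, V c n ≠ 0 := by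
    intro n
    induction n with
    | zero => exact one_ne_zero
    | succ n ih => exact mul_ne_zero ih (hv _)
  choose N hN using hev
  have hstab : ∀ (y : D) (n : ℕ), (∀ m, n < m → y * c m = c m * y) → ∀ k,
      V c (n + k) * y * (V c (n + k))⁻¹ = V c n * y * (V c n)⁻¹ := by
    intro y n hy k
    induction k with
    | zero => rfl
    | succ k ih =>
      rw [← ih]
      have h1 := hy (n + k + 1) (by omega)
      have h3 : (1 + c (n + k + 1)) * y = y * (1 + c (n + k + 1)) := by
        rw [add_mul, mul_add, one_mul, mul_one, h1]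
      change (V c (n + k) * (1 + c (n + k + 1))) * y * (V c (n + k) * (1 + c (n + k + 1)))⁻¹ = _
      rw [mul_inv_rev, mul_assoc (V c (n + k)), h3]
      rw [← mul_assoc (V c (n+k)) y, mul_assoc _ (1 + c (n + k + 1)), ← mul_assoc (1 + c (n + k + 1)),
        mul_inv_cancel₀ (hv _), one_mul]
  have hstab2 : ∀ (y : D) (n k : ℕ), (∀ m, n < m → y * c m = c m * y) →
      (∀ m, k < m → y * c m = c m * y) →
      V c n * y * (V c n)⁻¹ = V c k * y * (V c k)⁻¹ := by
    intro y n k hn hk
    rcases le_total n k with h | h
    · obtain ⟨d, rfl⟩ := Nat.exists_eq_add_of_le h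
      exact (hstab y n hn d).symm
    · obtain ⟨d, rfl⟩ := Nat.exists_eq_add_of_le h
      exact (hstab y k hk d)
  let s : D → D := fun y => V c (N y) * y * (V c (N y))⁻¹
  have hs : ∀ y n, (∀ m, n < m → y * c m = c m * y) → s y = V c n * y * (V c n)⁻¹ :=
    fun y n hn => hstab2 y _ _ (hN y) hn
  let σ : D →+* D :=
    { toFun := s
      map_one' := by
        rw [hs 1 0 (fun m _ => by rw [one_mul, mul_one])]
        simp [V]
      map_mul' := fun x y => by
        have hx : ∀ m, max (N x) (N y) < m → x * c m = c m * x := fun m hm =>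
          hN x m (lt_of_le_of_lt (le_max_left _ _) hm)
        have hy : ∀ m, max (N x) (N y) < m → y * c m = c m * y := fun m hm =>
          hN y m (lt_of_le_of_lt (le_max_right _ _) hm)
        rw [hs x _ hx, hs y _ hy, hs (x * y) (max (N x) (N y)) (fun m hm => by
          rw [mul_assoc, hy m hm, ← mul_assoc, hx m hm, mul_assoc])]
        set n := max (N x) (N y)
        rw [mul_assoc (V c n * x), ← mul_assoc (V c n)⁻¹, ← mul_assoc (V c n)⁻¹,
          inv_mul_cancel₀ (hV0 n), one_mul]
        simp only [mul_assoc]
      map_zero' := by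
        rw [hs 0 0 (fun m _ => by rw [zero_mul, mul_zero])]
        simp
      map_add' := fun x y => by
        have hx : ∀ m, max (N x) (N y) < m → x * c m = c m * x := fun m hm =>
          hN x m (lt_of_le_of_lt (le_max_left _ _) hm)
        have hy : ∀ m, max (N x) (N y) < m → y * c m = c m * y := fun m hm =>
          hN y m (lt_of_le_of_lt (le_max_right _ _) hm)
        rw [hs x _ hx, hs y _ hy, hs (x + y) (max (N x) (N y)) (fun m hm => by
          rw [add_mul, mul_add, hx m hm, hy m hm])]
        rw [mul_add, add_mul] }
  refine ⟨σ, ?_, ?_⟩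
  · intro z hz
    have hz' := Subring.mem_center_iff.mp hz
    change s z = z
    rw [hs z 0 (fun m _ => (hz' (c m)).symm)]
    simp [V]
  · rintro ⟨y, hy⟩
    change s y = c 0 at hy
    -- V n involves only c 1 .. c n
    have hVc : ∀ n j, n + 2 ≤ j → V c n * c j = c j * V c n := by
      intro n
      induction n with
      | zero => intro j _; simp [V]
      | succ n ih =>
        intro j hj
        change V c n * (1 + c (n + 1)) * c j = c j * (V c n * (1 + c (n + 1)))
        have h3 : (1 + c (n + 1)) * c j = c j * (1 + c (n + 1)) := by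
          rw [add_mul, mul_add, one_mul, mul_one, hcomm (n + 1) j hj]
        rw [mul_assoc, h3, ← mul_assoc, ih j (by omega), mul_assoc]
    have hdesc : ∀ n, ((∀ m, n < m → y * c m = c m * y) ∧ c 0 * V c n = V c n * y) →
        ((∀ m, 0 < m → y * c m = c m * y) ∧ c 0 * V c 0 = V c 0 * y) := by
      intro n
      induction n with
      | zero => exact id
      | succ n ih =>
        rintro ⟨h3, h4⟩
        apply ih
        have h4' : c 0 * (V c n * (1 + c (n + 1))) = V c n * (1 + c (n + 1)) * y := h4
        -- conjugate by c (n+2)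
        have h5 : c 0 * (V c n * (1 - c (n + 1))) = V c n * (1 - c (n + 1)) * y := by
          have e1 : c 0 * c (n + 2) = c (n + 2) * c 0 := hcomm 0 (n + 2) (by omega)
          have e2 : V c n * c (n + 2) = c (n + 2) * V c n := hVc n (n + 2) le_rfl
          have e3 : (1 + c (n + 1)) * c (n + 2) = c (n + 2) * (1 - c (n + 1)) := by
            rw [add_mul, hanti (n + 1), one_mul, mul_sub, mul_one, sub_eq_add_neg]
          have e4 : y * c (n + 2) = c (n + 2) * y := h3 (n + 2) (by omega)
          have h6 : c (n + 2) * (c 0 * (V c n * (1 - c (n + 1)))) =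
              c (n + 2) * (V c n * (1 - c (n + 1)) * y) := by
            calc c (n + 2) * (c 0 * (V c n * (1 - c (n + 1))))
                = (c 0 * (V c n * (1 + c (n + 1)))) * c (n + 2) := by
                  rw [← mul_assoc, ← e1, mul_assoc, ← mul_assoc (c (n+2)) (V c n), ← e2,
                    mul_assoc (V c n), ← e3]
                  simp only [mul_assoc]
              _ = (V c n * (1 + c (n + 1)) * y) * c (n + 2) := by rw [h4']
              _ = c (n + 2) * (V c n * (1 - c (n + 1)) * y) := by
                  rw [mul_assoc _ y, e4, ← mul_assoc _ (c (n+2)), mul_assoc (V c n), e3,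
                    ← mul_assoc (V c n), e2]
                  simp only [mul_assoc]
          exact mul_left_cancel₀ (hc _) h6
        have h7 : c 0 * V c n = V c n * y := by
          have h8 : 2 * (c 0 * V c n) = 2 * (V c n * y) := by
            have := congrArg₂ (· + ·) h4' h5
            simp only [mul_add, mul_sub, add_mul, sub_mul, mul_one] at this
            rw [two_mul, two_mul]
            have l : c 0 * V c n + c 0 * V c n = c 0 * V c n + c 0 * (V c n * c (n + 1)) +
                (c 0 * V c n - c 0 * (V c n * c (n + 1))) := by abel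
            rw [l, this]
            abel
          exact mul_left_cancel₀ h2 h8
        refine ⟨?_, h7⟩
        intro m hm
        rcases Nat.lt_or_ge (n + 1) m with h | h
        · exact h3 m h
        · have hm' : m = n + 1 := by omega
          subst hm'
          have h9 : V c n * (y * c (n + 1)) = V c n * (c (n + 1) * y) := by
            have : c 0 * (V c n * c (n + 1)) = V c n * c (n + 1) * y := by
              have h10 := h4'
              rw [mul_add, mul_add, mul_one, h7, add_mul] at h10
              exact add_left_cancel h10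
            rw [← mul_assoc, ← h7, mul_assoc, this, mul_assoc]
          exact mul_left_cancel₀ (hV0 n) h9
    have hfin := hdesc (N y) ⟨hN y, by
      rw [← hy]
      change V c (N y) * y * (V c (N y))⁻¹ * V c (N y) = _
      rw [mul_assoc, inv_mul_cancel₀ (hV0 _), mul_one]⟩
    obtain ⟨h3, h4⟩ := hfin
    have h5 : c 0 = y := by simpa [V] using h4
    have h6 := h3 1 one_pos
    rw [← h5] at h6
    have h7 := hanti 0
    rw [zero_add, h6] at h7
    have h8 : 2 * (c 1 * c 0) = 0 := by
      rw [two_mul]
      nth_rw 1 [h7]
      exact neg_add_cancel _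
    rcases mul_eq_zero.mp h8 with h | h
    · exact h2 h
    · rcases mul_eq_zero.mp h with h | h
      · exact hc _ h
      · exact hc _ h

end

end Pool.Agent.H4.RD
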