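import Mathlib

set_option autoImplicit false

namespace Pool.Agent.H4.RD

noncomputable section

open Finsupp

/-- exponent pairing -/
def bp (α β : ℕ →₀ ℕ) : ℕ := β.sum fun n k => α (n + 1) * k

theorem bp_add_left (α α' β : ℕ →₀ ℕ) : bp (α + α') β = bp α β + bp α' β := by
  simp [bp, Finsupp.sum, Finset.sum_add_distrib, add_mul]

theorem bp_add_right (α β β' : ℕ →₀ ℕ) : bp α (β + β') = bp α β + bp α β' := by
  unfold bp
  rw [Finsupp.sum_add_index']
  · intro n
    rw [mul_zero]
  · intro n a b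
    rw [mul_add]

theorem bp_zero_left (β : ℕ →₀ ℕ) : bp 0 β = 0 := by
  simp [bp]

theorem bp_zero_right (α : ℕ →₀ ℕ) : bp α 0 = 0 := by
  simp [bp]

def sgn (α β : ℕ →₀ ℕ) : ℚ := (-1) ^ bp α β

theorem sgn_ne (α β : ℕ →₀ ℕ) : sgn α β ≠ 0 := pow_ne_zero _ (by norm_num)

/-- The twisted monoid ring. -/
def TR : Type := (ℕ →₀ ℕ) →₀ ℚ

instance : AddCommGroup TR := inferInstanceAs (AddCommGroup ((ℕ →₀ ℕ) →₀ ℚ))
instance : Module ℚ TR := inferInstanceAs (Module ℚ ((ℕ →₀ ℕ) →₀ ℚ))

def mon (α : ℕ →₀ ℕ) (x : ℚ) : TR := (Finsupp.single α x : (ℕ →₀ ℕ) →₀ ℚ)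

def cf (f : TR) (α : ℕ →₀ ℕ) : ℚ := (show (ℕ →₀ ℕ) →₀ ℚ from f) α

def sp (f : TR) : Finset (ℕ →₀ ℕ) := (show (ℕ →₀ ℕ) →₀ ℚ from f).support

theorem mem_sp {f : TR} {α : ℕ →₀ ℕ} : α ∈ sp f ↔ cf f α ≠ 0 := Finsupp.mem_support_iff

theorem cf_add (f g : TR) (α : ℕ →₀ ℕ) : cf (f + g) α = cf f α + cf g α := rfl
theorem cf_zero (α : ℕ →₀ ℕ) : cf 0 α = 0 := rfl
theorem cf_mon (α β : ℕ →₀ ℕ) (x : ℚ) : cf (mon α x) β = if α = β then x else 0 :=
  Finsupp.single_apply
theorem smul_mon (α : ℕ →₀ ℕ) (x y : ℚ) : x • mon α y = mon α (x * y) :=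
  Finsupp.smul_single x α y

def rowL (α : ℕ →₀ ℕ) : TR →ₗ[ℚ] TR :=
  (Finsupp.linearCombination ℚ (fun β : ℕ →₀ ℕ => (mon (α + β) (sgn α β) : TR)) :
      ((ℕ →₀ ℕ) →₀ ℚ) →ₗ[ℚ] TR)

def mulL : TR →ₗ[ℚ] TR →ₗ[ℚ] TR :=
  (Finsupp.linearCombination ℚ rowL : ((ℕ →₀ ℕ) →₀ ℚ) →ₗ[ℚ] (TR →ₗ[ℚ] TR))

theorem rowL_mon (α β : ℕ →₀ ℕ) (y : ℚ) : rowL α (mon β y) = y • mon (α + β) (sgn α β) :=
  Finsupp.linearCombination_single ℚ y β

theorem mulL_mon (α : ℕ →₀ ℕ) (x : ℚ) : mulL (mon α x) = x • rowL α :=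
  Finsupp.linearCombination_single ℚ x α

theorem rowL_eq (α : ℕ →₀ ℕ) (g : TR) :
    rowL α g = ∑ β ∈ sp g, cf g β • mon (α + β) (sgn α β) :=
  Finsupp.linearCombination_apply ℚ (show (ℕ →₀ ℕ) →₀ ℚ from g)

theorem mulL_eq (f : TR) : mulL f = ∑ α ∈ sp f, cf f α • rowL α :=
  Finsupp.linearCombination_apply ℚ (show (ℕ →₀ ℕ) →₀ ℚ from f)

instance : Mul TR := ⟨fun f g => mulL f g⟩
instance : One TR := ⟨mon 0 1⟩

theorem mul_def' (f g : TR) : f * g = mulL f g := rfl

theorem mon_mul (α β : ℕ →₀ ℕ) (x y : ℚ) :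
    mon α x * mon β y = mon (α + β) (x * y * sgn α β) := by
  rw [mul_def', mulL_mon, LinearMap.smul_apply, rowL_mon, smul_mon, smul_mon, mul_assoc]

theorem tr_ind {P : TR → Prop} (f : TR) (h0 : P 0) (ha : ∀ f g, P f → P g → P (f + g))
    (hs : ∀ α x, P (mon α x)) : P f :=
  Finsupp.induction_linear (motive := P) f h0 ha hs

theorem tr_mul_assoc (f g h : TR) : f * g * h = f * (g * h) := by
  induction f using tr_ind with
  | h0 => simp only [mul_def', map_zero, LinearMap.zero_apply]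
  | ha f f' hf hf' =>
    simp only [mul_def', map_add, LinearMap.add_apply] at *
    rw [hf, hf']
  | hs α x =>
    induction g using tr_ind with
    | h0 => simp only [mul_def', map_zero, LinearMap.zero_apply]
    | ha f f' hf hf' =>
      simp only [mul_def', map_add, LinearMap.add_apply] at *
      rw [hf, hf']
    | hs β y =>
      induction h using tr_ind with
      | h0 => simp only [mul_def', map_zero]
      | ha f f' hf hf' =>
        simp only [mul_def', map_add] at *
        rw [hf, hf']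
      | hs γ z =>
        rw [mon_mul, mon_mul, mon_mul, mon_mul, add_assoc]
        congr 1
        simp only [sgn, bp_add_left, bp_add_right, pow_add]
        ring

theorem tr_one_mul (f : TR) : 1 * f = f := by
  induction f using tr_ind with
  | h0 => simp only [mul_def', map_zero]
  | ha f f' hf hf' =>
    simp only [mul_def', map_add] at *
    rw [hf, hf']
  | hs β y =>
    change mon 0 1 * mon β y = _
    rw [mon_mul, zero_add, sgn, bp_zero_left, pow_zero, one_mul, mul_one]

theorem tr_mul_one (f : TR) : f * 1 = f := by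
  induction f using tr_ind with
  | h0 => simp only [mul_def', map_zero, LinearMap.zero_apply]
  | ha f f' hf hf' =>
    simp only [mul_def', map_add, LinearMap.add_apply] at *
    rw [hf, hf']
  | hs β y =>
    change mon β y * mon 0 1 = _
    rw [mon_mul, add_zero, sgn, bp_zero_right, pow_zero, mul_one, mul_one]

instance : Ring TR :=
  { (inferInstance : AddCommGroup TR) with
    mul := (· * ·)
    one := 1
    mul_assoc := tr_mul_assoc
    one_mul := tr_one_mul
    mul_one := tr_mul_one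
    left_distrib := fun a b c => by
      change mulL a (b + c) = mulL a b + mulL a c
      rw [map_add]
    right_distrib := fun a b c => by
      change mulL (a + b) c = mulL a c + mulL b c
      rw [map_add, LinearMap.add_apply]
    zero_mul := fun a => by
      change mulL 0 a = 0
      rw [map_zero, LinearMap.zero_apply]
    mul_zero := fun a => by
      change mulL a 0 = 0
      rw [map_zero] }

theorem cf_sum (s : Finset (ℕ →₀ ℕ)) (F : (ℕ →₀ ℕ) → TR) (γ : ℕ →₀ ℕ) :
    cf (∑ α ∈ s, F α) γ = ∑ α ∈ s, cf (F α) γ := Finsupp.finsetSum_apply s F γ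

theorem cf_smul (x : ℚ) (f : TR) (γ : ℕ →₀ ℕ) : cf (x • f) γ = x * cf f γ := rfl

theorem cf_mul (f g : TR) (γ : ℕ →₀ ℕ) : cf (f * g) γ =
    ∑ α ∈ sp f, ∑ β ∈ sp g, if α + β = γ then cf f α * cf g β * sgn α β else 0 := by
  rw [mul_def', mulL_eq, LinearMap.sum_apply, cf_sum]
  apply Finset.sum_congr rfl
  intro α _
  rw [LinearMap.smul_apply, rowL_eq, cf_smul, cf_sum, Finset.mul_sum]
  apply Finset.sum_congr rfl
  intro β _
  rw [cf_smul, cf_mon]
  split_ifs with h
  · ring
  · ring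

instance : Nontrivial TR := ⟨0, 1, by
  intro h
  have := congrArg (fun f => cf f 0) h
  simp only [cf] at this
  change (0 : ℚ) = (Finsupp.single 0 1 : (ℕ →₀ ℕ) →₀ ℚ) 0 at this
  simp at this⟩

instance : NoZeroDivisors TR where
  eq_zero_or_eq_zero_of_mul_eq_zero := by
    intro f g h
    by_contra hne
    push Not at hne
    obtain ⟨hf, hg⟩ := hne
    have hf' : (sp f).Nonempty := Finsupp.support_nonempty_iff.mpr hf
    have hg' : (sp g).Nonempty := Finsupp.support_nonempty_iff.mpr hg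
    obtain ⟨a, ha, b, hb, hu⟩ := UniqueSums.uniqueAdd_of_nonempty hf' hg'
    have h1 := cf_mul f g (a + b)
    rw [h, Finset.sum_eq_single_of_mem a ha, Finset.sum_eq_single_of_mem b hb, if_pos rfl] at h1
    · have h2 : cf f a * cf g b * sgn a b ≠ 0 :=
        mul_ne_zero (mul_ne_zero (mem_sp.mp ha) (mem_sp.mp hb)) (sgn_ne _ _)
      exact h2 h1.symm
    · intro β hβ hne
      rw [if_neg]
      intro heq
      exact hne (hu ha hβ heq).2
    · intro α hα hne
      apply Finset.sum_eq_zero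
      intro β hβ
      rw [if_neg]
      intro heq
      exact hne (hu hα hβ heq).1

/-- even monomials are central -/
theorem even_central (γ : ℕ →₀ ℕ) (x : ℚ) : mon (2 • γ) x ∈ Subring.center TR := by
  rw [Subring.mem_center_iff]
  intro f
  induction f using tr_ind with
  | h0 => rw [zero_mul, mul_zero]
  | ha f f' hf hf' => rw [add_mul, mul_add, hf, hf']
  | hs β y =>
    rw [mon_mul, mon_mul, add_comm β]
    congr 1
    have h1 : sgn β (2 • γ) = 1 := by
      rw [two_smul, sgn, bp_add_right, ← two_mul, pow_mul]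
      norm_num
    have h2 : sgn (2 • γ) β = 1 := by
      rw [two_smul, sgn, bp_add_left, ← two_mul, pow_mul]
      norm_num
    rw [h1, h2]
    ring

def dl (n : ℕ) : ℕ →₀ ℕ := ∑ i ∈ Finset.range n, Finsupp.single i 1

theorem dl_apply (n i : ℕ) : dl n i = if i < n then 1 else 0 := by
  simp [dl, Finsupp.finsetSum_apply, Finsupp.single_apply]

/-- the finitely generated pieces -/
def Pn (n : ℕ) : Submodule (Subring.center TR) TR :=
  Submodule.span _ ((fun ε => mon ε 1) '' Set.Iic (dl n))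

theorem mon_mem_Pn (n : ℕ) (α : ℕ →₀ ℕ) (x : ℚ) (h : ∀ i, n ≤ i → α i = 0) : mon α x ∈ Pn n := by
  let r : ℕ →₀ ℕ := α.mapRange (· % 2) rfl
  let q : ℕ →₀ ℕ := α.mapRange (· / 2) rfl
  have hrq : α = 2 • q + r := by
    ext i
    simp [r, q]
    omega
  have h1 : mon α x = (⟨mon (2 • q) x, even_central q x⟩ : Subring.center TR) • mon r 1 := by
    change _ = mon (2 • q) x * mon r 1
    rw [mon_mul, ← hrq]
    have h2 : sgn (2 • q) r = 1 := by
      rw [two_smul, sgn, bp_add_left, ← two_mul, pow_mul]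
      norm_num
    rw [h2, mul_one, mul_one]
  rw [h1]
  apply Submodule.smul_mem
  apply Submodule.subset_span
  refine ⟨r, ?_, rfl⟩
  intro i
  rw [dl_apply]
  simp only [r, Finsupp.mapRange_apply]
  split_ifs with hi
  · omega
  · rw [h i (by omega)]

theorem Pn_mul (n : ℕ) : ∀ x y : TR, x ∈ Pn n → y ∈ Pn n → x * y ∈ Pn n := by
  intro x y hx hy
  have h1 : Pn n * Pn n ≤ Pn n := by
    unfold Pn
    rw [Submodule.span_mul_span, Submodule.span_le]
    rintro _ ⟨_, ⟨a, ha, rfl⟩, _, ⟨b, hb, rfl⟩, rfl⟩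
    simp only
    rw [mon_mul]
    apply mon_mem_Pn n
    intro i hi
    have ha' := ha i
    have hb' := hb i
    rw [dl_apply, if_neg (by omega)] at ha' hb'
    rw [Finsupp.add_apply]
    omega
  exact h1 (Submodule.mul_mem_mul hx hy)

theorem Pn_mono : Monotone Pn := by
  intro a b hab
  apply Submodule.span_mono
  apply Set.image_mono
  apply Set.Iic_subset_Iic.mpr
  intro i
  rw [dl_apply, dl_apply]
  split_ifs <;> omega

theorem exists_bound (α : ℕ →₀ ℕ) : ∃ n, ∀ i, n ≤ i → α i = 0 := by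
  refine ⟨α.support.sup id + 1, fun i hi => ?_⟩
  by_contra hne
  have : i ≤ α.support.sup id := Finset.le_sup (f := id) (Finsupp.mem_support_iff.mpr hne)
  omega

theorem exists_Pn (y : TR) : ∃ n, y ∈ Pn n := by
  induction y using tr_ind with
  | h0 => exact ⟨0, Submodule.zero_mem _⟩
  | ha f g hf hg =>
    obtain ⟨a, ha⟩ := hf
    obtain ⟨b, hb⟩ := hg
    exact ⟨max a b, Submodule.add_mem _ (Pn_mono (le_max_left _ _) ha) (Pn_mono (le_max_right _ _) hb)⟩
  | hs α x =>
    obtain ⟨n, hn⟩ := exists_bound α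
    exact ⟨n, mon_mem_Pn n α x hn⟩

theorem tr_integral (y : TR) : IsIntegral (Subring.center TR) y := by
  obtain ⟨n, hn⟩ := exists_Pn y
  refine IsIntegral.of_mem_of_fg (Submodule.toSubalgebra (Pn n)
    (mon_mem_Pn n 0 1 (fun i _ => rfl)) (Pn_mul n)) ?_ y hn
  rw [Submodule.toSubalgebra_toSubmodule]
  exact Submodule.fg_span ((Set.finite_Iic _).image _)

theorem exists_norm (s : TR) (hs : s ≠ 0) : ∃ t N : TR, N ∈ Subring.center TR ∧ N ≠ 0 ∧ t * s = N := by
  obtain ⟨t, _, r, hr, hst⟩ := IsAlgebraic.exists_nonzero_eq_adjoin_mul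
    ((tr_integral s).isAlgebraic) (mem_nonZeroDivisors_of_ne_zero hs)
  refine ⟨t, r, r.2, fun h => hr (Subtype.ext h), ?_⟩
  have h1 : s * t = (r : TR) := hst
  have h2 : s * (t * s) = s * (r : TR) := by
    rw [← mul_assoc, h1]
    exact ((Subring.mem_center_iff.mp r.2) s).symm
  exact mul_left_cancel₀ hs h2

/-- the generators -/
def cc (n : ℕ) : TR := mon (Finsupp.single n 1) 1

theorem bp_single_single (i j : ℕ) :
    bp (Finsupp.single i 1) (Finsupp.single j 1) = if i = j + 1 then 1 else 0 := by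
  unfold bp
  rw [Finsupp.sum_single_index (by simp)]
  simp [Finsupp.single_apply]

theorem cc_anti (n : ℕ) : cc n * cc (n + 1) = - (cc (n + 1) * cc n) := by
  unfold cc
  rw [mon_mul, mon_mul, sgn, sgn, bp_single_single, bp_single_single, if_neg (by omega), if_pos rfl,
    add_comm (Finsupp.single n 1)]
  change (Finsupp.single _ _ : (ℕ →₀ ℕ) →₀ ℚ) = - (Finsupp.single _ _ : (ℕ →₀ ℕ) →₀ ℚ)
  rw [← Finsupp.single_neg]
  norm_num

theorem cc_comm (f : TR) : ∃ N, ∀ m, N < m → f * cc m = cc m * f := by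
  induction f using tr_ind with
  | h0 => exact ⟨0, fun m _ => by rw [zero_mul, mul_zero]⟩
  | ha f g hf hg =>
    obtain ⟨a, ha⟩ := hf
    obtain ⟨b, hb⟩ := hg
    exact ⟨max a b, fun m hm => by
      rw [add_mul, mul_add, ha m (lt_of_le_of_lt (le_max_left _ _) hm),
        hb m (lt_of_le_of_lt (le_max_right _ _) hm)]⟩
  | hs α x =>
    obtain ⟨n, hn⟩ := exists_bound α
    refine ⟨n, fun m hm => ?_⟩
    unfold cc
    rw [mon_mul, mon_mul, add_comm α]
    congr 1
    have h1 : bp α (Finsupp.single m 1) = 0 := by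
      unfold bp
      rw [Finsupp.sum_single_index (by simp), hn _ (by omega)]
    have h2 : bp (Finsupp.single m 1) α = 0 := by
      unfold bp
      apply Finset.sum_eq_zero
      intro i hi
      have : i < n := by
        by_contra hge
        exact (Finsupp.mem_support_iff.mp hi) (hn i (by omega))
      show (Finsupp.single m 1 : ℕ →₀ ℕ) (i + 1) * α i = 0
      rw [Finsupp.single_apply, if_neg (by omega), zero_mul]
    rw [sgn, sgn, h1, h2]
    ring

theorem cc_comm2 (i j : ℕ) (h : i + 2 ≤ j) : cc i * cc j = cc j * cc i := by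
  unfold cc
  rw [mon_mul, mon_mul, sgn, sgn, bp_single_single, bp_single_single, if_neg (by omega),
    if_neg (by omega), add_comm (Finsupp.single i 1)]

theorem cc_ne (n : ℕ) : cc n ≠ 0 := by
  intro h
  have := congrArg (fun f => cf f (Finsupp.single n 1)) h
  change (Finsupp.single (Finsupp.single n 1) 1 : (ℕ →₀ ℕ) →₀ ℚ) (Finsupp.single n 1) = 0 at this
  simp at this

theorem one_add_cc_ne (n : ℕ) : 1 + cc n ≠ 0 := by
  intro h
  have := congrArg (fun f => cf f (Finsupp.single n 1)) h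
  simp only [cf_add, cf_zero] at this
  change cf (mon 0 1) _ + cf (mon _ 1) _ = 0 at this
  rw [cf_mon, cf_mon, if_neg (by
    intro h'
    have := congrArg (fun f => f n) h'
    simp at this), if_pos rfl] at this
  norm_num at this

theorem two_ne : (2 : TR) ≠ 0 := by
  intro h
  have h1 : (2 : TR) = 1 + 1 := one_add_one_eq_two.symm
  rw [h1] at h
  have := congrArg (fun f => cf f 0) h
  simp only [cf_add, cf_zero] at this
  change cf (mon 0 1) 0 + cf (mon 0 1) 0 = 0 at this
  rw [cf_mon, if_pos rfl] at this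
  norm_num at this

end

end Pool.Agent.H4.RD
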