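import Mathlib
import Pool.Agent.H4.RD1
import Pool.Agent.H4.RD2
import Pool.Agent.H4.RD3

set_option autoImplicit false

namespace Pool.Agent.H4.RD

noncomputable section

open OreLocalization nonZeroDivisors

def tt (s : TR⁰) : TR := (exists_norm s (nonZeroDivisors.ne_zero s.2)).choose
def nn (s : TR⁰) : TR := (exists_norm s (nonZeroDivisors.ne_zero s.2)).choose_spec.choose
theorem nn_spec (s : TR⁰) : nn s ∈ Subring.center TR ∧ nn s ≠ 0 ∧ tt s * s = nn s :=
  (exists_norm s (nonZeroDivisors.ne_zero s.2)).choose_spec.choose_spec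

instance : OreSet (TR⁰) where
  ore_right_cancel r₁ r₂ s h := ⟨1, by
    have : r₁ = r₂ := mul_right_cancel₀ (nonZeroDivisors.ne_zero s.2) h
    rw [this]⟩
  oreNum r s := r * tt s
  oreDenom r s := ⟨nn s, mem_nonZeroDivisors_of_ne_zero (nn_spec s).2.1⟩
  ore_eq r s := by
    change nn s * r = r * tt s * s
    rw [mul_assoc, (nn_spec s).2.2]
    exact ((Subring.mem_center_iff.mp (nn_spec s).1) r).symm

abbrev DD : Type := OreLocalization (TR⁰) TR

def io : TR →+* DD := OreLocalization.numeratorRingHom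

theorem io_inj : Function.Injective io := by
  apply OreLocalization.numeratorHom_inj
  intro x hx
  exact hx.1

theorem io_ne {x : TR} (hx : x ≠ 0) : io x ≠ 0 := by
  rw [Ne, ← map_zero io]
  exact fun h => hx (io_inj h)

theorem exists_frac (y : DD) : ∃ s r : TR, s ≠ 0 ∧ io s * y = io r := by
  induction y using OreLocalization.ind with
  | _ r s => exact ⟨s, r, nonZeroDivisors.ne_zero s.2, OreLocalization.mul_cancel⟩

theorem io_central {N : TR} (hN : N ∈ Subring.center TR) : io N ∈ Subring.center DD := by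
  rw [Subring.mem_center_iff]
  intro y
  obtain ⟨s, r, hs, h⟩ := exists_frac y
  apply mul_left_cancel₀ (io_ne hs)
  have h1 := fun g => Subring.mem_center_iff.mp hN g
  rw [← mul_assoc, h, ← mul_assoc, ← map_mul, h1, map_mul, ← map_mul io s, h1, map_mul,
    mul_assoc, h]

theorem dd_comm (y : DD) : ∃ N, ∀ m, N < m → y * io (cc m) = io (cc m) * y := by
  obtain ⟨s, r, hs, h⟩ := exists_frac y
  obtain ⟨a, ha⟩ := cc_comm s
  obtain ⟨b, hb⟩ := cc_comm r
  refine ⟨max a b, fun m hm => ?_⟩
  have h1 := ha m (lt_of_le_of_lt (le_max_left _ _) hm)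
  have h2 := hb m (lt_of_le_of_lt (le_max_right _ _) hm)
  apply mul_left_cancel₀ (io_ne hs)
  rw [← mul_assoc, h, ← mul_assoc, ← map_mul, h2, map_mul, ← map_mul io s, h1, map_mul,
    mul_assoc, h]

theorem dd_integral (y : DD) : IsIntegral (Subring.center DD) y := by
  obtain ⟨s, r, hs, h⟩ := exists_frac y
  obtain ⟨t, N, hN, hN0, htN⟩ := exists_norm s hs
  have h1 : io N * y = io (t * r) := by
    rw [← htN, map_mul, mul_assoc, h, map_mul]
  have h2 : IsIntegral (Subring.center DD) (io (t * r)) := by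
    let φ : Subring.center TR →+* Subring.center DD :=
      (io.comp (Subring.center TR).subtype).codRestrict (Subring.center DD)
        (fun x => io_central x.2)
    exact IsIntegral.map_of_comp_eq φ io rfl (tr_integral (t * r))
  let z : Subring.center DD := ⟨io N, io_central hN⟩
  have hz : (io N)⁻¹ ∈ Subring.center DD := by
    rw [Subring.mem_center_iff]
    intro g
    have := Subring.mem_center_iff.mp (io_central hN) g
    rw [eq_inv_mul_iff_mul_eq₀ (io_ne hN0), ← mul_assoc, ← this, mul_assoc,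
      mul_inv_cancel₀ (io_ne hN0), mul_one]
  have h3 : y = (⟨(io N)⁻¹, hz⟩ : Subring.center DD) • io (t * r) := by
    change y = (io N)⁻¹ * io (t * r)
    rw [← h1, ← mul_assoc, inv_mul_cancel₀ (io_ne hN0), one_mul]
  rw [h3]
  exact h2.smul _

theorem exists_example : ∃ (A : Type) (_ : Ring A),
      (∀ X Y Z : Submodule Aᵐᵒᵖ A, X ⊓ (Y ⊔ Z) = (X ⊓ Y) ⊔ (X ⊓ Z)) ∧
      Algebra.IsIntegral (Subring.center A) A ∧
      ¬ (∀ X Y Z : Submodule A A, X ⊓ (Y ⊔ Z) = (X ⊓ Y) ⊔ (X ⊓ Z)) := by
  obtain ⟨σ, hσ, h0⟩ := exists_sigma (D := DD) (fun n => io (cc n)) (fun n => by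
      rw [← map_one io, ← map_add]
      exact io_ne (one_add_cc_ne n)) dd_comm (by
      have := io_ne two_ne
      rwa [map_ofNat] at this) (fun n => io_ne (cc_ne n)) (fun n => by
      rw [← map_mul, ← map_mul, cc_anti, map_neg]) (fun i j h => by
      rw [← map_mul, ← map_mul, cc_comm2 i j h])
  exact ⟨AA σ, inferInstance, right_dist σ, integral σ hσ dd_integral, left_not_dist σ _ h0⟩

end

end Pool.Agent.H4.RD
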