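import Mathlib
import Pool.Agent.H4.TRDefs
import Pool.Agent.H4.TR

set_option autoImplicit false

namespace Pool.Agent.H4.RK

open Pool.Agent.H4.TR

/-- monomial matrices over the field with five elements -/
def Q : Type := Fin 4 × Fin 4 × Bool
instance : DecidableEq Q := inferInstanceAs (DecidableEq (Fin 4 × Fin 4 × Bool))
instance : Fintype Q := inferInstanceAs (Fintype (Fin 4 × Fin 4 × Bool))
instance : Mul Q := ⟨fun x y => (x.1 + (if x.2.2 then y.2.1 else y.1),
  x.2.1 + (if x.2.2 then y.1 else y.2.1), xor x.2.2 y.2.2)⟩
instance : One Q := ⟨(0, 0, false)⟩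
instance : Inv Q := ⟨fun x => if x.2.2 then (-x.2.1, -x.1, true) else (-x.1, -x.2.1, false)⟩
instance : Group Q := Group.ofLeftAxioms (by decide +kernel) (by decide +kernel) (by decide +kernel)

theorem Q_exp : ∀ q : Q, q ^ 8 = 1 := by decide +kernel

abbrev M : Type := Multiplicative (ZMod 5 × ZMod 5)

def pw (a : Fin 4) : ZMod 5 := if a = 0 then 1 else if a = 1 then 2 else if a = 2 then 4 else 3

def actf (q : Q) (m : M) : M :=
  let x := (Multiplicative.toAdd m).1
  let y := (Multiplicative.toAdd m).2
  Multiplicative.ofAdd (pw q.1 * (if q.2.2 then y else x), pw q.2.1 * (if q.2.2 then x else y))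

theorem actf_mul : ∀ q q' : Q, ∀ m : M, actf (q * q') m = actf q (actf q' m) := by decide +kernel
theorem actf_one : ∀ m : M, actf 1 m = m := by decide +kernel
theorem actf_mul' (q : Q) (m m' : M) : actf q (m * m') = actf q m * actf q m' := by
  unfold actf
  rcases q with ⟨a, b, s⟩
  cases s <;> simp [← ofAdd_add, mul_add]

def act : Q →* MulAut M where
  toFun q := { toFun := actf q, invFun := actf q⁻¹,
               left_inv := fun m => by rw [← actf_mul, inv_mul_cancel, actf_one]
               right_inv := fun m => by rw [← actf_mul, mul_inv_cancel, actf_one]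
               map_mul' := actf_mul' q }
  map_one' := by ext m : 1; exact actf_one m
  map_mul' q q' := by ext m : 1; exact actf_mul q q' m

abbrev G : Type := M ⋊[act] Q

end Pool.Agent.H4.RK
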