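import Mathlib
import Pool.Agent.H4.TRDefs
import Pool.Agent.H4.TR
import Pool.Agent.H4.RK

set_option autoImplicit false

namespace Pool.Agent.H4.RK

open Pool.Agent.H4.TR

/-- the Pauli group of order 16 -/
def H : Type := Fin 4 × Bool × Bool
instance : DecidableEq H := inferInstanceAs (DecidableEq (Fin 4 × Bool × Bool))
instance : Fintype H := inferInstanceAs (Fintype (Fin 4 × Bool × Bool))
instance : Mul H := ⟨fun x y => (x.1 + y.1 + (if x.2.2 && y.2.1 then 2 else 0),
  xor x.2.1 y.2.1, xor x.2.2 y.2.2)⟩
instance : One H := ⟨(0, false, false)⟩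
instance : Inv H := ⟨fun x => (-x.1 + (if x.2.2 && x.2.1 then 2 else 0), x.2.1, x.2.2)⟩
instance : Group H := Group.ofLeftAxioms (by decide +kernel) (by decide +kernel) (by decide +kernel)

def iH : H := (1, false, false)
def XH : H := (0, true, false)
def ZH : H := (0, false, true)
def zH : H := (2, false, false)

/-- embedding of the Pauli group in the monomial group -/
def mkQ (a b : Fin 4) (s : Bool) : Q := (a, b, s)
def ιf (h : H) : Q :=
  mkQ h.1 h.1 false * mkQ 0 0 h.2.1 * mkQ 0 (if h.2.2 then 2 else 0) false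

theorem ιf_mul : ∀ x y : H, ιf (x * y) = ιf x * ιf y := by decide +kernel
theorem ιf_inj : ∀ x y : H, ιf x = ιf y → x = y := by decide +kernel

def ι : H →* Q := MonoidHom.mk' ιf ιf_mul

/-- parity map -/
def θf (h : H) : Multiplicative (ZMod 2 × ZMod 2 × ZMod 2) :=
  Multiplicative.ofAdd ((h.1.val : ZMod 2), (if h.2.1 then 1 else 0), (if h.2.2 then 1 else 0))

theorem θf_mul : ∀ x y : H, θf (x * y) = θf x * θf y := by decide +kernel
def θ : H →* Multiplicative (ZMod 2 × ZMod 2 × ZMod 2) := MonoidHom.mk' θf θf_mul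

theorem H_mono : ∀ h : H, h ≠ 1 → h = zH ∨ h * h = zH ∨ h * XH * h⁻¹ * XH⁻¹ = zH ∨
    h * ZH * h⁻¹ * ZH⁻¹ = zH := by decide +kernel

/-- laws of `G` -/
def LG : Set (FreeGroup ℕ) := {w | ∀ f : FreeGroup ℕ →* G, f w = 1}

theorem G_sat : Satisfies LG G := fun _ hw f => hw f

theorem sat_of_inj {K : Type} [Group K] (j : K →* G) (hj : Function.Injective j) :
    Satisfies LG K := by
  intro w hw f
  apply hj
  rw [map_one]
  exact hw (j.comp f)

theorem H_sat : Satisfies LG H :=
  sat_of_inj (SemidirectProduct.inr.comp ι)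
    (SemidirectProduct.inr_injective.comp (fun x y h => ιf_inj x y h))

/-- relatively free groups are residually `G` -/
theorem res {r : ℕ} (f : RelFree LG r) (hf : f ≠ 1) : ∃ χ : RelFree LG r →* G, χ f ≠ 1 := by
  by_contra hcon
  push Not at hcon
  apply hf
  obtain ⟨y, rfl⟩ := QuotientGroup.mk_surjective f
  rw [QuotientGroup.eq_one_iff]
  -- y as a word in infinitely many letters
  let emb : FreeGroup (Fin r) →* FreeGroup ℕ := FreeGroup.map (fun i => (i : ℕ))
  let ret : FreeGroup ℕ →* FreeGroup (Fin r) :=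
    FreeGroup.lift (fun n => if h : n < r then FreeGroup.of ⟨n, h⟩ else 1)
  have hret : ret (emb y) = y := by
    have : ret.comp emb = MonoidHom.id _ := by
      apply FreeGroup.ext_hom
      intro i
      simp [ret, emb]
    exact DFunLike.congr_fun this y
  refine Subgroup.subset_normalClosure ⟨emb y, ?_, ret, hret⟩
  intro g
  obtain ⟨χ, hχ⟩ := exists_lift (L := LG) (r := r) G_sat (fun i => g (FreeGroup.of (i : ℕ)))
  have h1 : g.comp emb = χ.comp (QuotientGroup.mk' _) := by
    apply FreeGroup.ext_hom
    intro i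
    simp only [MonoidHom.comp_apply, emb, FreeGroup.map.of, QuotientGroup.mk'_apply]
    exact (hχ i).symm
  have h2 := DFunLike.congr_fun h1 y
  simp only [MonoidHom.comp_apply, QuotientGroup.mk'_apply] at h2
  rw [h2]
  exact hcon χ

theorem fin_hom (r : ℕ) : Finite (RelFree LG r →* G) := by
  have : Function.Injective (fun χ : RelFree LG r →* G => fun i : Fin r =>
      χ (QuotientGroup.mk (FreeGroup.of i))) := by
    intro χ χ' h
    exact hom_ext (fun i => congrFun h i)
  have hG : Finite G := Finite.of_equiv (M × Q) SemidirectProduct.equivProd.symm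
  exact Finite.of_injective _ this

theorem fin_F (r : ℕ) : Finite (RelFree LG r) := by
  have := fin_hom r
  have hG : Finite G := Finite.of_equiv (M × Q) SemidirectProduct.equivProd.symm
  have : Function.Injective (fun f : RelFree LG r => fun χ : RelFree LG r →* G => χ f) := by
    intro f f' h
    by_contra hne
    obtain ⟨χ, hχ⟩ := res (f * f'⁻¹) (by rwa [Ne, mul_inv_eq_one])
    apply hχ
    rw [map_mul, map_inv, mul_inv_eq_one]
    exact congrFun h χ
  exact Finite.of_injective _ this

end Pool.Agent.H4.RK
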