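import Mathlib
import Pool.Agent.H4.TRDefs
import Pool.Agent.H4.TR
import Pool.Agent.H4.RK
import Pool.Agent.H4.RK2

set_option autoImplicit false

namespace Pool.Agent.H4.RK

open Pool.Agent.H4.TR

/-! ### generation of the variety by the rank 2 free group -/

def qA : Q := mkQ 1 0 false
def sw : Q := mkQ 0 0 true
def u1 : M := Multiplicative.ofAdd (1, 0)
def u2 : M := Multiplicative.ofAdd (0, 1)

theorem Q_gen : ∀ q : Q, q = qA ^ q.1.val * (sw * qA * sw) ^ q.2.1.val *
    (if q.2.2 then sw else 1) := by decide +kernel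
theorem M_gen : ∀ m : M, m = u1 ^ (Multiplicative.toAdd m).1.val *
    u2 ^ (Multiplicative.toAdd m).2.val := by decide +kernel

def α : G := ⟨u2, qA⟩
def β : G := SemidirectProduct.inr sw

theorem α4 : α ^ 4 = SemidirectProduct.inl (u2 ^ 4) := by
  apply SemidirectProduct.ext
  · decide +kernel
  · decide +kernel

theorem top_of (P : Subgroup G) (hα : α ∈ P) (hβ : β ∈ P) : P = ⊤ := by
  have h1 : (SemidirectProduct.inl u2 : G) ∈ P := by
    have h2 : (SemidirectProduct.inl u2 : G) = (α ^ 4) ^ 4 := by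
      rw [α4, ← map_pow]
      congr 1
    rw [h2]
    exact P.pow_mem (P.pow_mem hα 4) 4
  have h2 : (SemidirectProduct.inr qA : G) ∈ P := by
    have : (SemidirectProduct.inr qA : G) = (SemidirectProduct.inl u2)⁻¹ * α := by
      apply SemidirectProduct.ext
      · decide +kernel
      · decide +kernel
    rw [this]
    exact P.mul_mem (P.inv_mem h1) hα
  have h3 : (SemidirectProduct.inl u1 : G) ∈ P := by
    have : (SemidirectProduct.inl u1 : G) = β * SemidirectProduct.inl u2 * β⁻¹ := by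
      apply SemidirectProduct.ext
      · decide +kernel
      · decide +kernel
    rw [this]
    exact P.mul_mem (P.mul_mem hβ h1) (P.inv_mem hβ)
  rw [eq_top_iff]
  rintro g -
  rw [← SemidirectProduct.inl_left_mul_inr_right g]
  refine P.mul_mem ?_ ?_
  · rw [M_gen g.left, map_mul, map_pow, map_pow]
    exact P.mul_mem (P.pow_mem h3 _) (P.pow_mem h1 _)
  · rw [Q_gen g.right, map_mul, map_mul, map_pow, map_pow, map_mul, map_mul]
    refine P.mul_mem (P.mul_mem (P.pow_mem h2 _) (P.pow_mem (P.mul_mem (P.mul_mem hβ h2) hβ) _)) ?_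
    split_ifs
    · exact hβ
    · rw [map_one]; exact P.one_mem

theorem gen2 (w : FreeGroup ℕ) (hw : Satisfies {w} (RelFree LG 2)) (K : Type) [Group K]
    (hK : Satisfies LG K) : Satisfies {w} K := by
  obtain ⟨p, hp⟩ := exists_lift (L := LG) (r := 2) G_sat ![α, β]
  have hsurj : Function.Surjective p := by
    rw [← MonoidHom.range_eq_top]
    apply top_of
    · exact ⟨_, hp 0⟩
    · exact ⟨_, hp 1⟩
  have hwL : w ∈ LG := by
    intro f
    choose g hg using fun n : ℕ => hsurj (f (FreeGroup.of n))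
    have h1 : f = p.comp (FreeGroup.lift g) := by
      apply FreeGroup.ext_hom
      intro n
      simp [hg]
    rw [h1, MonoidHom.comp_apply, hw w rfl, map_one]
  intro w' hw' f
  rw [Set.mem_singleton_iff] at hw'
  rw [hw']
  exact hK w hwL f

/-! ### the rank 3 free group -/

abbrev F : Type := RelFree LG 3
def a (i : Fin 3) : F := QuotientGroup.mk (FreeGroup.of i)

theorem two_gen_E (c d : Multiplicative (ZMod 2 × ZMod 2 × ZMod 2)) :
    ∃ k : ZMod 2 × ZMod 2 × ZMod 2, k ≠ 0 ∧
      k.1 * (Multiplicative.toAdd c).1 + k.2.1 * (Multiplicative.toAdd c).2.1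
        + k.2.2 * (Multiplicative.toAdd c).2.2 = 0 ∧
      k.1 * (Multiplicative.toAdd d).1 + k.2.1 * (Multiplicative.toAdd d).2.1
        + k.2.2 * (Multiplicative.toAdd d).2.2 = 0 := by
  revert c d; decide +kernel

def Dk (k : ZMod 2 × ZMod 2 × ZMod 2) :
    Multiplicative (ZMod 2 × ZMod 2 × ZMod 2) →* Multiplicative (ZMod 2) :=
  MonoidHom.mk' (fun c => Multiplicative.ofAdd (k.1 * (Multiplicative.toAdd c).1 +
    k.2.1 * (Multiplicative.toAdd c).2.1 + k.2.2 * (Multiplicative.toAdd c).2.2)) (by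
    intro x y
    rw [← ofAdd_add]
    congr 1
    simp only [toAdd_mul, Prod.fst_add, Prod.snd_add]
    ring)

theorem card_le_two {X : Type} (S : Finset X) (x0 : X) (h : S.card ≤ 2) :
    ∃ x y, ∀ s ∈ S, s = x ∨ s = y := by
  classical
  interval_cases hc : S.card
  · rw [Finset.card_eq_zero] at hc
    subst hc
    exact ⟨x0, x0, fun s hs => absurd hs (Finset.notMem_empty s)⟩
  · obtain ⟨x, rfl⟩ := Finset.card_eq_one.mp hc
    exact ⟨x, x, fun s hs => Or.inl (Finset.mem_singleton.mp hs)⟩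
  · obtain ⟨x, y, -, rfl⟩ := Finset.card_eq_two.mp hc
    exact ⟨x, y, fun s hs => by simpa using hs⟩

/-- a quotient of `F` by a subgroup of the kernel of the map onto the Pauli group is not
2-generated -/
theorem not_two_gen (ψ : F →* H) (h0 : ψ (a 0) = ZH) (h1 : ψ (a 1) = XH) (h2 : ψ (a 2) = iH)
    (N : Subgroup F) [N.Normal] (hN : N ≤ ψ.ker)
    (hS : ∃ S : Finset (F ⧸ N), S.card ≤ 2 ∧ Subgroup.closure (S : Set (F ⧸ N)) = ⊤) : False := by
  obtain ⟨S, hS, hcl⟩ := hS
  let Θ : F ⧸ N →* Multiplicative (ZMod 2 × ZMod 2 × ZMod 2) :=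
    QuotientGroup.lift N (θ.comp ψ) (by
      intro x hx
      rw [MonoidHom.mem_ker, MonoidHom.comp_apply, (MonoidHom.mem_ker).mp (hN hx), map_one])
  obtain ⟨x, y, hxy⟩ := card_le_two S 1 hS
  obtain ⟨k, hk0, hkx, hky⟩ := two_gen_E (Θ x) (Θ y)
  have hker : (⊤ : Subgroup (F ⧸ N)) ≤ ((Dk k).comp Θ).ker := by
    rw [← hcl, Subgroup.closure_le]
    intro s hs
    rw [SetLike.mem_coe, MonoidHom.mem_ker, MonoidHom.comp_apply]
    rcases hxy s hs with rfl | rfl
    · exact hkx
    · exact hky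
  have key : ∀ i, Dk k (θ (ψ (a i))) = 1 := fun i => hker (Subgroup.mem_top (QuotientGroup.mk (a i)))
  have k0 := key 0
  have k1 := key 1
  have k2 := key 2
  rw [h0] at k0
  rw [h1] at k1
  rw [h2] at k2
  have : ∀ k : ZMod 2 × ZMod 2 × ZMod 2, Dk k (θ ZH) = 1 → Dk k (θ XH) = 1 → Dk k (θ iH) = 1 →
      k = 0 := by decide +kernel
  exact hk0 (this k k0 k1 k2)

end Pool.Agent.H4.RK
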