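import Mathlib
import Pool.Agent.H4.TRDefs
import Pool.Agent.H4.TR
import Pool.Agent.H4.RK
import Pool.Agent.H4.RK2
import Pool.Agent.H4.RK3

set_option autoImplicit false

namespace Pool.Agent.H4.RK

open Pool.Agent.H4.TR

/-- all homomorphisms to `Q` obtained through `G` -/
def κ : F →* ((F →* G) → Q) := MonoidHom.pi fun χ => SemidirectProduct.rightHom.comp χ

abbrev B : Subgroup F := κ.ker

theorem mem_B {b : F} : b ∈ B ↔ ∀ χ : F →* G, (χ b).right = 1 := by
  rw [MonoidHom.mem_ker]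
  constructor
  · intro h χ
    exact congrFun h χ
  · intro h
    funext χ
    exact h χ

theorem chi_inl {b : F} (hb : b ∈ B) (χ : F →* G) :
    χ b = SemidirectProduct.inl (χ b).left := by
  apply SemidirectProduct.ext
  · rfl
  · rw [mem_B.mp hb χ]; rfl

theorem eq_of_res {x y : F} (h : ∀ χ : F →* G, χ x = χ y) : x = y := by
  by_contra hne
  obtain ⟨χ, hχ⟩ := res (x * y⁻¹) (by rwa [Ne, mul_inv_eq_one])
  apply hχ
  rw [map_mul, map_inv, mul_inv_eq_one]
  exact h χ

theorem B_comm (x y : B) : x * y = y * x := by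
  apply Subtype.ext
  apply eq_of_res
  intro χ
  change χ (x.1 * y.1) = χ (y.1 * x.1)
  rw [map_mul, map_mul, chi_inl x.2 χ, chi_inl y.2 χ, ← map_mul, ← map_mul, mul_comm]

instance : CommGroup B := { (inferInstance : Group B) with mul_comm := B_comm }

theorem B_pow5 (x : B) : x ^ 5 = 1 := by
  apply Subtype.ext
  apply eq_of_res
  intro χ
  change χ (x.1 ^ 5) = χ 1
  rw [map_pow, map_one, chi_inl x.2 χ, ← map_pow]
  have : ∀ m : M, m ^ 5 = 1 := by decide +kernel
  rw [this, map_one]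

theorem pow8_mem (f : F) : f ^ 8 ∈ B := by
  rw [mem_B]
  intro χ
  rw [map_pow]
  change SemidirectProduct.rightHom ((χ f) ^ 8) = 1
  rw [map_pow, Q_exp]

/-- component of a homomorphism on `B` -/
def χB (χ : F →* G) : B →* M := MonoidHom.mk' (fun b => (χ b.1).left) (by
  intro x y
  change (χ (x.1 * y.1)).left = _
  rw [map_mul, SemidirectProduct.mul_left, mem_B.mp x.2 χ, map_one]
  rfl)

theorem chiB_spec (χ : F →* G) (b : B) : χ b.1 = SemidirectProduct.inl (χB χ b) := chi_inl b.2 χ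

abbrev cj : F →* MulAut B := MulAut.conjNormal

theorem cj_coe (f : F) (b : B) : ((cj f b : B) : F) = f * b * f⁻¹ := MulAut.conjNormal_apply f b

theorem cj_B (f : F) (hf : f ∈ B) : cj f = 1 := by
  ext b
  rw [cj_coe]
  change f * b * f⁻¹ = b
  have := B_comm ⟨f, hf⟩ b
  have h2 : f * b.1 = b.1 * f := congrArg Subtype.val this
  rw [h2, mul_inv_cancel_right]

/-- action through a homomorphism -/
theorem chiB_cj (χ : F →* G) (f : F) (b : B) : χB χ (cj f b) = act (χ f).right (χB χ b) := by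
  apply SemidirectProduct.inl_injective (φ := act)
  rw [← chiB_spec, cj_coe, map_mul, map_mul, map_inv, chiB_spec]
  have h1 : χ f = SemidirectProduct.inl (χ f).left * SemidirectProduct.inr (χ f).right :=
    (SemidirectProduct.inl_left_mul_inr_right _).symm
  generalize (χ f).left = m at h1
  generalize (χ f).right = q at h1 ⊢
  have h2 : (SemidirectProduct.inr q : G) * SemidirectProduct.inl (χB χ b) *
      (SemidirectProduct.inr q)⁻¹ = SemidirectProduct.inl (act q (χB χ b)) := by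
    rw [SemidirectProduct.inl_aut, map_inv]
  have h3 : χ f * SemidirectProduct.inl (χB χ b) * (χ f)⁻¹ = SemidirectProduct.inl m *
      (SemidirectProduct.inr q * SemidirectProduct.inl (χB χ b) *
      (SemidirectProduct.inr q)⁻¹) * (SemidirectProduct.inl m)⁻¹ := by
    rw [h1]; group
  rw [h3, h2, ← map_inv, ← map_mul, ← map_mul]
  congr 1
  rw [mul_comm m, mul_inv_cancel_right]

section
variable (ψ : F →* H)

def AC : Subgroup (MulAut B) := ψ.ker.map cj

instance : Finite (MulAut B) := by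
  have := fin_F 3
  exact Finite.of_injective (fun e : MulAut B => (e : B → B)) DFunLike.coe_injective

noncomputable instance : Fintype (AC ψ) := Fintype.ofFinite _

noncomputable def Nm (b : B) : B := ∏ e : AC ψ, (e : MulAut B) b

theorem card_AC : ¬ (5 ∣ Fintype.card (AC ψ)) := by
  intro h
  have : Fact (Nat.Prime 5) := ⟨by norm_num⟩
  obtain ⟨e, he⟩ := exists_prime_orderOf_dvd_card 5 h
  obtain ⟨c, hc, hce⟩ := e.2
  have h8 : e ^ 8 = 1 := by
    apply Subtype.ext
    change (e : MulAut B) ^ 8 = 1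
    rw [← hce]
    change (cj c) ^ 8 = 1
    rw [← map_pow, cj_B _ (pow8_mem c)]
  have := orderOf_dvd_of_pow_eq_one h8
  rw [he] at this
  omega

theorem Nm_fix (b : B) {c : F} (hc : c ∈ ψ.ker) : cj c (Nm ψ b) = Nm ψ b := by
  unfold Nm
  rw [map_prod]
  let c' : AC ψ := ⟨cj c, c, hc, rfl⟩
  exact Fintype.prod_equiv (Equiv.mulLeft c') _ _ (fun e => rfl)

end

theorem main : ∃ g : F, g ≠ 1 ∧ ∀ (N : Subgroup F) [N.Normal],
    (∃ S : Finset (F ⧸ N), S.card ≤ 2 ∧ Subgroup.closure (S : Set (F ⧸ N)) = ⊤) → g ∈ N := by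
  obtain ⟨φ, hφ⟩ := exists_lift (L := LG) (r := 3) G_sat
    ![⟨u1, ιf ZH⟩, SemidirectProduct.inr (ιf XH), SemidirectProduct.inr (ιf iH)]
  obtain ⟨ψ, hψ⟩ := exists_lift (L := LG) (r := 3) H_sat ![ZH, XH, iH]
  have hψ0 : ψ (a 0) = ZH := hψ 0
  have hψ1 : ψ (a 1) = XH := hψ 1
  have hψ2 : ψ (a 2) = iH := hψ 2
  have hφψ : ∀ f : F, (φ f).right = ι (ψ f) := by
    have : (SemidirectProduct.rightHom.comp φ) = ι.comp ψ := by
      apply hom_ext
      intro i
      simp only [MonoidHom.comp_apply, hφ, hψ]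
      fin_cases i
      · rfl
      · rfl
      · rfl
    intro f
    exact DFunLike.congr_fun this f
  let v : B := ⟨a 0 ^ 8, pow8_mem _⟩
  have hv : χB φ v = Multiplicative.ofAdd (3, 0) := by
    apply SemidirectProduct.inl_injective (φ := act)
    rw [← chiB_spec]
    change φ (a 0 ^ 8) = _
    rw [map_pow, show φ (a 0) = ⟨u1, ιf ZH⟩ from hφ 0]
    apply SemidirectProduct.ext
    · decide +kernel
    · decide +kernel
  let n0 : F := a 2 ^ 2
  have hn0 : ψ n0 = zH := by
    change ψ (a 2 ^ 2) = zH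
    rw [map_pow, hψ2]
    decide +kernel
  let u : B := Nm ψ v
  let w : B := u * (cj n0 u)⁻¹
  have hfix : ∀ c ∈ ψ.ker, cj c w = w := by
    intro c hc
    have h1 : cj c (cj n0 u) = cj n0 u := by
      have hc' : n0⁻¹ * c * n0 ∈ ψ.ker := by
        have := (MonoidHom.normal_ker ψ).conj_mem c hc n0⁻¹
        simpa using this
      have h2 : cj c (cj n0 u) = cj n0 (cj (n0⁻¹ * c * n0) u) := by
        rw [← MulAut.mul_apply, ← MulAut.mul_apply, ← map_mul, ← map_mul]
        congr 2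
        group
      rw [h2, Nm_fix ψ v hc']
    change cj c (u * (cj n0 u)⁻¹) = _
    rw [map_mul, map_inv, h1, Nm_fix ψ v hc]
  have hinv0 : cj n0 w = w⁻¹ := by
    have h1 : cj n0 (cj n0 u) = u := by
      rw [← MulAut.mul_apply, ← map_mul]
      apply Nm_fix
      rw [MonoidHom.mem_ker, map_mul, hn0]
      decide +kernel
    change cj n0 (u * (cj n0 u)⁻¹) = (u * (cj n0 u)⁻¹)⁻¹
    rw [map_mul, map_inv, h1, mul_inv_rev, inv_inv]
  have hinv : ∀ n : F, ψ n = zH → cj n w = w⁻¹ := by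
    intro n hn
    have h1 : n * n0⁻¹ ∈ ψ.ker := by
      rw [MonoidHom.mem_ker, map_mul, map_inv, hn, hn0, mul_inv_cancel]
    have h2 : cj n w = cj (n * n0⁻¹) (cj n0 w) := by
      rw [← MulAut.mul_apply, ← map_mul]
      congr 2
      group
    rw [h2, hinv0, map_inv, hfix _ h1]
  have hw1 : w ≠ 1 := by
    intro hw
    have h1 : χB φ w = 1 := by rw [hw, map_one]
    have h2 : χB φ (cj n0 u) = (χB φ u)⁻¹ := by
      rw [chiB_cj, hφψ, hn0]
      have : ∀ m : M, act (ι zH) m = m⁻¹ := by decide +kernel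
      exact this _
    have h3 : χB φ u = (χB φ v) ^ Fintype.card (AC ψ) := by
      change χB φ (∏ e : AC ψ, (e : MulAut B) v) = _
      rw [map_prod]
      have : ∀ e : AC ψ, χB φ ((e : MulAut B) v) = χB φ v := by
        rintro ⟨_, c, hc, rfl⟩
        change χB φ (cj c v) = _
        rw [chiB_cj, hφψ, MonoidHom.mem_ker.mp hc, map_one, map_one]
        rfl
      rw [Finset.prod_congr rfl (fun e _ => this e), Finset.prod_const, Finset.card_univ]
    change χB φ (u * (cj n0 u)⁻¹) = 1 at h1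
    rw [map_mul, map_inv, h2, inv_inv, h3, hv, ← pow_add] at h1
    have h4 : (((Fintype.card (AC ψ) + Fintype.card (AC ψ) : ℕ)) • ((3, 0) : ZMod 5 × ZMod 5)) = 0 := h1
    have h5 := congrArg Prod.fst h4
    simp only [Prod.smul_fst, Prod.fst_zero, nsmul_eq_mul] at h5
    have h6 : (((Fintype.card (AC ψ) + Fintype.card (AC ψ)) * 3 : ℕ) : ZMod 5) = 0 := by
      rw [Nat.cast_mul]
      exact h5
    rw [ZMod.natCast_eq_zero_iff] at h6
    exact card_AC ψ (by omega)
  refine ⟨w.1, fun h => hw1 (Subtype.ext h), ?_⟩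
  intro N _ hS
  by_contra hwN
  refine not_two_gen ψ hψ0 hψ1 hψ2 N ?_ hS
  have hz : ∀ n ∈ N, ψ n ≠ zH := by
    intro n hn hnz
    have h1 : n * w.1 * n⁻¹ = (w.1)⁻¹ := by
      have := congrArg Subtype.val (hinv n hnz)
      rw [cj_coe] at this
      exact this
    have h2 : n * (w.1 * n⁻¹ * (w.1)⁻¹) ∈ N :=
      N.mul_mem hn (Subgroup.Normal.conj_mem inferInstance _ (N.inv_mem hn) _)
    have h3 : (w.1)⁻¹ * (w.1)⁻¹ ∈ N := by
      have : n * (w.1 * n⁻¹ * (w.1)⁻¹) = (w.1)⁻¹ * (w.1)⁻¹ := by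
        rw [← h1]; group
      rw [← this]; exact h2
    have h4 : (w.1) ^ 5 = 1 := congrArg Subtype.val (B_pow5 w)
    have h5 : w.1 = ((w.1)⁻¹ * (w.1)⁻¹) ^ 2 := by
      have : (((w.1)⁻¹ * (w.1)⁻¹) ^ 2 : F) = w.1 * (w.1 ^ 5)⁻¹ := by group
      rw [this, h4, inv_one, mul_one]
    apply hwN
    rw [h5]
    exact N.pow_mem h3 2
  intro n hn
  rw [MonoidHom.mem_ker]
  by_contra hne
  rcases H_mono (ψ n) hne with h | h | h | h
  · exact hz n hn h
  · exact hz (n * n) (N.mul_mem hn hn) (by rw [map_mul]; exact h)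
  · refine hz (n * (a 1 * n⁻¹ * (a 1)⁻¹))
      (N.mul_mem hn (Subgroup.Normal.conj_mem inferInstance _ (N.inv_mem hn) _)) ?_
    rw [map_mul, map_mul, map_mul, map_inv, map_inv, hψ1, ← h]
    group
  · refine hz (n * (a 0 * n⁻¹ * (a 0)⁻¹))
      (N.mul_mem hn (Subgroup.Normal.conj_mem inferInstance _ (N.inv_mem hn) _)) ?_
    rw [map_mul, map_mul, map_mul, map_inv, map_inv, hψ0, ← h]
    group

end Pool.Agent.H4.RK
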