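import Mathlib

set_option autoImplicit false

namespace Pool.Agent.H4.Rado

/-- The elementary abelian `2`-group of countable rank. -/
abbrev A := ℕ →₀ ZMod 2

lemma add_self (x : A) : x + x = 0 := by
  ext i
  simp only [Finsupp.coe_add, Pi.add_apply, Finsupp.coe_zero, Pi.zero_apply]
  generalize x i = t
  revert t; decide

lemma neg_eq (x : A) : -x = x := neg_eq_of_add_eq_zero_left (add_self x)

/-- The extension property. -/
def Star (S : Set A) : Prop :=
  ∀ U V : Finset A, Disjoint U V → ∃ z, (∀ u ∈ U, z + u ∈ S) ∧ (∀ v ∈ V, z + v ∉ S)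

lemma star_avoid {S : Set A} (h0 : (0 : A) ∉ S) (hS : Star S) (U V W : Finset A)
    (hUV : Disjoint U V) : ∃ z, z ∉ W ∧ (∀ u ∈ U, z + u ∈ S) ∧ (∀ v ∈ V, z + v ∉ S) := by
  classical
  obtain ⟨p, hp, -⟩ := hS (U ∪ V ∪ W) ∅ (by simp)
  have hpU : p ∉ U := by
    intro hpU
    have := hp p (by simp [hpU])
    rw [add_self] at this
    exact h0 this
  obtain ⟨z, hz1, hz2⟩ := hS U (insert p V) (by
    rw [Finset.disjoint_insert_right]; exact ⟨hpU, hUV⟩)
  refine ⟨z, ?_, hz1, fun v hv => hz2 v (by simp [hv])⟩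
  intro hzW
  have h1 := hp z (by simp [hzW])
  have h2 := hz2 p (by simp)
  rw [add_comm] at h1
  exact h2 h1

/-- Finite partial isomorphisms, given by their graphs. -/
def Good (S T : Set A) (G : AddSubgroup (A × A)) : Prop :=
  (G : Set (A × A)).Finite ∧ (∀ p ∈ G, p.1 = 0 ↔ p.2 = 0) ∧ ∀ p ∈ G, (p.1 ∈ S ↔ p.2 ∈ T)

lemma good_ext {S T : Set A} (hT0 : (0 : A) ∉ T) (hT : Star T)
    (G : AddSubgroup (A × A)) (hG : Good S T G) (a : A) :
    ∃ G', G ≤ G' ∧ Good S T G' ∧ ∃ b, (a, b) ∈ G' := by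
  classical
  by_cases ha : ∃ b, (a, b) ∈ G
  · exact ⟨G, le_rfl, hG, ha⟩
  obtain ⟨hfin, hinj, hST⟩ := hG
  set F : Finset (A × A) := hfin.toFinset with hF
  have memF : ∀ p, p ∈ F ↔ p ∈ G := fun p => by simp [hF]
  set U : Finset A := (F.filter (fun p => a + p.1 ∈ S)).image Prod.snd with hU
  set V : Finset A := (F.filter (fun p => a + p.1 ∉ S)).image Prod.snd with hV
  have hdis : Disjoint U V := by
    rw [Finset.disjoint_left]
    intro x hx hx'
    simp only [hU, hV, Finset.mem_image, Finset.mem_filter, memF] at hx hx'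
    obtain ⟨p, ⟨hp, hp2⟩, rfl⟩ := hx
    obtain ⟨q, ⟨hq, hq2⟩, hqp⟩ := hx'
    have h1 : p - q ∈ G := G.sub_mem hp hq
    have h2 := (hinj _ h1).2 (by simp [hqp])
    have h3 : p.1 = q.1 := by simpa [sub_eq_zero] using h2
    rw [h3] at hp2
    exact hq2 hp2
  obtain ⟨z, hzW, hzU, hzV⟩ := star_avoid hT0 hT U V (F.image Prod.snd) hdis
  have hpair : ∀ p ∈ G, (a + p.1 ∈ S ↔ z + p.2 ∈ T) := by
    intro p hp
    constructor
    · intro h
      apply hzU
      simp only [hU, Finset.mem_image, Finset.mem_filter, memF]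
      exact ⟨p, ⟨hp, h⟩, rfl⟩
    · intro h
      by_contra hc
      apply hzV p.2 _ h
      simp only [hV, Finset.mem_image, Finset.mem_filter, memF]
      exact ⟨p, ⟨hp, hc⟩, rfl⟩
  have hz2 : ∀ p ∈ G, z + p.2 ≠ 0 := by
    intro p hp h
    apply hzW
    simp only [Finset.mem_image, memF]
    refine ⟨p, hp, ?_⟩
    have : z = - p.2 := eq_neg_of_add_eq_zero_left h
    rw [this, neg_eq]
  have ha2 : ∀ p ∈ G, a + p.1 ≠ 0 := by
    intro p hp h
    apply ha
    refine ⟨p.2, ?_⟩
    have : a = - p.1 := eq_neg_of_add_eq_zero_left h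
    rw [this, neg_eq]
    exact hp
  -- the new graph
  let G' : AddSubgroup (A × A) :=
    { carrier := {p | p ∈ G ∨ p + (a, z) ∈ G}
      zero_mem' := Or.inl G.zero_mem
      add_mem' := by
        have h2 : ((a, z) : A × A) + (a, z) = 0 := by
          ext1 <;> simp [add_self]
        rintro p q (hp | hp) (hq | hq)
        · exact Or.inl (G.add_mem hp hq)
        · right
          have := G.add_mem hp hq
          rwa [← add_assoc] at this
        · right
          have := G.add_mem hp hq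
          rwa [add_right_comm] at this
        · left
          have := G.add_mem hp hq
          rw [add_add_add_comm, h2, add_zero] at this
          exact this
      neg_mem' := by
        have hn : ∀ x : A × A, -x = x := fun x => by ext1 <;> simp [neg_eq]
        intro x hx
        rw [hn]; exact hx }
  have memG' : ∀ p, p ∈ G' ↔ p ∈ G ∨ p + (a, z) ∈ G := fun p => Iff.rfl
  have h2 : ((a, z) : A × A) + (a, z) = 0 := by
    ext1 <;> simp [add_self]
  refine ⟨G', fun p hp => Or.inl hp, ⟨?_, ?_, ?_⟩, z, ?_⟩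
  · have : (G' : Set (A × A)) ⊆ (G : Set (A × A)) ∪ (fun p => p + (a, z)) '' (G : Set (A × A)) := by
      rintro p (hp | hp)
      · exact Or.inl hp
      · right
        refine ⟨p + (a, z), hp, ?_⟩
        simp only [add_assoc, h2, add_zero]
    exact (hfin.union (hfin.image _)).subset this
  · rintro p (hp | hp)
    · exact hinj p hp
    · have e : p = (a, z) + (p + (a, z)) := by
        rw [add_comm p, ← add_assoc, h2, zero_add]
      constructor
      · intro h
        exact absurd (by rw [e] at h; exact h) (ha2 _ hp)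
      · intro h
        exact absurd (by rw [e] at h; exact h) (hz2 _ hp)
  · rintro p (hp | hp)
    · exact hST p hp
    · have e : p = (a, z) + (p + (a, z)) := by
        rw [add_comm p, ← add_assoc, h2, zero_add]
      have := hpair _ hp
      rw [e]
      exact this
  · right
    rw [h2]
    exact G.zero_mem

lemma good_swap {S T : Set A} {G : AddSubgroup (A × A)} (h : Good S T G) :
    Good T S (G.map (AddEquiv.prodComm (M := A) (N := A)).toAddMonoidHom) := by
  obtain ⟨h1, h2, h3⟩ := h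
  refine ⟨?_, ?_, ?_⟩
  · rw [AddSubgroup.coe_map]
    exact h1.image _
  · rintro p ⟨q, hq, rfl⟩
    exact (h2 q hq).symm
  · rintro p ⟨q, hq, rfl⟩
    exact (h3 q hq).symm

lemma good_ext' {S T : Set A} (hS0 : (0 : A) ∉ S) (hS : Star S)
    (G : AddSubgroup (A × A)) (hG : Good S T G) (b : A) :
    ∃ G', G ≤ G' ∧ Good S T G' ∧ ∃ a, (a, b) ∈ G' := by
  obtain ⟨G', hle, hG', a, ha⟩ := good_ext hS0 hS _ (good_swap hG) b
  refine ⟨G'.map (AddEquiv.prodComm (M := A) (N := A)).toAddMonoidHom, ?_, good_swap hG', a, ?_⟩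
  · intro p hp
    refine ⟨(p.2, p.1), hle ⟨p, hp, rfl⟩, rfl⟩
  · exact ⟨(b, a), ha, rfl⟩

/-- Any two special sets are conjugate under an automorphism. -/
theorem exists_aut (S T : Set A) (hS0 : (0 : A) ∉ S) (hT0 : (0 : A) ∉ T) (hS : Star S)
    (hT : Star T) : ∃ α : A ≃+ A, ∀ x, x ∈ S ↔ α x ∈ T := by
  classical
  let P := {G : AddSubgroup (A × A) // Good S T G}
  have good_bot : Good S T ⊥ := by
    refine ⟨?_, ?_, ?_⟩
    · rw [AddSubgroup.coe_bot]; exact Set.finite_singleton _
    · intro p hp; rw [AddSubgroup.mem_bot] at hp; simp [hp]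
    · intro p hp; rw [AddSubgroup.mem_bot] at hp; simp [hp, hS0, hT0]
  let D : A ⊕ A → Order.Cofinal P := fun x => match x with
    | Sum.inl a => ⟨{G | ∃ b, (a, b) ∈ G.1}, fun G => by
        obtain ⟨G', h1, h2, h3⟩ := good_ext hT0 hT G.1 G.2 a
        exact ⟨⟨G', h2⟩, h3, h1⟩⟩
    | Sum.inr b => ⟨{G | ∃ a, (a, b) ∈ G.1}, fun G => by
        obtain ⟨G', h1, h2, h3⟩ := good_ext' hS0 hS G.1 G.2 b
        exact ⟨⟨G', h2⟩, h3, h1⟩⟩
  haveI : Encodable (A ⊕ A) := Encodable.ofCountable _
  let I := Order.idealOfCofinals (⟨⊥, good_bot⟩ : P) D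
  have hfun : ∀ a, ∃ b, ∃ G ∈ I, (a, b) ∈ G.1 := by
    intro a
    obtain ⟨G, h1, h2⟩ := Order.cofinal_meets_idealOfCofinals (⟨⊥, good_bot⟩ : P) D (Sum.inl a)
    obtain ⟨b, hb⟩ := h1
    exact ⟨b, G, h2, hb⟩
  have hsurj : ∀ b, ∃ a, ∃ G ∈ I, (a, b) ∈ G.1 := by
    intro b
    obtain ⟨G, h1, h2⟩ := Order.cofinal_meets_idealOfCofinals (⟨⊥, good_bot⟩ : P) D (Sum.inr b)
    obtain ⟨a, ha⟩ := h1
    exact ⟨a, G, h2, ha⟩
  have hdir : ∀ G ∈ I, ∀ G' ∈ I, ∃ H ∈ I, G ≤ H ∧ G' ≤ H := fun G hG G' hG' =>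
    I.directed G hG G' hG'
  choose f hf using hfun
  -- uniqueness
  have huniq : ∀ p q : A × A, (∃ G ∈ I, p ∈ G.1) → (∃ G ∈ I, q ∈ G.1) →
      ∃ G ∈ I, p ∈ G.1 ∧ q ∈ G.1 := by
    rintro p q ⟨G, hG, hp⟩ ⟨G', hG', hq⟩
    obtain ⟨H, hH, h1, h2⟩ := hdir G hG G' hG'
    exact ⟨H, hH, h1 hp, h2 hq⟩
  have hval : ∀ p : A × A, (∃ G ∈ I, p ∈ G.1) → f p.1 = p.2 := by
    intro p hp
    obtain ⟨G, hG, h1, h2⟩ := huniq (p.1, f p.1) p (hf p.1) hp
    have h3 := G.1.sub_mem h1 h2
    have h4 := (G.2.2.1 _ h3).1 (by simp)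
    simpa [sub_eq_zero] using h4
  have hadd : ∀ x y, f (x + y) = f x + f y := by
    intro x y
    obtain ⟨G, hG, h1, h2⟩ := huniq (x, f x) (y, f y) (hf x) (hf y)
    exact hval (x + y, f x + f y) ⟨G, hG, G.1.add_mem h1 h2⟩
  have hbij : Function.Bijective f := by
    constructor
    · intro x y hxy
      obtain ⟨G, hG, h1, h2⟩ := huniq (x, f x) (y, f y) (hf x) (hf y)
      have h3 := G.1.sub_mem h1 h2
      have h4 := (G.2.2.1 _ h3).2 (by simp [hxy])
      simpa [sub_eq_zero] using h4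
    · intro b
      obtain ⟨a, ha⟩ := hsurj b
      exact ⟨a, hval (a, b) ha⟩
  let α : A ≃+ A := AddEquiv.ofBijective (AddMonoidHom.mk' f hadd) hbij
  refine ⟨α, fun x => ?_⟩
  obtain ⟨G, hG, h1⟩ := hf x
  exact G.2.2.2 _ h1

/-- A special set exists. -/
theorem exists_special : ∃ S : Set A, (0 : A) ∉ S ∧ Star S := by
  classical
  obtain ⟨e, he⟩ := Countable.exists_injective_nat (Finset A × Finset A)
  -- a strict bound for all supports
  let bd : Finset A → ℕ := fun U => U.sup (fun u => u.support.sup id + 1)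
  have hbd : ∀ U : Finset A, ∀ u ∈ U, ∀ n, bd U ≤ n → u n = 0 := by
    intro U u hu n hn
    by_contra hne
    have h1 : n ∈ u.support := Finsupp.mem_support_iff.2 hne
    have h2 : n ≤ u.support.sup id := Finset.le_sup (f := id) h1
    have h3 : u.support.sup id + 1 ≤ bd U :=
      Finset.le_sup (f := fun u : A => u.support.sup id + 1) hu
    omega
  let N : Finset A × Finset A → ℕ := fun p => Nat.pair (e p) (bd (p.1 ∪ p.2))
  have hNinj : Function.Injective N := by
    intro p q h
    have := (Nat.pair_eq_pair.1 h).1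
    exact he this
  have hN : ∀ p, bd (p.1 ∪ p.2) ≤ N p := fun p => Nat.right_le_pair _ _
  let z : Finset A × Finset A → A := fun p => Finsupp.single (N p) 1
  refine ⟨{x | ∃ p : Finset A × Finset A, ∃ u ∈ p.1, x = z p + u}, ?_, ?_⟩
  · rintro ⟨p, u, hu, h⟩
    have h1 := congrArg (fun x : A => x (N p)) h
    simp only [Finsupp.coe_zero, Pi.zero_apply, Finsupp.coe_add, Pi.add_apply, z,
      Finsupp.single_eq_same] at h1
    rw [hbd (p.1 ∪ p.2) u (Finset.mem_union_left _ hu) _ (hN p)] at h1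
    revert h1; decide
  · intro U V hUV
    refine ⟨z (U, V), fun u hu => ⟨(U, V), u, hu, rfl⟩, ?_⟩
    rintro v hv ⟨p, u, hu, h⟩
    have hN1 := hN (U, V)
    have hN2 := hN p
    have hv0 : ∀ n, N (U, V) ≤ n → v n = 0 := fun n hn =>
      hbd (U ∪ V) v (Finset.mem_union_right _ hv) n (le_trans hN1 hn)
    have hu0 : ∀ n, N p ≤ n → u n = 0 := fun n hn =>
      hbd (p.1 ∪ p.2) u (Finset.mem_union_left _ hu) n (le_trans hN2 hn)
    have hev : ∀ n, z (U, V) n + v n = z p n + u n := fun n => by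
      have := congrArg (fun x : A => x n) h
      simpa using this
    rcases lt_trichotomy (N (U, V)) (N p) with hlt | heq | hgt
    · have h1 := hev (N p)
      rw [hv0 _ hlt.le, hu0 _ le_rfl] at h1
      simp only [z, Finsupp.single_eq_same, add_zero] at h1
      rw [Finsupp.single_eq_of_ne (by omega)] at h1
      revert h1; decide
    · have hp : (U, V) = p := hNinj heq
      rw [← hp] at h hu
      have : v = u := add_left_cancel h
      rw [← this] at hu
      exact (Finset.disjoint_left.1 hUV) hu hv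
    · have h1 := hev (N (U, V))
      rw [hv0 _ le_rfl, hu0 _ hgt.le] at h1
      simp only [z, Finsupp.single_eq_same, add_zero] at h1
      rw [Finsupp.single_eq_of_ne (by omega)] at h1
      revert h1; decide

theorem card_aut : Cardinal.mk (A ≃+ A) = Cardinal.continuum := by
  apply le_antisymm
  · calc Cardinal.mk (A ≃+ A) ≤ Cardinal.mk (A → A) :=
        Cardinal.mk_le_of_injective (f := fun e : A ≃+ A => (e : A → A)) DFunLike.coe_injective
      _ = Cardinal.mk A ^ Cardinal.mk A := by simp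
      _ = Cardinal.continuum := by
        rw [Cardinal.mk_eq_aleph0 A, Cardinal.aleph0_power_aleph0]
  · calc Cardinal.continuum = Cardinal.mk (Equiv.Perm ℕ) := by
          rw [Cardinal.mk_perm_eq_two_power, Cardinal.mk_nat, Cardinal.two_power_aleph0]
      _ ≤ Cardinal.mk (A ≃+ A) := by
        apply Cardinal.mk_le_of_injective
          (f := fun σ : Equiv.Perm ℕ => (Finsupp.domCongr σ : A ≃+ A))
        intro σ τ h
        ext n
        have h1 := congrArg (fun e : A ≃+ A => e (Finsupp.single n 1)) h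
        simp only [Finsupp.domCongr_apply, Finsupp.equivMapDomain_single] at h1
        have h2 := congrArg (fun x : A => x (σ n)) h1
        simp only [Finsupp.single_eq_same] at h2
        by_contra hne
        rw [Finsupp.single_eq_of_ne hne] at h2
        revert h2; decide

end Pool.Agent.H4.Rado
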