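import Mathlib

set_option autoImplicit false

namespace Pool.Agent.H4.SLin

/-- the Klein bottle group; `⟨n, m⟩` stands for `u ^ n * g ^ m` with `g * u * g⁻¹ = u⁻¹` -/
@[ext] structure KB where
  n : ℤ
  m : ℤ

def sg (m : ℤ) : ℤ := (Int.negOnePow m : ℤˣ)

theorem sg_add (a b : ℤ) : sg (a + b) = sg a * sg b := by
  unfold sg; rw [Int.negOnePow_add]; push_cast; rfl

theorem sg_zero : sg 0 = 1 := by unfold sg; simp

theorem sg_even {m : ℤ} (h : Even m) : sg m = 1 := by
  unfold sg; rw [Int.negOnePow_even m h]; rfl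

theorem sg_neg (m : ℤ) : sg (-m) = sg m := by
  unfold sg; rw [Int.negOnePow_neg]

theorem sg_sq (m : ℤ) : sg m * sg m = 1 := by
  rw [← sg_add]; exact sg_even ⟨m, rfl⟩

instance : Mul KB := ⟨fun x y => ⟨x.n + sg x.m * y.n, x.m + y.m⟩⟩
instance : One KB := ⟨⟨0, 0⟩⟩
instance : Inv KB := ⟨fun x => ⟨-(sg x.m * x.n), -x.m⟩⟩

theorem KB.mul_n (x y : KB) : (x * y).n = x.n + sg x.m * y.n := rfl
theorem KB.mul_m (x y : KB) : (x * y).m = x.m + y.m := rfl
theorem KB.one_n : (1 : KB).n = 0 := rfl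
theorem KB.one_m : (1 : KB).m = 0 := rfl
theorem KB.inv_n (x : KB) : (x⁻¹).n = -(sg x.m * x.n) := rfl
theorem KB.inv_m (x : KB) : (x⁻¹).m = -x.m := rfl

instance : Group KB := Group.ofLeftAxioms
  (by
    intro x y z
    ext
    · simp only [KB.mul_n, KB.mul_m, sg_add]; ring
    · simp only [KB.mul_m]; ring)
  (by
    intro x
    ext
    · simp only [KB.mul_n, KB.one_n, KB.one_m, sg_zero]; ring
    · simp only [KB.mul_m, KB.one_m]; ring)
  (by
    intro x
    ext
    · simp only [KB.mul_n, KB.inv_n, KB.inv_m, KB.one_n, sg_neg]; ring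
    · simp only [KB.mul_m, KB.inv_m, KB.one_m]; ring)

/-- positivity at level `j` -/
def pos (j : ℤ) (x : KB) : Prop :=
  if j = 0 then (0 < x.n ∨ (x.n = 0 ∧ 0 < x.m)) else (0 < x.m ∨ (x.m = 0 ∧ 0 < x.n))

/-- the admissible values at level `j` -/
def adm (j : ℤ) (x : KB) : Prop := (j = 0 → Even x.m) ∧ (0 < j → x = 1)

theorem not_pos_one (j : ℤ) : ¬ pos j 1 := by
  unfold pos
  simp [KB.one_n, KB.one_m]

theorem pos_mul {j : ℤ} {x y : KB} (hx : pos j x) (hy : pos j y) (hax : adm j x) (_ : adm j y) :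
    pos j (x * y) := by
  unfold pos at *
  by_cases h : j = 0
  · rw [if_pos h] at *
    rw [KB.mul_n, KB.mul_m, sg_even (hax.1 h), one_mul]
    omega
  · rw [if_neg h] at *
    rw [KB.mul_n, KB.mul_m]
    rcases hx with hx | ⟨hx, hx'⟩
    · rcases hy with hy | ⟨hy, hy'⟩
      · left; omega
      · left; omega
    · rcases hy with hy | ⟨hy, hy'⟩
      · left; omega
      · right
        rw [hx, sg_zero]
        omega

theorem pos_total {j : ℤ} {x : KB} (hx : x ≠ 1) (hax : adm j x) : pos j x ∨ pos j x⁻¹ := by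
  have hne : ¬ (x.n = 0 ∧ x.m = 0) := fun h => hx (KB.ext h.1 h.2)
  unfold pos
  by_cases h : j = 0
  · rw [if_pos h, if_pos h, KB.inv_n, KB.inv_m, sg_even (hax.1 h), one_mul]
    omega
  · rw [if_neg h, if_neg h, KB.inv_n, KB.inv_m]
    by_cases hm : x.m = 0
    · rw [hm, sg_zero, one_mul]
      omega
    · omega

theorem adm_mul {j : ℤ} {x y : KB} (hax : adm j x) (hay : adm j y) : adm j (x * y) := by
  refine ⟨fun h => ?_, fun h => ?_⟩
  · rw [KB.mul_m]; exact (hax.1 h).add (hay.1 h)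
  · rw [hax.2 h, hay.2 h, one_mul]

theorem adm_inv {j : ℤ} {x : KB} (hax : adm j x) : adm j x⁻¹ := by
  refine ⟨fun h => ?_, fun h => ?_⟩
  · rw [KB.inv_m]; exact (hax.1 h).neg
  · rw [hax.2 h, inv_one]

theorem adm_one (j : ℤ) : adm j 1 := ⟨fun _ => ⟨0, rfl⟩, fun _ => rfl⟩

/-- the group -/
@[ext] structure GG where
  f : ℤ → KB
  m : ℤ
  bd : ∃ b : ℤ, ∀ i, b < i → f i = 1

instance : Mul GG := ⟨fun x y => ⟨fun i => x.f i * y.f (i + x.m), x.m + y.m, by
  obtain ⟨b, hb⟩ := x.bd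
  obtain ⟨c, hc⟩ := y.bd
  refine ⟨max b (c - x.m), fun i hi => ?_⟩
  rw [hb i (by omega), hc (i + x.m) (by omega), one_mul]⟩⟩
instance : One GG := ⟨⟨fun _ => 1, 0, ⟨0, fun _ _ => rfl⟩⟩⟩
instance : Inv GG := ⟨fun x => ⟨fun i => (x.f (i - x.m))⁻¹, -x.m, by
  obtain ⟨b, hb⟩ := x.bd
  refine ⟨b + x.m, fun i hi => ?_⟩
  rw [hb (i - x.m) (by omega), inv_one]⟩⟩

theorem GG.mul_f (x y : GG) (i : ℤ) : (x * y).f i = x.f i * y.f (i + x.m) := rfl
theorem GG.mul_m (x y : GG) : (x * y).m = x.m + y.m := rfl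
theorem GG.one_f (i : ℤ) : (1 : GG).f i = 1 := rfl
theorem GG.one_m : (1 : GG).m = 0 := rfl
theorem GG.inv_f (x : GG) (i : ℤ) : (x⁻¹).f i = (x.f (i - x.m))⁻¹ := rfl
theorem GG.inv_m (x : GG) : (x⁻¹).m = -x.m := rfl

instance : Group GG := Group.ofLeftAxioms
  (by
    intro x y z
    refine GG.ext (funext fun i => ?_) ?_
    · simp only [GG.mul_f, GG.mul_m, mul_assoc, add_assoc]
    · simp only [GG.mul_m]; ring)
  (by
    intro x
    refine GG.ext (funext fun i => ?_) ?_
    · simp only [GG.mul_f, GG.one_f, GG.one_m, one_mul, add_zero]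
    · simp only [GG.mul_m, GG.one_m]; ring)
  (by
    intro x
    refine GG.ext (funext fun i => ?_) ?_
    · simp only [GG.mul_f, GG.inv_f, GG.inv_m, GG.one_f]
      rw [← sub_eq_add_neg, inv_mul_cancel]
    · simp only [GG.mul_m, GG.inv_m, GG.one_m]; ring)

/-- strict positivity of a function -/
def QP (f : ℤ → KB) : Prop := ∃ j : ℤ, (∀ i, j < i → f i = 1) ∧ pos j (f j)

def Adm (f : ℤ → KB) : Prop := ∀ j, adm j (f j)

theorem QP_mul {f f' : ℤ → KB} (hf : Adm f) (hf' : Adm f') (h : QP f) (h' : QP f') :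
    QP (fun i => f i * f' i) := by
  obtain ⟨j, hj, hp⟩ := h
  obtain ⟨k, hk, hp'⟩ := h'
  rcases lt_trichotomy j k with h | h | h
  · refine ⟨k, fun i hi => ?_, ?_⟩
    · change f i * f' i = 1
      rw [hj i (by omega), hk i hi, one_mul]
    · change pos k (f k * f' k)
      rw [hj k h, one_mul]; exact hp'
  · subst h
    refine ⟨j, fun i hi => ?_, ?_⟩
    · change f i * f' i = 1
      rw [hj i hi, hk i hi, one_mul]
    · exact pos_mul hp hp' (hf j) (hf' j)
  · refine ⟨j, fun i hi => ?_, ?_⟩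
    · change f i * f' i = 1
      rw [hj i hi, hk i (by omega), one_mul]
    · change pos j (f j * f' j)
      rw [hk j h, mul_one]; exact hp

theorem QP_one : ¬ QP (fun _ => 1) := by
  rintro ⟨j, _, hp⟩
  exact not_pos_one j hp

theorem QP_total {f : ℤ → KB} (hf : Adm f) (hne : ¬ ∀ i, f i = 1) :
    QP f ∨ QP (fun i => (f i)⁻¹) := by
  push Not at hne
  obtain ⟨i₀, hi₀⟩ := hne
  obtain ⟨j, hj, hmax⟩ := Int.exists_greatest_of_bdd (P := fun i => f i ≠ 1)
    ⟨0, fun i hi => by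
      by_contra h
      push Not at h
      exact hi ((hf i).2 h)⟩ ⟨i₀, hi₀⟩
  have htop : ∀ i, j < i → f i = 1 := by
    intro i hi
    by_contra h
    have := hmax i h
    omega
  rcases pos_total hj (hf j) with h | h
  · exact Or.inl ⟨j, htop, h⟩
  · exact Or.inr ⟨j, fun i hi => by
      change (f i)⁻¹ = 1
      rw [htop i hi, inv_one], h⟩

/-- the positive cone -/
def PP (x : GG) : Prop := Adm x.f ∧ (0 < x.m ∨ (x.m = 0 ∧ ((∀ i, x.f i = 1) ∨ QP x.f)))

theorem PP_one : PP 1 := ⟨fun j => adm_one j, Or.inr ⟨rfl, Or.inl fun _ => rfl⟩⟩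

theorem adm_shift {f : ℤ → KB} (hf : Adm f) {d : ℤ} (hd : 0 ≤ d) : Adm (fun i => f (i + d)) := by
  intro j
  rcases hd.eq_or_lt with h | h
  · subst h; simpa using hf j
  · refine ⟨fun h0 => ?_, fun hj => (hf _).2 (by omega)⟩
    change Even (f (j + d)).m
    rw [(hf (j + d)).2 (by omega)]
    exact ⟨0, rfl⟩

theorem PP_mul {x y : GG} (hx : PP x) (hy : PP y) : PP (x * y) := by
  obtain ⟨hx1, hx2⟩ := hx
  obtain ⟨hy1, hy2⟩ := hy
  have hxm : 0 ≤ x.m := by omega
  have hym : 0 ≤ y.m := by omega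
  have hadm : Adm (x * y).f := fun j => adm_mul (hx1 j) (adm_shift hy1 hxm j)
  refine ⟨hadm, ?_⟩
  rw [GG.mul_m]
  rcases hx2 with hx2 | ⟨hx2, hx3⟩
  · left; omega
  · rcases hy2 with hy2 | ⟨hy2, hy3⟩
    · left; omega
    · right
      refine ⟨by omega, ?_⟩
      have hf : (x * y).f = fun i => x.f i * y.f i := by
        funext i; rw [GG.mul_f, hx2, add_zero]
      rw [hf]
      rcases hx3 with hx3 | hx3
      · rcases hy3 with hy3 | hy3
        · left; intro i; change x.f i * y.f i = 1; rw [hx3, hy3, one_mul]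
        · right
          have : (fun i => x.f i * y.f i) = y.f := by funext i; rw [hx3, one_mul]
          rw [this]; exact hy3
      · rcases hy3 with hy3 | hy3
        · right
          have : (fun i => x.f i * y.f i) = x.f := by funext i; rw [hy3, mul_one]
          rw [this]; exact hx3
        · right; exact QP_mul hx1 hy1 hx3 hy3

theorem PP_anti {x : GG} (hx : PP x) (hx' : PP x⁻¹) : x = 1 := by
  have hm : x.m = 0 := by
    have h1 : 0 ≤ x.m := by have := hx.2; omega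
    have h2 : 0 ≤ (x⁻¹).m := by have := hx'.2; omega
    rw [GG.inv_m] at h2
    omega
  have hfi : (x⁻¹).f = fun i => (x.f i)⁻¹ := by
    funext i; rw [GG.inv_f, hm, sub_zero]
  have key : ∀ i, x.f i = 1 := by
    rcases hx.2 with h | ⟨_, h | h⟩
    · omega
    · exact h
    · exfalso
      rcases hx'.2 with h' | ⟨_, h' | h'⟩
      · rw [GG.inv_m] at h'; omega
      · rw [hfi] at h'
        obtain ⟨j, _, hp⟩ := h
        have : x.f j = 1 := inv_eq_one.mp (h' j)
        rw [this] at hp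
        exact not_pos_one j hp
      · have h1 := QP_mul hx.1 hx'.1 h h'
        have h2 : (fun i => x.f i * (x⁻¹).f i) = fun _ => 1 := by
          funext i; rw [hfi]; exact mul_inv_cancel _
        rw [h2] at h1
        exact QP_one h1
  exact GG.ext (funext key) hm

theorem PP_chain {a b : GG} (ha : PP a) (hb : PP b) : PP (b * a⁻¹) ∨ PP (a * b⁻¹) := by
  wlog hab : a.m ≤ b.m generalizing a b
  · exact (this hb ha (by omega)).symm
  have hf : (b * a⁻¹).f = fun i => b.f i * (a.f (i + (b.m - a.m)))⁻¹ := by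
    funext i
    rw [GG.mul_f, GG.inv_f]
    congr 3
    ring
  have hadm : Adm (b * a⁻¹).f := by
    rw [hf]
    intro j
    exact adm_mul (hb.1 j) (adm_inv (adm_shift ha.1 (by omega : 0 ≤ b.m - a.m) j))
  rcases hab.eq_or_lt with h | h
  · by_cases hne : ∀ i, (b * a⁻¹).f i = 1
    · left
      exact ⟨hadm, Or.inr ⟨by rw [GG.mul_m, GG.inv_m]; omega, Or.inl hne⟩⟩
    · rcases QP_total hadm hne with h1 | h1
      · left
        exact ⟨hadm, Or.inr ⟨by rw [GG.mul_m, GG.inv_m]; omega, Or.inr h1⟩⟩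
      · right
        have e : (a * b⁻¹).f = fun i => ((b * a⁻¹).f i)⁻¹ := by
          have : a * b⁻¹ = (b * a⁻¹)⁻¹ := by group
          rw [this]
          funext i
          rw [GG.inv_f, GG.mul_m, GG.inv_m]
          congr 2
          omega
        refine ⟨?_, Or.inr ⟨by rw [GG.mul_m, GG.inv_m]; omega, Or.inr ?_⟩⟩
        · rw [e]; intro j; exact adm_inv (hadm j)
        · rw [e]; exact h1
  · left
    exact ⟨hadm, Or.inl (by rw [GG.mul_m, GG.inv_m]; omega)⟩

theorem PP_dir (a b : GG) : ∃ c : GG, PP (c * a⁻¹) ∧ PP (c * b⁻¹) := by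
  have key : ∀ a : GG, ∃ n₀ : ℤ, ∀ n, n₀ ≤ n → PP ((⟨fun _ => 1, n, ⟨0, fun _ _ => rfl⟩⟩ : GG) * a⁻¹) := by
    intro a
    obtain ⟨β, hβ⟩ := a.bd
    refine ⟨max (a.m + 1) (β + a.m + 1), fun n hn => ⟨?_, Or.inl ?_⟩⟩
    · intro j
      have hval : ((⟨fun _ => 1, n, ⟨0, fun _ _ => rfl⟩⟩ : GG) * a⁻¹).f j = (a.f (j + n - a.m))⁻¹ := by
        rw [GG.mul_f, GG.inv_f]
        exact one_mul _
      rw [hval]
      refine ⟨fun h => ?_, fun h => ?_⟩
      · rw [hβ _ (by omega), inv_one]; exact ⟨0, rfl⟩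
      · rw [hβ _ (by omega), inv_one]
    · rw [GG.mul_m, GG.inv_m]
      change 0 < n + -a.m
      omega
  obtain ⟨n₁, h₁⟩ := key a
  obtain ⟨n₂, h₂⟩ := key b
  exact ⟨⟨fun _ => 1, max n₁ n₂, ⟨0, fun _ _ => rfl⟩⟩, h₁ _ (le_max_left _ _), h₂ _ (le_max_right _ _)⟩

/-- an element of the base group at level 0 -/
def lv (x : KB) : GG := ⟨fun i => if i = 0 then x else 1, 0, ⟨0, fun i hi => if_neg (by omega)⟩⟩

theorem lv_mul (x y : KB) : lv x * lv y = lv (x * y) := by
  refine GG.ext (funext fun i => ?_) ?_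
  · rw [GG.mul_f]
    change (if i = 0 then x else 1) * (if i + 0 = 0 then y else 1) = if i = 0 then x * y else 1
    rw [add_zero]
    split_ifs <;> simp
  · rfl

theorem lv_one : lv 1 = 1 := by
  refine GG.ext (funext fun i => ?_) rfl
  change (if i = 0 then (1 : KB) else 1) = 1
  split_ifs <;> rfl

theorem PP_lv {x : KB} (hx : Even x.m) (hp : pos 0 x) : PP (lv x) := by
  refine ⟨fun j => ?_, Or.inr ⟨rfl, Or.inr ⟨0, fun i hi => if_neg (by omega), ?_⟩⟩⟩
  · change adm j (if j = 0 then x else 1)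
    split_ifs with h
    · exact ⟨fun _ => hx, fun h' => by omega⟩
    · exact adm_one j
  · exact hp

theorem no_ext (s : GG → GG → Prop) (hrefl : ∀ a, s a a) (hanti : ∀ a b, s a b → s b a → a = b)
    (htrans : ∀ a b c, s a b → s b c → s a c) (htot : ∀ a b, s a b ∨ s b a)
    (hmul : ∀ a b c, s a b → s (a * c) (b * c)) (hext : ∀ x, PP x → s 1 x) : False := by
  let u : KB := ⟨1, 0⟩
  let g : KB := ⟨0, 1⟩
  have hsm : ∀ a b, s 1 a → s 1 b → s 1 (b * a) := by
    intro a b ha hb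
    have := hmul 1 b a hb
    rw [one_mul] at this
    exact htrans _ _ _ ha this
  have hu : s 1 (lv u) := hext _ (PP_lv ⟨0, rfl⟩ (by unfold pos; rw [if_pos rfl]; left; exact one_pos))
  have hv : s 1 (lv ⟨1, -2⟩) := hext _ (PP_lv ⟨-1, rfl⟩ (by
    unfold pos; rw [if_pos rfl]; left; exact one_pos))
  have hgg : s 1 (lv g * lv g) := by
    rw [lv_mul]
    exact hext _ (PP_lv ⟨1, rfl⟩ (by
      unfold pos; rw [if_pos rfl]; right
      refine ⟨?_, ?_⟩
      · rw [KB.mul_n]; simp [g]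
      · rw [KB.mul_m]; simp [g]))
  have hg : s 1 (lv g) := by
    rcases htot 1 (lv g) with h | h
    · exact h
    · exfalso
      have h1 := hmul _ _ (lv g) h
      rw [one_mul] at h1
      have h2 := htrans _ _ _ h1 h
      have h3 := hanti _ _ hgg h2
      have h4 := congrArg (fun z : GG => (z.f 0).m) h3
      rw [lv_mul] at h4
      change (0 : ℤ) = 1 + 1 at h4
      omega
  -- product of positives equal to one
  have h1 : s 1 (lv g * lv u * lv g) := hsm _ _ hg (hsm _ _ hu hg)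
  have h2 : s 1 (lv ⟨1, -2⟩ * (lv g * lv u * lv g)) := hsm _ _ h1 hv
  have e : lv ⟨1, -2⟩ * (lv g * lv u * lv g) = 1 := by
    rw [lv_mul, lv_mul, lv_mul, ← lv_one]
    congr 1
  have h3 := hmul _ _ (lv g * lv u * lv g) hv
  rw [e, one_mul] at h3
  have h4 := hanti _ _ h1 h3
  have h5 := congrArg (fun z : GG => (z.f 0).m) h4
  rw [lv_mul, lv_mul] at h5
  change (0 : ℤ) = 1 + 0 + 1 at h5
  omega

theorem main : ¬ (∀ (G : Type) [Group G] (r : G → G → Prop),
      (∀ a : G, r a a) →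
      (∀ a b : G, r a b → r b a → a = b) →
      (∀ a b c : G, r a b → r b c → r a c) →
      (∀ a b c : G, r a b → r (a * c) (b * c)) →
      (∀ a b : G, ∃ c : G, r a c ∧ r b c) →
      (∀ a b : G, r 1 a → r 1 b → r a b ∨ r b a) →
      ∃ s : G → G → Prop,
        (∀ a : G, s a a) ∧
        (∀ a b : G, s a b → s b a → a = b) ∧
        (∀ a b c : G, s a b → s b c → s a c) ∧
        (∀ a b : G, s a b ∨ s b a) ∧
        (∀ a b c : G, s a b → s (a * c) (b * c)) ∧
        (∀ a b : G, r a b → s a b)) := by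
  intro h
  obtain ⟨s, h1, h2, h3, h4, h5, h6⟩ := h GG (fun a b => PP (b * a⁻¹))
    (fun a => by rw [mul_inv_cancel]; exact PP_one)
    (fun a b hab hba => by
      have h1 : (b * a⁻¹)⁻¹ = a * b⁻¹ := by group
      have h2 := PP_anti hab (by rw [h1]; exact hba)
      exact (mul_inv_eq_one.mp h2).symm)
    (fun a b c hab hbc => by
      have : c * a⁻¹ = (c * b⁻¹) * (b * a⁻¹) := by group
      rw [this]; exact PP_mul hbc hab)
    (fun a b c hab => by
      have : b * c * (a * c)⁻¹ = b * a⁻¹ := by group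
      rw [this]; exact hab)
    PP_dir
    (fun a b ha hb => by
      rw [inv_one, mul_one] at ha hb
      exact PP_chain ha hb)
  exact no_ext s h1 h2 h3 h4 h5 (fun x hx => h6 1 x (by rw [inv_one, mul_one]; exact hx))

end Pool.Agent.H4.SLin
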