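import Mathlib

set_option autoImplicit false

namespace Pool.Agent.H4.UA

open Polynomial

section
variable {F R V : Type} [Field F] [CommRing R] [Algebra F R] [AddCommGroup V] [Module R V]
  [Module F V] [IsScalarTower F R V]

/-- finite rank -/
def FinRange (β : Module.End R V) : Prop := ∃ W : Submodule R V, W.FG ∧ ∀ v, β v ∈ W

theorem FinRange.add {β γ : Module.End R V} (hβ : FinRange β) (hγ : FinRange γ) :
    FinRange (β + γ) := by
  obtain ⟨W, hW, h⟩ := hβ
  obtain ⟨W', hW', h'⟩ := hγ
  exact ⟨W ⊔ W', hW.sup hW', fun v => Submodule.add_mem_sup (h v) (h' v)⟩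

theorem FinRange.mul_left {β : Module.End R V} (hβ : FinRange β) (φ : Module.End R V) :
    FinRange (φ * β) := by
  obtain ⟨W, hW, h⟩ := hβ
  exact ⟨W.map φ, hW.map φ, fun v => ⟨β v, h v, rfl⟩⟩

theorem FinRange.mul_right {β : Module.End R V} (hβ : FinRange β) (φ : Module.End R V) :
    FinRange (β * φ) := by
  obtain ⟨W, hW, h⟩ := hβ
  exact ⟨W, hW, fun v => h (φ v)⟩

theorem FinRange.smul {β : Module.End R V} (hβ : FinRange β) (c : F) :
    FinRange (c • β) := by
  obtain ⟨W, hW, h⟩ := hβ
  refine ⟨W, hW, fun v => ?_⟩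
  change c • β v ∈ W
  rw [← one_smul R (β v), ← smul_assoc]
  exact W.smul_mem _ (h v)

theorem FinRange.zero : FinRange (0 : Module.End R V) :=
  ⟨⊥, Submodule.fg_bot, fun _ => Submodule.zero_mem _⟩

theorem int_of_fin [Algebra.IsIntegral F R] {β : Module.End R V} (hβ : FinRange β) :
    IsIntegral F β := by
  obtain ⟨W, hW, h⟩ := hβ
  have : Module.Finite R W := Module.Finite.iff_fg.mpr hW
  let βW : Module.End R W := β.restrict (fun w _ => h w)
  have h1 : IsIntegral R βW := by
    obtain ⟨p, hp, hp'⟩ := LinearMap.exists_monic_and_aeval_eq_zero R βW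
    exact ⟨p, hp, hp'⟩
  have h2 : IsIntegral F βW := isIntegral_trans (R := F) (A := R) βW h1
  obtain ⟨q, hq, hq'⟩ := h2
  have hpow : ∀ (n : ℕ) (w : V) (hw : w ∈ W), (β ^ n) w = ((βW ^ n) ⟨w, hw⟩ : W) := by
    intro n
    induction n with
    | zero => intro w hw; rfl
    | succ n ih =>
      intro w hw
      rw [pow_succ, pow_succ, Module.End.mul_apply, Module.End.mul_apply]
      exact ih (β w) (h w)
  have key : ∀ (q : F[X]) (w : V) (hw : w ∈ W), (aeval β q) w = ((aeval βW q) ⟨w, hw⟩ : W) := by
    intro q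
    induction q using Polynomial.induction_on' with
    | add p q hp hq =>
      intro w hw
      rw [map_add, map_add, LinearMap.add_apply, LinearMap.add_apply, hp w hw, hq w hw]
      rfl
    | monomial n c =>
      intro w hw
      rw [aeval_monomial, aeval_monomial, ← Algebra.smul_def, ← Algebra.smul_def]
      change c • (β ^ n) w = ((c • ((βW ^ n) ⟨w, hw⟩) : W) : V)
      rw [hpow n w hw]
      rfl
  refine ⟨q * X, hq.mul monic_X, ?_⟩
  change aeval β (q * X) = 0
  rw [map_mul, aeval_X]
  apply LinearMap.ext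
  intro v
  rw [Module.End.mul_apply, key q (β v) (h v)]
  have : aeval βW q = 0 := hq'
  rw [this]
  rfl

theorem int_add [Algebra.IsIntegral F R] {α β : Module.End R V} (hα : IsIntegral F α)
    (hβ : FinRange β) : IsIntegral F (α + β) := by
  obtain ⟨p, hp, hp'⟩ := hα
  have hpα : aeval α (p * X) = 0 := by
    rw [map_mul]
    have : aeval α p = 0 := hp'
    rw [this, zero_mul]
  have key : ∀ n : ℕ, FinRange ((α + β) ^ n - α ^ n) := by
    intro n
    induction n with
    | zero => rw [pow_zero, pow_zero, sub_self]; exact FinRange.zero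
    | succ n ih =>
      have : (α + β) ^ (n + 1) - α ^ (n + 1) =
          ((α + β) ^ n - α ^ n) * (α + β) + α ^ n * β := by
        rw [pow_succ, pow_succ]; noncomm_ring
      rw [this]
      exact (ih.mul_right _).add (hβ.mul_left _)
  have key2 : ∀ q : F[X], FinRange (aeval (α + β) q - aeval α q) := by
    intro q
    induction q using Polynomial.induction_on' with
    | add p q hp hq =>
      rw [map_add, map_add, add_sub_add_comm]
      exact hp.add hq
    | monomial n c =>
      rw [aeval_monomial, aeval_monomial, ← mul_sub, ← Algebra.smul_def]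
      exact (key n).smul c
  have h1 := key2 (p * X)
  rw [hpα, sub_zero] at h1
  obtain ⟨q, hq, hq'⟩ : IsIntegral F (aeval (α + β) (p * X)) := int_of_fin h1
  refine ⟨q.comp (p * X), hq.comp (hp.mul monic_X) ?_, ?_⟩
  · rw [natDegree_mul_X hp.ne_zero]
    omega
  · change aeval (α + β) (q.comp (p * X)) = 0
    rw [aeval_comp]
    exact hq'

end

end Pool.Agent.H4.UA
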