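import Pool.Agent.H4.GS3
import Pool.Agent.H4.UA1

set_option autoImplicit false

namespace Pool.Agent.H4.UA

open Polynomial Pool.Agent.H4.GS TensorProduct

variable {F : Type} [Field F]

/-- the evaluation of the free algebra -/
noncomputable def ev {B : Type} [Ring B] [Algebra F B] (u : Fin 3 → B) : T F →ₐ[F] B :=
  MonoidAlgebra.lift F B W (FreeMonoid.lift u)

theorem ev_x {B : Type} [Ring B] [Algebra F B] (u : Fin 3 → B) (j : Fin 3) :
    ev u (x j : T F) = u j := by
  unfold ev x
  rw [MonoidAlgebra.lift_single, one_smul, FreeMonoid.lift_eval_of]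

theorem ev_comp {B C : Type} [Ring B] [Algebra F B] [Ring C] [Algebra F C] (f : B →ₐ[F] C)
    (u : Fin 3 → B) (t : T F) : f (ev u t) = ev (fun j => f (u j)) t := by
  have : f.comp (ev u) = ev (fun j => f (u j)) := by
    apply MonoidAlgebra.algHom_ext'
    · apply FreeMonoid.hom_eq
      intro j
      change f (ev u (x j : T F)) = ev (fun j => f (u j)) (x j : T F)
      rw [ev_x, ev_x]
    · exact Subsingleton.elim _ _
  exact DFunLike.congr_fun this t

theorem ev_unique {B : Type} [Ring B] [Algebra F B] (f : T F →ₐ[F] B) (t : T F) :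
    ev (fun j => f (x j)) t = f t := by
  have : ev (fun j => f (x j)) = f := by
    apply MonoidAlgebra.algHom_ext'
    · apply FreeMonoid.hom_eq
      intro j
      change ev (fun j => f (x j)) (x j : T F) = f (x j : T F)
      rw [ev_x]
    · exact Subsingleton.elim _ _
  exact DFunLike.congr_fun this t

section build
variable {R V : Type} [CommRing R] [Algebra F R] [AddCommGroup V] [Module R V]
  [Module F V] [IsScalarTower F R V]

theorem struct (ρ : T F →ₐ[F] Module.End R V) (e : Module.End R V) (he : FinRange e)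
    (b : Module.End R V)
    (hb : b ∈ Algebra.adjoin F (Set.range (fun j => ρ (x j)) ∪ {e})) :
    ∃ t : T F, ∃ β : Module.End R V, FinRange β ∧ b = ρ t + β := by
  induction hb using Algebra.adjoin_induction with
  | mem b hb =>
    rcases hb with ⟨j, rfl⟩ | hb
    · exact ⟨x j, 0, FinRange.zero, by rw [add_zero]⟩
    · rw [Set.mem_singleton_iff] at hb
      subst hb
      exact ⟨0, b, he, by rw [map_zero, zero_add]⟩
  | algebraMap c =>
    exact ⟨algebraMap F (T F) c, 0, FinRange.zero, by rw [add_zero, AlgHom.commutes]⟩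
  | add b c _ _ hb hc =>
    obtain ⟨t, β, hβ, rfl⟩ := hb
    obtain ⟨t', β', hβ', rfl⟩ := hc
    exact ⟨t + t', β + β', hβ.add hβ', by rw [map_add]; abel⟩
  | mul b c _ _ hb hc =>
    obtain ⟨t, β, hβ, rfl⟩ := hb
    obtain ⟨t', β', hβ', rfl⟩ := hc
    refine ⟨t * t', ρ t * β' + β * ρ t' + β * β',
      ((hβ'.mul_left _).add (hβ.mul_right _)).add (hβ.mul_right _), ?_⟩
    rw [map_mul]; noncomm_ring

theorem rho_int (ρ : T F →ₐ[F] Module.End R V)
    (hL : ∀ f : T F, ∃ (c : F) (N : ℕ), ρ ((f - algebraMap F (T F) c) ^ N) = 0)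
    (t : T F) : IsIntegral F (ρ t) := by
  obtain ⟨c, N, h⟩ := hL t
  refine ⟨(X - C c) ^ N, (monic_X_sub_C c).pow N, ?_⟩
  change aeval (ρ t) ((X - C c) ^ N) = 0
  rw [← h, map_pow, map_sub, aeval_X, aeval_C, map_pow, map_sub, AlgHom.commutes]

theorem build [Countable F] [Algebra.IsIntegral F R]
    (ρ : T F →ₐ[F] Module.End R V)
    (hL : ∀ f : T F, ∃ (c : F) (N : ℕ), ρ ((f - algebraMap F (T F) c) ^ N) = 0)
    (w : V) (hw : Function.Injective (fun r : R => r • w)) (a : ℕ → T F)
    (r : ℕ → R) (l : V →ₗ[R] R) (hl : ∀ n, l (ρ (a n) w) = r n) (s : ℕ → ℕ)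
    (hr : ∀ n, LinearIndependent F (fun j : Fin (s n) => r n ^ ((j : ℕ) + 1))) :
    ∃ (B : Type) (_ : Ring B) (_ : Algebra F B), (∀ b : B, IsIntegral F b) ∧ Countable B ∧
      ∃ y : Fin 4 → B, ∀ k, LinearIndependent F (fun j : Fin (s k) =>
        (y 3 * ev (fun j : Fin 3 => y j.castSucc) (a k)) ^ ((j : ℕ) + 1)) := by
  let e : Module.End R V := l.smulRight w
  have he : FinRange e := ⟨Submodule.span R {w}, Submodule.fg_span_singleton _, fun v => by
    change l v • w ∈ _
    exact Submodule.smul_mem _ _ (Submodule.mem_span_singleton_self _)⟩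
  let S : Set (Module.End R V) := Set.range (fun j => ρ (x j)) ∪ {e}
  let B := Algebra.adjoin F S
  have hX : ∀ j, ρ (x j) ∈ B := fun j => Algebra.subset_adjoin (Or.inl ⟨j, rfl⟩)
  have he' : e ∈ B := Algebra.subset_adjoin (Or.inr rfl)
  refine ⟨B, inferInstance, inferInstance, ?_, ?_, ?_⟩
  · rintro ⟨b, hb⟩
    obtain ⟨t, β, hβ, hb'⟩ := struct ρ e he b hb
    have h1 : IsIntegral F b := by
      rw [hb']
      exact int_add (rho_int ρ hL t) hβ
    exact (isIntegral_algHom_iff B.val Subtype.val_injective).mp h1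
  · rw [← Cardinal.mk_le_aleph0_iff]
    refine (Algebra.cardinalMk_adjoin_le F S).trans ?_
    refine max_le (max_le (Cardinal.mk_le_aleph0_iff.mpr inferInstance) ?_) le_rfl
    have : S.Countable := (Set.countable_range _).union (Set.countable_singleton _)
    exact Cardinal.mk_le_aleph0_iff.mpr this.to_subtype
  · refine ⟨Fin.snoc (fun j => ⟨_, hX j⟩) ⟨e, he'⟩, fun k => ?_⟩
    have e1 : (Fin.snoc (fun j => ⟨_, hX j⟩) ⟨e, he'⟩ : Fin 4 → B) 3 = ⟨e, he'⟩ :=
      Fin.snoc_last (α := fun _ => B) _ _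
    have e2 : (fun j : Fin 3 => (Fin.snoc (fun j => ⟨_, hX j⟩) ⟨e, he'⟩ : Fin 4 → B) j.castSucc) =
        fun j => ⟨_, hX j⟩ := by
      funext j
      exact Fin.snoc_castSucc (α := fun _ => B) _ _ _
    rw [e1, e2]
    set g : B := ⟨e, he'⟩ * ev (fun j => ⟨_, hX j⟩) (a k) with hg
    have hgE : (g : Module.End R V) = e * ρ (a k) := by
      rw [hg, Subalgebra.coe_mul]
      congr 1
      have := ev_comp B.val (fun j => (⟨_, hX j⟩ : B)) (a k)
      rw [Subalgebra.coe_val] at this
      rw [this]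
      exact ev_unique ρ (a k)
    have hgw : (g : Module.End R V) w = r k • w := by
      rw [hgE, Module.End.mul_apply]
      change l (ρ (a k) w) • w = _
      rw [hl]
    have hpow : ∀ n : ℕ, ((g : Module.End R V) ^ n) w = r k ^ n • w := by
      intro n
      induction n with
      | zero => rw [pow_zero, pow_zero, one_smul]; rfl
      | succ n ih => rw [pow_succ', Module.End.mul_apply, ih, map_smul, hgw, smul_smul, pow_succ]
    -- linear map B → V
    let θ : B →ₗ[F] V :=
      ((LinearMap.applyₗ (R := R) w).restrictScalars F).comp B.val.toLinearMap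
    apply LinearIndependent.of_comp θ
    have e3 : (θ ∘ fun j : Fin (s k) => g ^ ((j : ℕ) + 1)) =
        ((LinearMap.toSpanSingleton R V w).restrictScalars F) ∘
          (fun j : Fin (s k) => r k ^ ((j : ℕ) + 1)) := by
      funext j
      change ((g ^ ((j : ℕ) + 1) : B) : Module.End R V) w = r k ^ ((j : ℕ) + 1) • w
      rw [Subalgebra.coe_pow, hpow]
    rw [e3]
    refine (hr k).map' _ (LinearMap.ker_eq_bot.mpr ?_)
    exact hw

end build

end Pool.Agent.H4.UA
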