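import Pool.Agent.H4.UA2

set_option autoImplicit false

namespace Pool.Agent.H4.UA

open Polynomial Pool.Agent.H4.GS TensorProduct

/-- the coefficient ring -/
abbrev RR (F : Type) [Field F] : Type :=
  integralClosure F (∀ n : ℕ, AdjoinRoot (X ^ (n + 1) : F[X]))

variable {F : Type} [Field F]

instance : Algebra.IsIntegral F (RR F) := integralClosure.AlgebraIsIntegral

open Classical in
noncomputable def rr (n : ℕ) : RR F :=
  ⟨Pi.single n (AdjoinRoot.root (X ^ (n + 1) : F[X])), by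
    refine ⟨X ^ (n + 1), monic_X_pow _, ?_⟩
    rw [eval₂_X_pow]
    funext m
    rw [Pi.pow_apply]
    by_cases h : m = n
    · subst h
      rw [Pi.single_eq_same]
      have h2 := AdjoinRoot.aeval_eq (R := F) (f := (X ^ (m + 1) : F[X])) (X ^ (m + 1) : F[X])
      rw [AdjoinRoot.mk_self, aeval_X_pow] at h2
      exact h2
    · rw [Pi.single_eq_of_ne h, zero_pow (Nat.succ_ne_zero _)]; rfl⟩

theorem rr_li (n : ℕ) : LinearIndependent F (fun j : Fin n => (rr n : RR F) ^ ((j : ℕ) + 1)) := by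
  let f : RR F →ₗ[F] AdjoinRoot (X ^ (n + 1) : F[X]) :=
    (LinearMap.proj (R := F) (φ := fun n : ℕ => AdjoinRoot (X ^ (n + 1) : F[X])) n).comp
      (Subalgebra.val (integralClosure F (∀ n : ℕ, AdjoinRoot (X ^ (n + 1) : F[X])))).toLinearMap
  have hf : ∀ j : ℕ, f ((rr n : RR F) ^ (j + 1)) = (AdjoinRoot.root (X ^ (n + 1) : F[X])) ^ (j + 1) := by
    intro j
    change (((rr n : RR F) : ∀ n : ℕ, AdjoinRoot (X ^ (n + 1) : F[X])) ^ (j + 1)) n = _
    rw [Pi.pow_apply]
    congr 1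
    exact Pi.single_eq_same _ _
  apply LinearIndependent.of_comp f
  let pb := AdjoinRoot.powerBasis' (monic_X_pow (R := F) (n + 1))
  have h1 := pb.basis.linearIndependent
  have hd : pb.dim = n + 1 := by
    rw [AdjoinRoot.powerBasis'_dim, natDegree_X_pow]
  have h2 := h1.comp (fun j : Fin n => (⟨(j : ℕ) + 1, by rw [hd]; omega⟩ : Fin pb.dim)) (by
    intro i j hij
    have := congrArg Fin.val hij
    simp only at this
    exact Fin.ext (by omega))
  have e : (f ∘ fun j : Fin n => (rr n : RR F) ^ ((j : ℕ) + 1)) =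
      pb.basis ∘ (fun j : Fin n => (⟨(j : ℕ) + 1, by rw [hd]; omega⟩ : Fin pb.dim)) := by
    funext j
    simp only [Function.comp_apply]
    rw [pb.basis_eq_pow, hf]
    rfl
  rw [e]
  exact h2

section inst
variable {R : Type} [CommRing R] [Algebra F R] {M : Type} [AddCommGroup M] [Module F M]

theorem v0_inj {m0 : M} (hne : m0 ≠ 0) :
    Function.Injective (fun r : R => r • ((1 : R) ⊗ₜ[F] m0)) := by
  obtain ⟨φ, hφ⟩ : ∃ φ : M →ₗ[F] F, φ m0 = 1 := by
    by_contra hcon
    push Not at hcon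
    apply hne
    rw [← Module.forall_dual_apply_eq_zero_iff F]
    intro φ
    by_contra h0
    refine hcon ((φ m0)⁻¹ • φ) ?_
    rw [LinearMap.smul_apply, smul_eq_mul, inv_mul_cancel₀ h0]
  let ψ : R ⊗[F] M →ₗ[R] R :=
    LinearMap.liftBaseChange R ((Algebra.linearMap F R).comp φ)
  have hψ : ψ (1 ⊗ₜ m0) = 1 := by
    change LinearMap.liftBaseChange R ((Algebra.linearMap F R).comp φ) (1 ⊗ₜ m0) = 1
    rw [LinearMap.liftBaseChange_tmul, LinearMap.comp_apply, hφ, Algebra.linearMap_apply, map_one,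
      smul_eq_mul, mul_one]
  intro r s hrs
  have := congrArg ψ hrs
  simp only [map_smul, hψ, smul_eq_mul, mul_one] at this
  exact this

theorem exists_func (v : ℕ → M) (ha : LinearIndependent F v) (r : ℕ → R) :
    ∃ l : R ⊗[F] M →ₗ[R] R, ∀ n, l (1 ⊗ₜ v n) = r n := by
  obtain ⟨g, hg⟩ := LinearMap.exists_extend (((Module.Basis.span ha).constr F) r)
  refine ⟨LinearMap.liftBaseChange R g, fun n => ?_⟩
  rw [LinearMap.liftBaseChange_tmul, one_smul]
  have h := DFunLike.congr_fun hg ((Module.Basis.span ha) n)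
  rw [Module.Basis.constr_basis] at h
  rw [← h, LinearMap.comp_apply, Submodule.subtype_apply, Module.Basis.span_apply]

variable [Module (T F) M] [IsScalarTower F (T F) M]

variable (F R M) in
noncomputable def rhoE : T F →ₐ[F] Module.End R (R ⊗[F] M) :=
  (Module.End.baseChangeHom F R M).comp (Algebra.lsmul F F M)

theorem rhoE_v0 (t : T F) (m : M) : rhoE F R M t (1 ⊗ₜ m) = 1 ⊗ₜ (t • m) := by
  change (Algebra.lsmul F F M t).baseChange R (1 ⊗ₜ m) = _
  rw [LinearMap.baseChange_tmul]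
  rfl

theorem rhoE_zero (t : T F) (h : ∀ m : M, t • m = 0) : rhoE F R M t = 0 := by
  have : Algebra.lsmul F F M t = 0 := LinearMap.ext h
  change (Algebra.lsmul F F M t).baseChange R = 0
  rw [this, LinearMap.baseChange_zero]

theorem build2 [Countable F] [Algebra.IsIntegral F R]
    (hL : ∀ f : T F, ∃ (c : F) (N : ℕ), ∀ m : M, (f - algebraMap F (T F) c) ^ N • m = 0)
    (m0 : M) (hne : m0 ≠ 0) (a : ℕ → T F) (ha : LinearIndependent F (fun n => a n • m0))
    (r : ℕ → R) (s : ℕ → ℕ)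
    (hr : ∀ n, LinearIndependent F (fun j : Fin (s n) => r n ^ ((j : ℕ) + 1))) :
    ∃ (B : Type) (_ : Ring B) (_ : Algebra F B), (∀ b : B, IsIntegral F b) ∧ Countable B ∧
      ∃ y : Fin 4 → B, ∀ k, LinearIndependent F (fun j : Fin (s k) =>
        (y 3 * ev (fun j : Fin 3 => y j.castSucc) (a k)) ^ ((j : ℕ) + 1)) := by
  obtain ⟨l, hl⟩ := exists_func (R := R) _ ha r
  refine build (V := R ⊗[F] M) (rhoE F R M) (fun f => ?_) (1 ⊗ₜ m0) (v0_inj hne) a r l
    (fun n => ?_) s hr
  · obtain ⟨c, N, h⟩ := hL f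
    exact ⟨c, N, rhoE_zero _ h⟩
  · rw [← hl n]
    congr 1

end inst

theorem exists_alg (F : Type) [Field F] [Countable F] : ∃ a : ℕ → T F, ∀ s : ℕ → ℕ,
    ∃ (B : Type) (_ : Ring B) (_ : Algebra F B), (∀ b : B, IsIntegral F b) ∧ Countable B ∧
      ∃ y : Fin 4 → B, ∀ k, LinearIndependent F (fun j : Fin (s k) =>
        (y 3 * ev (fun j : Fin 3 => y j.castSucc) (a k)) ^ ((j : ℕ) + 1)) := by
  obtain ⟨L, a, hL, h1, ha⟩ := GS_exists (F := F)
  refine ⟨a, fun s => ?_⟩
  refine build2 (R := RR F) (M := T F ⧸ L) ?_ (Submodule.Quotient.mk 1) ?_ a ?_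
    (fun n => rr (s n)) s (fun n => rr_li (s n))
  · intro f
    obtain ⟨c, N, h⟩ := hL f
    refine ⟨c, N, fun m => ?_⟩
    obtain ⟨t, rfl⟩ := Submodule.Quotient.mk_surjective L m
    rw [← Submodule.Quotient.mk_smul, Submodule.Quotient.mk_eq_zero, smul_eq_mul]
    exact h t
  · intro h
    exact h1 ((Submodule.Quotient.mk_eq_zero L).mp h)
  · have e : (fun n => a n • (Submodule.Quotient.mk 1 : T F ⧸ L)) =
        fun n => (Submodule.Quotient.mk (a n) : T F ⧸ L) := by
      funext n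
      rw [← Submodule.Quotient.mk_smul, smul_eq_mul, mul_one]
    rw [e]
    exact ha

end Pool.Agent.H4.UA
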