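import Mathlib

set_option autoImplicit false

namespace Pool.Agent.H4.UA

/-- An associative algebra, not necessarily unital, is *algebraic* when every one-generated
subalgebra is finite-dimensional. -/
def AlgebraicAlg (F A : Type) [Field F] [NonUnitalRing A] [Module F A] [IsScalarTower F A A]
    [SMulCommClass F A A] : Prop :=
  ∀ a : A, FiniteDimensional F (NonUnitalAlgebra.adjoin F {a})

/-- `U` is *universal*: algebraic, of countable dimension, and mapping onto every algebraic
algebra of countable dimension. -/
structure UniversalAlg (F U : Type) [Field F] [NonUnitalRing U] [Module F U]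
    [IsScalarTower F U U] [SMulCommClass F U U] : Prop where
  algebraic : AlgebraicAlg F U
  countable_dim : Module.rank F U ≤ Cardinal.aleph0
  maps_onto : ∀ (A : Type) [NonUnitalRing A] [Module F A] [IsScalarTower F A A]
    [SMulCommClass F A A], AlgebraicAlg F A → Module.rank F A ≤ Cardinal.aleph0 →
    ∃ φ : U →ₙₐ[F] A, Function.Surjective φ

end Pool.Agent.H4.UA
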