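import Pool.Agent.H4.UA3
import Pool.Agent.H4.UADefs

set_option autoImplicit false

namespace Pool.Agent.H4.UA

open Polynomial Pool.Agent.H4.GS

theorem alg_of_int {F A : Type} [Field F] [Ring A] [Algebra F A] (h : ∀ a : A, IsIntegral F a) :
    AlgebraicAlg F A := by
  intro a
  have h1 : FiniteDimensional F (Algebra.adjoin F {a}) :=
    Module.Finite.iff_fg.mpr (h a).fg_adjoin_singleton
  let f : NonUnitalAlgebra.adjoin F {a} →ₗ[F] Algebra.adjoin F {a} :=
    { toFun := fun b => ⟨b, by
        have : NonUnitalAlgebra.adjoin F {a} ≤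
            (Algebra.adjoin F ({a} : Set A)).toNonUnitalSubalgebra :=
          NonUnitalAlgebra.adjoin_le Algebra.subset_adjoin
        exact this b.2⟩
      map_add' := fun _ _ => rfl
      map_smul' := fun _ _ => rfl }
  exact FiniteDimensional.of_injective f (fun b c hbc =>
    Subtype.ext (congrArg (fun z : Algebra.adjoin F ({a} : Set A) => (z : A)) hbc))

theorem finrank_ge {F A : Type} [Field F] [Ring A] [Algebra F A] (g : A) (n : ℕ)
    (hfd : FiniteDimensional F (NonUnitalAlgebra.adjoin F {g}))
    (hg : LinearIndependent F (fun j : Fin n => g ^ ((j : ℕ) + 1))) :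
    n ≤ Module.finrank F (NonUnitalAlgebra.adjoin F {g}) := by
  have hmem : ∀ j : ℕ, g ^ (j + 1) ∈ NonUnitalAlgebra.adjoin F {g} := by
    intro j
    induction j with
    | zero => rw [zero_add, pow_one]; exact NonUnitalAlgebra.subset_adjoin F rfl
    | succ j ih => rw [pow_succ]; exact mul_mem ih (NonUnitalAlgebra.subset_adjoin F rfl)
  let v : Fin n → NonUnitalAlgebra.adjoin F {g} := fun j => ⟨_, hmem j⟩
  have hv : LinearIndependent F v := by
    apply LinearIndependent.of_comp
      (NonUnitalSubalgebraClass.subtype (NonUnitalAlgebra.adjoin F {g}) : _ →ₗ[F] A)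
    exact hg
  have := hv.fintype_card_le_finrank
  rwa [Fintype.card_fin] at this

theorem countable_of_rank {F U : Type} [Field F] [Countable F] [AddCommGroup U] [Module F U]
    (h : Module.rank F U ≤ Cardinal.aleph0) : Countable U := by
  obtain ⟨ι, b⟩ := Module.Free.exists_basis F U
  have h1 : Cardinal.mk ι ≤ Cardinal.aleph0 := by
    rw [b.mk_eq_rank'']; exact h
  have : Countable ι := Cardinal.mk_le_aleph0_iff.mp h1
  exact b.repr.injective.countable

theorem rank_of_countable {F U : Type} [Field F] [AddCommGroup U] [Module F U]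
    [Countable U] : Module.rank F U ≤ Cardinal.aleph0 :=
  (rank_le_card F U).trans (Cardinal.mk_le_aleph0_iff.mpr inferInstance)

section diag
variable {F U : Type} [Field F] [NonUnitalRing U] [Module F U] [IsScalarTower F U U]
  [SMulCommClass F U U]

/-- the element of `U` -/
noncomputable def hh (a : T F) (u : Fin 4 → U) : U :=
  ((Unitization.inr (u 3) : Unitization F U) *
    ev (fun j : Fin 3 => (Unitization.inr (u j.castSucc) : Unitization F U)) a).snd

theorem hh_map {B : Type} [Ring B] [Algebra F B] (φ : U →ₙₐ[F] B) (a : T F) (u : Fin 4 → U) :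
    φ (hh a u) = φ (u 3) * ev (fun j : Fin 3 => φ (u j.castSucc)) a := by
  have h1 : (Unitization.inr (hh a u) : Unitization F U) = (Unitization.inr (u 3) : Unitization F U) *
    ev (fun j : Fin 3 => (Unitization.inr (u j.castSucc) : Unitization F U)) a := by
    apply Unitization.ext
    · rw [Unitization.fst_inr, Unitization.fst_mul, Unitization.fst_inr, zero_mul]
    · rw [Unitization.snd_inr]; rfl
  have h2 := congrArg (Unitization.lift φ) h1
  have h3 : ∀ v : U, (Unitization.lift φ) (Unitization.inr v : Unitization F U) = φ v := fun v => by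
    change algebraMap F B 0 + φ v = φ v
    rw [map_zero, zero_add]
  rw [map_mul, ev_comp, h3, h3] at h2
  rw [h2]
  congr 2
  exact congrArg ev (funext fun j => h3 _)

theorem diag [Countable F] (hU : UniversalAlg F U) : False := by
  obtain ⟨a, hB⟩ := exists_alg F
  have hcU : Countable U := countable_of_rank hU.countable_dim
  obtain ⟨en, hen⟩ := exists_surjective_nat (Fin 4 → U)
  obtain ⟨B, _, _, hint, hcB, y, hy⟩ := hB
    (fun k => Module.finrank F (NonUnitalAlgebra.adjoin F {hh (a k) (en k)}) + 1)
  obtain ⟨φ, hφ⟩ := hU.maps_onto B (alg_of_int hint) rank_of_countable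
  choose u hu using fun i => hφ (y i)
  obtain ⟨k, hk⟩ := hen u
  have hyk := hy k
  rw [hk] at hyk
  have e1 : φ (hh (a k) u) = y 3 * ev (fun j : Fin 3 => y j.castSucc) (a k) := by
    rw [hh_map, hu]
    congr 2
    exact congrArg ev (funext fun j => hu _)
  rw [← e1] at hyk
  have h1 := finrank_ge _ _ (alg_of_int hint _) hyk
  have hfd : FiniteDimensional F (NonUnitalAlgebra.adjoin F {hh (a k) u}) := hU.algebraic _
  have h2 : (NonUnitalAlgebra.adjoin F {φ (hh (a k) u)}) =
      (NonUnitalAlgebra.adjoin F {hh (a k) u}).map φ := by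
    rw [NonUnitalAlgHom.map_adjoin_singleton]
  let f : NonUnitalAlgebra.adjoin F {hh (a k) u} →ₗ[F]
      NonUnitalAlgebra.adjoin F {φ (hh (a k) u)} :=
    { toFun := fun b => ⟨φ b, by rw [h2]; exact ⟨b, b.2, rfl⟩⟩
      map_add' := fun b c => Subtype.ext (map_add φ _ _)
      map_smul' := fun c b => Subtype.ext (map_smul φ _ _) }
  have h3 : Function.Surjective f := by
    rintro ⟨b, hb⟩
    have hb' := hb
    rw [h2] at hb'
    obtain ⟨c, hc, rfl⟩ := hb'
    exact ⟨⟨c, hc⟩, rfl⟩
  have h4 := LinearMap.finrank_le_finrank_of_surjective h3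
  omega

end diag

end Pool.Agent.H4.UA
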