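import Mathlib

set_option autoImplicit false

namespace Pool.Agent.H4.VI

open MvPolynomial

abbrev A := MvPolynomial (Fin 2) (ZMod 2)

noncomputable def I : Ideal A := Ideal.span {(X 0 : A) ^ 3, (X 1 : A) ^ 3}

noncomputable def J : Ideal A := Ideal.span {(X 0 + X 1 : A)}

def K (n : ℕ) : Ideal A where
  carrier := {f | ∀ e ∈ f.support, n ≤ e 0 / 3 + e 1 / 3}
  zero_mem' := by intro e he; simp at he
  add_mem' := by
    intro f g hf hg e he
    rcases Finset.mem_union.1 (MvPolynomial.support_add he) with h | h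
    · exact hf e h
    · exact hg e h
  smul_mem' := by
    intro g f hf e he
    have he' : e ∈ (g * f).support := he
    obtain ⟨a, ha, b, hb, rfl⟩ := Finset.mem_add.1 (MvPolynomial.support_mul g f he')
    have := hf b hb
    have h0 : b 0 / 3 ≤ (a + b) 0 / 3 := Nat.div_le_div_right (by simp)
    have h1 : b 1 / 3 ≤ (a + b) 1 / 3 := Nat.div_le_div_right (by simp)
    omega

theorem mem_K {n : ℕ} {f : A} : f ∈ K n ↔ ∀ e ∈ f.support, n ≤ e 0 / 3 + e 1 / 3 := Iff.rfl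

theorem K_mul (m n : ℕ) : K m * K n ≤ K (m + n) := by
  rw [Ideal.mul_le]
  intro f hf g hg e he
  obtain ⟨a, ha, b, hb, rfl⟩ := Finset.mem_add.1 (MvPolynomial.support_mul f g he)
  have h1 := hf a ha
  have h2 := hg b hb
  have e0 : (a + b) 0 = a 0 + b 0 := rfl
  have e1 : (a + b) 1 = a 1 + b 1 := rfl
  rw [e0, e1]
  omega

theorem I_le : I ≤ K 1 := by
  unfold I
  rw [Ideal.span_le]
  rintro f (rfl | rfl)
  · intro e he
    rw [MvPolynomial.X_pow_eq_monomial] at he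
    have := MvPolynomial.support_monomial_subset he
    rw [Finset.mem_singleton] at this
    subst this
    simp
  · intro e he
    rw [MvPolynomial.X_pow_eq_monomial] at he
    have := MvPolynomial.support_monomial_subset he
    rw [Finset.mem_singleton] at this
    subst this
    simp

theorem Ipow_le (n : ℕ) : I ^ n ≤ K n := by
  induction n with
  | zero => intro f _ e _; exact Nat.zero_le _
  | succ n ih =>
    rw [pow_succ]
    exact (Ideal.mul_mono ih I_le).trans (K_mul n 1)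

theorem coeff_pow (m i : ℕ) (hi : i ≤ m) :
    coeff (Finsupp.single 0 i + Finsupp.single 1 (m - i)) ((X 0 + X 1 : A) ^ m) = (m.choose i : ZMod 2) := by
  rw [add_pow, coeff_sum]
  have h : ∀ j ∈ Finset.range (m + 1),
      coeff (Finsupp.single 0 i + Finsupp.single 1 (m - i)) ((X 0 : A) ^ j * X 1 ^ (m - j) * (m.choose j : A)) =
      if j = i then (m.choose j : ZMod 2) else 0 := by
    intro j _
    have e : (X 0 : A) ^ j * X 1 ^ (m - j) * (m.choose j : A) =
        monomial (Finsupp.single 0 j + Finsupp.single 1 (m - j)) (m.choose j : ZMod 2) := by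
      rw [MvPolynomial.X_pow_eq_monomial, MvPolynomial.X_pow_eq_monomial, monomial_mul,
        show ((m.choose j : ℕ) : A) = C ((m.choose j : ℕ) : ZMod 2) by simp, mul_comm, C_mul_monomial]
      simp
    rw [e, coeff_monomial]
    by_cases hj : j = i
    · subst hj; simp
    · rw [if_neg hj, if_neg]
      intro h
      apply hj
      have := DFunLike.congr_fun h 0
      simpa using this
  rw [Finset.sum_congr rfl h, Finset.sum_ite_eq' (Finset.range (m + 1)) i, if_pos (Finset.mem_range.2 (by omega))]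

theorem J_pow (m : ℕ) : J ^ m = Ideal.span {(X 0 + X 1 : A) ^ m} := by
  unfold J; rw [Ideal.span_singleton_pow]

theorem J_le_iff (m n : ℕ) : J ^ m ≤ I ^ n ↔ (X 0 + X 1 : A) ^ m ∈ I ^ n := by
  rw [J_pow, Ideal.span_le, Set.singleton_subset_iff]; rfl

theorem upper {m n i : ℕ} (hi : i ≤ m) (hodd : m.choose i % 2 = 1) (h : J ^ m ≤ I ^ n) :
    n ≤ i / 3 + (m - i) / 3 := by
  have h1 := Ipow_le n ((J_le_iff m n).1 h)
  have h2 := h1 (Finsupp.single 0 i + Finsupp.single 1 (m - i)) (by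
    rw [mem_support_iff, coeff_pow m i hi]
    intro h0
    rw [ZMod.natCast_eq_zero_iff] at h0
    omega)
  simpa using h2

theorem Xpow_mem (j : Fin 2) (N : ℕ) : (X j : A) ^ N ∈ I ^ (N / 3) := by
  have h1 : (X j : A) ^ 3 ∈ I := by
    apply Ideal.subset_span
    fin_cases j <;> simp
  have h2 : ((X j : A) ^ 3) ^ (N / 3) ∈ I ^ (N / 3) := Ideal.pow_mem_pow h1 _
  have h3 : (X j : A) ^ N = (X j : A) ^ (N % 3) * ((X j : A) ^ 3) ^ (N / 3) := by
    rw [← pow_mul, ← pow_add]; congr 1; omega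
  rw [h3]
  exact Ideal.mul_mem_left _ _ h2

theorem four_mem (k : ℕ) : J ^ (4 ^ k) ≤ I ^ (4 ^ k / 3) := by
  rw [J_le_iff]
  have : (X 0 + X 1 : A) ^ (4 ^ k) = X 0 ^ (4 ^ k) + X 1 ^ (4 ^ k) := by
    rw [show (4 : ℕ) ^ k = 2 ^ (2 * k) by rw [pow_mul]; norm_num]
    exact add_pow_char_pow (X 0 : A) (X 1) 2 (2 * k)
  rw [this]
  exact Ideal.add_mem _ (Xpow_mem 0 _) (Xpow_mem 1 _)

noncomputable def v (m : ℕ) : ℕ := sSup {n : ℕ | J ^ m ≤ I ^ n}

theorem bdd (m : ℕ) : BddAbove {n : ℕ | J ^ m ≤ I ^ n} := by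
  refine ⟨m / 3, fun n hn => ?_⟩
  have := upper (i := 0) (Nat.zero_le m) (by simp) hn
  simpa using this

theorem v_four (k : ℕ) : v (4 ^ k) = 4 ^ k / 3 := by
  apply le_antisymm
  · apply csSup_le ⟨_, four_mem k⟩
    intro n hn
    have := upper (i := 0) (Nat.zero_le _) (by simp) hn
    simpa using this
  · exact le_csSup (bdd _) (four_mem k)

theorem v_le {m i : ℕ} (hi : i ≤ m) (hodd : m.choose i % 2 = 1) : v m ≤ i / 3 + (m - i) / 3 := by
  apply csSup_le ⟨0, by show J ^ m ≤ I ^ 0; simp⟩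
  intro n hn
  exact upper hi hodd hn

theorem choose_odd (e : ℕ) : ∀ r q : ℕ, r < 2 ^ e → (r + 2 ^ e * q).choose (2 ^ e) % 2 = q % 2 := by
  induction e with
  | zero => intro r q hr; have : r = 0 := by simpa using hr
            subst this; simp
  | succ e ih =>
    intro r q hr
    have : Fact (Nat.Prime 2) := ⟨Nat.prime_two⟩
    have h := Choose.choose_modEq_choose_mod_mul_choose_div_nat (n := r + 2 ^ (e + 1) * q) (k := 2 ^ (e + 1)) (p := 2)
    have h1 : 2 ^ (e + 1) % 2 = 0 := by rw [pow_succ]; omega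
    have h2 : 2 ^ (e + 1) / 2 = 2 ^ e := by rw [pow_succ]; omega
    have h3 : (r + 2 ^ (e + 1) * q) / 2 = r / 2 + 2 ^ e * q := by
      rw [show 2 ^ (e + 1) * q = 2 * (2 ^ e * q) by ring]; omega
    rw [h1, h2, h3, Nat.choose_zero_right, one_mul] at h
    have h4 := ih (r / 2) q (by rw [pow_succ] at hr; omega)
    rw [← h4]
    exact h

theorem two_pow_odd (e : ℕ) : 2 ^ (2 * e + 1) % 3 = 2 := by
  rw [pow_succ, pow_mul]
  norm_num [Nat.mul_mod, Nat.pow_mod]

theorem four_pow (k : ℕ) : 4 ^ k % 3 = 1 := by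
  norm_num [Nat.pow_mod]

theorem not_periodic (t : ℕ) (ht : 0 < t) (M : ℕ)
    (h : ∀ m : ℕ, M ≤ m → ((v (m + 1 + t) : ℕ) : ℤ) - (v (m + t) : ℤ) = (v (m + 1) : ℤ) - (v m : ℤ)) : False := by
  -- constant difference
  obtain ⟨c, hc⟩ : ∃ c : ℤ, ∀ m, M ≤ m → ((v (m + t) : ℕ) : ℤ) - (v m : ℤ) = c := by
    refine ⟨(v (M + t) : ℤ) - v M, fun m hm => ?_⟩
    induction m, hm using Nat.le_induction with
    | base => rfl
    | succ m hm ih =>
      have := h m hm
      rw [show m + 1 + t = m + 1 + t from rfl]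
      linarith
  have hj : ∀ j m, M ≤ m → ((v (m + j * t) : ℕ) : ℤ) - (v m : ℤ) = j * c := by
    intro j
    induction j with
    | zero => intro m _; simp
    | succ j ih =>
      intro m hm
      have h1 := ih m hm
      have h2 := hc (m + j * t) (by omega)
      rw [show m + (j + 1) * t = m + j * t + t by ring]
      push_cast
      linarith
  -- pigeonhole
  have h4M : ∀ k, M ≤ k → M ≤ 4 ^ k := fun k hk => hk.trans (Nat.lt_pow_self (by norm_num)).le
  obtain ⟨k1, k2, hk12, hmod⟩ : ∃ k1 k2 : ℕ, k1 < k2 ∧ 4 ^ (M + k1) % t = 4 ^ (M + k2) % t := by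
    have : ¬ Function.Injective (fun k : ℕ => (⟨4 ^ (M + k) % t, Nat.mod_lt _ ht⟩ : Fin t)) :=
      not_injective_infinite_finite _
    unfold Function.Injective at this
    push Not at this
    obtain ⟨a, b, h1, h2⟩ := this
    have h1' : 4 ^ (M + a) % t = 4 ^ (M + b) % t := by simpa using h1
    rcases lt_or_gt_of_ne h2 with h3 | h3
    · exact ⟨a, b, h3, h1'⟩
    · exact ⟨b, a, h3, h1'.symm⟩
  have hlt : 4 ^ (M + k1) < 4 ^ (M + k2) := Nat.pow_lt_pow_right (by norm_num) (by omega)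
  obtain ⟨j, hj'⟩ : ∃ j, 4 ^ (M + k2) = 4 ^ (M + k1) + j * t := by
    have : t ∣ 4 ^ (M + k2) - 4 ^ (M + k1) := (Nat.modEq_iff_dvd' hlt.le).1 hmod
    obtain ⟨j, hj⟩ := this
    exact ⟨j, by rw [mul_comm]; omega⟩
  have hjpos : 0 < j := by
    rcases Nat.eq_zero_or_pos j with h0 | h0
    · subst h0; simp at hj'; omega
    · exact h0
  have hc3 : 3 * c = t := by
    have h1 := hj j (4 ^ (M + k1)) (h4M _ (by omega))
    rw [← hj', v_four, v_four] at h1
    have f1 := four_pow (M + k1)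
    have f2 := four_pow (M + k2)
    have e1 : (3 : ℤ) * ((4 ^ (M + k1) / 3 : ℕ) : ℤ) = ((4 ^ (M + k1) : ℕ) : ℤ) - 1 := by omega
    have e2 : (3 : ℤ) * ((4 ^ (M + k2) / 3 : ℕ) : ℤ) = ((4 ^ (M + k2) : ℕ) : ℤ) - 1 := by omega
    have e3 : ((4 ^ (M + k2) : ℕ) : ℤ) = ((4 ^ (M + k1) : ℕ) : ℤ) + j * t := by rw [hj']; push_cast; ring
    have e4 : (j : ℤ) * (3 * c) = j * t := by linarith
    exact mul_left_cancel₀ (by exact_mod_cast hjpos.ne') e4
  -- final choice
  obtain ⟨a, t', hodd, ht'⟩ := Nat.exists_eq_two_pow_mul_odd ht.ne'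
  set e := 2 * (a + (M + 1)) + 1 with he
  have hea : a ≤ e := by omega
  have h3t : t % 3 = 0 := by omega
  have h3t' : t' % 3 = 0 := by
    have h1 : 3 ∣ 2 ^ a * t' := by rw [← ht']; omega
    have h2 : Nat.Coprime 3 (2 ^ a) := Nat.Coprime.pow_right a (by norm_num)
    have := h2.dvd_of_dvd_mul_left h1
    omega
  have hjt : 2 ^ (e - a) * t = 2 ^ e * t' := by
    rw [ht', ← mul_assoc, ← pow_add]; congr 2; omega
  have hlt2 : 4 ^ M < 2 ^ e := by
    rw [show (4 : ℕ) ^ M = 2 ^ (2 * M) by rw [pow_mul]; norm_num]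
    exact Nat.pow_lt_pow_right (by norm_num) (by omega)
  have key := hj (2 ^ (e - a)) (4 ^ M) (h4M _ le_rfl)
  rw [hjt, v_four] at key
  have hch := choose_odd e (4 ^ M) t' hlt2
  have ht1 : t' % 2 = 1 := Nat.odd_iff.1 hodd
  rw [ht1] at hch
  have hle : 2 ^ e ≤ 4 ^ M + 2 ^ e * t' := by
    have : 1 ≤ t' := by omega
    have h9 : 2 ^ e * 1 ≤ 2 ^ e * t' := Nat.mul_le_mul_left _ this
    rw [mul_one] at h9
    exact h9.trans (Nat.le_add_left _ _)
  have hv := v_le hle hch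
  have g1 := four_pow M
  have g2 : 2 ^ e % 3 = 2 := two_pow_odd _
  have g3 : (2 ^ e * t') % 3 = 0 := by rw [Nat.mul_mod, h3t']; simp
  have g4 : ((2 ^ (e - a) : ℕ) : ℤ) * (3 * c) = ((2 ^ e * t' : ℕ) : ℤ) := by
    rw [hc3, ← hjt]; push_cast; ring
  generalize 2 ^ e * t' = P at *
  generalize 2 ^ e = Q at *
  generalize 4 ^ M = F at *
  push_cast at key g4
  have g5 : ((v (F + P) : ℕ) : ℤ) * 3 = 3 * ((F / 3 : ℕ) : ℤ) + P := by
    push_cast
    linarith
  omega

theorem rad : J ≤ I.radical := by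
  unfold J
  rw [Ideal.span_le, Set.singleton_subset_iff]
  have h : ∀ j : Fin 2, (X j : A) ∈ I.radical := by
    intro j
    refine ⟨3, Ideal.subset_span ?_⟩
    fin_cases j <;> simp
  exact Ideal.add_mem _ (h 0) (h 1)

theorem I_ne (n : ℕ) : I ^ n ≠ ⊥ := by
  intro h
  have h1 : ((X 0 : A) ^ 3) ^ n ∈ I ^ n := Ideal.pow_mem_pow (Ideal.subset_span (by simp)) n
  rw [h, Ideal.mem_bot] at h1
  exact pow_ne_zero _ (pow_ne_zero _ (X_ne_zero 0)) h1

theorem I_inf : (⨅ n : ℕ, I ^ n) = ⊥ := by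
  rw [eq_bot_iff]
  intro f hf
  rw [Ideal.mem_bot]
  by_contra h0
  obtain ⟨e, he⟩ := MvPolynomial.support_nonempty.2 h0
  have h1 : ∀ n, f ∈ I ^ n := fun n => (Ideal.mem_iInf.1 hf) n
  have := Ipow_le (e 0 / 3 + e 1 / 3 + 1) (h1 _) e he
  omega

theorem J_ne (m : ℕ) : J ^ m ≠ ⊥ := by
  rw [J_pow]
  intro h
  rw [Ideal.span_singleton_eq_bot] at h
  have h1 : (X 0 + X 1 : A) ≠ 0 := by
    intro h2
    have h3 := coeff_pow 1 0 (by norm_num)
    rw [pow_one, h2] at h3
    simp at h3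
  exact pow_ne_zero m h1 h

end Pool.Agent.H4.VI
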