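import Mathlib

set_option autoImplicit false

namespace Pool.Agent.H4.WZ

/-- A group with a faithful linear action on a rational vector space which acts trivially on the
factors of a finite descending chain of subspaces from the whole space to zero. -/
def Unip (N : Type) [Group N] : Prop :=
  ∃ (V : Type) (_ : AddCommGroup V) (_ : Module ℚ V) (F : ℕ → Submodule ℚ V) (c : ℕ)
    (ρ : Representation ℚ N V), Antitone F ∧ F 0 = ⊤ ∧ F c = ⊥ ∧ Function.Injective ρ ∧
      ∀ (g : N) (i : ℕ) (v : V), v ∈ F i → ρ g v - v ∈ F (i + 1)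

/-- The group `H` satisfies the quasi-identity in `n` variables with premises `p = 1` for `p` in
`ps` and conclusion `w = 1`. -/
def Sat (n : ℕ) (ps : List (FreeGroup (Fin n))) (w : FreeGroup (Fin n)) (H : Type) [Group H] :
    Prop :=
  ∀ f : FreeGroup (Fin n) →* H, (∀ p ∈ ps, f p = 1) → f w = 1

/-- The quasi-identity holds in all groups of the class. -/
def QI (n : ℕ) (ps : List (FreeGroup (Fin n))) (w : FreeGroup (Fin n)) : Prop :=
  ∀ (N : Type) [Group N], Unip N → Sat n ps w N

/-- Membership in the quasivariety generated by the class. -/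
def InQ (G : Type) [Group G] : Prop :=
  ∀ (n : ℕ) (ps : List (FreeGroup (Fin n))) (w : FreeGroup (Fin n)), QI n ps w → Sat n ps w G

theorem sh_left {G : Type} (m : ℤ) :
    Function.LeftInverse (fun (y : ℤ → G) i => y (i - m)) (fun (y : ℤ → G) i => y (i + m)) := by
  intro y; ext i; simp

theorem sh_right {G : Type} (m : ℤ) :
    Function.RightInverse (fun (y : ℤ → G) i => y (i - m)) (fun (y : ℤ → G) i => y (i + m)) := by
  intro y; ext i; simp

/-- shift by `m` -/
def sh1 (G : Type) [Group G] (m : Multiplicative ℤ) : MulAut (ℤ → G) where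
  toFun y i := y (i + m.toAdd)
  invFun y i := y (i - m.toAdd)
  left_inv := sh_left m.toAdd
  right_inv := sh_right m.toAdd
  map_mul' _ _ := rfl

theorem sh1_add (G : Type) [Group G] (m m' : Multiplicative ℤ) :
    sh1 G (m * m') = sh1 G m * sh1 G m' := by
  ext y i
  show y (i + (m.toAdd + m'.toAdd)) = y (i + m.toAdd + m'.toAdd)
  rw [add_assoc]

/-- The action of the integers on sequences by shifting. -/
def sh (G : Type) [Group G] : Multiplicative ℤ →* MulAut (ℤ → G) :=
  MonoidHom.mk' (sh1 G) (sh1_add G)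

/-- The unrestricted wreath product with the integers. -/
abbrev W (G : Type) [Group G] := SemidirectProduct (ℤ → G) (Multiplicative ℤ) (sh G)

/-- finite support of the base part -/
def FinSupp {G : Type} [Group G] (x : W G) : Prop :=
  ∃ K : ℕ, ∀ i : ℤ, K < i.natAbs → x.left i = 1

theorem W_mul_left {G : Type} [Group G] (x y : W G) (i : ℤ) :
    (x * y).left i = x.left i * y.left (i + x.right.toAdd) := rfl

theorem W_inv_left {G : Type} [Group G] (x : W G) (i : ℤ) :
    (x⁻¹).left i = (x.left (i - x.right.toAdd))⁻¹ := by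
  rw [SemidirectProduct.inv_left]
  show (x.left⁻¹) (i + (x.right⁻¹).toAdd) = _
  rw [toAdd_inv, ← sub_eq_add_neg]
  rfl

theorem RW_one {G : Type} [Group G] : FinSupp (1 : W G) := ⟨0, fun _ _ => rfl⟩

theorem RW_mul {G : Type} [Group G] {x y : W G} (hx : FinSupp x) (hy : FinSupp y) :
    FinSupp (x * y) := by
  obtain ⟨K, hK⟩ := hx
  obtain ⟨L, hL⟩ := hy
  refine ⟨K + L + x.right.toAdd.natAbs, fun i hi => ?_⟩
  rw [W_mul_left, hK i (by omega), hL _ (by omega), one_mul]

theorem RW_inv {G : Type} [Group G] {x : W G} (hx : FinSupp x) : FinSupp x⁻¹ := by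
  obtain ⟨K, hK⟩ := hx
  refine ⟨K + x.right.toAdd.natAbs, fun i hi => ?_⟩
  rw [W_inv_left, hK _ (by omega), inv_one]

/-- The restricted wreath product with the integers. -/
def RW (G : Type) [Group G] : Subgroup (W G) where
  carrier := {x | FinSupp x}
  one_mem' := RW_one
  mul_mem' := RW_mul
  inv_mem' := RW_inv

end Pool.Agent.H4.WZ
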