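import Pool.Agent.H4.WZ0

set_option autoImplicit false

namespace Pool.Agent.H4.WZ

section ops
variable {V : Type} [AddCommGroup V] [Module ℚ V]

/-- shift -/
def T (m : ℤ) : Module.End ℚ (ℤ → V) where
  toFun φ := fun x => φ (x + m)
  map_add' _ _ := rfl
  map_smul' _ _ := rfl

theorem T_apply (m : ℤ) (φ : ℤ → V) (x : ℤ) : T m φ x = φ (x + m) := rfl

/-- difference -/
def D : Module.End ℚ (ℤ → V) := T 1 - 1

theorem D_apply (φ : ℤ → V) (x : ℤ) : D φ x = φ (x + 1) - φ x := rfl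

theorem D_T (s : ℕ) (m : ℤ) (φ : ℤ → V) : (D ^ s) (T m φ) = T m ((D ^ s) φ) := by
  have hc : Commute (D : Module.End ℚ (ℤ → V)) (T m) := by
    unfold D
    refine Commute.sub_left ?_ (Commute.one_left _)
    ext ψ x
    simp only [Module.End.mul_apply, T_apply]
    congr 1
    ring
  have := (hc.pow_left s).eq
  rw [← Module.End.mul_apply, this, Module.End.mul_apply]

theorem D_lin (d : ℕ) : ∀ (α β : ℚ) (φ : ℤ → V), (D ^ d) φ = 0 →
    (D ^ (d + 1)) (fun x : ℤ => (α * (x : ℚ) + β) • φ x) = 0 := by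
  induction d with
  | zero =>
    intro α β φ h
    have : φ = 0 := by simpa using h
    subst this
    have : (fun x : ℤ => (α * (x : ℚ) + β) • (0 : ℤ → V) x) = 0 := by ext x; simp
    rw [this, map_zero]
  | succ d ih =>
    intro α β φ h
    have e1 : D (fun x : ℤ => (α * (x : ℚ) + β) • φ x)
        = (fun x : ℤ => (α * (x : ℚ) + β) • (D φ) x) + α • (T 1 φ) := by
      ext x
      simp only [D_apply, T_apply, Pi.add_apply, Pi.smul_apply, smul_sub]
      push_cast
      rw [show α * ((x : ℚ) + 1) + β = (α * x + β) + α by ring, add_smul]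
      abel
    have h' : (D ^ d) (D φ) = 0 := by
      rw [← Module.End.mul_apply, ← pow_succ]; exact h
    rw [pow_succ, Module.End.mul_apply, e1, map_add, ih α β (D φ) h', map_smul, D_T, h]
    simp

/-- the interpolation polynomial -/
def P : ℕ → ℤ → ℚ
  | 0, _ => 1
  | k + 1, x => (1 - x / (k + 1)) * ((1 + x / (k + 1)) * P k x)

theorem P_zero (k : ℕ) : P k 0 = 1 := by
  induction k with
  | zero => rfl
  | succ k ih => simp [P, ih]

theorem P_vanish (k : ℕ) : ∀ x : ℤ, x ≠ 0 → x.natAbs ≤ k → P k x = 0 := by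
  induction k with
  | zero => intro x h1 h2; omega
  | succ k ih =>
    intro x h1 h2
    have hk : ((k : ℚ) + 1) ≠ 0 := by positivity
    by_cases h : x.natAbs ≤ k
    · simp [P, ih x h1 h]
    · have : x = (k + 1 : ℤ) ∨ x = -(k + 1 : ℤ) := by omega
      rcases this with rfl | rfl
      · simp only [P]
        push_cast
        rw [div_self hk]; ring
      · simp only [P]
        push_cast
        rw [neg_div, div_self hk]; ring

theorem D_P (k : ℕ) (i : ℤ) (v : V) : (D ^ (2 * k + 1)) (fun x => P k (x - i) • v) = 0 := by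
  induction k with
  | zero =>
    ext x
    show (D ^ 1) (fun x => P 0 (x - i) • v) x = 0
    rw [pow_one, D_apply]
    simp only [P, sub_self]
  | succ k ih =>
    have h1 := D_lin (2 * k + 1) (1 / (k + 1)) (1 - i / (k + 1)) _ ih
    have h2 := D_lin (2 * k + 1 + 1) (- (1 / (k + 1))) (1 + i / (k + 1)) _ h1
    rw [show 2 * (k + 1) + 1 = 2 * k + 1 + 1 + 1 by ring]
    convert h2 using 2
    ext x
    rw [smul_smul, smul_smul]
    congr 1
    simp only [P]
    push_cast
    ring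

theorem D_val (Z : Submodule ℚ V) (s : ℕ) : ∀ (φ : ℤ → V), (∀ x, φ x ∈ Z) → ∀ x, (D ^ s) φ x ∈ Z := by
  induction s with
  | zero => intro φ h x; simpa using h x
  | succ s ih =>
    intro φ h x
    rw [pow_succ, Module.End.mul_apply]
    exact ih (D φ) (fun x => Z.sub_mem (h _) (h _)) x

theorem T_val (Z : Submodule ℚ V) (φ : ℤ → V) (h : ∀ x, D φ x ∈ Z) (m : ℤ) :
    ∀ x, φ (x + m) - φ x ∈ Z := by
  induction m using Int.induction_on with
  | zero => intro x; simp
  | succ m ih =>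
    intro x
    have h1 := ih x
    have h2 := h (x + m)
    rw [D_apply] at h2
    have := Z.add_mem h1 h2
    rw [show x + (m + 1 : ℤ) = x + m + 1 by ring]
    convert this using 1
    abel
  | pred m ih =>
    intro x
    have h1 := ih x
    have h2 := h (x + (-m - 1))
    rw [D_apply, show x + (-(m : ℤ) - 1) + 1 = x + -m by ring] at h2
    have := Z.sub_mem h1 h2
    convert this using 1
    abel

variable {N : Type} [Group N]

/-- the interpolated action of a sequence -/
noncomputable def Bf (k : ℕ) (ρ : N →* Module.End ℚ V) (b : ℤ → N) (φ : ℤ → V) : ℤ → V :=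
  fun x => φ x + ∑ i ∈ Finset.Icc (-(k : ℤ)) k, P (2 * k) (x - i) • (ρ (b i) (φ i) - φ i)

theorem Bf_at (k : ℕ) (ρ : N →* Module.End ℚ V) (b : ℤ → N) (φ : ℤ → V) (x : ℤ)
    (hx : x ∈ Finset.Icc (-(k : ℤ)) k) : Bf k ρ b φ x = ρ (b x) (φ x) := by
  unfold Bf
  rw [Finset.sum_eq_single x]
  · rw [sub_self, P_zero, one_smul]; abel
  · intro i hi hne
    rw [Finset.mem_Icc] at hx hi
    rw [P_vanish (2 * k) (x - i) (by omega) (by omega), zero_smul]
  · intro h; exact absurd hx h

theorem Bf_mul (k : ℕ) (ρ : N →* Module.End ℚ V) (b b' : ℤ → N) (φ : ℤ → V) :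
    Bf k ρ (b * b') φ = Bf k ρ b (Bf k ρ b' φ) := by
  ext x
  conv_rhs => unfold Bf
  have e : ∑ i ∈ Finset.Icc (-(k : ℤ)) k, P (2 * k) (x - i) • (ρ (b i) (Bf k ρ b' φ i) - Bf k ρ b' φ i)
      = ∑ i ∈ Finset.Icc (-(k : ℤ)) k,
        P (2 * k) (x - i) • (ρ (b i) (ρ (b' i) (φ i)) - ρ (b' i) (φ i)) := by
    refine Finset.sum_congr rfl fun i hi => ?_
    rw [Bf_at k ρ b' φ i hi]
  show _ = Bf k ρ b' φ x + ∑ i ∈ Finset.Icc (-(k : ℤ)) k,
    P (2 * k) (x - i) • (ρ (b i) (Bf k ρ b' φ i) - Bf k ρ b' φ i)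
  rw [e]
  unfold Bf
  rw [add_assoc, ← Finset.sum_add_distrib]
  congr 1
  refine Finset.sum_congr rfl fun i _ => ?_
  rw [← smul_add, Pi.mul_apply, map_mul, Module.End.mul_apply]
  congr 1
  abel

theorem Bf_one (k : ℕ) (ρ : N →* Module.End ℚ V) (φ : ℤ → V) : Bf k ρ 1 φ = φ := by
  ext x
  unfold Bf
  simp

theorem Bf_T (k K : ℕ) (ρ : N →* Module.End ℚ V) (b : ℤ → N) (m : ℤ)
    (hb : ∀ i : ℤ, K < i.natAbs → b i = 1) (hk : K + m.natAbs ≤ k) (φ : ℤ → V) :
    T m (Bf k ρ b φ) = Bf k ρ (fun i => b (i + m)) (T m φ) := by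
  ext x
  show φ (x + m) + _ = φ (x + m) + _
  congr 1
  let g : ℤ → V := fun i => P (2 * k) (x + m - i) • (ρ (b i) (φ i) - φ i)
  have e2 : ∑ i ∈ Finset.Icc (-(k : ℤ)) k, P (2 * k) (x - i) • (ρ (b (i + m)) (T m φ i) - T m φ i)
      = ∑ i ∈ Finset.Icc (-(k : ℤ)) k, g (i + m) := by
    refine Finset.sum_congr rfl fun i _ => ?_
    show _ = P (2 * k) (x + m - (i + m)) • (ρ (b (i + m)) (φ (i + m)) - φ (i + m))
    rw [show x + m - (i + m) = x - i by ring]
    rfl
  rw [e2]
  show ∑ i ∈ Finset.Icc (-(k : ℤ)) k, g i = _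
  have hg : ∀ i : ℤ, K < i.natAbs → g i = 0 := by
    intro i hi
    show P (2 * k) (x + m - i) • (ρ (b i) (φ i) - φ i) = 0
    rw [hb i hi, map_one, Module.End.one_apply, sub_self, smul_zero]
  rw [← finsum_eq_sum_of_support_subset g (s := Finset.Icc (-(k : ℤ)) k),
    ← finsum_eq_sum_of_support_subset (fun i => g (i + m)) (s := Finset.Icc (-(k : ℤ)) k)]
  · exact (finsum_comp_equiv (Equiv.addRight m) (f := g)).symm
  · intro i hi
    rw [Function.mem_support] at hi
    rw [Finset.coe_Icc, Set.mem_Icc]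
    by_contra hcon
    exact hi (hg _ (by omega))
  · intro i hi
    rw [Function.mem_support] at hi
    rw [Finset.coe_Icc, Set.mem_Icc]
    by_contra hcon
    exact hi (hg _ (by omega))

end ops

end Pool.Agent.H4.WZ
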