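import Pool.Agent.H4.WZ1

set_option autoImplicit false

namespace Pool.Agent.H4.WZ

section flag
variable {Y : Type} [AddCommGroup Y] [Module ℚ Y]

theorem S_mul (F : ℕ → Submodule ℚ Y) (hF : Antitone F) (u w : Module.End ℚ Y)
    (hu : ∀ i v, v ∈ F i → u v - v ∈ F (i + 1)) (hw : ∀ i v, v ∈ F i → w v - v ∈ F (i + 1)) :
    ∀ i v, v ∈ F i → (u * w) v - v ∈ F (i + 1) := by
  intro i v hv
  have h1 := hw i v hv
  have h2 := hF (Nat.le_succ (i + 1)) (hu (i + 1) _ h1)
  have h3 := hu i v hv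
  have := (F (i + 1)).add_mem ((F (i + 1)).add_mem h2 h1) h3
  convert this using 1
  rw [Module.End.mul_apply, map_sub]
  abel

/-- the stability group of a flag -/
def US (F : ℕ → Submodule ℚ Y) (hF : Antitone F) : Subgroup (Module.End ℚ Y)ˣ where
  carrier := {u | (∀ i v, v ∈ F i → (u : Module.End ℚ Y) v - v ∈ F (i + 1)) ∧
    (∀ i v, v ∈ F i → ((u⁻¹ : (Module.End ℚ Y)ˣ) : Module.End ℚ Y) v - v ∈ F (i + 1))}
  one_mem' := by constructor <;> · intro i v _; simp
  mul_mem' := by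
    rintro u w ⟨h1, h2⟩ ⟨h3, h4⟩
    refine ⟨?_, ?_⟩
    · rw [Units.val_mul]; exact S_mul F hF _ _ h1 h3
    · rw [mul_inv_rev, Units.val_mul]; exact S_mul F hF _ _ h4 h2
  inv_mem' := by
    rintro u ⟨h1, h2⟩
    exact ⟨h2, by simpa using h1⟩

theorem US_unip (F : ℕ → Submodule ℚ Y) (hF : Antitone F) (c : ℕ) (h0 : F 0 = ⊤) (hc : F c = ⊥) :
    Unip (US F hF) :=
  ⟨Y, inferInstance, inferInstance, F, c, (Units.coeHom _).comp (US F hF).subtype, hF, h0, hc,
    fun a b hab => Subtype.ext (Units.ext hab), fun g i v hv => g.2.1 i v hv⟩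

end flag

variable {V : Type} [AddCommGroup V] [Module ℚ V]

/-- polynomial sequences -/
abbrev X (V : Type) [AddCommGroup V] [Module ℚ V] (d : ℕ) : Submodule ℚ (ℤ → V) :=
  LinearMap.ker ((D : Module.End ℚ (ℤ → V)) ^ d)

/-- the flag on polynomial sequences -/
def FX (d : ℕ) (F : ℕ → Submodule ℚ V) (j : ℕ) : Submodule ℚ (X V d) where
  carrier := {φ | ∀ s < d, ∀ x, (D ^ s) φ.1 x ∈ F ((j + s) / d)}
  zero_mem' := by
    intro s _ x
    rw [Submodule.coe_zero, map_zero]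
    exact Submodule.zero_mem _
  add_mem' := by
    intro φ ψ h1 h2 s hs x
    rw [Submodule.coe_add, map_add]
    exact Submodule.add_mem _ (h1 s hs x) (h2 s hs x)
  smul_mem' := by
    intro r φ h s hs x
    rw [Submodule.coe_smul, map_smul]
    exact Submodule.smul_mem _ _ (h s hs x)

theorem FX_anti (d : ℕ) (F : ℕ → Submodule ℚ V) (hF : Antitone F) : Antitone (FX d F) := by
  intro j j' hj φ h s hs x
  exact hF (Nat.div_le_div_right (by omega)) (h s hs x)

theorem FX_zero (d : ℕ) (F : ℕ → Submodule ℚ V) (h0 : F 0 = ⊤) : FX d F 0 = ⊤ := by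
  rw [eq_top_iff]
  intro φ _ s hs x
  rw [zero_add, Nat.div_eq_of_lt hs, h0]
  trivial

theorem FX_bot (d : ℕ) (hd : 0 < d) (F : ℕ → Submodule ℚ V) (c : ℕ) (hc : F c = ⊥) :
    FX d F (c * d) = ⊥ := by
  rw [eq_bot_iff]
  intro φ h
  have h1 := h 0 hd
  rw [Submodule.mem_bot]
  apply Subtype.ext
  ext x
  have h2 := h1 x
  rw [add_zero, Nat.mul_div_cancel _ hd, hc, Submodule.mem_bot] at h2
  simpa using h2

variable {N : Type} [Group N]

theorem Bf_mem (k : ℕ) (ρ : N →* Module.End ℚ V) (b : ℤ → N) (φ : ℤ → V)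
    (hφ : (D ^ (2 * (2 * k) + 1)) φ = 0) : (D ^ (2 * (2 * k) + 1)) (Bf k ρ b φ) = 0 := by
  have e : Bf k ρ b φ = φ + ∑ i ∈ Finset.Icc (-(k : ℤ)) k,
      (fun x => P (2 * k) (x - i) • (ρ (b i) (φ i) - φ i)) := by
    ext x
    simp only [Bf, Pi.add_apply, Finset.sum_apply]
  rw [e, map_add, hφ, zero_add, map_sum]
  exact Finset.sum_eq_zero fun i _ => D_P _ _ _

/-- the interpolated action on polynomial sequences -/
noncomputable def BX (k : ℕ) (ρ : N →* Module.End ℚ V) :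
    (ℤ → N) →* Module.End ℚ (X V (2 * (2 * k) + 1)) where
  toFun b :=
    { toFun := fun φ => ⟨Bf k ρ b φ.1, Bf_mem k ρ b φ.1 φ.2⟩
      map_add' := by
        intro φ ψ
        apply Subtype.ext
        ext x
        show Bf k ρ b (φ.1 + ψ.1) x = Bf k ρ b φ.1 x + Bf k ρ b ψ.1 x
        simp only [Bf, Pi.add_apply, map_add]
        rw [add_add_add_comm, ← Finset.sum_add_distrib]
        congr 1
        refine Finset.sum_congr rfl fun i _ => ?_
        rw [← smul_add]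
        congr 1
        abel
      map_smul' := by
        intro r φ
        apply Subtype.ext
        ext x
        show Bf k ρ b (r • φ.1) x = r • Bf k ρ b φ.1 x
        simp only [Bf, Pi.smul_apply, map_smul, smul_add, Finset.smul_sum]
        congr 1
        refine Finset.sum_congr rfl fun i _ => ?_
        rw [← smul_sub, smul_comm] }
  map_one' := by
    ext φ x
    exact congrFun (Bf_one k ρ φ.1) x
  map_mul' b b' := by
    ext φ x
    exact congrFun (Bf_mul k ρ b b' φ.1) x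

theorem BX_apply (k : ℕ) (ρ : N →* Module.End ℚ V) (b : ℤ → N) (φ : X V (2 * (2 * k) + 1)) :
    (BX k ρ b φ).1 = Bf k ρ b φ.1 := rfl

/-- the shift on polynomial sequences -/
def TX (V : Type) [AddCommGroup V] [Module ℚ V] (d : ℕ) :
    Multiplicative ℤ →* Module.End ℚ (X V d) where
  toFun m :=
    { toFun := fun φ => ⟨T m.toAdd φ.1, by
        have := φ.2
        rw [LinearMap.mem_ker] at this ⊢
        rw [D_T, this, map_zero]⟩
      map_add' := fun _ _ => rfl
      map_smul' := fun _ _ => rfl }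
  map_one' := by
    ext φ x
    show φ.1 (x + 0) = φ.1 x
    rw [add_zero]
  map_mul' m m' := by
    ext φ x
    show φ.1 (x + (m.toAdd + m'.toAdd)) = φ.1 (x + m.toAdd + m'.toAdd)
    rw [add_assoc]

theorem TX_apply (d : ℕ) (m : Multiplicative ℤ) (φ : X V d) (x : ℤ) :
    (TX V d m φ).1 x = φ.1 (x + m.toAdd) := rfl

theorem BX_flag (k : ℕ) (ρ : N →* Module.End ℚ V) (F : ℕ → Submodule ℚ V) (hF : Antitone F)
    (hρ : ∀ (g : N) (i : ℕ) (v : V), v ∈ F i → ρ g v - v ∈ F (i + 1)) (b : ℤ → N) :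
    ∀ j φ, φ ∈ FX (2 * (2 * k) + 1) F j → BX k ρ b φ - φ ∈ FX (2 * (2 * k) + 1) F (j + 1) := by
  intro j φ hφ s hs x
  have h0 : ∀ y, φ.1 y ∈ F (j / (2 * (2 * k) + 1)) := fun y => hφ 0 (by omega) y
  have h1 : ∀ y, (BX k ρ b φ - φ).1 y ∈ F (j / (2 * (2 * k) + 1) + 1) := by
    intro y
    have e : (BX k ρ b φ - φ).1 y = ∑ i ∈ Finset.Icc (-(k : ℤ)) k,
        P (2 * k) (y - i) • (ρ (b i) (φ.1 i) - φ.1 i) := by
      show Bf k ρ b φ.1 y - φ.1 y = _
      unfold Bf
      abel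
    rw [e]
    exact Submodule.sum_mem _ fun i _ => Submodule.smul_mem _ _ (hρ _ _ _ (h0 i))
  refine hF ?_ (D_val _ s _ h1 x)
  calc (j + 1 + s) / (2 * (2 * k) + 1) ≤ (j + (2 * (2 * k) + 1)) / (2 * (2 * k) + 1) :=
        Nat.div_le_div_right (by omega)
    _ = j / (2 * (2 * k) + 1) + 1 := Nat.add_div_right _ (by omega)

theorem TX_flag (d : ℕ) (F : ℕ → Submodule ℚ V) (m : Multiplicative ℤ) :
    ∀ j φ, φ ∈ FX d F j → TX V d m φ - φ ∈ FX d F (j + 1) := by
  intro j φ hφ s hs x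
  have e : (D ^ s) (TX V d m φ - φ).1 x = ((D ^ s) φ.1) (x + m.toAdd) - ((D ^ s) φ.1) x := by
    have e1 : (TX V d m φ - φ).1 = T m.toAdd φ.1 - φ.1 := rfl
    rw [e1, map_sub, D_T]
    rfl
  rw [e]
  refine T_val _ _ ?_ _ x
  intro y
  have e2 : D ((D ^ s) φ.1) y = (D ^ (s + 1)) φ.1 y := by
    rw [pow_succ', Module.End.mul_apply]
  rw [e2]
  by_cases hs' : s + 1 < d
  · rw [show j + 1 + s = j + (s + 1) by ring]
    exact hφ (s + 1) hs' y
  · have : s + 1 = d := by omega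
    rw [this]
    have h2 := φ.2
    rw [LinearMap.mem_ker] at h2
    rw [h2]
    exact Submodule.zero_mem _

/-- units -/
noncomputable def BU (k : ℕ) (ρ : N →* Module.End ℚ V) :
    (ℤ → N) →* (Module.End ℚ (X V (2 * (2 * k) + 1)))ˣ := (BX k ρ).toHomUnits

noncomputable def TU (V : Type) [AddCommGroup V] [Module ℚ V] (d : ℕ) :
    Multiplicative ℤ →* (Module.End ℚ (X V d))ˣ := (TX V d).toHomUnits

theorem BU_mem (k : ℕ) (ρ : N →* Module.End ℚ V) (F : ℕ → Submodule ℚ V) (hF : Antitone F)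
    (hρ : ∀ (g : N) (i : ℕ) (v : V), v ∈ F i → ρ g v - v ∈ F (i + 1)) (b : ℤ → N) :
    BU k ρ b ∈ US (FX (2 * (2 * k) + 1) F) (FX_anti _ F hF) := by
  refine ⟨BX_flag k ρ F hF hρ b, ?_⟩
  rw [← map_inv]
  exact BX_flag k ρ F hF hρ b⁻¹

theorem TU_mem (d : ℕ) (F : ℕ → Submodule ℚ V) (hF : Antitone F) (m : Multiplicative ℤ) :
    TU V d m ∈ US (FX d F) (FX_anti _ F hF) := by
  refine ⟨TX_flag d F m, ?_⟩
  rw [← map_inv]
  exact TX_flag d F m⁻¹

/-- the approximate action -/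
noncomputable def E (k : ℕ) (ρ : N →* Module.End ℚ V) (x : W N) :
    (Module.End ℚ (X V (2 * (2 * k) + 1)))ˣ := BU k ρ x.left * TU V _ x.right

theorem E_one (k : ℕ) (ρ : N →* Module.End ℚ V) : E k ρ 1 = 1 := by
  unfold E
  rw [SemidirectProduct.one_left, SemidirectProduct.one_right, map_one, map_one, one_mul]

theorem E_mul (k K : ℕ) (ρ : N →* Module.End ℚ V) (x y : W N)
    (hy : ∀ i : ℤ, K < i.natAbs → y.left i = 1) (hk : K + x.right.toAdd.natAbs ≤ k) :
    E k ρ (x * y) = E k ρ x * E k ρ y := by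
  have hc : TU V _ x.right * BU k ρ y.left
      = BU k ρ (fun i => y.left (i + x.right.toAdd)) * TU V _ x.right := by
    apply Units.ext
    ext φ z
    exact congrFun (Bf_T k K ρ y.left x.right.toAdd hy hk φ.1) z
  have e1 : (x * y).left = x.left * (fun i => y.left (i + x.right.toAdd)) := rfl
  have e2 : (x * y).right = x.right * y.right := rfl
  unfold E
  rw [e1, e2, map_mul, map_mul, mul_assoc, mul_assoc, ← mul_assoc (TU V _ x.right), hc]
  simp only [mul_assoc]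

end Pool.Agent.H4.WZ
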