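import Pool.Agent.H4.WZ2

set_option autoImplicit false

namespace Pool.Agent.H4.WZ
open Filter

theorem main_N {N V : Type} [Group N] [AddCommGroup V] [Module ℚ V] (F : ℕ → Submodule ℚ V) (c : ℕ)
    (ρ : N →* Module.End ℚ V) (hF : Antitone F) (h0 : F 0 = ⊤) (hc : F c = ⊥)
    (hρ : ∀ (g : N) (i : ℕ) (v : V), v ∈ F i → ρ g v - v ∈ F (i + 1))
    (n : ℕ) (ps : List (FreeGroup (Fin n))) (w : FreeGroup (Fin n)) (hq : QI n ps w)
    (f : FreeGroup (Fin n) →* RW N) (hf : ∀ p ∈ ps, f p = 1) :
    ∀ᶠ k in atTop, E k ρ (f w).1 = 1 := by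
  let θ : ∀ k : ℕ, FreeGroup (Fin n) →* US (FX (2 * (2 * k) + 1) F) (FX_anti _ F hF) := fun k =>
    FreeGroup.lift (fun a => ⟨E k ρ (f (FreeGroup.of a)).1,
      Subgroup.mul_mem _ (BU_mem k ρ F hF hρ _) (TU_mem _ F hF _)⟩)
  have key : ∀ v : FreeGroup (Fin n), ∀ᶠ k in atTop, (θ k v).1 = E k ρ (f v).1 := by
    intro v
    refine FreeGroup.induction_on v ?_ ?_ ?_ ?_
    · refine Eventually.of_forall fun k => ?_
      rw [map_one, map_one, Subgroup.coe_one, Subgroup.coe_one, E_one]
    · intro a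
      refine Eventually.of_forall fun k => ?_
      show (θ k (FreeGroup.of a)).1 = E k ρ (f (FreeGroup.of a)).1
      simp only [θ, FreeGroup.lift_apply_of]
    · intro a ha
      obtain ⟨K, hK⟩ := (f (pure a)⁻¹).2
      filter_upwards [ha, eventually_ge_atTop (K + (f (pure a)).1.right.toAdd.natAbs)] with k h1 h2
      have h3 := E_mul k K ρ (f (pure a)).1 (f (pure a)⁻¹).1 hK h2
      have h4 : (f (pure a)).1 * (f (pure a)⁻¹).1 = 1 := by
        rw [map_inv, Subgroup.coe_inv, mul_inv_cancel]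
      rw [h4, E_one] at h3
      rw [map_inv (θ k), Subgroup.coe_inv, h1]
      exact (eq_inv_of_mul_eq_one_right h3.symm).symm
    · intro u v hu hv
      obtain ⟨K, hK⟩ := (f v).2
      filter_upwards [hu, hv, eventually_ge_atTop (K + (f u).1.right.toAdd.natAbs)] with k h1 h2 h3
      rw [map_mul (θ k), map_mul f, Subgroup.coe_mul, Subgroup.coe_mul, E_mul k K ρ _ _ hK h3, h1, h2]
  have hps : ∀ᶠ k in atTop, ∀ p ∈ {p | p ∈ ps}, (θ k p).1 = E k ρ (f p).1 :=
    (Filter.eventually_all_finite ps.finite_toSet).2 fun p _ => key p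
  filter_upwards [key w, hps] with k h1 h2
  rw [← h1]
  have h3 : θ k w = 1 := by
    refine hq _ (US_unip _ _ (c * (2 * (2 * k) + 1)) (FX_zero _ F h0)
      (FX_bot _ (by omega) F c hc)) (θ k) fun p hp => ?_
    apply Subtype.ext
    rw [h2 p hp, hf p hp, Subgroup.coe_one, Subgroup.coe_one, E_one]
  rw [h3, Subgroup.coe_one]

theorem D_const {V : Type} [AddCommGroup V] [Module ℚ V] (s : ℕ) (v : V) :
    (D ^ (s + 1)) (fun _ : ℤ => v) = 0 := by
  rw [pow_succ, Module.End.mul_apply]
  have : D (fun _ : ℤ => v) = 0 := by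
    ext x
    rw [D_apply, sub_self]
    rfl
  rw [this, map_zero]

theorem left_N {N : Type} [Group N] (hN : Unip N)
    (n : ℕ) (ps : List (FreeGroup (Fin n))) (w : FreeGroup (Fin n)) (hq : QI n ps w)
    (f : FreeGroup (Fin n) →* RW N) (hf : ∀ p ∈ ps, f p = 1) (hr : (f w).1.right = 1) (i0 : ℤ) :
    (f w).1.left i0 = 1 := by
  obtain ⟨V, _, _, F, c, ρ, hF, h0, hc, hinj, hρ⟩ := hN
  obtain ⟨k, hk1, hk2⟩ := ((main_N F c ρ hF h0 hc hρ n ps w hq f hf).and
    (eventually_ge_atTop i0.natAbs)).exists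
  have h1 : BX k ρ (f w).1.left = 1 := by
    unfold E at hk1
    rw [hr, map_one, mul_one] at hk1
    exact congrArg Units.val hk1
  apply hinj
  rw [map_one]
  ext v
  have hmem : (fun _ : ℤ => v) ∈ X V (2 * (2 * k) + 1) := by
    rw [LinearMap.mem_ker]
    exact D_const _ v
  have h2 : (BX k ρ (f w).1.left ⟨_, hmem⟩).1 i0 = v := by
    rw [h1]; rfl
  rw [BX_apply, Bf_at k ρ _ _ i0 (by rw [Finset.mem_Icc]; omega)] at h2
  exact h2

theorem right_any {G : Type} [Group G]
    (n : ℕ) (ps : List (FreeGroup (Fin n))) (w : FreeGroup (Fin n)) (hq : QI n ps w)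
    (f : FreeGroup (Fin n) →* RW G) (hf : ∀ p ∈ ps, f p = 1) : (f w).1.right = 1 := by
  let f1 : FreeGroup (Fin n) →* RW Unit :=
    FreeGroup.lift (fun a => ⟨⟨1, (f (FreeGroup.of a)).1.right⟩, ⟨0, fun _ _ => rfl⟩⟩)
  have hright : ∀ v, (f1 v).1.right = (f v).1.right := by
    have : (SemidirectProduct.rightHom.comp (RW Unit).subtype).comp f1
        = (SemidirectProduct.rightHom.comp (RW G).subtype).comp f := by
      refine FreeGroup.ext_hom _ _ fun a => ?_
      simp only [f1, MonoidHom.comp_apply, FreeGroup.lift_apply_of]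
      rfl
    intro v
    exact DFunLike.congr_fun this v
  have hf1 : ∀ p ∈ ps, f1 p = 1 := fun p hp =>
    Subtype.ext (SemidirectProduct.ext (Subsingleton.elim _ _) (by rw [hright, hf p hp]; rfl))
  let F : ℕ → Submodule ℚ ℚ := fun i => if i = 0 then ⊤ else ⊥
  have hF : Antitone F := by
    intro i j hij
    by_cases hi : i = 0
    · simp [F, hi]
    · have : j ≠ 0 := by omega
      simp [F, hi, this]
  have hm := main_N (N := Unit) (V := ℚ) F 1 1 hF (by simp [F]) (by simp [F])
    (by intro g i v _; simp) n ps w hq f1 hf1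
  obtain ⟨k, hk1, hk2⟩ := (hm.and (eventually_ge_atTop 1)).exists
  rw [← hright]
  have hl : (f1 w).1.left = 1 := Subsingleton.elim _ _
  unfold E at hk1
  rw [hl, map_one, one_mul] at hk1
  have h1 : TX ℚ (2 * (2 * k) + 1) (f1 w).1.right = 1 := congrArg Units.val hk1
  have hmem : (fun x : ℤ => (x : ℚ)) ∈ X ℚ (2 * (2 * k) + 1) := by
    rw [LinearMap.mem_ker]
    obtain ⟨k', rfl⟩ : ∃ k', k = k' + 1 := ⟨k - 1, by omega⟩
    rw [show 2 * (2 * (k' + 1)) + 1 = (4 * k' + 3) + 1 + 1 by ring, pow_succ, Module.End.mul_apply]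
    have : D (fun x : ℤ => (x : ℚ)) = fun _ : ℤ => (1 : ℚ) := by
      ext x
      rw [D_apply]
      push_cast
      ring
    rw [this]
    exact D_const _ _
  have h2 : (TX ℚ (2 * (2 * k) + 1) (f1 w).1.right ⟨_, hmem⟩).1 0 = 0 := by
    rw [h1]; simp
  rw [TX_apply] at h2
  have h3 : ((0 + (f1 w).1.right.toAdd : ℤ) : ℚ) = 0 := h2
  rw [zero_add, Int.cast_eq_zero] at h3
  exact Multiplicative.toAdd.injective h3

/-- functoriality -/
def Wmap {H H' : Type} [Group H] [Group H'] (g : H →* H') : RW H →* RW H' where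
  toFun x := ⟨⟨fun i => g (x.1.left i), x.1.right⟩, by
    obtain ⟨K, hK⟩ := x.2
    exact ⟨K, fun i hi => by show g (x.1.left i) = 1; rw [hK i hi, map_one]⟩⟩
  map_one' := by
    apply Subtype.ext
    apply SemidirectProduct.ext
    · ext i; exact map_one g
    · rfl
  map_mul' x y := by
    apply Subtype.ext
    apply SemidirectProduct.ext
    · ext i; exact map_mul g _ _
    · rfl

theorem reduction (G : Type) [Group G]
    (hG : ∀ (n : ℕ) (ps : List (FreeGroup (Fin n))) (w : FreeGroup (Fin n)), QI n ps w →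
      ∀ f : FreeGroup (Fin n) →* G, (∀ p ∈ ps, f p = 1) → f w = 1)
    (n : ℕ) (ps : List (FreeGroup (Fin n))) (w : FreeGroup (Fin n)) (hq : QI n ps w)
    (f : FreeGroup (Fin n) →* RW G) (hf : ∀ p ∈ ps, f p = 1) : f w = 1 := by
  classical
  have hleft : ∀ i0, (f w).1.left i0 = 1 := by
    intro i0
    obtain ⟨K, hK⟩ : ∃ K : ℕ, ∀ a : Fin n, ∀ i : ℤ, K < i.natAbs →
        (f (FreeGroup.of a)).1.left i = 1 := by
      choose K hK using fun a : Fin n => (f (FreeGroup.of a)).2
      refine ⟨Finset.univ.sup K, fun a i hi => hK a i (lt_of_le_of_lt ?_ hi)⟩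
      exact Finset.le_sup (f := K) (Finset.mem_univ a)
    let e := Fintype.equivFin (Fin n × (Finset.Icc (-(K : ℤ)) K))
    let n' := Fintype.card (Fin n × (Finset.Icc (-(K : ℤ)) K))
    let Ψ : FreeGroup (Fin n) →* RW (FreeGroup (Fin n')) :=
      FreeGroup.lift (fun a => ⟨⟨fun i => if h : i ∈ Finset.Icc (-(K : ℤ)) K then
        FreeGroup.of (e (a, ⟨i, h⟩)) else 1, (f (FreeGroup.of a)).1.right⟩,
        ⟨K, fun i hi => dif_neg (by rw [Finset.mem_Icc]; omega)⟩⟩)
    let gG : FreeGroup (Fin n') →* G :=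
      FreeGroup.lift (fun j => (f (FreeGroup.of (e.symm j).1)).1.left (e.symm j).2)
    have hfΨ : f = (Wmap gG).comp Ψ := by
      refine FreeGroup.ext_hom _ _ fun a => ?_
      apply Subtype.ext
      rw [MonoidHom.comp_apply]
      simp only [Ψ, FreeGroup.lift_apply_of]
      apply SemidirectProduct.ext
      · ext i
        show (f (FreeGroup.of a)).1.left i = gG (if h : i ∈ Finset.Icc (-(K : ℤ)) K then
          FreeGroup.of (e (a, ⟨i, h⟩)) else 1)
        split_ifs with h
        · simp only [gG, FreeGroup.lift_apply_of, Equiv.symm_apply_apply]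
        · rw [map_one]
          exact hK a i (by rw [Finset.mem_Icc] at h; omega)
      · rfl
    have hfl : ∀ v i, (f v).1.left i = gG ((Ψ v).1.left i) := by
      intro v i
      have : f v = Wmap gG (Ψ v) := by rw [← MonoidHom.comp_apply, ← hfΨ]
      rw [this]
      rfl
    have hfr : ∀ v, (f v).1.right = (Ψ v).1.right := by
      intro v
      have : f v = Wmap gG (Ψ v) := by rw [← MonoidHom.comp_apply, ← hfΨ]
      rw [this]
      rfl
    choose L hL using fun v => (Ψ v).2
    let ps' : List (FreeGroup (Fin n')) :=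
      ps.flatMap (fun p => (List.range (2 * L p + 1)).map (fun j : ℕ => (Ψ p).1.left ((j : ℤ) - L p)))
    rw [hfl]
    refine hG n' ps' ((Ψ w).1.left i0) ?_ gG ?_
    · intro N _ hN g hg
      have hkill : ∀ p ∈ ps, (Wmap g).comp Ψ p = 1 := by
        intro p hp
        apply Subtype.ext
        apply SemidirectProduct.ext
        · ext i
          show g ((Ψ p).1.left i) = 1
          by_cases hi : L p < i.natAbs
          · rw [hL p i hi, map_one]
          · refine hg _ ?_
            rw [List.mem_flatMap]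
            refine ⟨p, hp, ?_⟩
            rw [List.mem_map]
            refine ⟨(i + L p).toNat, ?_, ?_⟩
            · rw [List.mem_range]; omega
            · have h5 : (((i + L p).toNat : ℕ) : ℤ) - L p = i := by omega
              show (Ψ p).1.left ((((i + L p).toNat : ℕ) : ℤ) - L p) = _
              rw [h5]
        · show (Ψ p).1.right = 1
          rw [← hfr, hf p hp]
          rfl
      exact left_N hN n ps w hq _ hkill (right_any n ps w hq _ hkill) i0
    · intro q hq'
      rw [List.mem_flatMap] at hq'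
      obtain ⟨p, hp, hq'⟩ := hq'
      rw [List.mem_map] at hq'
      obtain ⟨j, _, rfl⟩ := hq'
      rw [← hfl, hf p hp]
      rfl
  apply Subtype.ext
  apply SemidirectProduct.ext
  · ext i; exact hleft i
  · exact right_any n ps w hq f hf

end Pool.Agent.H4.WZ
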