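import Pool.Agent.H4.WZ2

set_option autoImplicit false

namespace Pool.Agent.H4.WZ

/-- detection by a unipotent action -/
def Det (H : Type) [Group H] (g : H) : Prop :=
  ∃ (V : Type) (_ : AddCommGroup V) (_ : Module ℚ V) (F : ℕ → Submodule ℚ V) (c : ℕ)
    (ρ : H →* Module.End ℚ V), Antitone F ∧ F 0 = ⊤ ∧ F c = ⊥ ∧
      (∀ (g : H) (i : ℕ) (v : V), v ∈ F i → ρ g v - v ∈ F (i + 1)) ∧ ρ g ≠ 1

section step
variable {N : Type} [Group N] {V : Type} [AddCommGroup V] [Module ℚ V]

/-- right translation -/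
def Rt (n : N) : Module.End ℚ (N → V) where
  toFun f := fun x => f (x * n)
  map_add' _ _ := rfl
  map_smul' _ _ := rfl

theorem Rt_apply (n : N) (f : N → V) (x : N) : Rt n f x = f (x * n) := rfl

theorem Rt_mul (n m : N) (f : N → V) : Rt (n * m) f = Rt n (Rt m f) := by
  ext x; simp only [Rt_apply, mul_assoc]

theorem Rt_one (f : N → V) : Rt (1 : N) f = f := by
  ext x; simp only [Rt_apply, mul_one]

inductive GP (φ : N →* Multiplicative ℤ) (t : N) (L : ℕ → Subgroup N) : ℕ → (N → V) → Prop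
  | zero : GP φ t L 0 0
  | succ (j : ℕ) (f : N → V) (h1 : ∀ x, f (t * x) = f x)
      (h2 : ∀ (w : ℕ) (m : N), m ∈ L w → φ m = 1 → GP φ t L (j - w) (Rt m f - f)) :
      GP φ t L (j + 1) f

variable {φ : N →* Multiplicative ℤ} {t : N} {L : ℕ → Subgroup N}

theorem GP_zero_iff {f : N → V} (h : GP φ t L 0 f) : f = 0 := by
  cases h; rfl

theorem GP_inv {j : ℕ} {f : N → V} (h : GP φ t L (j + 1) f) : (∀ x, f (t * x) = f x) ∧
    ∀ (w : ℕ) (m : N), m ∈ L w → φ m = 1 → GP φ t L (j - w) (Rt m f - f) := by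
  cases h with
  | succ _ _ h1 h2 => exact ⟨h1, h2⟩

theorem GP_zero' : ∀ j, GP φ t L j (0 : N → V) := by
  intro j
  induction j using Nat.strong_induction_on with
  | _ j ih =>
    cases j with
    | zero => exact GP.zero
    | succ j =>
      refine GP.succ j 0 (fun _ => rfl) fun w m _ _ => ?_
      rw [map_zero, sub_zero]
      exact ih _ (by omega)

theorem GP_add : ∀ j (f g : N → V), GP φ t L j f → GP φ t L j g → GP φ t L j (f + g) := by
  intro j
  induction j using Nat.strong_induction_on with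
  | _ j ih =>
    intro f g hf hg
    cases j with
    | zero => rw [GP_zero_iff hf, GP_zero_iff hg, add_zero]; exact GP.zero
    | succ j =>
      obtain ⟨a1, a2⟩ := GP_inv hf
      obtain ⟨b1, b2⟩ := GP_inv hg
      refine GP.succ j _ (fun x => by simp only [Pi.add_apply, a1, b1]) fun w m hm hφ => ?_
      rw [map_add, add_sub_add_comm]
      exact ih _ (by omega) _ _ (a2 w m hm hφ) (b2 w m hm hφ)

theorem GP_smul (r : ℚ) : ∀ j (f : N → V), GP φ t L j f → GP φ t L j (r • f) := by
  intro j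
  induction j using Nat.strong_induction_on with
  | _ j ih =>
    intro f hf
    cases j with
    | zero => rw [GP_zero_iff hf, smul_zero]; exact GP.zero
    | succ j =>
      obtain ⟨a1, a2⟩ := GP_inv hf
      refine GP.succ j _ (fun x => by simp only [Pi.smul_apply, a1]) fun w m hm hφ => ?_
      rw [map_smul, ← smul_sub]
      exact ih _ (by omega) _ (a2 w m hm hφ)

theorem GP_mono1 : ∀ j (f : N → V), GP φ t L j f → GP φ t L (j + 1) f := by
  intro j
  induction j using Nat.strong_induction_on with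
  | _ j ih =>
    intro f hf
    cases j with
    | zero => rw [GP_zero_iff hf]; exact GP_zero' _
    | succ j =>
      obtain ⟨a1, a2⟩ := GP_inv hf
      refine GP.succ _ _ a1 fun w m hm hφ => ?_
      by_cases hw : w ≤ j
      · rw [show j + 1 - w = (j - w) + 1 by omega]
        exact ih _ (by omega) _ (a2 w m hm hφ)
      · have := a2 w m hm hφ
        rw [show j - w = 0 by omega] at this
        rw [GP_zero_iff this]
        exact GP_zero' _

theorem GP_mono {i j : ℕ} (hij : i ≤ j) (f : N → V) (h : GP φ t L i f) : GP φ t L j f := by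
  induction hij with
  | refl => exact h
  | step _ ih => exact GP_mono1 _ _ ih

/-- the submodule -/
def SG (V : Type) [AddCommGroup V] [Module ℚ V] (φ : N →* Multiplicative ℤ) (t : N)
    (L : ℕ → Subgroup N) (j : ℕ) : Submodule ℚ (N → V) where
  carrier := {f | GP φ t L j f}
  zero_mem' := GP_zero' j
  add_mem' := fun ha hb => GP_add j _ _ ha hb
  smul_mem' := fun r _ ha => GP_smul r j _ ha

theorem GP_Rt (hn : ∀ w m n, m ∈ L w → n⁻¹ * m * n ∈ L w) (n : N) :
    ∀ j (f : N → V), GP φ t L j f → GP φ t L j (Rt n f) := by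
  intro j
  induction j using Nat.strong_induction_on with
  | _ j ih =>
    intro f hf
    cases j with
    | zero => rw [GP_zero_iff hf, map_zero]; exact GP.zero
    | succ j =>
      obtain ⟨a1, a2⟩ := GP_inv hf
      refine GP.succ j _ (fun x => by rw [Rt_apply, Rt_apply, mul_assoc, a1]) fun w m hm hφ => ?_
      have e : Rt m (Rt n f) - Rt n f = Rt n (Rt (n⁻¹ * m * n) f - f) := by
        rw [map_sub, ← Rt_mul, ← Rt_mul]
        congr 2
        group
      rw [e]
      exact ih _ (by omega) _ (a2 w _ (hn w m n hm) (by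
        rw [map_mul, map_mul, map_inv, hφ, mul_one, inv_mul_cancel]))

theorem GP_t (hn : ∀ w m n, m ∈ L w → n⁻¹ * m * n ∈ L w) (h0 : L 0 = ⊤)
    (hL : ∀ w m n, m ∈ L w → m⁻¹ * (n⁻¹ * m * n) ∈ L (w + 1)) :
    ∀ j (f : N → V), GP φ t L (j + 1) f → GP φ t L j (Rt t f - f) := by
  intro j
  induction j using Nat.strong_induction_on with
  | _ j ih =>
    intro f hf
    obtain ⟨a1, a2⟩ := GP_inv hf
    cases j with
    | zero =>
      have : Rt t f - f = 0 := by
        ext x
        show f (x * t) - f x = 0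
        have h3 := a2 0 (x⁻¹ * t⁻¹ * x * t) (by rw [h0]; trivial) (by
          rw [map_mul, map_mul, map_mul, map_inv, map_inv, mul_comm ((φ x)⁻¹), mul_assoc ((φ t)⁻¹),
            inv_mul_cancel, mul_one, inv_mul_cancel])
        have h4 := congrFun (GP_zero_iff h3) x
        have h5 : f (x * (x⁻¹ * t⁻¹ * x * t)) - f x = 0 := h4
        have h6 := a1 (t⁻¹ * x * t)
        rw [show t * (t⁻¹ * x * t) = x * t by group] at h6
        rw [show x * (x⁻¹ * t⁻¹ * x * t) = t⁻¹ * x * t by group] at h5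
        rw [h6]; exact h5
      rw [this]; exact GP.zero
    | succ j =>
      refine GP.succ j _ (fun x => by
        show f (t * x * t) - f (t * x) = f (x * t) - f x
        rw [mul_assoc, a1, a1]) fun w m hm hφ => ?_
      have hφ' : φ (t⁻¹ * m * t) = 1 := by
        rw [map_mul, map_mul, map_inv, hφ, mul_one, inv_mul_cancel]
      have e : Rt m (Rt t f - f) - (Rt t f - f) = (Rt t (Rt (t⁻¹ * m * t) f - f)
          - (Rt (t⁻¹ * m * t) f - f)) + Rt m (Rt (m⁻¹ * (t⁻¹ * m * t)) f - f) := by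
        rw [map_sub, map_sub, map_sub, ← Rt_mul, ← Rt_mul, ← Rt_mul,
          show t * (t⁻¹ * m * t) = m * t by group,
          show m * (m⁻¹ * (t⁻¹ * m * t)) = t⁻¹ * m * t by group]
        abel
      rw [e]
      refine GP_add _ _ _ ?_ ?_
      · have h7 := a2 w _ (hn w m t hm) hφ'
        by_cases hw : w ≤ j
        · rw [show j + 1 - w = (j - w) + 1 by omega] at h7
          exact ih (j - w) (by omega) _ h7
        · rw [show j + 1 - w = 0 by omega] at h7
          rw [GP_zero_iff h7, map_zero, sub_zero]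
          exact GP_zero' _
      · refine GP_Rt hn m _ _ ?_
        have h8 := a2 (w + 1) _ (hL w m t hm) (by rw [map_mul, map_inv, hφ, hφ', inv_one, mul_one])
        rw [show j + 1 - (w + 1) = j - w by omega] at h8
        exact h8

/-- elements lowering the level -/
def Low (V : Type) [AddCommGroup V] [Module ℚ V] (φ : N →* Multiplicative ℤ) (t : N)
    (L : ℕ → Subgroup N) (hn : ∀ w m n, m ∈ L w → n⁻¹ * m * n ∈ L w) : Subgroup N where
  carrier := {n | ∀ j (f : N → V), GP φ t L (j + 1) f → GP φ t L j (Rt n f - f)}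
  one_mem' := by
    intro j f _
    rw [Rt_one, sub_self]; exact GP_zero' _
  mul_mem' := by
    intro a b ha hb j f hf
    have e : Rt (a * b) f - f = Rt a (Rt b f - f) + (Rt a f - f) := by
      rw [map_sub, Rt_mul]; abel
    rw [e]
    exact GP_add _ _ _ (GP_Rt hn a _ _ (hb j f hf)) (ha j f hf)
  inv_mem' := by
    intro a ha j f hf
    have e : Rt a⁻¹ f - f = (-1 : ℚ) • Rt a⁻¹ (Rt a f - f) := by
      rw [map_sub, ← Rt_mul, inv_mul_cancel, Rt_one, neg_one_smul]; abel
    rw [e]
    exact GP_smul _ _ _ (GP_Rt hn _ _ _ (ha j f hf))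

theorem Low_top (hn : ∀ w m n, m ∈ L w → n⁻¹ * m * n ∈ L w) (h0 : L 0 = ⊤)
    (hL : ∀ w m n, m ∈ L w → m⁻¹ * (n⁻¹ * m * n) ∈ L (w + 1))
    (ht : φ t = Multiplicative.ofAdd 1) (n : N) : n ∈ Low V φ t L hn := by
  have htm : t ∈ Low V φ t L hn := GP_t hn h0 hL
  have hM : ∀ m, φ m = 1 → m ∈ Low V φ t L hn := by
    intro m hm j f hf
    exact (GP_inv hf).2 0 m (by rw [h0]; trivial) hm
  have e : n = t ^ (φ n).toAdd * ((t ^ (φ n).toAdd)⁻¹ * n) := by group
  rw [e]
  refine Subgroup.mul_mem _ (Subgroup.zpow_mem _ htm _) (hM _ ?_)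
  rw [map_mul, map_inv, map_zpow, ht, ← ofAdd_zsmul, smul_eq_mul, mul_one, ofAdd_toAdd,
    inv_mul_cancel]

theorem step_det (c : ℕ) (hn : ∀ w m n, m ∈ L w → n⁻¹ * m * n ∈ L w) (h0 : L 0 = ⊤)
    (hc : ∀ w, c ≤ w → L w = ⊥)
    (hL : ∀ w m n, m ∈ L w → m⁻¹ * (n⁻¹ * m * n) ∈ L (w + 1))
    (ht : φ t = Multiplicative.ofAdd 1) (g : N) (hg : g ∈ φ.ker) (h : Det φ.ker ⟨g, hg⟩) :
    Det N g := by
  obtain ⟨V, _, _, F, k, ρ, hF, hF0, hFk, hρ, hdet⟩ := h
  have hmem : ∀ x : N, (t ^ (φ x).toAdd)⁻¹ * x ∈ φ.ker := by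
    intro x
    rw [MonoidHom.mem_ker, map_mul, map_inv, map_zpow, ht, ← ofAdd_zsmul, smul_eq_mul, mul_one,
      ofAdd_toAdd, inv_mul_cancel]
  let fv : V → N → V := fun v x => ρ ⟨_, hmem x⟩ v
  have hfv1 : ∀ v x, fv v (t * x) = fv v x := by
    intro v x
    show ρ ⟨_, hmem (t * x)⟩ v = ρ ⟨_, hmem x⟩ v
    congr 2
    apply Subtype.ext
    show (t ^ (φ (t * x)).toAdd)⁻¹ * (t * x) = (t ^ (φ x).toAdd)⁻¹ * x
    rw [map_mul, ht, toAdd_mul, toAdd_ofAdd, zpow_add, zpow_one]
    group
  have hfv2 : ∀ v x m (hm : φ m = 1), fv v (x * m) = fv (ρ ⟨m, hm⟩ v) x := by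
    intro v x m hm
    show ρ ⟨_, hmem (x * m)⟩ v = ρ ⟨_, hmem x⟩ (ρ ⟨m, hm⟩ v)
    rw [← Module.End.mul_apply, ← map_mul]
    congr 2
    apply Subtype.ext
    show (t ^ (φ (x * m)).toAdd)⁻¹ * (x * m) = (t ^ (φ x).toAdd)⁻¹ * x * m
    rw [map_mul, hm, mul_one, mul_assoc]
  have hsub : ∀ v v' : V, ∀ x, fv v x - fv v' x = fv (v - v') x := fun v v' x => (map_sub _ _ _).symm
  have hGP : ∀ d i v, i + d = k → v ∈ F i → GP φ t L ((c + 1) * d) (fv v) := by
    intro d
    induction d with
    | zero =>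
      intro i v hi hv
      rw [add_zero] at hi
      rw [hi, hFk, Submodule.mem_bot] at hv
      have : fv v = 0 := by
        ext x
        show ρ ⟨_, hmem x⟩ v = 0
        rw [hv, map_zero]
      rw [this]
      exact GP_zero' _
    | succ d ih =>
      intro i v hi hv
      rw [show (c + 1) * (d + 1) = ((c + 1) * d + c) + 1 by ring]
      refine GP.succ _ _ (hfv1 v) fun w m hm hφ => ?_
      have e : Rt m (fv v) - fv v = fv (ρ ⟨m, hφ⟩ v - v) := by
        ext x
        show fv v (x * m) - fv v x = _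
        rw [hfv2 v x m hφ, hsub]
      rw [e]
      by_cases hw : c ≤ w
      · rw [hc w hw, Subgroup.mem_bot] at hm
        subst hm
        have : (⟨1, hφ⟩ : φ.ker) = 1 := rfl
        have e2 : fv (ρ ⟨1, hφ⟩ v - v) = 0 := by
          ext x
          show ρ ⟨_, hmem x⟩ (ρ ⟨1, hφ⟩ v - v) = 0
          rw [this, map_one, Module.End.one_apply, sub_self, map_zero]
        rw [e2]
        exact GP_zero' _
      · exact GP_mono (by omega) _ (ih (i + 1) _ (by omega) (hρ _ _ _ hv))
  let K := (c + 1) * k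
  let Y := SG V φ t L K
  let F' : ℕ → Submodule ℚ Y := fun i => (SG V φ t L (K - i)).comap Y.subtype
  let ρ' : N →* Module.End ℚ Y :=
    { toFun := fun n => (Rt n : Module.End ℚ (N → V)).restrict (fun f hf => GP_Rt hn n _ _ hf)
      map_one' := by ext f x; exact congrFun (Rt_one f.1) x
      map_mul' := fun a b => by ext f x; exact congrFun (Rt_mul a b f.1) x }
  refine ⟨Y, inferInstance, inferInstance, F', K, ρ', ?_, ?_, ?_, ?_, ?_⟩
  · intro i j hij f hf
    exact GP_mono (by omega) _ hf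
  · rw [eq_top_iff]
    intro f _
    exact f.2
  · rw [eq_bot_iff]
    intro f hf
    have hf' : GP φ t L (K - K) f.1 := hf
    rw [Nat.sub_self] at hf'
    rw [Submodule.mem_bot]
    exact Subtype.ext (GP_zero_iff hf')
  · intro n i f hf
    have hf' : GP φ t L (K - i) f.1 := hf
    show GP φ t L (K - (i + 1)) (Rt n f.1 - f.1)
    by_cases hi : i < K
    · rw [show K - i = (K - (i + 1)) + 1 by omega] at hf'
      exact Low_top hn h0 hL ht n _ _ hf'
    · rw [show K - i = 0 by omega] at hf'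
      rw [GP_zero_iff hf', map_zero, sub_zero]
      exact GP_zero' _
  · intro hcon
    apply hdet
    ext v
    have hv : GP φ t L K (fv v) := hGP k 0 v (by omega) (by rw [hF0]; trivial)
    have h1 : (ρ' g ⟨fv v, hv⟩).1 1 = fv v 1 := by rw [hcon]; rfl
    have h2 : fv v (1 * g) = fv v 1 := h1
    rw [hfv2 v 1 g hg] at h2
    have h3 : ∀ u, fv u 1 = u := by
      intro u
      show ρ ⟨_, hmem 1⟩ u = u
      have : (⟨_, hmem 1⟩ : φ.ker) = 1 := by
        apply Subtype.ext
        show (t ^ (φ 1).toAdd)⁻¹ * 1 = 1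
        rw [map_one, toAdd_one, zpow_zero, inv_one, one_mul]
      rw [this, map_one]; rfl
    rw [h3, h3] at h2
    exact h2

end step
end Pool.Agent.H4.WZ
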