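import Pool.Agent.H4.WZ4

set_option autoImplicit false

namespace Pool.Agent.H4.WZ

theorem nilL (H : Type) [Group H] (hH : Group.IsNilpotent H) : ∃ (L : ℕ → Subgroup H) (c : ℕ),
    L 0 = ⊤ ∧ (∀ w, c ≤ w → L w = ⊥) ∧ (∀ w m n, m ∈ L w → n⁻¹ * m * n ∈ L w) ∧
      (∀ w m n, m ∈ L w → m⁻¹ * (n⁻¹ * m * n) ∈ L (w + 1)) := by
  obtain ⟨c, hc⟩ := hH.nilpotent'
  have hn : ∀ w m n, m ∈ Subgroup.upperCentralSeries H w → n⁻¹ * m * n ∈ Subgroup.upperCentralSeries H w := by
    intro w m n hm
    have := (inferInstance : (Subgroup.upperCentralSeries H w).Normal).conj_mem m hm n⁻¹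
    rwa [inv_inv] at this
  refine ⟨fun w => Subgroup.upperCentralSeries H (c - w), c, by simpa using hc, ?_, ?_, ?_⟩
  · intro w hw
    show Subgroup.upperCentralSeries H (c - w) = ⊥
    rw [show c - w = 0 by omega]
    exact Subgroup.upperCentralSeries_zero H
  · intro w m n hm
    exact hn _ m n hm
  · intro w m n hm
    have hm : m ∈ Subgroup.upperCentralSeries H (c - w) := hm
    show m⁻¹ * (n⁻¹ * m * n) ∈ Subgroup.upperCentralSeries H (c - (w + 1))
    by_cases hw : c - w = 0
    · rw [hw, Subgroup.upperCentralSeries_zero, Subgroup.mem_bot] at hm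
      subst hm
      rw [show (1 : H)⁻¹ * (n⁻¹ * 1 * n) = 1 by group]
      exact Subgroup.one_mem _
    · rw [show c - w = (c - (w + 1)) + 1 by omega] at hm
      have := (Subgroup.mem_upperCentralSeries_succ_iff.1 (Subgroup.inv_mem _ hm)) n⁻¹
      convert this using 1
      group

/-- iterated commutators -/
def it {N : Type} [Group N] (t : N) : ℕ → N → N
  | 0, m => m
  | l + 1, m => (it t l m)⁻¹ * (t⁻¹ * it t l m * t)

theorem fg_ker {N : Type} [Group N] (hN : Group.IsNilpotent N) (hfg : Group.FG N)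
    (φ : N →* Multiplicative ℤ) (t : N) (ht : φ t = Multiplicative.ofAdd 1) : Group.FG φ.ker := by
  classical
  obtain ⟨L, c, h0, hc, hn, hL⟩ := nilL N hN
  obtain ⟨S, hS⟩ := (Group.fg_def.1 hfg)
  let y : ℕ → N → N := fun l s => it t l ((t ^ (φ s).toAdd)⁻¹ * s)
  have hyL : ∀ l s, y l s ∈ L l := by
    intro l s
    induction l with
    | zero => rw [h0]; trivial
    | succ l ih => exact hL _ _ _ ih
  have hy1 : ∀ l s, c ≤ l → y l s = 1 := by
    intro l s hl
    have := hyL l s
    rwa [hc l hl, Subgroup.mem_bot] at this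
  have hys : ∀ l s, t⁻¹ * y l s * t = y l s * y (l + 1) s := by
    intro l s
    show _ = y l s * ((y l s)⁻¹ * (t⁻¹ * y l s * t))
    group
  let T : Finset N := (Finset.range (c + 1) ×ˢ S).image (fun p => y p.1 p.2)
  let Dd : Subgroup N := Subgroup.closure (T : Set N)
  have hyD : ∀ l s, s ∈ S → y l s ∈ Dd := by
    intro l s hs
    by_cases hl : c ≤ l
    · rw [hy1 l s hl]; exact Subgroup.one_mem _
    · refine Subgroup.subset_closure ?_
      rw [Finset.mem_coe, Finset.mem_image]
      exact ⟨(l, s), by rw [Finset.mem_product, Finset.mem_range]; exact ⟨by simp only; omega, hs⟩, rfl⟩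
  have hback : ∀ d l s, s ∈ S → l + d = c → t * y l s * t⁻¹ ∈ Dd := by
    intro d
    induction d with
    | zero =>
      intro l s _ hl
      rw [hy1 l s (by omega)]
      rw [show t * 1 * t⁻¹ = 1 by group]
      exact Subgroup.one_mem _
    | succ d ih =>
      intro l s hs hl
      have h1 := ih (l + 1) s hs (by omega)
      have h2 : y (l + 1) s = (y l s)⁻¹ * (t⁻¹ * y l s * t) := rfl
      have e : t * y l s * t⁻¹ = y l s * (t * y (l + 1) s * t⁻¹)⁻¹ := by
        rw [h2]; group
      rw [e]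
      exact Subgroup.mul_mem _ (hyD l s hs) (Subgroup.inv_mem _ h1)
  have hc1 : ∀ d ∈ Dd, t * d * t⁻¹ ∈ Dd := by
    intro d hd
    have : Dd ≤ Dd.comap (MulAut.conj t).toMonoidHom := by
      rw [Subgroup.closure_le]
      intro z hz
      rw [Finset.mem_coe, Finset.mem_image] at hz
      obtain ⟨⟨l, s⟩, hp, rfl⟩ := hz
      rw [Finset.mem_product, Finset.mem_range] at hp
      show t * y l s * t⁻¹ ∈ Dd
      exact hback (c - l) l s hp.2 (by have := hp.1; simp only at this; omega)
    exact this hd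
  have hc2 : ∀ d ∈ Dd, t⁻¹ * d * t ∈ Dd := by
    intro d hd
    have : Dd ≤ Dd.comap (MulAut.conj t⁻¹).toMonoidHom := by
      rw [Subgroup.closure_le]
      intro z hz
      rw [Finset.mem_coe, Finset.mem_image] at hz
      obtain ⟨⟨l, s⟩, hp, rfl⟩ := hz
      rw [Finset.mem_product, Finset.mem_range] at hp
      show t⁻¹ * y l s * t⁻¹⁻¹ ∈ Dd
      rw [inv_inv, hys]
      exact Subgroup.mul_mem _ (hyD _ _ hp.2) (hyD _ _ hp.2)
    have h := this hd
    have h' : t⁻¹ * d * t⁻¹⁻¹ ∈ Dd := h
    rwa [inv_inv] at h'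
  have htn : ∀ a : ℤ, ∀ d ∈ Dd, t ^ a * d * (t ^ a)⁻¹ ∈ Dd := by
    intro a
    induction a using Int.induction_on with
    | zero => intro d hd; simpa using hd
    | succ a ih =>
      intro d hd
      have := hc1 _ (ih d hd)
      convert this using 1
      rw [add_comm, zpow_add, zpow_one]
      group
    | pred a ih =>
      intro d hd
      have := hc2 _ (ih d hd)
      convert this using 1
      group
  let Q : Subgroup N :=
    { carrier := {n | (t ^ (φ n).toAdd)⁻¹ * n ∈ Dd}
      one_mem' := by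
        show (t ^ (φ 1).toAdd)⁻¹ * 1 ∈ Dd
        rw [map_one, toAdd_one, zpow_zero, inv_one, one_mul]
        exact Subgroup.one_mem _
      mul_mem' := by
        intro a b ha hb
        have ha' : (t ^ (φ a).toAdd)⁻¹ * a ∈ Dd := ha
        have hb' : (t ^ (φ b).toAdd)⁻¹ * b ∈ Dd := hb
        show (t ^ (φ (a * b)).toAdd)⁻¹ * (a * b) ∈ Dd
        have h1 := htn (-(φ b).toAdd) _ ha'
        have e : (t ^ (φ (a * b)).toAdd)⁻¹ * (a * b) = (t ^ (-(φ b).toAdd) *
            ((t ^ (φ a).toAdd)⁻¹ * a) * (t ^ (-(φ b).toAdd))⁻¹) * ((t ^ (φ b).toAdd)⁻¹ * b) := by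
          rw [map_mul, toAdd_mul]
          group
        rw [e]
        exact Subgroup.mul_mem _ h1 hb'
      inv_mem' := by
        intro a ha
        have ha' : (t ^ (φ a).toAdd)⁻¹ * a ∈ Dd := ha
        show (t ^ (φ a⁻¹).toAdd)⁻¹ * a⁻¹ ∈ Dd
        have h1 := htn ((φ a).toAdd) _ (Subgroup.inv_mem _ ha')
        have e : (t ^ (φ a⁻¹).toAdd)⁻¹ * a⁻¹ = t ^ (φ a).toAdd *
            ((t ^ (φ a).toAdd)⁻¹ * a)⁻¹ * (t ^ (φ a).toAdd)⁻¹ := by
          rw [map_inv, toAdd_inv]
          group
        rw [e]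
        exact h1 }
  have hQ : ∀ n, n ∈ Q := by
    intro n
    have : Subgroup.closure (S : Set N) ≤ Q := by
      rw [Subgroup.closure_le]
      intro s hs
      exact hyD 0 s hs
    rw [hS] at this
    exact this trivial
  rw [Group.fg_iff_subgroup_fg]
  refine ⟨T, le_antisymm ?_ ?_⟩
  · rw [Subgroup.closure_le]
    intro z hz
    rw [Finset.mem_coe, Finset.mem_image] at hz
    obtain ⟨⟨l, s⟩, _, rfl⟩ := hz
    have : ∀ l, φ (y l s) = 1 := by
      intro l
      induction l with
      | zero =>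
        show φ ((t ^ (φ s).toAdd)⁻¹ * s) = 1
        rw [map_mul, map_inv, map_zpow, ht, ← ofAdd_zsmul, smul_eq_mul, mul_one, ofAdd_toAdd,
          inv_mul_cancel]
      | succ l ih =>
        show φ ((y l s)⁻¹ * (t⁻¹ * y l s * t)) = 1
        rw [map_mul, map_inv, map_mul, map_mul, map_inv, ih, inv_one, mul_one, one_mul,
          inv_mul_cancel]
    exact this l
  · intro n hn'
    have h1 : (t ^ (φ n).toAdd)⁻¹ * n ∈ Dd := hQ n
    rw [MonoidHom.mem_ker] at hn'
    rw [hn', toAdd_one, zpow_zero, inv_one, one_mul] at h1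
    exact h1

theorem Det_comap {H H' : Type} [Group H] [Group H'] (χ : H' →* H) (g : H') (h : Det H (χ g)) :
    Det H' g := by
  obtain ⟨V, i1, i2, F, k, ρ, hF, hF0, hFk, hρ, hdet⟩ := h
  exact ⟨V, i1, i2, F, k, ρ.comp χ, hF, hF0, hFk, fun g i v hv => hρ _ i v hv, hdet⟩

theorem Qr (r : ℕ) : ∀ (H K : Type) [Group H] [Group K], Group.IsNilpotent H → Group.FG H →
    ∀ (ι : K →* H) (θ : H →* Multiplicative (Fin r → ℤ)), Function.Injective ι →
      Function.Surjective θ → (∀ x, θ x = 1 ↔ x ∈ ι.range) →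
      Group.FG K ∧ ∀ g : K, Det K g → Det H (ι g) := by
  induction r with
  | zero =>
    intro H K _ _ hnil hfg ι θ hinj _ hker
    have hsurj : Function.Surjective ι := by
      intro x
      exact (hker x).1 (Multiplicative.toAdd.injective (Subsingleton.elim _ _))
    let e : K ≃* H := MulEquiv.ofBijective ι ⟨hinj, hsurj⟩
    refine ⟨Group.fg_of_surjective (f := e.symm.toMonoidHom) e.symm.surjective, fun g hg => ?_⟩
    refine Det_comap e.symm.toMonoidHom (ι g) ?_
    have : e.symm.toMonoidHom (ι g) = g := e.symm_apply_apply g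
    rw [this]
    exact hg
  | succ r ih =>
    intro H K _ _ hnil hfg ι θ hinj hsur hker
    let φ : H →* Multiplicative ℤ :=
      { toFun := fun n => Multiplicative.ofAdd ((θ n).toAdd 0)
        map_one' := by rw [map_one]; rfl
        map_mul' := fun a b => by rw [map_mul]; rfl }
    obtain ⟨t, ht⟩ := hsur (Multiplicative.ofAdd (fun _ => 1))
    have ht' : φ t = Multiplicative.ofAdd 1 := by
      show Multiplicative.ofAdd ((θ t).toAdd 0) = _
      rw [ht]; rfl
    have hfg' := fg_ker hnil hfg φ t ht'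
    let ι' : K →* φ.ker := ι.codRestrict φ.ker (fun k => by
      rw [MonoidHom.mem_ker]
      show Multiplicative.ofAdd ((θ (ι k)).toAdd 0) = 1
      rw [(hker (ι k)).2 ⟨k, rfl⟩]; rfl)
    let θ' : φ.ker →* Multiplicative (Fin r → ℤ) :=
      { toFun := fun n => Multiplicative.ofAdd (fun i => (θ n.1).toAdd i.succ)
        map_one' := by rw [Subgroup.coe_one, map_one]; rfl
        map_mul' := fun a b => by rw [Subgroup.coe_mul, map_mul]; rfl }
    have hnil' : Group.IsNilpotent φ.ker := inferInstance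
    obtain ⟨h1, h2⟩ := ih φ.ker K hnil' hfg' ι' θ' (fun a b hab => hinj (congrArg Subtype.val hab))
      (by
        intro v
        obtain ⟨x, hx⟩ := hsur (Multiplicative.ofAdd (Fin.cons 0 v.toAdd))
        refine ⟨⟨x, ?_⟩, ?_⟩
        · rw [MonoidHom.mem_ker]
          show Multiplicative.ofAdd ((θ x).toAdd 0) = 1
          rw [hx]; rfl
        · show Multiplicative.ofAdd (fun i : Fin r => (θ x).toAdd i.succ) = v
          rw [hx]
          rfl)
      (by
        intro x
        constructor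
        · intro hx
          have : θ x.1 = 1 := by
            apply Multiplicative.toAdd.injective
            funext i
            refine Fin.cases ?_ (fun i => ?_) i
            · exact congrArg Multiplicative.toAdd (MonoidHom.mem_ker.1 x.2)
            · exact congrFun (congrArg Multiplicative.toAdd hx) i
          obtain ⟨k, hk⟩ := (hker x.1).1 this
          exact ⟨k, Subtype.ext hk⟩
        · rintro ⟨k, rfl⟩
          show Multiplicative.ofAdd (fun i : Fin r => (θ (ι k)).toAdd i.succ) = 1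
          rw [(hker (ι k)).2 ⟨k, rfl⟩]; rfl)
    refine ⟨h1, fun g hg => ?_⟩
    obtain ⟨L, c, h0, hc, hn, hL⟩ := nilL H hnil
    exact step_det c hn h0 hc hL ht' (ι g) (ι' g).2 (h2 g hg)

end Pool.Agent.H4.WZ
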