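import Pool.Agent.H4.WZ5

set_option autoImplicit false

namespace Pool.Agent.H4.WZ

theorem Det_int (m : Multiplicative ℤ) (hm : m ≠ 1) : Det (Multiplicative ℤ) m := by
  let ρ : Multiplicative ℤ →* Module.End ℚ (ℚ × ℚ) :=
    { toFun := fun m =>
        { toFun := fun v => (v.1 + (m.toAdd : ℚ) * v.2, v.2)
          map_add' := fun v w => by ext <;> simp; ring
          map_smul' := fun r v => by ext <;> simp; ring }
      map_one' := by ext <;> simp
      map_mul' := fun a b => by ext <;> simp [Module.End.mul_apply]; try ring }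
  let F : ℕ → Submodule ℚ (ℚ × ℚ) := fun i =>
    if i = 0 then ⊤ else if i = 1 then LinearMap.ker (LinearMap.snd ℚ ℚ ℚ) else ⊥
  refine ⟨ℚ × ℚ, inferInstance, inferInstance, F, 2, ρ, ?_, by simp [F], by simp [F], ?_, ?_⟩
  · intro i j hij
    by_cases h0 : i = 0
    · simp [F, h0]
    · by_cases h1 : i = 1
      · by_cases h2 : j = 1
        · rw [h1, h2]
        · have : j ≠ 0 := by omega
          simp [F, this, h2]
      · have h2 : j ≠ 0 := by omega
        have h3 : j ≠ 1 := by omega
        simp [F, h2, h3]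
  · intro g i v hv
    have e : ρ g v - v = ((g.toAdd : ℚ) * v.2, 0) := by
      ext
      · show v.1 + (g.toAdd : ℚ) * v.2 - v.1 = _
        ring
      · show v.2 - v.2 = 0
        ring
    rw [e]
    by_cases h0 : i = 0
    · simp [F, h0]
    · by_cases h1 : i = 1
      · have : v.2 = 0 := by
          have hv' := hv
          simp only [F, h1, one_ne_zero, if_false, if_true, LinearMap.mem_ker] at hv'
          exact hv'
        rw [this, mul_zero]
        exact Submodule.zero_mem _
      · have hv' := hv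
        simp only [F, h0, h1, if_false, Submodule.mem_bot] at hv'
        rw [hv']
        have e0 : ((g.toAdd : ℚ) * (0 : ℚ × ℚ).2, (0 : ℚ)) = 0 := by ext <;> simp
        rw [e0]
        exact Submodule.zero_mem _
  · intro hcon
    apply hm
    have h1 : (ρ m (0, 1)).1 = 0 := by rw [hcon]; rfl
    have h2 : (0 : ℚ) + (m.toAdd : ℚ) * 1 = 0 := h1
    rw [zero_add, mul_one, Int.cast_eq_zero] at h2
    exact Multiplicative.toAdd.injective h2

theorem tf_quot (H : Type) [Group H] (hfg : Group.FG H) (K : Subgroup H) [K.Normal]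
    (hcomm : ∀ x y : H, x * y * x⁻¹ * y⁻¹ ∈ K) (hiso : ∀ (x : H) (k : ℕ), 0 < k → x ^ k ∈ K → x ∈ K) :
    ∃ (r : ℕ) (θ : H →* Multiplicative (Fin r → ℤ)), Function.Surjective θ ∧
      ∀ x, θ x = 1 ↔ x ∈ K := by
  letI : CommGroup (H ⧸ K) :=
    { (inferInstance : Group (H ⧸ K)) with
      mul_comm := by
        intro a b
        induction a using QuotientGroup.induction_on with
        | H x =>
          induction b using QuotientGroup.induction_on with
          | H y =>
            rw [← QuotientGroup.mk_mul, ← QuotientGroup.mk_mul, QuotientGroup.eq]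
            have := hcomm y⁻¹ x⁻¹
            convert this using 1
            group }
  haveI : Group.FG (H ⧸ K) := Group.fg_of_surjective (f := QuotientGroup.mk' K) (QuotientGroup.mk'_surjective K)
  haveI : AddGroup.FG (Additive (H ⧸ K)) := inferInstance
  haveI : Module.Finite ℤ (Additive (H ⧸ K)) := Module.Finite.iff_addGroup_fg.2 inferInstance
  haveI : Module.IsTorsionFree ℤ (Additive (H ⧸ K)) := by
    refine ⟨fun r hr x y hxy => ?_⟩
    have hr0 : r ≠ 0 := hr.ne_zero
    have hxy' : r • x = r • y := hxy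
    have h1 : r • (x - y) = 0 := by rw [smul_sub, hxy', sub_self]
    have h2 : r.natAbs • (x - y) = 0 := by
      rcases Int.natAbs_eq r with h | h
      · rw [h, natCast_zsmul] at h1; exact h1
      · rw [h, neg_smul, natCast_zsmul, neg_eq_zero] at h1; exact h1
    obtain ⟨z, hz⟩ : ∃ z : H, x - y = Additive.ofMul (QuotientGroup.mk z : H ⧸ K) := by
      obtain ⟨z, hz⟩ := QuotientGroup.mk_surjective ((x - y).toMul)
      exact ⟨z, by rw [hz]; rfl⟩
    rw [hz, ← ofMul_pow, ofMul_eq_zero, ← QuotientGroup.mk_pow, QuotientGroup.eq_one_iff] at h2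
    have h3 := hiso z _ (by omega) h2
    have h4 : x - y = 0 := by
      rw [hz, ofMul_eq_zero, QuotientGroup.eq_one_iff]; exact h3
    exact sub_eq_zero.1 h4
  haveI : Module.Free ℤ (Additive (H ⧸ K)) := inferInstance
  let b := Module.finBasis ℤ (Additive (H ⧸ K))
  refine ⟨_, { toFun := fun x => Multiplicative.ofAdd (b.equivFun (Additive.ofMul (QuotientGroup.mk x : H ⧸ K))),
               map_one' := ?_, map_mul' := ?_ }, ?_, ?_⟩
  · rw [QuotientGroup.mk_one, ofMul_one, map_zero]; rfl
  · intro x y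
    rw [QuotientGroup.mk_mul, ofMul_mul, map_add]; rfl
  · intro v
    obtain ⟨z, hz⟩ := b.equivFun.surjective v.toAdd
    obtain ⟨x, hx⟩ := QuotientGroup.mk_surjective (z.toMul)
    refine ⟨x, ?_⟩
    show Multiplicative.ofAdd (b.equivFun (Additive.ofMul (QuotientGroup.mk x : H ⧸ K))) = v
    rw [hx, ofMul_toMul, hz]; rfl
  · intro x
    show Multiplicative.ofAdd (b.equivFun (Additive.ofMul (QuotientGroup.mk x : H ⧸ K))) = 1 ↔ _
    rw [ofAdd_eq_one, LinearEquiv.map_eq_zero_iff, ofMul_eq_zero, QuotientGroup.eq_one_iff]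

theorem Z_comm {N : Type} [Group N] (i : ℕ) (x g : N)
    (hx : x ∈ Subgroup.upperCentralSeries N (i + 1)) :
    x * g * x⁻¹ * g⁻¹ ∈ Subgroup.upperCentralSeries N i :=
  Subgroup.mem_upperCentralSeries_succ_iff.1 hx g

theorem Z_iso {N : Type} [Group N] (htf : ∀ g : N, g ≠ 1 → ∀ k : ℕ, 0 < k → g ^ k ≠ 1) :
    ∀ (i : ℕ) (x : N) (k : ℕ), 0 < k → x ∈ Subgroup.upperCentralSeries N (i + 1) →
      x ^ k ∈ Subgroup.upperCentralSeries N i → x ∈ Subgroup.upperCentralSeries N i := by
  intro i
  induction i with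
  | zero =>
    intro x k hk _ hxk
    rw [Subgroup.upperCentralSeries_zero, Subgroup.mem_bot] at hxk ⊢
    by_contra hne
    exact htf x hne k hk hxk
  | succ i ih =>
    intro x k hk hx hxk
    rw [Subgroup.mem_upperCentralSeries_succ_iff]
    intro g
    show x * g * x⁻¹ * g⁻¹ ∈ Subgroup.upperCentralSeries N i
    have hc := Z_comm (i + 1) x g hx
    refine ih _ k hk hc ?_
    let q : N →* N ⧸ Subgroup.upperCentralSeries N i := QuotientGroup.mk' _
    have hcen : ∀ y : N, q (x * g * x⁻¹ * g⁻¹) * q y = q y * q (x * g * x⁻¹ * g⁻¹) := by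
      intro y
      have h1 := Z_comm i _ y hc
      have h2 : q ((x * g * x⁻¹ * g⁻¹) * y * (x * g * x⁻¹ * g⁻¹)⁻¹ * y⁻¹) = 1 :=
        (QuotientGroup.eq_one_iff _).2 h1
      rw [map_mul, map_mul, map_mul, map_inv, map_inv] at h2
      exact mul_inv_eq_iff_eq_mul.1 (mul_inv_eq_one.1 h2)
    have hxg : q x * q g = q (x * g * x⁻¹ * g⁻¹) * q g * q x := by
      rw [← map_mul, ← map_mul, ← map_mul]
      congr 1
      group
    have hk2 : ∀ n : ℕ, q x ^ n * q g = q (x * g * x⁻¹ * g⁻¹) ^ n * q g * q x ^ n := by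
      intro n
      induction n with
      | zero => simp
      | succ n ihn =>
        have hcx := hcen x
        have hcn : q x ^ n * q (x * g * x⁻¹ * g⁻¹) = q (x * g * x⁻¹ * g⁻¹) * q x ^ n := by
          exact ((show Commute (q x) (q (x * g * x⁻¹ * g⁻¹)) from hcx.symm).pow_left n).eq
        rw [pow_succ, mul_assoc, hxg, ← mul_assoc, ← mul_assoc, hcn, mul_assoc _ (q x ^ n) (q g), ihn,
          pow_succ' (q (x * g * x⁻¹ * g⁻¹))]
        simp only [mul_assoc]
    have h3 : q x ^ k * q g = q g * q x ^ k := by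
      have h1 := Z_comm i _ g hxk
      have h2 : q (x ^ k * g * (x ^ k)⁻¹ * g⁻¹) = 1 := (QuotientGroup.eq_one_iff _).2 h1
      rw [map_mul, map_mul, map_mul, map_inv, map_inv, map_pow] at h2
      exact mul_inv_eq_iff_eq_mul.1 (mul_inv_eq_one.1 h2)
    have h4 := hk2 k
    rw [h3, mul_assoc] at h4
    have h5 : q (x * g * x⁻¹ * g⁻¹) ^ k = 1 := by
      have := mul_right_cancel (b := q g * q x ^ k) (a := 1) (c := q (x * g * x⁻¹ * g⁻¹) ^ k)
        (by rw [one_mul]; exact h4)
      exact this.symm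
    rw [← map_pow] at h5
    exact (QuotientGroup.eq_one_iff _).1 h5

theorem chain {N : Type} [Group N] (hN : Group.IsNilpotent N) (hfg : Group.FG N)
    (htf : ∀ g : N, g ≠ 1 → ∀ k : ℕ, 0 < k → g ^ k ≠ 1) (c : ℕ)
    (hc : Subgroup.upperCentralSeries N c = ⊤) : ∀ d i, i + d = c →
      Group.FG (Subgroup.upperCentralSeries N i) ∧
        ∀ g : Subgroup.upperCentralSeries N i, Det (Subgroup.upperCentralSeries N i) g → Det N g.1 := by
  intro d
  induction d with
  | zero =>
    intro i hi
    have hi' : i = c := by omega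
    subst hi'
    refine ⟨?_, fun g hg => ?_⟩
    · rw [Group.fg_iff_subgroup_fg, hc, ← Group.fg_def]; exact hfg
    · let χ : N →* Subgroup.upperCentralSeries N i :=
        (MonoidHom.id N).codRestrict _ (fun x => by rw [hc]; trivial)
      exact Det_comap χ g.1 hg
  | succ d ih =>
    intro i hi
    obtain ⟨h1, h2⟩ := ih (i + 1) (by omega)
    have hle : Subgroup.upperCentralSeries N i ≤ Subgroup.upperCentralSeries N (i + 1) :=
      Subgroup.upperCentralSeries_mono N (Nat.le_succ i)
    obtain ⟨r, θ, hs, hk⟩ := tf_quot (Subgroup.upperCentralSeries N (i + 1)) h1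
      ((Subgroup.upperCentralSeries N i).subgroupOf (Subgroup.upperCentralSeries N (i + 1)))
      (fun x y => Z_comm i x.1 y.1 x.2) (fun x k hk hx => Z_iso htf i x.1 k hk x.2 hx)
    obtain ⟨h3, h4⟩ := Qr r (Subgroup.upperCentralSeries N (i + 1)) (Subgroup.upperCentralSeries N i)
      inferInstance h1 (Subgroup.inclusion hle) θ (Subgroup.inclusion_injective hle) hs (by
        intro x
        rw [hk]
        constructor
        · intro hx; exact ⟨⟨x.1, hx⟩, rfl⟩
        · rintro ⟨y, rfl⟩; exact y.2)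
    exact ⟨h3, fun g hg => h2 _ (h4 g hg)⟩

theorem residual {N : Type} [Group N] (hN : Group.IsNilpotent N) (hfg : Group.FG N)
    (htf : ∀ g : N, g ≠ 1 → ∀ k : ℕ, 0 < k → g ^ k ≠ 1) (g : N) (hg : g ≠ 1) : Det N g := by
  classical
  obtain ⟨c, hc⟩ := hN.nilpotent'
  have hex : ∃ i, g ∈ Subgroup.upperCentralSeries N i := ⟨c, by rw [hc]; trivial⟩
  obtain ⟨i, hi⟩ : ∃ i, Nat.find hex = i + 1 := by
    cases h : Nat.find hex with
    | zero =>
      have := Nat.find_spec hex
      rw [h, Subgroup.upperCentralSeries_zero, Subgroup.mem_bot] at this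
      exact absurd this hg
    | succ i => exact ⟨i, rfl⟩
  have hg1 : g ∈ Subgroup.upperCentralSeries N (i + 1) := by rw [← hi]; exact Nat.find_spec hex
  have hg2 : g ∉ Subgroup.upperCentralSeries N i := Nat.find_min hex (by omega)
  have hic : i + 1 ≤ c := by rw [← hi]; exact Nat.find_min' hex (by rw [hc]; trivial)
  obtain ⟨h1, h2⟩ := chain hN hfg htf c hc (c - (i + 1)) (i + 1) (by omega)
  obtain ⟨r, θ, hs, hk⟩ := tf_quot (Subgroup.upperCentralSeries N (i + 1)) h1
    ((Subgroup.upperCentralSeries N i).subgroupOf (Subgroup.upperCentralSeries N (i + 1)))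
    (fun x y => Z_comm i x.1 y.1 x.2) (fun x k hk hx => Z_iso htf i x.1 k hk x.2 hx)
  have hθ : θ ⟨g, hg1⟩ ≠ 1 := fun h => hg2 ((hk _).1 h)
  obtain ⟨a, ha⟩ : ∃ a : Fin r, (θ ⟨g, hg1⟩).toAdd a ≠ 0 := by
    by_contra hcon
    push Not at hcon
    exact hθ (Multiplicative.toAdd.injective (funext hcon))
  let χ : Subgroup.upperCentralSeries N (i + 1) →* Multiplicative ℤ :=
    { toFun := fun n => Multiplicative.ofAdd ((θ n).toAdd a)
      map_one' := by rw [map_one]; rfl
      map_mul' := fun a b => by rw [map_mul]; rfl }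
  refine h2 ⟨g, hg1⟩ (Det_comap χ _ (Det_int _ ?_))
  intro h
  exact ha (congrArg Multiplicative.toAdd h)

end Pool.Agent.H4.WZ
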