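import Pool.Agent.H4.WZ6
import Pool.Agent.H4.WZ3

set_option autoImplicit false

namespace Pool.Agent.H4.WZ

section
variable {G V : Type} [Group G] [AddCommGroup V] [Module ℚ V]

/-- elements moving by level i -/
def GF (F : ℕ → Submodule ℚ V) (ρ : G →* Module.End ℚ V) (hF : Antitone F)
    (hρ : ∀ (g : G) (i : ℕ) (v : V), v ∈ F i → ρ g v - v ∈ F (i + 1)) (i : ℕ) : Subgroup G where
  carrier := {g | ∀ j v, v ∈ F j → ρ g v - v ∈ F (j + i)}
  one_mem' := by
    intro j v _
    rw [map_one, Module.End.one_apply, sub_self]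
    exact Submodule.zero_mem _
  mul_mem' := by
    intro a b ha hb j v hv
    have h1 := hb j v hv
    have h2 := hF (Nat.le_succ (j + i)) (hρ a _ _ h1)
    have h3 := ha j v hv
    have := Submodule.add_mem _ (Submodule.add_mem _ h2 h1) h3
    convert this using 1
    rw [map_mul, Module.End.mul_apply, map_sub]
    abel
  inv_mem' := by
    intro a ha j v hv
    have h1 := ha j v hv
    have h2 := hF (Nat.le_succ (j + i)) (hρ a⁻¹ _ _ h1)
    have := Submodule.neg_mem _ (Submodule.add_mem _ h2 h1)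
    convert this using 1
    rw [map_sub, ← Module.End.mul_apply, ← map_mul, inv_mul_cancel, map_one, Module.End.one_apply]
    abel

theorem GF_bot (F : ℕ → Submodule ℚ V) (ρ : G →* Module.End ℚ V) (hF : Antitone F)
    (hρ : ∀ (g : G) (i : ℕ) (v : V), v ∈ F i → ρ g v - v ∈ F (i + 1)) (c : ℕ) (h0 : F 0 = ⊤)
    (hc : F c = ⊥) (hinj : Function.Injective ρ) (g : G) (hg : g ∈ GF F ρ hF hρ (c + 1)) : g = 1 := by
  apply hinj
  rw [map_one]
  ext v
  have h1 := hg 0 v (by rw [h0]; trivial)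
  have h2 := hF (show c ≤ 0 + (c + 1) by omega) h1
  rw [hc, Submodule.mem_bot] at h2
  exact sub_eq_zero.1 h2

end

theorem Unip_nil {G : Type} [Group G] (h : Unip G) : Group.IsNilpotent G := by
  obtain ⟨V, _, _, F, c, ρ, hF, h0, hc, hinj, hρ⟩ := h
  rw [Subgroup.nilpotent_iff_finite_descending_central_series]
  refine ⟨c, fun n => GF F ρ hF hρ (n + 1), ⟨?_, ?_⟩, ?_⟩
  · rw [eq_top_iff]
    intro g _ j v hv
    exact hρ g j v hv
  · intro x n hx g
    show x * g * x⁻¹ * g⁻¹ ∈ GF F ρ hF hρ (n + 1 + 1)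
    intro j v hv
    have hu : ρ (x⁻¹ * g⁻¹) v ∈ F j := by
      have h1 := hF (Nat.le_succ j) (hρ (x⁻¹ * g⁻¹) j v hv)
      have := Submodule.add_mem _ h1 hv
      rwa [sub_add_cancel] at this
    set u := ρ (x⁻¹ * g⁻¹) v with hudef
    have hv2 : v = ρ g (ρ x u) := by
      rw [hudef, ← Module.End.mul_apply, ← Module.End.mul_apply, ← map_mul, ← map_mul,
        show g * x * (x⁻¹ * g⁻¹) = 1 by group, map_one]; rfl
    have hv3 : ρ (x * g * x⁻¹ * g⁻¹) v = ρ x (ρ g u) := by
      rw [hudef, ← Module.End.mul_apply, ← Module.End.mul_apply, ← map_mul, ← map_mul,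
        show x * g * (x⁻¹ * g⁻¹) = x * g * x⁻¹ * g⁻¹ by group]
    have ha : ρ x u - u ∈ F (j + (n + 1)) := hx j u hu
    have hb : ρ g u - u ∈ F (j + 1) := hρ g j u hu
    have h1 : ρ x (ρ g u - u) - (ρ g u - u) ∈ F (j + 1 + (n + 1)) := hx _ _ hb
    have h2 : ρ g (ρ x u - u) - (ρ x u - u) ∈ F (j + (n + 1) + 1) := hρ g _ _ ha
    rw [show j + 1 + (n + 1) = j + (n + 1 + 1) by ring] at h1
    rw [show j + (n + 1) + 1 = j + (n + 1 + 1) by ring] at h2
    have := Submodule.sub_mem _ h1 h2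
    convert this using 1
    rw [hv3]
    conv_lhs => rw [hv2]
    rw [map_sub, map_sub]
    abel
  · rw [eq_bot_iff]
    intro g hg
    rw [Subgroup.mem_bot]
    exact GF_bot F ρ hF hρ c h0 hc hinj g hg

theorem Unip_tf {G : Type} [Group G] (h : Unip G) : ∀ g : G, g ≠ 1 → ∀ k : ℕ, 0 < k → g ^ k ≠ 1 := by
  obtain ⟨V, _, _, F, c, ρ, hF, h0, hc, hinj, hρ⟩ := h
  intro g hg k hk hgk
  apply hg
  have key : ∀ i, g ∈ GF F ρ hF hρ (i + 1) := by
    intro i
    induction i with
    | zero => intro j v hv; exact hρ g j v hv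
    | succ i ih =>
      intro j v hv
      have hz : ρ g v - v ∈ F (j + (i + 1)) := ih j v hv
      have hn : ∀ n : ℕ, ρ (g ^ n) v - v - (n : ℚ) • (ρ g v - v) ∈ F (j + (i + 1 + 1)) := by
        intro n
        induction n with
        | zero => simp
        | succ n ihn =>
          have h1 : ρ (g ^ n) (ρ g v - v) - (ρ g v - v) ∈ F (j + (i + 1) + 1) := hρ (g ^ n) _ _ hz
          rw [show j + (i + 1) + 1 = j + (i + 1 + 1) by ring] at h1
          have := Submodule.add_mem _ ihn h1
          convert this using 1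
          rw [pow_succ, map_mul, Module.End.mul_apply, map_sub]
          push_cast
          rw [add_smul, one_smul]
          abel
      have h2 := hn k
      rw [hgk, map_one, Module.End.one_apply, sub_self, zero_sub] at h2
      have h3 := Submodule.smul_mem _ (-(k : ℚ)⁻¹) h2
      have hk0 : (k : ℚ) ≠ 0 := by exact_mod_cast hk.ne'
      rw [smul_neg, neg_smul, neg_neg, smul_smul, inv_mul_cancel₀ hk0, one_smul] at h3
      exact h3
  exact GF_bot F ρ hF hρ c h0 hc hinj g (key c)

theorem Det_unip {N : Type} [Group N] {g : N} (h : Det N g) :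
    ∃ (U : Type) (_ : Group U) (χ : N →* U), Unip U ∧ χ g ≠ 1 := by
  obtain ⟨V, _, _, F, k, ρ, hF, hF0, hFk, hρ, hdet⟩ := h
  let χ : N →* US F hF := ρ.toHomUnits.codRestrict (US F hF) (fun n => by
    refine ⟨fun i v hv => hρ n i v hv, fun i v hv => ?_⟩
    rw [← map_inv]
    exact hρ n⁻¹ i v hv)
  refine ⟨US F hF, inferInstance, χ, US_unip F hF k hF0 hFk, fun hcon => hdet ?_⟩
  have h1 : ρ.toHomUnits g = 1 := congrArg Subtype.val hcon
  exact congrArg Units.val h1

theorem QI_nil (n : ℕ) (ps : List (FreeGroup (Fin n))) (w : FreeGroup (Fin n)) (hq : QI n ps w)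
    (N : Type) [Group N] (hN : Group.IsNilpotent N)
    (htf : ∀ g : N, g ≠ 1 → ∀ k : ℕ, 0 < k → g ^ k ≠ 1) : Sat n ps w N := by
  intro f hf
  by_contra hne
  have hfg : Group.FG f.range := Group.fg_of_surjective (f := f.rangeRestrict) f.rangeRestrict_surjective
  have hg : f.rangeRestrict w ≠ 1 := fun h => hne (congrArg Subtype.val h)
  have hdet := residual (N := f.range) inferInstance hfg (fun g hg k hk h => by
    refine htf g.1 (fun h' => hg (Subtype.ext h')) k hk ?_
    exact congrArg Subtype.val h) _ hg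
  obtain ⟨U, _, χ, hU, hχ⟩ := Det_unip hdet
  refine hχ (hq U hU (χ.comp f.rangeRestrict) fun p hp => ?_)
  have : f.rangeRestrict p = 1 := Subtype.ext (hf p hp)
  rw [MonoidHom.comp_apply, this, map_one]

end Pool.Agent.H4.WZ
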