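import Pool.Agent.H4.WZ0

set_option autoImplicit false

namespace Pool.Agent.H4.WZ

/-- torsion-free nilpotent groups -/
def TFN (N : Type) [Group N] : Prop :=
  Group.IsNilpotent N ∧ ∀ g : N, g ≠ 1 → ∀ k : ℕ, 0 < k → g ^ k ≠ 1

/-- membership in the quasivariety generated by the torsion-free nilpotent groups -/
def InQN (G : Type) [Group G] : Prop :=
  ∀ (n : ℕ) (ps : List (FreeGroup (Fin n))) (w : FreeGroup (Fin n)),
    (∀ (N : Type) [Group N], TFN N → Sat n ps w N) → Sat n ps w G

end Pool.Agent.H4.WZ
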